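import Pool.Agent.Helper42.OF.LDefs

/-!
# OFL-L01: canonical pointwise values

`pt_congr`: for n large the ball of radius 1/(n+1) is inside U, the averages are equal (`MeasureTheory.setAverage_congr_fun`/`setIntegral_congr_ae`), so the two sequences are eventually equal and `limUnder` (a function of
`Filter.map`) is the same. `pt_eq`: pt_congr with g, and the averages of a function continuous at p converge to g p (|average - g p| ≤ sup |g - g p| on a small ball; the balls have finite positive measure), `Tendsto.limUnder_eq`.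
`pt_shift`: translation invariance of volume and `ball (p+a) r = a + ball p r`.
`ext_row`: floor (x+1) = floor x + 1, `α ^ (n+1) = α ^ n * α`, floor y = 0. `ext_col`: 0 ≤ x < 1: floor x = 0.
`pv_glue`: near (x+1,y), 0<y<1, `ext .. s (q + (1,0)) = ext .. (α s) q`; pt_congr on the open strip and pt_shift.
`cross_chart`: if 0<p.2<1 take n = ⌊p.1⌋, σ = α^n s, a = (-n,0): `f s (x,y) = f (α^n s) (x-n,y)` for 0<y<1 (induction on n : ℤ, both directions), p + a ∈ [0,1)×(0,1) ⊆ Rc. Otherwise 0<p.1<1: n = ⌊p.2⌋, σ = β^n s, a = (0,-n), p+a ∈ Kc.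
-/

set_option autoImplicit false

open MeasureTheory Filter Topology

namespace Pool.Agent.Helper96.OF

theorem pt_congr {f g : ℝ × ℝ → ℂ} {p : ℝ × ℝ} {U : Set (ℝ × ℝ)} (hU : IsOpen U) (hp : p ∈ U)
    (h : ∀ᵐ q ∂(volume.restrict U), f q = g q) : pt f p = pt g p := by
  unfold pt limUnder
  congr 1
  apply Filter.map_congr
  obtain ⟨δ, hδ, hb⟩ := Metric.isOpen_iff.1 hU p hp
  have h1 : ∀ᶠ n : ℕ in atTop, 1 / ((n : ℝ) + 1) < δ :=
    (tendsto_one_div_add_atTop_nhds_zero_nat (𝕜 := ℝ)).eventually (gt_mem_nhds hδ)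
  filter_upwards [h1] with n hn
  apply average_congr
  exact ae_restrict_of_ae_restrict_of_subset ((Metric.ball_subset_ball hn.le).trans hb) h

private theorem pt_cont {g : ℝ × ℝ → ℂ} {p : ℝ × ℝ} {U : Set (ℝ × ℝ)} (hU : IsOpen U) (hp : p ∈ U)
    (hg : ContinuousOn g U) : pt g p = g p := by
  unfold pt
  apply Tendsto.limUnder_eq
  rw [Metric.tendsto_atTop]
  intro ε hε
  have hc := hg.continuousAt (hU.mem_nhds hp)
  obtain ⟨δ1, hδ1, h1⟩ := Metric.continuousAt_iff.1 hc (ε / 2) (by positivity)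
  obtain ⟨δ2, hδ2, h2⟩ := Metric.isOpen_iff.1 hU p hp
  have h3 : ∀ᶠ n : ℕ in atTop, 1 / ((n : ℝ) + 1) < min δ1 δ2 :=
    (tendsto_one_div_add_atTop_nhds_zero_nat (𝕜 := ℝ)).eventually (gt_mem_nhds (lt_min hδ1 hδ2))
  obtain ⟨N, hN⟩ := eventually_atTop.1 h3
  refine ⟨N, fun n hn => ?_⟩
  have h4 := hN n hn
  set r : ℝ := 1 / ((n : ℝ) + 1) with hr
  have hr0 : 0 < r := by positivity
  have hsub : Metric.ball p r ⊆ U := (Metric.ball_subset_ball (h4.le.trans (min_le_right _ _))).trans h2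
  have hfin : volume (Metric.ball p r) ≠ ⊤ := measure_ball_lt_top.ne
  have hpos : volume (Metric.ball p r) ≠ 0 := (Metric.measure_ball_pos volume p hr0).ne'
  have hb : ∀ q ∈ Metric.ball p r, g q ∈ Metric.closedBall (g p) (ε / 2) := by
    intro q hq
    exact (h1 (lt_of_lt_of_le hq (h4.le.trans (min_le_left _ _)))).le
  have hint : IntegrableOn g (Metric.ball p r) := by
    refine IntegrableOn.of_bound hfin.lt_top
      ((hg.mono hsub).aestronglyMeasurable measurableSet_ball) (‖g p‖ + ε / 2) ?_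
    rw [ae_restrict_iff' measurableSet_ball]
    refine Eventually.of_forall fun q hq => ?_
    have h5 := hb q hq
    rw [mem_closedBall_iff_norm] at h5
    calc ‖g q‖ = ‖(g q - g p) + g p‖ := by rw [sub_add_cancel]
      _ ≤ ‖g q - g p‖ + ‖g p‖ := norm_add_le _ _
      _ ≤ ‖g p‖ + ε / 2 := by linarith
  have h6 : (⨍ q in Metric.ball p r, g q) ∈ Metric.closedBall (g p) (ε / 2) := by
    refine (convex_closedBall (g p) (ε / 2)).set_average_mem Metric.isClosed_closedBall hpos hfin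
      ?_ hint
    rw [ae_restrict_iff' measurableSet_ball]
    exact Eventually.of_forall hb
  exact lt_of_le_of_lt h6 (by linarith)

theorem pt_eq {f g : ℝ × ℝ → ℂ} {p : ℝ × ℝ} {U : Set (ℝ × ℝ)} (hU : IsOpen U) (hp : p ∈ U)
    (h : ∀ᵐ q ∂(volume.restrict U), f q = g q) (hg : ContinuousOn g U) : pt f p = g p := by
  rw [pt_congr hU hp h]
  exact pt_cont hU hp hg

theorem pt_shift (f : ℝ × ℝ → ℂ) (p a : ℝ × ℝ) : pt (fun q => f (q + a)) p = pt f (p + a) := by
  unfold pt limUnder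
  congr 1
  apply Filter.map_congr
  refine Eventually.of_forall fun n => ?_
  have h1 : (fun q : ℝ × ℝ => q + a) ⁻¹' Metric.ball (p + a) (1 / ((n : ℝ) + 1)) =
      Metric.ball p (1 / ((n : ℝ) + 1)) := by
    ext q
    simp only [Set.mem_preimage, Metric.mem_ball, dist_add_right]
  have hmp := measurePreserving_add_right (volume : Measure (ℝ × ℝ)) a
  have hemb := (MeasurableEquiv.addRight a : (ℝ × ℝ) ≃ᵐ (ℝ × ℝ)).measurableEmbedding
  have h2 := hmp.setIntegral_preimage_emb hemb f (Metric.ball (p + a) (1 / ((n : ℝ) + 1)))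
  have h3 := hmp.measure_preimage_emb hemb (Metric.ball (p + a) (1 / ((n : ℝ) + 1)))
  rw [h1] at h2 h3
  show (⨍ q in Metric.ball p (1 / ((n : ℝ) + 1)), f (q + a)) =
    ⨍ q in Metric.ball (p + a) (1 / ((n : ℝ) + 1)), f q
  rw [setAverage_eq, setAverage_eq, h2]
  congr 2
  rw [Measure.real, Measure.real, h3]

variable {X : Type} {α β : Equiv.Perm X}

theorem ext_sq (f : X → ℝ × ℝ → ℂ) (s : X) {p : ℝ × ℝ} (hp : p ∈ unitSq) :
    ext α β f s p = f s p := by
  obtain ⟨⟨h1, h2⟩, h3, h4⟩ := hp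
  have h5 : ⌊p.1⌋ = 0 := Int.floor_eq_zero_iff.2 ⟨h1.le, h2⟩
  have h6 : ⌊p.2⌋ = 0 := Int.floor_eq_zero_iff.2 ⟨h3.le, h4⟩
  have h7 : Int.fract p.1 = p.1 := Int.fract_eq_self.2 ⟨h1.le, h2⟩
  have h8 : Int.fract p.2 = p.2 := Int.fract_eq_self.2 ⟨h3.le, h4⟩
  unfold ext
  rw [h5, h6, h7, h8]
  simp

theorem ext_row (f : X → ℝ × ℝ → ℂ) (s : X) (x y : ℝ) (h0 : 0 ≤ y) (h1 : y < 1) :
    ext α β f s (x + 1, y) = ext α β f (α s) (x, y) := by
  have h5 : ⌊y⌋ = 0 := Int.floor_eq_zero_iff.2 ⟨h0, h1⟩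
  unfold ext
  simp only [h5, Int.floor_add_one, Int.fract_add_one, zpow_add_one, zpow_zero,
    Equiv.Perm.coe_one, id_eq, Equiv.Perm.mul_apply]

theorem ext_col (f : X → ℝ × ℝ → ℂ) (s : X) (x y : ℝ) (h0 : 0 ≤ x) (h1 : x < 1) :
    ext α β f s (x, y + 1) = ext α β f (β s) (x, y) := by
  have h5 : ⌊x⌋ = 0 := Int.floor_eq_zero_iff.2 ⟨h0, h1⟩
  unfold ext
  simp only [h5, Int.floor_add_one, Int.fract_add_one, zpow_add_one, zpow_zero,
    Equiv.Perm.coe_one, id_eq, Equiv.Perm.mul_apply]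

private theorem open_strip2 : IsOpen {q : ℝ × ℝ | 0 < q.2 ∧ q.2 < 1} :=
  (isOpen_lt continuous_const continuous_snd).inter (isOpen_lt continuous_snd continuous_const)

private theorem open_strip1 : IsOpen {q : ℝ × ℝ | 0 < q.1 ∧ q.1 < 1} :=
  (isOpen_lt continuous_const continuous_fst).inter (isOpen_lt continuous_fst continuous_const)

theorem pv_glue (f : Sq X → ℂ) : Glue α β (pv α β f) := by
  constructor
  · intro s x y h0 h1
    unfold pv
    have h2 : ((x + 1, y) : ℝ × ℝ) = (x, y) + (1, 0) := by simp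
    rw [h2, ← pt_shift]
    refine pt_congr open_strip2 ⟨h0, h1⟩ ?_
    rw [ae_restrict_iff' open_strip2.measurableSet]
    refine Eventually.of_forall fun q hq => ?_
    have h3 : q + (1, 0) = (q.1 + 1, q.2) := by
      ext
      · simp
      · simp
    rw [h3, ext_row _ _ _ _ hq.1.le hq.2]
  · intro s x y h0 h1
    unfold pv
    have h2 : ((x, y + 1) : ℝ × ℝ) = (x, y) + (0, 1) := by simp
    rw [h2, ← pt_shift]
    refine pt_congr open_strip1 ⟨h0, h1⟩ ?_
    rw [ae_restrict_iff' open_strip1.measurableSet]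
    refine Eventually.of_forall fun q hq => ?_
    have h3 : q + (0, 1) = (q.1, q.2 + 1) := by
      ext
      · simp
      · simp
    rw [h3, ext_col _ _ _ _ hq.1.le hq.2]

theorem pv_eq {f : Sq X → ℂ} {s : X} {U : Set (ℝ × ℝ)} (hU : IsOpen U) {g : ℝ × ℝ → ℂ}
    (h : ∀ᵐ q ∂(volume.restrict U), ext α β (fun s p => f (s, p)) s q = g q)
    (hg : ContinuousOn g U) {p : ℝ × ℝ} (hp : p ∈ U) : pv α β f s p = g p :=
  pt_eq hU hp h hg

private theorem glue_row {E : Type} {f : X → ℝ × ℝ → E} (h : Glue α β f) (n : ℤ) :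
    ∀ (s : X) (x y : ℝ), 0 < y → y < 1 → f s (x, y) = f ((α ^ n) s) (x - n, y) := by
  induction n using Int.induction_on with
  | zero => intro s x y _ _; simp
  | succ n ih =>
    intro s x y h0 h1
    rw [ih s x y h0 h1]
    have h2 := h.row ((α ^ (n : ℤ)) s) (x - ((n : ℤ) + 1 : ℤ)) y h0 h1
    have h3 : x - (((n : ℤ) + 1 : ℤ) : ℝ) + 1 = x - ((n : ℤ) : ℝ) := by push_cast; ring
    rw [h3] at h2
    rw [h2, ← Equiv.Perm.mul_apply, ← zpow_one_add, add_comm (1 : ℤ)]
  | pred n ih =>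
    intro s x y h0 h1
    rw [ih s x y h0 h1]
    have h2 := h.row ((α ^ (-(n : ℤ) - 1)) s) (x - (-(n : ℤ) : ℤ)) y h0 h1
    have h3 : x - ((-(n : ℤ) : ℤ) : ℝ) + 1 = x - ((-(n : ℤ) - 1 : ℤ) : ℝ) := by push_cast; ring
    rw [h3] at h2
    rw [h2, ← Equiv.Perm.mul_apply, ← zpow_one_add]
    congr 4
    ring

private theorem glue_col {E : Type} {f : X → ℝ × ℝ → E} (h : Glue α β f) (n : ℤ) :
    ∀ (s : X) (x y : ℝ), 0 < x → x < 1 → f s (x, y) = f ((β ^ n) s) (x, y - n) := by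
  induction n using Int.induction_on with
  | zero => intro s x y _ _; simp
  | succ n ih =>
    intro s x y h0 h1
    rw [ih s x y h0 h1]
    have h2 := h.col ((β ^ (n : ℤ)) s) x (y - ((n : ℤ) + 1 : ℤ)) h0 h1
    have h3 : y - (((n : ℤ) + 1 : ℤ) : ℝ) + 1 = y - ((n : ℤ) : ℝ) := by push_cast; ring
    rw [h3] at h2
    rw [h2, ← Equiv.Perm.mul_apply, ← zpow_one_add, add_comm (1 : ℤ)]
  | pred n ih =>
    intro s x y h0 h1
    rw [ih s x y h0 h1]
    have h2 := h.col ((β ^ (-(n : ℤ) - 1)) s) x (y - (-(n : ℤ) : ℤ)) h0 h1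
    have h3 : y - ((-(n : ℤ) : ℤ) : ℝ) + 1 = y - ((-(n : ℤ) - 1 : ℤ) : ℝ) := by push_cast; ring
    rw [h3] at h2
    rw [h2, ← Equiv.Perm.mul_apply, ← zpow_one_add]
    congr 4
    ring

/-- reduction of local statements on Cross to the charts `Rc`, `Kc` -/
theorem cross_chart (α β : Equiv.Perm X) (s : X) {p : ℝ × ℝ} (hp : p ∈ Cross) :
    ∃ (σ : X) (a : ℝ × ℝ), (p + a ∈ Rc ∨ p + a ∈ Kc) ∧
      ∀ {E : Type} (f : X → ℝ × ℝ → E), Glue α β f → ∀ᶠ q in 𝓝 p, f s q = f σ (q + a) := by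
  rcases hp with hp | hp
  · refine ⟨(α ^ ⌊p.1⌋) s, (-(⌊p.1⌋ : ℝ), 0), Or.inl ?_, ?_⟩
    · constructor
      · have h1 := Int.floor_le p.1
        have h2 := Int.lt_floor_add_one p.1
        constructor
        · show -1 < p.1 + -(⌊p.1⌋ : ℝ)
          linarith
        · show p.1 + -(⌊p.1⌋ : ℝ) < 1
          linarith
      · constructor
        · show 0 < p.2 + 0
          linarith [hp.1]
        · show p.2 + 0 < 1
          linarith [hp.2]
    · intro E f hf
      filter_upwards [open_strip2.mem_nhds hp] with q hq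
      have h1 := glue_row hf ⌊p.1⌋ s q.1 q.2 hq.1 hq.2
      have h2 : q + (-(⌊p.1⌋ : ℝ), 0) = (q.1 - ⌊p.1⌋, q.2) := by
        ext
        · simp [sub_eq_add_neg]
        · simp
      rw [h2]
      exact h1
  · refine ⟨(β ^ ⌊p.2⌋) s, (0, -(⌊p.2⌋ : ℝ)), Or.inr ?_, ?_⟩
    · constructor
      · constructor
        · show 0 < p.1 + 0
          linarith [hp.1]
        · show p.1 + 0 < 1
          linarith [hp.2]
      · have h1 := Int.floor_le p.2
        have h2 := Int.lt_floor_add_one p.2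
        constructor
        · show -1 < p.2 + -(⌊p.2⌋ : ℝ)
          linarith
        · show p.2 + -(⌊p.2⌋ : ℝ) < 1
          linarith
    · intro E f hf
      filter_upwards [open_strip1.mem_nhds hp] with q hq
      have h1 := glue_col hf ⌊p.2⌋ s q.1 q.2 hq.1 hq.2
      have h2 : q + (0, -(⌊p.2⌋ : ℝ)) = (q.1, q.2 - ⌊p.2⌋) := by
        ext
        · simp
        · simp [sub_eq_add_neg]
      rw [h2]
      exact h1

end Pool.Agent.Helper96.OF
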