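import Pool.Agent.Helper42.OF.LDefs
import Pool.Agent.Helper96.OF.FT2

/-!
# OFL-L01b: slices of functions on the squares

`ae_mu_iff`: (⇒) a measurable null set containing the exceptional set has null slices for almost every s, i.e. every s (counting measure, `Measure.measure_ae_null_of_prod_null`, `Measure.ae_count_iff` or count {s} = 1 ≠ 0).
(⇐) the exceptional set is the countable union of `{s} ×ˢ N_s`, `Measure.prod_prod`. (Possibly already proved privately in FT2; copy it.)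
`slice_int`: MemLp f 2 on mu restricts to the slices: FT2 `integrable_mu_iff` for `‖f‖²` (as complex function) and `unitSq` has finite measure (L² ⊂ L¹ on a finite measure space).
`starE_congr`, `starE_le`: integral_mu / slices; each of the 4k integrals is ≤ ∫ ‖f‖² dmu. `starE_sum`: for pairwise disjoint corners each square occurs at most 4k times in all the stars, so the stars energies are summable:
for a finite set I of indices `∑_{n∈I} starE (s n) ≤ 4 k ∫‖f‖²`: for fixed j<k and fixed corner position the map n ↦ σ = (γ ζ^j) (s n) is injective (γ = 1, α⁻¹, β⁻¹α⁻¹, β⁻¹; if γ ζ^j s_m = γ ζ^j s_n then s_m = s_n, m = n).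
-/

set_option autoImplicit false

open MeasureTheory Filter Topology

namespace Pool.Agent.Helper96.OF

variable {X : Type} [Countable X] [MeasurableSpace X] [DiscreteMeasurableSpace X] {α β : Equiv.Perm X}

private theorem l01b_meas : MeasurableSet unitSq := measurableSet_Ioo.prod measurableSet_Ioo

private theorem l01b_fin : IsFiniteMeasure ((volume : Measure (ℝ × ℝ)).restrict unitSq) := by
  refine isFiniteMeasure_restrict.2 ?_
  rw [unitSq, Measure.volume_eq_prod, Measure.prod_prod]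
  simp

theorem ae_mu_iff (P : Sq X → Prop) :
    (∀ᵐ q ∂(mu X), P q) ↔ ∀ s, ∀ᵐ p ∂(volume.restrict unitSq), P (s, p) := by
  constructor
  · intro h
    rw [mu] at h
    have h2 := Measure.ae_ae_of_ae_prod h
    rwa [Measure.ae_count_iff] at h2
  · intro h
    rw [ae_iff]
    have hsub : {q : Sq X | ¬ P q} ⊆ ⋃ s : X, ({s} : Set X) ×ˢ {p | ¬ P (s, p)} := by
      rintro ⟨s, p⟩ hq
      exact Set.mem_iUnion.2 ⟨s, rfl, hq⟩
    refine measure_mono_null hsub (measure_iUnion_null fun s => ?_)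
    rw [mu, Measure.prod_prod]
    have := h s
    rw [ae_iff] at this
    rw [this, mul_zero]

private theorem l01b_memLp {f : Sq X → ℂ} (hf : MemLp f 2 (mu X)) (s : X) :
    MemLp (fun p => f (s, p)) 2 (volume.restrict unitSq) := by
  have hm : AEStronglyMeasurable f (mu X) := hf.1
  have h1 : AEStronglyMeasurable (fun p => f (s, p)) (volume.restrict unitSq) := by
    rw [mu] at hm
    have := hm.prodMk_left
    rw [Measure.ae_count_iff] at this
    exact this s
  rw [memLp_two_iff_integrable_sq_norm h1]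
  have h2 : Integrable (fun x => ‖f x‖ ^ 2) (mu X) := (memLp_two_iff_integrable_sq_norm hm).1 hf
  rw [mu, integrable_prod_iff (by rw [← mu]; exact h2.1), Measure.ae_count_iff] at h2
  exact h2.1 s

theorem slice_int {f : Sq X → ℂ} (hf : MemLp f 2 (mu X)) (s : X) :
    IntegrableOn (fun p => f (s, p)) unitSq ∧ IntegrableOn (fun p => ‖f (s, p)‖ ^ 2) unitSq := by
  have h := l01b_memLp hf s
  haveI := l01b_fin
  exact ⟨h.integrable (by norm_num), (memLp_two_iff_integrable_sq_norm h.1).1 h⟩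

theorem slice_sum {f : Sq X → ℂ} (hf : MemLp f 2 (mu X)) :
    Summable (fun s => ∫ p in unitSq, ‖f (s, p)‖ ^ 2) ∧
      ∑' s, ∫ p in unitSq, ‖f (s, p)‖ ^ 2 = ∫ q, ‖f q‖ ^ 2 ∂(mu X) := by
  have h2 : Integrable (fun x => ‖f x‖ ^ 2) (mu X) := (memLp_two_iff_integrable_sq_norm hf.1).1 hf
  have hi : Integrable (fun s => ∫ p in unitSq, ‖f (s, p)‖ ^ 2) (Measure.count : Measure X) := by
    have h3 := h2
    rw [mu] at h3
    exact h3.integral_prod_left
  have hs : Summable (fun s => ∫ p in unitSq, ‖f (s, p)‖ ^ 2) := (integrable_count_iff.1 hi).of_norm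
  refine ⟨hs, ?_⟩
  have h1 : ∫ x, ‖f x‖ ^ 2 ∂(mu X) =
      ∫ s, (∫ p in unitSq, ‖f (s, p)‖ ^ 2) ∂(Measure.count : Measure X) := by
    rw [mu] at h2 ⊢
    exact integral_prod _ h2
  rw [h1, integral_countable hi]
  simp [Measure.real]

private theorem l01b_nn (f : Sq X → ℂ) (s : X) : 0 ≤ ∫ p in unitSq, ‖f (s, p)‖ ^ 2 :=
  integral_nonneg fun _ => by positivity

private theorem l01b_le {f : Sq X → ℂ} (hf : MemLp f 2 (mu X)) (s : X) :
    ∫ p in unitSq, ‖f (s, p)‖ ^ 2 ≤ ∫ q, ‖f q‖ ^ 2 ∂(mu X) := by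
  obtain ⟨h1, h2⟩ := slice_sum hf
  rw [← h2]
  exact h1.le_tsum s (fun t _ => l01b_nn f t)

theorem starE_congr {f g : Sq X → ℂ} (h : f =ᵐ[mu X] g) (s0 : X) (k : ℕ) :
    starE α β s0 k f = starE α β s0 k g := by
  have h1 : ∀ s, ∫ p in unitSq, ‖f (s, p)‖ ^ 2 = ∫ p in unitSq, ‖g (s, p)‖ ^ 2 := by
    intro s
    have h2 := (ae_mu_iff (fun q => f q = g q)).1 h s
    refine integral_congr_ae ?_
    filter_upwards [h2] with p hp
    rw [hp]
  unfold starE
  simp only [h1]

theorem starE_le {f : Sq X → ℂ} (hf : MemLp f 2 (mu X)) (s0 : X) (k : ℕ) :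
    0 ≤ starE α β s0 k f ∧ starE α β s0 k f ≤ 4 * k * ∫ q, ‖f q‖ ^ 2 ∂(mu X) := by
  constructor
  · unfold starE
    refine Finset.sum_nonneg fun j _ => ?_
    have a1 := l01b_nn f ((zeta α β ^ j) s0)
    have a2 := l01b_nn f (α⁻¹ ((zeta α β ^ j) s0))
    have a3 := l01b_nn f (β⁻¹ (α⁻¹ ((zeta α β ^ j) s0)))
    have a4 := l01b_nn f (β⁻¹ ((zeta α β ^ j) s0))
    linarith
  · unfold starE
    have : ∑ j ∈ Finset.range k, ((∫ p in unitSq, ‖f ((zeta α β ^ j) s0, p)‖ ^ 2) +
      (∫ p in unitSq, ‖f (α⁻¹ ((zeta α β ^ j) s0), p)‖ ^ 2) +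
      (∫ p in unitSq, ‖f (β⁻¹ (α⁻¹ ((zeta α β ^ j) s0)), p)‖ ^ 2) +
      ∫ p in unitSq, ‖f (β⁻¹ ((zeta α β ^ j) s0), p)‖ ^ 2) ≤
      ∑ _j ∈ Finset.range k, 4 * ∫ q, ‖f q‖ ^ 2 ∂(mu X) := by
      refine Finset.sum_le_sum fun j _ => ?_
      have a1 := l01b_le hf ((zeta α β ^ j) s0)
      have a2 := l01b_le hf (α⁻¹ ((zeta α β ^ j) s0))
      have a3 := l01b_le hf (β⁻¹ (α⁻¹ ((zeta α β ^ j) s0)))
      have a4 := l01b_le hf (β⁻¹ ((zeta α β ^ j) s0))
      linarith
    refine this.trans (le_of_eq ?_)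
    rw [Finset.sum_const, Finset.card_range, nsmul_eq_mul]
    ring

theorem starE_tendsto {f : Sq X → ℂ} (hf : MemLp f 2 (mu X)) (k : ℕ) (s : ℕ → X)
    (hs : Function.Injective s) :
    Tendsto (fun n => starE α β (s n) k f) atTop (𝓝 0) := by
  have key : ∀ γ : Equiv.Perm X,
      Tendsto (fun n => ∫ p in unitSq, ‖f (γ (s n), p)‖ ^ 2) atTop (𝓝 0) := by
    intro γ
    have h1 := (slice_sum hf).1.tendsto_cofinite_zero
    have h2 : Function.Injective (fun n => γ (s n)) := γ.injective.comp hs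
    have h3 := h1.comp h2.tendsto_cofinite
    rw [Nat.cofinite_eq_atTop] at h3
    exact h3
  unfold starE
  have h0 : (0 : ℝ) = ∑ _j ∈ Finset.range k, ((0 : ℝ) + 0 + 0 + 0) := by simp
  rw [h0]
  refine tendsto_finsetSum _ fun j _ => ?_
  exact (((key (zeta α β ^ j)).add (key (α⁻¹ * zeta α β ^ j))).add
    (key (β⁻¹ * (α⁻¹ * zeta α β ^ j)))).add (key (β⁻¹ * zeta α β ^ j))

end Pool.Agent.Helper96.OF
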