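import Pool.Agent.Helper42.OF.L01
import Pool.Agent.Helper96.OF.W1

/-!
# OFL-L02: the coordinate z_τ = x + τ y

Elementary. `image_zt`: zinv is the inverse of zt (τ ∈ HH). `cross_preconn`: Cross is the union of the convex sets {0<p.2<1} and {0<p.1<1}, which intersect; image under the continuous map zt τ (`IsPreconnected.image`, image_zt).
`rd_bound`: |y| = |im z|/im τ ≤ ‖z‖/im τ, |x| ≤ ‖z‖ (1 + ‖τ‖/im τ), rd τ = im τ/(3(1+im τ+‖τ‖)). `K_bounds`: continuity and compactness (`IsCompact.exists_isMinOn`, trivial if K is empty).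
`HolC.cont`: `h s p = (h s ∘ zinv τ) (zt τ p)`. `HolC.fderiv`: chain rule, `H := fun z => h s (zinv τ z)` is complex differentiable at zt τ p (open set), real derivative of H is multiplication by deriv H, composed with ztL τ.
`HolC.unit`: if h is continuous on Cross and q(·) vanishes a.e. on unitSq then everywhere (open set, continuous: `Measure.eqOn_open_of_ae_eq` or similar).
-/

set_option autoImplicit false

open MeasureTheory Filter Topology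
open scoped ComplexConjugate

namespace Pool.Agent.Helper96.OF

theorem zt_zinv {τ : ℂ} (hτ : τ ∈ HH) (z : ℂ) : zt τ (zinv τ z) = z := by
  have h : τ.im ≠ 0 := ne_of_gt hτ
  apply Complex.ext
  · simp [zt, zinv]
  · simp [zt, zinv]
    field_simp

theorem zinv_zt {τ : ℂ} (hτ : τ ∈ HH) (p : ℝ × ℝ) : zinv τ (zt τ p) = p := by
  have h : τ.im ≠ 0 := ne_of_gt hτ
  apply Prod.ext
  · simp [zt, zinv, h]
  · simp [zt, zinv, h]

theorem ztL_apply (τ : ℂ) (p : ℝ × ℝ) : ztL τ p = zt τ p := by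
  simp [ztL, zt]

theorem gradL_apply (τ c : ℂ) (p : ℝ × ℝ) : gradL τ c p = c * zt τ p + conj (c * zt τ p) := by
  simp [gradL, ztL_apply]

theorem gradC_apply (c δ : ℂ) : gradC c δ = c * δ + conj (c * δ) := by
  simp [gradC]

theorem zt_add (τ : ℂ) (p q : ℝ × ℝ) : zt τ (p + q) = zt τ p + zt τ q := by
  simp only [zt, Prod.fst_add, Prod.snd_add, Complex.ofReal_add]
  ring

theorem zinv_add (τ z z' : ℂ) : zinv τ (z + z') = zinv τ z + zinv τ z' := by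
  apply Prod.ext
  · simp only [zinv, Complex.add_re, Complex.add_im, Prod.fst_add]
    ring
  · simp only [zinv, Complex.add_im, Prod.snd_add]
    ring

theorem hasFDerivAt_zt (τ : ℂ) (p : ℝ × ℝ) : HasFDerivAt (zt τ) (ztL τ) p := by
  have h := (ztL τ).hasFDerivAt (x := p)
  refine h.congr_of_eventuallyEq (Eventually.of_forall fun q => ?_)
  exact (ztL_apply τ q).symm

theorem continuous_zinv (τ : ℂ) : Continuous (zinv τ) := by
  unfold zinv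
  fun_prop

theorem image_zt {τ : ℂ} (hτ : τ ∈ HH) (Ω : Set (ℝ × ℝ)) : zt τ '' Ω = {z | zinv τ z ∈ Ω} := by
  ext z
  constructor
  · rintro ⟨p, hp, rfl⟩
    show zinv τ (zt τ p) ∈ Ω
    rwa [zinv_zt hτ]
  · intro h
    exact ⟨zinv τ z, h, zt_zinv hτ z⟩

theorem isOpen_zinv (τ : ℂ) {Ω : Set (ℝ × ℝ)} (hΩ : IsOpen Ω) : IsOpen {z | zinv τ z ∈ Ω} :=
  hΩ.preimage (continuous_zinv τ)

theorem isOpen_cross : IsOpen Cross := by
  have h1 : IsOpen {p : ℝ × ℝ | 0 < p.2 ∧ p.2 < 1} :=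
    (isOpen_lt continuous_const continuous_snd).inter (isOpen_lt continuous_snd continuous_const)
  have h2 : IsOpen {p : ℝ × ℝ | 0 < p.1 ∧ p.1 < 1} :=
    (isOpen_lt continuous_const continuous_fst).inter (isOpen_lt continuous_fst continuous_const)
  exact h1.union h2

theorem isOpen_Rc : IsOpen Rc ∧ Rc ⊆ Cross :=
  ⟨isOpen_Ioo.prod isOpen_Ioo, fun _ hp => Or.inl hp.2⟩

theorem isOpen_Kc : IsOpen Kc ∧ Kc ⊆ Cross :=
  ⟨isOpen_Ioo.prod isOpen_Ioo, fun _ hp => Or.inr hp.1⟩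

theorem cross_preconn {τ : ℂ} (hτ : τ ∈ HH) : IsPreconnected {z | zinv τ z ∈ Cross} := by
  rw [← image_zt hτ]
  have hc : Continuous (zt τ) :=
    continuous_iff_continuousAt.2 fun p => (hasFDerivAt_zt τ p).continuousAt
  refine IsPreconnected.image ?_ _ hc.continuousOn
  have h1 : IsPreconnected {p : ℝ × ℝ | 0 < p.2 ∧ p.2 < 1} := by
    have h : {p : ℝ × ℝ | 0 < p.2 ∧ p.2 < 1} = Set.univ ×ˢ Set.Ioo (0 : ℝ) 1 := by
      ext p
      simp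
    rw [h]
    exact isPreconnected_univ.prod isPreconnected_Ioo
  have h2 : IsPreconnected {p : ℝ × ℝ | 0 < p.1 ∧ p.1 < 1} := by
    have h : {p : ℝ × ℝ | 0 < p.1 ∧ p.1 < 1} = Set.Ioo (0 : ℝ) 1 ×ˢ Set.univ := by
      ext p
      simp
    rw [h]
    exact isPreconnected_Ioo.prod isPreconnected_univ
  refine IsPreconnected.union ((1 / 2, 1 / 2) : ℝ × ℝ) ?_ ?_ h1 h2
  · constructor <;> norm_num
  · constructor <;> norm_num

theorem rd_pos {τ : ℂ} (hτ : τ ∈ HH) : 0 < rd τ := by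
  have h : 0 < τ.im := hτ
  unfold rd
  positivity

private theorem l02_snd {τ : ℂ} (hτ : τ ∈ HH) (z : ℂ) : |(zinv τ z).2| ≤ ‖z‖ / τ.im := by
  have h : 0 < τ.im := hτ
  change |z.im / τ.im| ≤ _
  rw [abs_div, abs_of_pos h]
  gcongr
  exact Complex.abs_im_le_norm z

private theorem l02_fst {τ : ℂ} (hτ : τ ∈ HH) (z : ℂ) :
    |(zinv τ z).1| ≤ ‖z‖ + ‖τ‖ * (‖z‖ / τ.im) := by
  have h : 0 < τ.im := hτ
  change |z.re - τ.re * (z.im / τ.im)| ≤ _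
  refine (abs_sub _ _).trans ?_
  refine add_le_add (Complex.abs_re_le_norm z) ?_
  rw [abs_mul]
  exact mul_le_mul (Complex.abs_re_le_norm τ) (l02_snd hτ z) (abs_nonneg _) (norm_nonneg _)

theorem rd_bound {τ : ℂ} (hτ : τ ∈ HH) {z : ℂ} (hz : ‖z‖ < rd τ) :
    |(zinv τ z).1| < 1 / 3 ∧ |(zinv τ z).2| < 1 / 3 := by
  have h : 0 < τ.im := hτ
  have h0 : 0 ≤ ‖τ‖ := norm_nonneg _
  have hD : 0 < 1 + τ.im + ‖τ‖ := by positivity
  have h1 : ‖z‖ / τ.im < 1 / (3 * (1 + τ.im + ‖τ‖)) := by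
    rw [div_lt_iff₀ h]
    refine hz.trans_eq ?_
    rw [rd]
    ring
  have h2 : 1 / (3 * (1 + τ.im + ‖τ‖)) * (1 + τ.im + ‖τ‖) = 1 / 3 := by
    field_simp
  have h3 : 0 < 1 / (3 * (1 + τ.im + ‖τ‖)) := by positivity
  have h4 : ‖z‖ / τ.im * (1 + τ.im + ‖τ‖) < 1 / 3 := by
    rw [← h2]
    exact mul_lt_mul_of_pos_right h1 hD
  have h5 : 0 ≤ ‖z‖ / τ.im := by positivity
  have h6 : ‖z‖ = ‖z‖ / τ.im * τ.im := by field_simp
  constructor
  · refine (l02_fst hτ z).trans_lt (lt_of_le_of_lt ?_ h4)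
    nlinarith
  · refine (l02_snd hτ z).trans_lt (lt_of_le_of_lt ?_ h4)
    have h7 : 0 ≤ ‖z‖ / τ.im * (τ.im + ‖τ‖) := by positivity
    nlinarith

theorem norm_zt_le (τ : ℂ) (p : ℝ × ℝ) : ‖zt τ p‖ ≤ (1 + ‖τ‖) * ‖p‖ := by
  have h1 : ‖(p.1 : ℂ)‖ ≤ ‖p‖ := by
    rw [Complex.norm_real]
    exact norm_fst_le p
  have h2 : ‖(p.2 : ℂ)‖ ≤ ‖p‖ := by
    rw [Complex.norm_real]
    exact norm_snd_le p
  calc ‖zt τ p‖ ≤ ‖(p.1 : ℂ)‖ + ‖τ * (p.2 : ℂ)‖ := norm_add_le _ _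
    _ = ‖(p.1 : ℂ)‖ + ‖τ‖ * ‖(p.2 : ℂ)‖ := by rw [norm_mul]
    _ ≤ ‖p‖ + ‖τ‖ * ‖p‖ := by gcongr
    _ = (1 + ‖τ‖) * ‖p‖ := by ring

theorem K_bounds (K : Set ℂ) (hK : IsCompact K) (hKH : K ⊆ HH) :
    ∃ c C : ℝ, 0 < c ∧ 0 < C ∧ ∀ τ ∈ K, c ≤ rd τ ∧ c ≤ τ.im ∧ ‖τ‖ ≤ C ∧ ∀ z, ‖zinv τ z‖ ≤ C * ‖z‖ := by
  rcases K.eq_empty_or_nonempty with rfl | hne
  · exact ⟨1, 1, one_pos, one_pos, fun τ h => absurd h (Set.notMem_empty τ)⟩
  obtain ⟨τ0, hτ0, hmin⟩ := hK.exists_isMinOn hne Complex.continuous_im.continuousOn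
  obtain ⟨τ1, hτ1, hmax⟩ := hK.exists_isMaxOn hne continuous_norm.continuousOn
  have hc0 : 0 < τ0.im := hKH hτ0
  have hC0 : 0 ≤ ‖τ1‖ := norm_nonneg _
  have hD : 0 < 3 * (1 + ‖τ1‖ + ‖τ1‖) := by positivity
  refine ⟨τ0.im / (3 * (1 + ‖τ1‖ + ‖τ1‖)), 1 + ‖τ1‖ / τ0.im + 1 / τ0.im + ‖τ1‖, by positivity,
    by positivity, fun τ hτ => ?_⟩
  have h1 : τ0.im ≤ τ.im := hmin hτ
  have h2 : ‖τ‖ ≤ ‖τ1‖ := hmax hτ
  have h3 : 0 < τ.im := hKH hτ
  have h4 : τ.im ≤ ‖τ‖ := (le_abs_self _).trans (Complex.abs_im_le_norm τ)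
  refine ⟨?_, ?_, ?_, fun z => ?_⟩
  · rw [rd]
    have h5 : 0 ≤ ‖τ‖ := norm_nonneg _
    gcongr
    exact h4.trans h2
  · refine (div_le_self hc0.le ?_).trans h1
    linarith
  · have h5 : 0 ≤ ‖τ1‖ / τ0.im + 1 / τ0.im := by positivity
    linarith
  · have h5 : ‖z‖ / τ.im ≤ ‖z‖ / τ0.im := by gcongr
    have h6 : 0 ≤ ‖z‖ := norm_nonneg _
    have h7 : 0 ≤ ‖z‖ / τ0.im := by positivity
    have h8 : ‖τ‖ * (‖z‖ / τ.im) ≤ ‖τ1‖ * (‖z‖ / τ0.im) := by gcongr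
    have h9 : (1 + ‖τ1‖ / τ0.im + 1 / τ0.im + ‖τ1‖) * ‖z‖ =
        ‖z‖ + ‖τ1‖ * (‖z‖ / τ0.im) + ‖z‖ / τ0.im + ‖τ1‖ * ‖z‖ := by ring
    have h10 : 0 ≤ ‖τ1‖ * ‖z‖ := by positivity
    have h11 : 0 ≤ ‖τ1‖ * (‖z‖ / τ0.im) := by positivity
    rw [Prod.norm_def, h9]
    refine max_le ?_ ?_
    · rw [Real.norm_eq_abs]
      exact (l02_fst (hKH hτ) z).trans (by linarith)
    · rw [Real.norm_eq_abs]
      exact (l02_snd (hKH hτ) z).trans (by linarith)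

variable {X : Type} {α β : Equiv.Perm X}

theorem HolC.cont {τ : ℂ} (hτ : τ ∈ HH) {h : X → ℝ × ℝ → ℂ} (hh : HolC α β τ h) (s : X) :
    ContinuousOn (h s) Cross := by
  have hc : Continuous (zt τ) :=
    continuous_iff_continuousAt.2 fun p => (hasFDerivAt_zt τ p).continuousAt
  have h1 : ContinuousOn (fun p => (fun z => h s (zinv τ z)) (zt τ p)) Cross := by
    refine (hh.hol s).continuousOn.comp hc.continuousOn fun p hp => ?_
    change zinv τ (zt τ p) ∈ Cross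
    rwa [zinv_zt hτ]
  refine h1.congr fun p _ => ?_
  change h s p = h s (zinv τ (zt τ p))
  rw [zinv_zt hτ]

theorem HolC.fderiv {τ : ℂ} (hτ : τ ∈ HH) {h : X → ℝ × ℝ → ℂ} (hh : HolC α β τ h) (s : X)
    {p : ℝ × ℝ} (hp : p ∈ Cross) :
    HasFDerivAt (h s) ((deriv (fun z => h s (zinv τ z)) (zt τ p)) • ztL τ) p := by
  have h1 : zt τ p ∈ {z | zinv τ z ∈ Cross} := by
    change zinv τ (zt τ p) ∈ Cross
    rwa [zinv_zt hτ]
  have h2 : DifferentiableAt ℂ (fun z => h s (zinv τ z)) (zt τ p) :=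
    (hh.hol s).differentiableAt ((isOpen_zinv τ isOpen_cross).mem_nhds h1)
  have h3 := h2.hasDerivAt.comp_hasFDerivAt p (hasFDerivAt_zt τ p)
  refine h3.congr_of_eventuallyEq (Eventually.of_forall fun q => ?_)
  change h s q = h s (zinv τ (zt τ q))
  rw [zinv_zt hτ]

/-- a.e. equality of continuous functions on an open set -/
theorem eq_of_ae {U : Set (ℝ × ℝ)} (hU : IsOpen U) {f g : ℝ × ℝ → ℂ} (hf : ContinuousOn f U)
    (hg : ContinuousOn g U) (h : ∀ᵐ p ∂(volume.restrict U), f p = g p) : ∀ p ∈ U, f p = g p :=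
  fun _ hp => Measure.eqOn_open_of_ae_eq h hU hf hg hp

end Pool.Agent.Helper96.OF
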