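import Pool.Agent.Helper42.OF.L01
import Pool.Agent.Helper42.OF.L01b
import Pool.Agent.Helper42.OF.L02
import Pool.Agent.Helper80.OF.RF1

/-!
# OFL-L03: test functions on the row chart and on the column chart
-/

set_option autoImplicit false

open MeasureTheory Filter Topology
open scoped ComplexConjugate

namespace Pool.Agent.Helper96.OF

open Classical in
/-- the lifted function on the unit squares -/
private noncomputable def bs {X : Type} (s σ : X) (a : ℝ × ℝ) (χ : ℝ × ℝ → ℂ) : X → ℝ × ℝ → ℂ :=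
  fun t p => (if t = s then (1 : ℂ) else 0) * χ p + (if t = σ then (1 : ℂ) else 0) * χ (p - a)

private theorem unitSq_meas : MeasurableSet unitSq := measurableSet_Ioo.prod measurableSet_Ioo

private theorem unitSq_open : IsOpen unitSq := isOpen_Ioo.prod isOpen_Ioo

private theorem mem_unitSq {p : ℝ × ℝ} : p ∈ unitSq ↔ (0 < p.1 ∧ p.1 < 1) ∧ 0 < p.2 ∧ p.2 < 1 := by
  rfl

/-! ### niceness of the row lift -/

section niceR
variable {X : Type} {α β : Equiv.Perm X} {χ : ℝ × ℝ → ℂ}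

private theorem supp_bound (hc : HasCompactSupport χ) (hs : tsupport χ ⊆ Rc) :
    ∃ η : ℝ, 0 < η ∧ η ≤ 1 / 2 ∧ ∀ x y : ℝ, (y < η ∨ 1 - η < y) → χ (x, y) = 0 := by
  obtain ⟨δ, hδ, hδ'⟩ := hc.isCompact.exists_cthickening_subset_open isOpen_Rc.1 hs
  refine ⟨min δ (1 / 2), lt_min hδ (by norm_num), min_le_right _ _, ?_⟩
  intro x y hy
  by_contra hne
  have hmem : (x, y) ∈ tsupport χ := subset_tsupport _ hne
  have h1 : (x, y - δ) ∈ Metric.cthickening δ (tsupport χ) := by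
    refine Metric.mem_cthickening_of_dist_le (x, y - δ) (x, y) δ _ hmem ?_
    rw [Prod.dist_eq]
    simp [Real.dist_eq, abs_of_pos hδ, hδ.le]
  have h2 : (x, y + δ) ∈ Metric.cthickening δ (tsupport χ) := by
    refine Metric.mem_cthickening_of_dist_le (x, y + δ) (x, y) δ _ hmem ?_
    rw [Prod.dist_eq]
    simp [Real.dist_eq, abs_of_pos hδ, hδ.le]
  have h3 := (hδ' h1).2
  have h4 := (hδ' h2).2
  simp only [Set.mem_Ioo] at h3 h4
  have h5 := min_le_left δ (1 / 2)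
  rcases hy with hy | hy
  · linarith [h3.1]
  · linarith [h4.2]

private theorem chi_zero (hs : tsupport χ ⊆ Rc) {p : ℝ × ℝ} (hp : p ∉ Rc) : χ p = 0 := by
  by_contra hne
  exact hp (hs (subset_tsupport _ hne))

private theorem ext_Rc_formula (hs : tsupport χ ⊆ Rc) (s t : X) (x y : ℝ) (hx : -1 < x) (hx' : x < 1)
    (hy : 0 < y) (hy' : y < 1) :
    ext α β (bs s (α⁻¹ s) (1, 0) χ) t (x, y) =
      (open Classical in (if α⁻¹ t = s then (1 : ℂ) else 0) * χ (x + 1, y) +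
      (if t = s then (1 : ℂ) else 0) * χ (x, y) + (if α t = s then (1 : ℂ) else 0) * χ (x - 1, y)) := by
  classical
  have hfy : ⌊y⌋ = 0 := Int.floor_eq_zero_iff.2 ⟨hy.le, hy'⟩
  have hfry : Int.fract y = y := Int.fract_eq_self.2 ⟨hy.le, hy'⟩
  by_cases h0 : 0 ≤ x
  · have hfx : ⌊x⌋ = 0 := Int.floor_eq_zero_iff.2 ⟨h0, hx'⟩
    have hfrx : Int.fract x = x := Int.fract_eq_self.2 ⟨h0, hx'⟩
    have hz : χ (x + 1, y) = 0 := chi_zero hs (by
      intro h
      have := h.1.2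
      simp only at this
      linarith)
    simp only [ext, bs, hfx, hfy, hfrx, hfry, zpow_zero, Equiv.Perm.coe_one, id_eq, Prod.mk_sub_mk,
      sub_zero, hz, mul_zero, zero_add]
    have : (t = α⁻¹ s) ↔ (α t = s) := by
      rw [Equiv.Perm.eq_inv_iff_eq]
    simp only [this]
  · push Not at h0
    have hfx : ⌊x⌋ = -1 := by
      rw [Int.floor_eq_iff]
      constructor
      · push_cast; linarith
      · push_cast; linarith
    have hfrx : Int.fract x = x + 1 := by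
      rw [Int.fract, hfx]; push_cast; ring
    have hz : χ (x - 1, y) = 0 := chi_zero hs (by
      intro h
      have := h.1.1
      simp only at this
      linarith)
    simp only [ext, bs, hfx, hfy, hfrx, hfry, zpow_zero, Equiv.Perm.coe_one, id_eq, Prod.mk_sub_mk,
      sub_zero, hz, mul_zero, add_zero, zpow_neg_one, add_sub_cancel_right]
    have : (α⁻¹ t = α⁻¹ s) ↔ (t = s) := by
      rw [EmbeddingLike.apply_eq_iff_eq]
    simp only [this]

private theorem ext_Kc_formula (hs : tsupport χ ⊆ Rc) (s t : X) (x y : ℝ) (hx : 0 < x) (hx' : x < 1)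
    (hy : -1 < y) (hy' : y < 1) :
    ext α β (bs s (α⁻¹ s) (1, 0) χ) t (x, y) =
      bs s (α⁻¹ s) (1, 0) χ (β⁻¹ t) (x, y + 1) + bs s (α⁻¹ s) (1, 0) χ t (x, y) := by
  classical
  have hfx : ⌊x⌋ = 0 := Int.floor_eq_zero_iff.2 ⟨hx.le, hx'⟩
  have hfrx : Int.fract x = x := Int.fract_eq_self.2 ⟨hx.le, hx'⟩
  have hzero : ∀ x y : ℝ, (y ≤ 0 ∨ 1 ≤ y) → χ (x, y) = 0 := by
    intro x y h
    refine chi_zero hs ?_
    intro h'
    have h1 := h'.2.1
    have h2 := h'.2.2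
    simp only at h1 h2
    rcases h with h | h <;> linarith
  by_cases h0 : 0 ≤ y
  · have hfy : ⌊y⌋ = 0 := Int.floor_eq_zero_iff.2 ⟨h0, hy'⟩
    have hfry : Int.fract y = y := Int.fract_eq_self.2 ⟨h0, hy'⟩
    have hz : bs s (α⁻¹ s) (1, 0) χ (β⁻¹ t) (x, y + 1) = 0 := by
      simp only [bs, Prod.mk_sub_mk]
      rw [hzero x (y + 1) (Or.inr (by linarith)), hzero (x - 1) (y + 1 - 0) (Or.inr (by linarith))]
      simp
    rw [hz, zero_add]
    simp only [ext, hfx, hfy, hfrx, hfry, zpow_zero, Equiv.Perm.coe_one, id_eq]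
  · push Not at h0
    have hfy : ⌊y⌋ = -1 := by
      rw [Int.floor_eq_iff]
      constructor
      · push_cast; linarith
      · push_cast; linarith
    have hfry : Int.fract y = y + 1 := by
      rw [Int.fract, hfy]; push_cast; ring
    have hz : bs s (α⁻¹ s) (1, 0) χ t (x, y) = 0 := by
      simp only [bs, Prod.mk_sub_mk]
      rw [hzero x y (Or.inl h0.le), hzero (x - 1) (y - 0) (Or.inl (by linarith))]
      simp
    rw [hz, add_zero]
    simp only [ext, hfx, hfy, hfrx, hfry, zpow_zero, Equiv.Perm.coe_one, id_eq, zpow_neg_one]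

private theorem niceR (hχ : ContDiff ℝ (⊤ : ℕ∞) χ) (hc : HasCompactSupport χ) (hs : tsupport χ ⊆ Rc)
    (s : X) : Nice α β (ext α β (bs s (α⁻¹ s) (1, 0) χ)) (fun _ => 0) := by
  classical
  have hglue : Glue α β (ext α β (bs s (α⁻¹ s) (1, 0) χ)) :=
    ⟨fun t x y h0 h1 => ext_row _ t x y h0.le h1, fun t x y h0 h1 => ext_col _ t x y h0.le h1⟩
  have hsh : ∀ a : ℝ × ℝ, ContDiff ℝ (⊤ : ℕ∞) (fun q => χ (q + a)) := fun a =>
    hχ.comp (contDiff_id.add contDiff_const)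
  have hR : ∀ t, ∀ p ∈ Rc, ContDiffAt ℝ (⊤ : ℕ∞) (ext α β (bs s (α⁻¹ s) (1, 0) χ) t) p := by
    intro t p hp
    have hev : (ext α β (bs s (α⁻¹ s) (1, 0) χ) t) =ᶠ[𝓝 p] fun q =>
        (if α⁻¹ t = s then (1 : ℂ) else 0) * χ (q + (1, 0)) +
        (if t = s then (1 : ℂ) else 0) * χ (q + (0, 0)) +
        (if α t = s then (1 : ℂ) else 0) * χ (q + (-1, 0)) := by
      filter_upwards [isOpen_Rc.1.mem_nhds hp] with q hq
      obtain ⟨x, y⟩ := q
      have := ext_Rc_formula (α := α) (β := β) hs s t x y hq.1.1 hq.1.2 hq.2.1 hq.2.2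
      rw [this]
      simp [sub_eq_add_neg]
    refine ContDiffAt.congr_of_eventuallyEq ?_ hev
    exact (((contDiff_const.mul (hsh _)).add (contDiff_const.mul (hsh _))).add
      (contDiff_const.mul (hsh _))).contDiffAt
  have hK : ∀ t, ∀ p ∈ Kc, ContDiffAt ℝ (⊤ : ℕ∞) (ext α β (bs s (α⁻¹ s) (1, 0) χ) t) p := by
    intro t p hp
    have hev : (ext α β (bs s (α⁻¹ s) (1, 0) χ) t) =ᶠ[𝓝 p] fun q =>
        ((if β⁻¹ t = s then (1 : ℂ) else 0) * χ (q + (0, 1)) +
        (if β⁻¹ t = α⁻¹ s then (1 : ℂ) else 0) * χ (q + (-1, 1))) +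
        ((if t = s then (1 : ℂ) else 0) * χ (q + (0, 0)) +
        (if t = α⁻¹ s then (1 : ℂ) else 0) * χ (q + (-1, 0))) := by
      filter_upwards [isOpen_Kc.1.mem_nhds hp] with q hq
      obtain ⟨x, y⟩ := q
      have := ext_Kc_formula (α := α) (β := β) hs s t x y hq.1.1 hq.1.2 hq.2.1 hq.2.2
      rw [this]
      simp [bs, sub_eq_add_neg]
    refine ContDiffAt.congr_of_eventuallyEq ?_ hev
    exact (((contDiff_const.mul (hsh _)).add (contDiff_const.mul (hsh _))).add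
      ((contDiff_const.mul (hsh _)).add (contDiff_const.mul (hsh _)))).contDiffAt
  refine ⟨?_, hglue.row, hglue.col, ?_, fun _ => rfl⟩
  · intro t p hp
    obtain ⟨σ, a, hpa, hf⟩ := cross_chart α β t hp
    have h1 := hf _ hglue
    have h2 : ContDiffAt ℝ (⊤ : ℕ∞) (ext α β (bs s (α⁻¹ s) (1, 0) χ) σ) (p + a) := by
      rcases hpa with h | h
      · exact hR σ _ h
      · exact hK σ _ h
    have h3 : ContDiffAt ℝ (⊤ : ℕ∞) (fun q => ext α β (bs s (α⁻¹ s) (1, 0) χ) σ (q + a)) p := by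
      exact ContDiffAt.comp p h2 (contDiff_id.add contDiff_const).contDiffAt
    exact (h3.congr_of_eventuallyEq h1).contDiffWithinAt
  · obtain ⟨η, hη, hη2, hz⟩ := supp_bound hc hs
    refine ⟨η, hη, hη2, ?_⟩
    intro t x y hx hx' hy hy'
    have key : ∀ x y : ℝ, 0 < x → x < 1 → 0 < y → y < 1 → (y < η ∨ 1 - η < y) →
        ext α β (bs s (α⁻¹ s) (1, 0) χ) t (x, y) = 0 := by
      intro x y h1 h2 h3 h4 h5
      rw [ext_sq _ _ (show (x, y) ∈ unitSq from ⟨⟨h1, h2⟩, ⟨h3, h4⟩⟩)]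
      simp only [bs, Prod.mk_sub_mk]
      rw [hz x y h5, hz (x - 1) (y - 0) (by rwa [sub_zero])]
      simp
    refine ⟨key _ _ hx (by linarith) hy (by linarith) (Or.inl hy'),
      key _ _ (by linarith) (by linarith) hy (by linarith) (Or.inl hy'),
      key _ _ hx (by linarith) (by linarith) (by linarith) (Or.inr (by linarith)),
      key _ _ (by linarith) (by linarith) (by linarith) (by linarith) (Or.inr (by linarith))⟩

end niceR

/-! ### integrals over two squares -/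

private theorem fderiv_bs {X : Type} {χ : ℝ × ℝ → ℂ} (hχ : ContDiff ℝ (⊤ : ℕ∞) χ) (s σ : X)
    (a : ℝ × ℝ) (t : X) {u : ℝ × ℝ → ℂ} {p : ℝ × ℝ} (hu : u =ᶠ[𝓝 p] bs s σ a χ t) (v : ℝ × ℝ) :
    fderiv ℝ u p v = bs s σ a (fun q => fderiv ℝ χ q v) t p := by
  classical
  have hd : Differentiable ℝ χ := hχ.differentiable (by simp)
  have h1 : HasFDerivAt χ (fderiv ℝ χ p) p := (hd p).hasFDerivAt
  have h2 : HasFDerivAt (fun q => χ (q - a)) (fderiv ℝ χ (p - a)) p := by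
    have h3 : HasFDerivAt χ (fderiv ℝ χ (p - a)) (p - a) := (hd _).hasFDerivAt
    have h4 : HasFDerivAt (fun q : ℝ × ℝ => q - a) (ContinuousLinearMap.id ℝ (ℝ × ℝ)) p :=
      (hasFDerivAt_id p).sub_const a
    exact h3.comp p h4
  have h5 := (h1.const_mul (if t = s then (1 : ℂ) else 0)).add
    (h2.const_mul (if t = σ then (1 : ℂ) else 0))
  have h6 : HasFDerivAt u _ p := HasFDerivAt.congr_of_eventuallyEq h5 hu
  rw [h6.fderiv]
  simp only [bs, _root_.add_apply, _root_.smul_apply, smul_eq_mul]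

section ints
variable {X : Type} [Countable X] [MeasurableSpace X] [DiscreteMeasurableSpace X]

private theorem int_bs (s σ : X) (a : ℝ × ℝ) (C : Set (ℝ × ℝ)) (hCm : MeasurableSet C)
    (hC : C =ᵐ[volume] (unitSq ∪ (fun p => p + a) ⁻¹' unitSq : Set (ℝ × ℝ)))
    (hdis : Disjoint unitSq ((fun p => p + a) ⁻¹' unitSq)) (f : Sq X → ℂ)
    (hfm : AEStronglyMeasurable f (mu X)) (hf : ∀ s, IntegrableOn (fun p => f (s, p)) unitSq)
    (F : ℝ × ℝ → ℂ) (hF1 : ∀ p ∈ unitSq, F p = f (s, p))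
    (hF2 : ∀ p, p + a ∈ unitSq → F p = f (σ, p + a))
    (ξ : ℝ × ℝ → ℂ) (hξ : Continuous ξ) (hξc : HasCompactSupport ξ) (hξ0 : ∀ p ∉ C, ξ p = 0)
    (L : Sq X → ℂ) (hLm : AEStronglyMeasurable L (mu X)) (hL : ∀ t, ∀ p ∈ unitSq, L (t, p) = bs s σ a ξ t p) :
    ∫ q, f q * L q ∂(mu X) = ∫ p, F p * ξ p := by
  classical
  obtain ⟨M, hM⟩ := hξc.exists_bound_of_continuous hξ
  have hsh : Continuous (fun p => ξ (p - a)) := hξ.comp (continuous_id.sub continuous_const)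
  -- slices
  have hI1 : ∀ t, IntegrableOn (fun p => f (t, p) * ξ p) unitSq := by
    intro t
    refine (hf t).mul_bdd (c := M) hξ.aestronglyMeasurable (ae_of_all _ hM)
  have hI2 : ∀ t, IntegrableOn (fun p => f (t, p) * ξ (p - a)) unitSq := by
    intro t
    refine (hf t).mul_bdd (c := M) hsh.aestronglyMeasurable (ae_of_all _ fun p => hM _)
  have hslice : ∀ t, ∀ p ∈ unitSq, f (t, p) * L (t, p) =
      (if t = s then (1 : ℂ) else 0) * (f (t, p) * ξ p) +
      (if t = σ then (1 : ℂ) else 0) * (f (t, p) * ξ (p - a)) := by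
    intro t p hp
    rw [hL t p hp]
    simp only [bs]
    ring
  have hint_slice : ∀ t, IntegrableOn (fun p => f (t, p) * L (t, p)) unitSq := by
    intro t
    refine IntegrableOn.congr_fun (((hI1 t).const_mul _).add ((hI2 t).const_mul _))
      (fun p hp => (hslice t p hp).symm) unitSq_meas
  have hzero : ∀ t, t ≠ s → t ≠ σ → ∀ p ∈ unitSq, f (t, p) * L (t, p) = 0 := by
    intro t h1 h2 p hp
    rw [hslice t p hp]
    simp [h1, h2]
  have hInt : Integrable (fun q => f q * L q) (mu X) := by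
    refine (integrable_mu_iff (fun q => f q * L q) (hfm.mul hLm)).2 ⟨hint_slice, ?_⟩
    refine summable_of_ne_finset_zero (s := ({s, σ} : Finset X)) ?_
    intro t ht
    simp only [Finset.mem_insert, Finset.mem_singleton, not_or] at ht
    rw [setIntegral_congr_fun unitSq_meas (g := fun _ => (0:ℝ))]
    · simp
    · intro p hp
      simp only
      rw [hzero t ht.1 ht.2 p hp, norm_zero]
  rw [(integral_mu _ hInt).1]
  have hval : ∀ t, ∫ p in unitSq, f (t, p) * L (t, p) =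
      (if t = s then (∫ p in unitSq, f (s, p) * ξ p) else 0) +
      (if t = σ then (∫ p in unitSq, f (σ, p) * ξ (p - a)) else 0) := by
    intro t
    rw [setIntegral_congr_fun unitSq_meas (hslice t), integral_add ((hI1 t).const_mul _)
      ((hI2 t).const_mul _), integral_const_mul, integral_const_mul]
    by_cases h1 : t = s
    · subst h1
      by_cases h2 : t = σ
      · subst h2; simp
      · simp [h2]
    · by_cases h2 : t = σ
      · subst h2; simp [h1]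
      · simp [h1, h2]
  simp_rw [hval]
  rw [Summable.tsum_add (summable_of_ne_finset_zero (s := {s}) (by
      intro b hb
      simp only [Finset.mem_singleton] at hb
      simp [hb])) (summable_of_ne_finset_zero (s := {σ}) (by
      intro b hb
      simp only [Finset.mem_singleton] at hb
      simp [hb])), tsum_ite_eq, tsum_ite_eq]
  -- right hand side
  have hVm : MeasurableSet ((fun p : ℝ × ℝ => p + a) ⁻¹' unitSq) :=
    (measurable_id.add_const a) unitSq_meas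
  have hR0 : ∫ p, F p * ξ p = ∫ p in C, F p * ξ p := by
    rw [setIntegral_eq_integral_of_forall_compl_eq_zero]
    intro p hp
    rw [hξ0 p hp, mul_zero]
  have hpre : ∀ G : ℝ × ℝ → ℂ, ∫ p in (fun p : ℝ × ℝ => p + a) ⁻¹' unitSq, G (p + a) =
      ∫ p in unitSq, G p := by
    intro G
    exact (measurePreserving_add_right volume a).setIntegral_preimage_emb
      (MeasurableEquiv.addRight a).measurableEmbedding G unitSq
  have hFV : ∀ p ∈ (fun p : ℝ × ℝ => p + a) ⁻¹' unitSq, F p * ξ p =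
      (fun q => f (σ, q) * ξ (q - a)) (p + a) := by
    intro p hp
    simp only [add_sub_cancel_right]
    rw [hF2 p hp]
  have hIV : IntegrableOn (fun p => F p * ξ p) ((fun p : ℝ × ℝ => p + a) ⁻¹' unitSq) := by
    refine IntegrableOn.congr_fun ?_ (fun p hp => (hFV p hp).symm) hVm
    exact ((measurePreserving_add_right volume a).integrableOn_comp_preimage
      (MeasurableEquiv.addRight a).measurableEmbedding).2 (hI2 σ)
  have hIU : IntegrableOn (fun p => F p * ξ p) unitSq := by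
    refine IntegrableOn.congr_fun (hI1 s) (fun p hp => ?_) unitSq_meas
    rw [hF1 p hp]
  rw [hR0, setIntegral_congr_set hC, setIntegral_union hdis hVm hIU hIV]
  congr 1
  · exact setIntegral_congr_fun unitSq_meas fun p hp => by rw [hF1 p hp]
  · rw [setIntegral_congr_fun hVm hFV, hpre (fun q => f (σ, q) * ξ (q - a))]

end ints

/-! ### the two charts -/

private theorem Rc_ae : Rc =ᵐ[volume]
    (unitSq ∪ (fun p => p + ((1 : ℝ), (0 : ℝ))) ⁻¹' unitSq : Set (ℝ × ℝ)) := by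
  have hnull : (volume : Measure (ℝ × ℝ)) ({(0:ℝ)} ×ˢ (Set.univ : Set ℝ)) = 0 := by
    rw [Measure.volume_eq_prod, Measure.prod_prod]; simp
  have h : ∀ᵐ p : ℝ × ℝ ∂volume, p ∉ ({(0:ℝ)} ×ˢ (Set.univ : Set ℝ)) := measure_eq_zero_iff_ae_notMem.1 hnull
  filter_upwards [h] with p hp
  have hp0 : p.1 ≠ 0 := fun h => hp ⟨h, trivial⟩
  apply propext
  change p ∈ Rc ↔ p ∈ unitSq ∪ (fun p => p + ((1 : ℝ), (0 : ℝ))) ⁻¹' unitSq
  simp only [Rc, Set.mem_prod, Set.mem_Ioo, Set.mem_union, Set.mem_preimage, unitSq, Prod.fst_add,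
    Prod.snd_add, add_zero]
  constructor
  · rintro ⟨⟨h1, h2⟩, h3⟩
    rcases lt_or_gt_of_ne hp0 with h | h
    · right; exact ⟨⟨by linarith, by linarith⟩, h3⟩
    · left; exact ⟨⟨h, h2⟩, h3⟩
  · rintro (⟨⟨h1, h2⟩, h3⟩ | ⟨⟨h1, h2⟩, h3⟩)
    · exact ⟨⟨by linarith, h2⟩, h3⟩
    · exact ⟨⟨by linarith, by linarith⟩, h3⟩

private theorem Kc_ae : Kc =ᵐ[volume]
    (unitSq ∪ (fun p => p + ((0 : ℝ), (1 : ℝ))) ⁻¹' unitSq : Set (ℝ × ℝ)) := by
  have hnull : (volume : Measure (ℝ × ℝ)) ((Set.univ : Set ℝ) ×ˢ {(0:ℝ)}) = 0 := by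
    rw [Measure.volume_eq_prod, Measure.prod_prod]; simp
  have h : ∀ᵐ p : ℝ × ℝ ∂volume, p ∉ ((Set.univ : Set ℝ) ×ˢ {(0:ℝ)}) := measure_eq_zero_iff_ae_notMem.1 hnull
  filter_upwards [h] with p hp
  have hp0 : p.2 ≠ 0 := fun h => hp ⟨trivial, h⟩
  apply propext
  change p ∈ Kc ↔ p ∈ unitSq ∪ (fun p => p + ((0 : ℝ), (1 : ℝ))) ⁻¹' unitSq
  simp only [Kc, Set.mem_prod, Set.mem_Ioo, Set.mem_union, Set.mem_preimage, unitSq, Prod.fst_add,
    Prod.snd_add, add_zero]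
  constructor
  · rintro ⟨h3, ⟨h1, h2⟩⟩
    rcases lt_or_gt_of_ne hp0 with h | h
    · right; exact ⟨h3, ⟨by linarith, by linarith⟩⟩
    · left; exact ⟨h3, ⟨h, h2⟩⟩
  · rintro (⟨h3, ⟨h1, h2⟩⟩ | ⟨h3, ⟨h1, h2⟩⟩)
    · exact ⟨h3, ⟨by linarith, h2⟩⟩
    · exact ⟨h3, ⟨by linarith, by linarith⟩⟩

private theorem Rc_dis : Disjoint unitSq ((fun p => p + ((1 : ℝ), (0 : ℝ))) ⁻¹' unitSq) := by
  rw [Set.disjoint_left]
  rintro p hp hq
  have h1 := hp.1.1
  have h2 : p.1 + 1 < 1 := hq.1.2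
  linarith

private theorem Kc_dis : Disjoint unitSq ((fun p => p + ((0 : ℝ), (1 : ℝ))) ⁻¹' unitSq) := by
  rw [Set.disjoint_left]
  rintro p hp hq
  have h1 := hp.2.1
  have h2 : p.2 + 1 < 1 := hq.2.2
  linarith

section extR
variable {X : Type} (α β : Equiv.Perm X)

private theorem ext_R2 (f : X → ℝ × ℝ → ℂ) (s : X) (p : ℝ × ℝ) (hp : p + (1, 0) ∈ unitSq) :
    ext α β f s p = f (α⁻¹ s) (p + (1, 0)) := by
  obtain ⟨x, y⟩ := p
  have h := ext_row (α := α) (β := β) f (α⁻¹ s) x y (by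
    have := hp.2.1
    simp only [Prod.snd_add, add_zero] at this
    exact this.le) (by
    have := hp.2.2
    simp only [Prod.snd_add, add_zero] at this
    exact this)
  have hinv : α (α⁻¹ s) = s := α.apply_symm_apply s
  rw [hinv] at h
  rw [← h]
  have : ((x, y) : ℝ × ℝ) + (1, 0) = (x + 1, y) := by simp
  rw [this] at hp ⊢
  exact ext_sq _ _ hp

private theorem ext_K2 (f : X → ℝ × ℝ → ℂ) (s : X) (p : ℝ × ℝ) (hp : p + (0, 1) ∈ unitSq) :
    ext α β f s p = f (β⁻¹ s) (p + (0, 1)) := by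
  obtain ⟨x, y⟩ := p
  have h := ext_col (α := α) (β := β) f (β⁻¹ s) x y (by
    have := hp.1.1
    simp only [Prod.fst_add, add_zero] at this
    exact this.le) (by
    have := hp.1.2
    simp only [Prod.fst_add, add_zero] at this
    exact this)
  have hinv : β (β⁻¹ s) = s := β.apply_symm_apply s
  rw [hinv] at h
  rw [← h]
  have : ((x, y) : ℝ × ℝ) + (0, 1) = (x, y + 1) := by simp
  rw [this] at hp ⊢
  exact ext_sq _ _ hp

end extR

private theorem fderiv_zero_off {χ : ℝ × ℝ → ℂ} {C : Set (ℝ × ℝ)} (hs : tsupport χ ⊆ C) (v p : ℝ × ℝ)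
    (hp : p ∉ C) : fderiv ℝ χ p v = 0 := by
  have : p ∉ tsupport χ := fun h => hp (hs h)
  have h2 : χ =ᶠ[𝓝 p] fun _ => 0 := notMem_tsupport_iff_eventuallyEq.1 this
  rw [h2.fderiv_eq]
  simp

variable {X : Type} [Countable X] [MeasurableSpace X] [DiscreteMeasurableSpace X]

theorem test_R (α β : Equiv.Perm X) {χ : ℝ × ℝ → ℂ} (hχ : ContDiff ℝ (⊤ : ℕ∞) χ)
    (hc : HasCompactSupport χ) (hs : tsupport χ ⊆ Rc) (s : X) :
    ∃ L : X → ℝ × ℝ → ℂ, Nice α β L (fun _ => 0) ∧ FinS L ∧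
      ∀ f : Sq X → ℂ, AEStronglyMeasurable f (mu X) → (∀ s, IntegrableOn (fun p => f (s, p)) unitSq) →
        ∫ q, f q * fl L q ∂(mu X) = ∫ p, ext α β (fun s p => f (s, p)) s p * χ p ∧
        ∫ q, f q * fl (dx L) q ∂(mu X) =
          ∫ p, ext α β (fun s p => f (s, p)) s p * fderiv ℝ χ p (1, 0) ∧
        ∫ q, f q * fl (dy L) q ∂(mu X) =
          ∫ p, ext α β (fun s p => f (s, p)) s p * fderiv ℝ χ p (0, 1) := by
  classical
  have hN := niceR (α := α) (β := β) hχ hc hs s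
  have hsq : ∀ t, ∀ p ∈ unitSq, ext α β (bs s (α⁻¹ s) (1, 0) χ) t p = bs s (α⁻¹ s) (1, 0) χ t p :=
    fun t p hp => ext_sq _ _ hp
  have hev : ∀ t, ∀ p ∈ unitSq, ext α β (bs s (α⁻¹ s) (1, 0) χ) t =ᶠ[𝓝 p] bs s (α⁻¹ s) (1, 0) χ t := by
    intro t p hp
    filter_upwards [unitSq_open.mem_nhds hp] with q hq using hsq t q hq
  refine ⟨_, hN, ⟨{s, α⁻¹ s}, ?_⟩, ?_⟩
  · intro t ht p hp
    simp only [Finset.mem_insert, Finset.mem_singleton, not_or] at ht
    rw [hsq t p hp]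
    simp only [bs, if_neg ht.1, if_neg ht.2, zero_mul, add_zero]
  · intro f hfm hf
    refine ⟨?_, ?_, ?_⟩
    · exact int_bs s (α⁻¹ s) (1, 0) Rc isOpen_Rc.1.measurableSet Rc_ae Rc_dis f hfm hf _
        (fun p hp => ext_sq _ _ hp) (fun p hp => ext_R2 α β _ s p hp) χ hχ.continuous hc
        (fun p hp => chi_zero hs hp) _ (nice_meas hN) hsq
    · refine int_bs s (α⁻¹ s) (1, 0) Rc isOpen_Rc.1.measurableSet Rc_ae Rc_dis f hfm hf _
        (fun p hp => ext_sq _ _ hp) (fun p hp => ext_R2 α β _ s p hp) (fun q => fderiv ℝ χ q (1, 0))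
        ((hχ.continuous_fderiv (by simp)).clm_apply continuous_const)
        (hc.fderiv_apply ℝ (1, 0))
        (fun p hp => fderiv_zero_off hs _ _ hp) _ (nice_meas (nice_dx hN)) ?_
      intro t p hp
      exact fderiv_bs hχ _ _ _ t (hev t p hp) (1, 0)
    · refine int_bs s (α⁻¹ s) (1, 0) Rc isOpen_Rc.1.measurableSet Rc_ae Rc_dis f hfm hf _
        (fun p hp => ext_sq _ _ hp) (fun p hp => ext_R2 α β _ s p hp) (fun q => fderiv ℝ χ q (0, 1))
        ((hχ.continuous_fderiv (by simp)).clm_apply continuous_const)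
        (hc.fderiv_apply ℝ (0, 1))
        (fun p hp => fderiv_zero_off hs _ _ hp) _ (nice_meas (nice_dy hN)) ?_
      intro t p hp
      exact fderiv_bs hχ _ _ _ t (hev t p hp) (0, 1)

theorem test_K (α β : Equiv.Perm X) {χ : ℝ × ℝ → ℂ} (hχ : ContDiff ℝ (⊤ : ℕ∞) χ)
    (hc : HasCompactSupport χ) (hs : tsupport χ ⊆ Kc) (s : X) :
    ∃ L : X → ℝ × ℝ → ℂ, Nice α β L (fun _ => 0) ∧ FinS L ∧
      ∀ f : Sq X → ℂ, AEStronglyMeasurable f (mu X) → (∀ s, IntegrableOn (fun p => f (s, p)) unitSq) →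
        ∫ q, f q * fl L q ∂(mu X) = ∫ p, ext α β (fun s p => f (s, p)) s p * χ p ∧
        ∫ q, f q * fl (dx L) q ∂(mu X) =
          ∫ p, ext α β (fun s p => f (s, p)) s p * fderiv ℝ χ p (1, 0) ∧
        ∫ q, f q * fl (dy L) q ∂(mu X) =
          ∫ p, ext α β (fun s p => f (s, p)) s p * fderiv ℝ χ p (0, 1) := by
  classical
  -- reflected test function
  have hsw : ContDiff ℝ (⊤ : ℕ∞) (fun q : ℝ × ℝ => (q.2, q.1)) := contDiff_snd.prodMk contDiff_fst
  set χ' : ℝ × ℝ → ℂ := fun q => χ (q.2, q.1) with hχ'def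
  have hχ' : ContDiff ℝ (⊤ : ℕ∞) χ' := hχ.comp hsw
  have hhom : χ' = χ ∘ (Homeomorph.prodComm ℝ ℝ) := rfl
  have hc' : HasCompactSupport χ' := by
    rw [hhom]
    exact hc.comp_homeomorph _
  have hs' : tsupport χ' ⊆ Rc := by
    rw [hhom, tsupport_comp_eq_preimage]
    intro q hq
    have := hs hq
    exact ⟨this.2, this.1⟩
  have hN' := niceR (α := β) (β := α) hχ' hc' hs' s
  have hN := nice_rfN hN'
  have hsq : ∀ t, ∀ p ∈ unitSq, rfN (ext β α (bs s (β⁻¹ s) (1, 0) χ')) t p =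
      bs s (β⁻¹ s) (0, 1) χ t p := by
    intro t p hp
    have hp' : (p.2, p.1) ∈ unitSq := ⟨hp.2, hp.1⟩
    simp only [rfN]
    rw [ext_sq _ _ hp']
    have e2 : χ' ((p.2, p.1) - (1, 0)) = χ (p - (0, 1)) := by
      rw [hχ'def]
      simp only [Prod.mk_sub_mk]
      rfl
    simp only [bs, e2]
    rfl
  have hev : ∀ t, ∀ p ∈ unitSq, rfN (ext β α (bs s (β⁻¹ s) (1, 0) χ')) t =ᶠ[𝓝 p]
      bs s (β⁻¹ s) (0, 1) χ t := by
    intro t p hp
    filter_upwards [unitSq_open.mem_nhds hp] with q hq using hsq t q hq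
  have hz : ∀ p ∉ Kc, χ p = 0 := by
    intro p hp
    by_contra hne
    exact hp (hs (subset_tsupport _ hne))
  refine ⟨_, hN, ⟨{s, β⁻¹ s}, ?_⟩, ?_⟩
  · intro t ht p hp
    simp only [Finset.mem_insert, Finset.mem_singleton, not_or] at ht
    rw [hsq t p hp]
    simp only [bs, if_neg ht.1, if_neg ht.2, zero_mul, add_zero]
  · intro f hfm hf
    refine ⟨?_, ?_, ?_⟩
    · exact int_bs s (β⁻¹ s) (0, 1) Kc isOpen_Kc.1.measurableSet Kc_ae Kc_dis f hfm hf _
        (fun p hp => ext_sq _ _ hp) (fun p hp => ext_K2 α β _ s p hp) χ hχ.continuous hc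
        hz _ (nice_meas hN) hsq
    · refine int_bs s (β⁻¹ s) (0, 1) Kc isOpen_Kc.1.measurableSet Kc_ae Kc_dis f hfm hf _
        (fun p hp => ext_sq _ _ hp) (fun p hp => ext_K2 α β _ s p hp) (fun q => fderiv ℝ χ q (1, 0))
        ((hχ.continuous_fderiv (by simp)).clm_apply continuous_const)
        (hc.fderiv_apply ℝ (1, 0))
        (fun p hp => fderiv_zero_off hs _ _ hp) _ (nice_meas (nice_dx hN)) ?_
      intro t p hp
      exact fderiv_bs hχ _ _ _ t (hev t p hp) (1, 0)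
    · refine int_bs s (β⁻¹ s) (0, 1) Kc isOpen_Kc.1.measurableSet Kc_ae Kc_dis f hfm hf _
        (fun p hp => ext_sq _ _ hp) (fun p hp => ext_K2 α β _ s p hp) (fun q => fderiv ℝ χ q (0, 1))
        ((hχ.continuous_fderiv (by simp)).clm_apply continuous_const)
        (hc.fderiv_apply ℝ (0, 1))
        (fun p hp => fderiv_zero_off hs _ _ hp) _ (nice_meas (nice_dy hN)) ?_
      intro t p hp
      exact fderiv_bs hχ _ _ _ t (hev t p hp) (0, 1)

/-- integrability and integrals over a chart made of two squares -/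
private theorem chart_int {E : Type} [NormedAddCommGroup E] [NormedSpace ℝ E] (a : ℝ × ℝ)
    (C : Set (ℝ × ℝ)) (hC : C =ᵐ[volume] (unitSq ∪ (fun p => p + a) ⁻¹' unitSq : Set (ℝ × ℝ)))
    (hdis : Disjoint unitSq ((fun p => p + a) ⁻¹' unitSq)) (F G1 G2 : ℝ × ℝ → E)
    (hF1 : ∀ p ∈ unitSq, F p = G1 p) (hF2 : ∀ p, p + a ∈ unitSq → F p = G2 (p + a))
    (h1 : IntegrableOn G1 unitSq) (h2 : IntegrableOn G2 unitSq) :
    IntegrableOn F C ∧ ∫ p in C, F p = (∫ p in unitSq, G2 p) + ∫ p in unitSq, G1 p := by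
  have hVm : MeasurableSet ((fun p : ℝ × ℝ => p + a) ⁻¹' unitSq) :=
    (measurable_id.add_const a) unitSq_meas
  have hIV : IntegrableOn F ((fun p : ℝ × ℝ => p + a) ⁻¹' unitSq) := by
    refine IntegrableOn.congr_fun (f := fun p => G2 (p + a)) ?_ (fun p hp => (hF2 p hp).symm) hVm
    exact ((measurePreserving_add_right volume a).integrableOn_comp_preimage
      (MeasurableEquiv.addRight a).measurableEmbedding).2 h2
  have hIU : IntegrableOn F unitSq :=
    IntegrableOn.congr_fun h1 (fun p hp => (hF1 p hp).symm) unitSq_meas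
  refine ⟨(integrableOn_congr_set_ae hC).2 (hIU.union hIV), ?_⟩
  rw [setIntegral_congr_set hC, setIntegral_union hdis hVm hIU hIV, add_comm]
  congr 1
  · rw [setIntegral_congr_fun hVm (g := fun p => G2 (p + a)) (fun p hp => hF2 p hp)]
    exact (measurePreserving_add_right volume a).setIntegral_preimage_emb
      (MeasurableEquiv.addRight a).measurableEmbedding G2 unitSq
  · exact setIntegral_congr_fun unitSq_meas hF1

/-- slicewise integrable (square integrable) functions are integrable on the charts -/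
theorem ext_intOn (α β : Equiv.Perm X) {f : Sq X → ℂ}
    (hf : ∀ s, IntegrableOn (fun p => f (s, p)) unitSq) (s : X) :
    IntegrableOn (ext α β (fun s p => f (s, p)) s) Rc ∧
    IntegrableOn (ext α β (fun s p => f (s, p)) s) Kc :=
  ⟨(chart_int (1, 0) Rc Rc_ae Rc_dis _ (fun p => f (s, p)) (fun p => f (α⁻¹ s, p))
      (fun p hp => ext_sq _ _ hp) (fun p hp => ext_R2 α β _ s p hp) (hf _) (hf _)).1,
    (chart_int (0, 1) Kc Kc_ae Kc_dis _ (fun p => f (s, p)) (fun p => f (β⁻¹ s, p))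
      (fun p hp => ext_sq _ _ hp) (fun p hp => ext_K2 α β _ s p hp) (hf _) (hf _)).1⟩

theorem ext_sqOn (α β : Equiv.Perm X) {f : Sq X → ℂ}
    (hf : ∀ s, IntegrableOn (fun p => ‖f (s, p)‖ ^ 2) unitSq) (s : X) :
    (IntegrableOn (fun p => ‖ext α β (fun s p => f (s, p)) s p‖ ^ 2) Rc ∧
      ∫ p in Rc, ‖ext α β (fun s p => f (s, p)) s p‖ ^ 2 =
        (∫ p in unitSq, ‖f (α⁻¹ s, p)‖ ^ 2) + ∫ p in unitSq, ‖f (s, p)‖ ^ 2) ∧
    (IntegrableOn (fun p => ‖ext α β (fun s p => f (s, p)) s p‖ ^ 2) Kc ∧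
      ∫ p in Kc, ‖ext α β (fun s p => f (s, p)) s p‖ ^ 2 =
        (∫ p in unitSq, ‖f (β⁻¹ s, p)‖ ^ 2) + ∫ p in unitSq, ‖f (s, p)‖ ^ 2) :=
  ⟨chart_int (1, 0) Rc Rc_ae Rc_dis _ (fun p => ‖f (s, p)‖ ^ 2) (fun p => ‖f (α⁻¹ s, p)‖ ^ 2)
      (fun p hp => by rw [ext_sq _ _ hp]) (fun p hp => by rw [ext_R2 α β _ s p hp]) (hf _) (hf _),
    chart_int (0, 1) Kc Kc_ae Kc_dis _ (fun p => ‖f (s, p)‖ ^ 2) (fun p => ‖f (β⁻¹ s, p)‖ ^ 2)
      (fun p hp => by rw [ext_sq _ _ hp]) (fun p hp => by rw [ext_K2 α β _ s p hp]) (hf _) (hf _)⟩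

private theorem chart_ae (a : ℝ × ℝ) (C : Set (ℝ × ℝ))
    (hC : C =ᵐ[volume] (unitSq ∪ (fun p => p + a) ⁻¹' unitSq : Set (ℝ × ℝ))) (P P1 P2 : ℝ × ℝ → Prop)
    (hF1 : ∀ p ∈ unitSq, P1 p → P p) (hF2 : ∀ p, p + a ∈ unitSq → P2 (p + a) → P p)
    (h1 : ∀ᵐ p ∂(volume.restrict unitSq), P1 p) (h2 : ∀ᵐ p ∂(volume.restrict unitSq), P2 p) :
    ∀ᵐ p ∂(volume.restrict C), P p := by
  have hVm : MeasurableSet ((fun p : ℝ × ℝ => p + a) ⁻¹' unitSq) :=
    (measurable_id.add_const a) unitSq_meas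
  rw [Measure.restrict_congr_set hC, ae_restrict_iff' (unitSq_meas.union hVm)]
  rw [ae_restrict_iff' unitSq_meas] at h1 h2
  have h3 : ∀ᵐ p : ℝ × ℝ ∂volume, p + a ∈ unitSq → P2 (p + a) :=
    (measurePreserving_add_right volume a).quasiMeasurePreserving.ae h2
  filter_upwards [h1, h3] with p hp1 hp3 hp
  rcases hp with hp | hp
  · exact hF1 p hp (hp1 hp)
  · exact hF2 p hp (hp3 hp)

/-- a.e. equality on the squares gives a.e. equality on the charts -/
theorem ext_aeOn (α β : Equiv.Perm X) {f g : X → ℝ × ℝ → ℂ}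
    (h : ∀ s, ∀ᵐ p ∂(volume.restrict unitSq), f s p = g s p) (s : X) :
    (∀ᵐ p ∂(volume.restrict Rc), ext α β f s p = ext α β g s p) ∧
    ∀ᵐ p ∂(volume.restrict Kc), ext α β f s p = ext α β g s p :=
  ⟨chart_ae (1, 0) Rc Rc_ae _ (fun p => f s p = g s p) (fun p => f (α⁻¹ s) p = g (α⁻¹ s) p)
      (fun p hp h => by rw [ext_sq _ _ hp, ext_sq _ _ hp, h])
      (fun p hp h => by rw [ext_R2 α β _ s p hp, ext_R2 α β _ s p hp, h]) (h _) (h _),
    chart_ae (0, 1) Kc Kc_ae _ (fun p => f s p = g s p) (fun p => f (β⁻¹ s) p = g (β⁻¹ s) p)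
      (fun p hp h => by rw [ext_sq _ _ hp, ext_sq _ _ hp, h])
      (fun p hp h => by rw [ext_K2 α β _ s p hp, ext_K2 α β _ s p hp, h]) (h _) (h _)⟩

end Pool.Agent.Helper96.OF
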