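import Pool.Agent.Helper42.OF.L03
import Pool.Agent.Helper96.OF.FT6

/-!
# OFL-L04: L² solutions of the weak equation are `z_τ`-holomorphic families

For χ test function on Rc take L from test_R (f = v, MemLp: L01b slice_int). `conj L` is nice FinS (nice_conj), `trip (conj L) ∈ H1`; `inner (χ2 - conj τ χ1) v = ∫ (L_y - τ L_x) v dmu` (FT2 inner_KK, cls_ae, dx_conj, conj conj). So
`∫ ext v s (τ χ_x - χ_y) = 0`. W1 `weyl` on Rc: g holomorphic on `zt τ '' Rc`, `ext v s = g ∘ zt τ` a.e. on Rc; L01 pv_eq: `pv s p = g (zt τ p)` for p ∈ Rc. Same on Kc.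
hol at z, p = zinv τ z ∈ Cross: L01 cross_chart gives σ, a: near p, `pv s q = pv σ (q + a)`, p + a ∈ Rc or Kc, `pv σ (q+a) = g (zt τ q + zt τ a)`.
a.e. statement: unitSq ⊆ Rc, ext = v on unitSq (ext_sq).
`holC_hh`: v = hh, FT6 hh_weq.
-/

set_option autoImplicit false

open MeasureTheory Filter Topology
open scoped ComplexConjugate

namespace Pool.Agent.Helper96.OF

variable {X : Type} [Countable X] [MeasurableSpace X] [DiscreteMeasurableSpace X] {α β : Equiv.Perm X}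

private theorem int_mul {U : Set (ℝ × ℝ)} {F : ℝ × ℝ → ℂ} (hF : IntegrableOn F U)
    {χ : ℝ × ℝ → ℂ} (hχ : ContDiff ℝ (⊤ : ℕ∞) χ) (hc : HasCompactSupport χ) (hs : tsupport χ ⊆ U)
    (e : ℝ × ℝ) : Integrable (fun p => F p * fderiv ℝ χ p e) := by
  have hk : Continuous (fun p => fderiv ℝ χ p e) :=
    (hχ.continuous_fderiv (by simp)).clm_apply continuous_const
  have hkc : HasCompactSupport (fun p => fderiv ℝ χ p e) :=
    (hc.fderiv ℝ).comp_left (g := fun A : (ℝ × ℝ) →L[ℝ] ℂ => A e) rfl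
  obtain ⟨C, hC⟩ := hkc.exists_bound_of_continuous hk
  have h1 : IntegrableOn (fun p => F p * fderiv ℝ χ p e) U :=
    Integrable.mul_bdd (c := C) hF hk.aestronglyMeasurable (Eventually.of_forall hC)
  refine (integrableOn_iff_integrable_of_support_subset ?_).1 h1
  intro p hp
  apply hs
  apply tsupport_fderiv_subset ℝ
  apply subset_tsupport
  intro h0
  apply hp
  show F p * fderiv ℝ χ p e = 0
  rw [h0]
  simp

/-- the weak equation in a chart -/
private theorem weak_chart {τ : ℂ} {v : KK X}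
    (hv : ∀ χ ∈ H1 α β, inner ℂ (χ 2 - conj τ • χ 1) v = 0) {U : Set (ℝ × ℝ)}
    {s : X} (hint : IntegrableOn (ext α β (fun s p => (v : Sq X → ℂ) (s, p)) s) U)
    {χ : ℝ × ℝ → ℂ} (hχ : ContDiff ℝ (⊤ : ℕ∞) χ) (hc : HasCompactSupport χ) (hs : tsupport χ ⊆ U)
    (hT : ∃ L : X → ℝ × ℝ → ℂ, Nice α β L (fun _ => 0) ∧ FinS L ∧
      ∀ f : Sq X → ℂ, AEStronglyMeasurable f (mu X) → (∀ s, IntegrableOn (fun p => f (s, p)) unitSq) →
        ∫ q, f q * fl L q ∂(mu X) = ∫ p, ext α β (fun s p => f (s, p)) s p * χ p ∧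
        ∫ q, f q * fl (dx L) q ∂(mu X) =
          ∫ p, ext α β (fun s p => f (s, p)) s p * fderiv ℝ χ p (1, 0) ∧
        ∫ q, f q * fl (dy L) q ∂(mu X) =
          ∫ p, ext α β (fun s p => f (s, p)) s p * fderiv ℝ χ p (0, 1)) :
    ∫ p, ext α β (fun s p => (v : Sq X → ℂ) (s, p)) s p *
      (τ * fderiv ℝ χ p (1, 0) - fderiv ℝ χ p (0, 1)) = 0 := by
  obtain ⟨L, hL, hLF, hLI⟩ := hT
  obtain ⟨-, hI1, hI2⟩ := hLI v (Lp.aestronglyMeasurable v)
    (fun s => (slice_int (Lp.memLp v) s).1)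
  have h1 := hv _ (H1_conj (trip_mem hL hLF))
  have m1 : MemLp (fl (dx L)) 2 (mu X) := nice_memLp (nice_dx hL) (finS_dx hLF).1 2
  have m2 : MemLp (fl (dy L)) 2 (mu X) := nice_memLp (nice_dy hL) (finS_dx hLF).2 2
  have e1 : (J3 (trip L)) 1 = JK X (cls (fl (dx L))) := rfl
  have e2 : (J3 (trip L)) 2 = JK X (cls (fl (dy L))) := rfl
  rw [e1, e2, inner_KK] at h1
  have h2 : ∫ q, ((v : Sq X → ℂ) q * fl (dy L) q - τ * ((v : Sq X → ℂ) q * fl (dx L) q)) ∂(mu X)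
      = 0 := by
    rw [← h1]
    apply integral_congr_ae
    filter_upwards [JK_ae (cls (fl (dx L))), JK_ae (cls (fl (dy L))), cls_ae m1, cls_ae m2,
      Lp.coeFn_sub (JK X (cls (fl (dy L)))) (conj τ • JK X (cls (fl (dx L)))),
      Lp.coeFn_smul (conj τ) (JK X (cls (fl (dx L))))] with q a1 a2 a3 a4 a5 a6
    rw [a5, Pi.sub_apply, a6, Pi.smul_apply, a1, a2, a3, a4, smul_eq_mul, map_sub, map_mul,
      Complex.conj_conj, Complex.conj_conj, Complex.conj_conj]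
    ring
  have i1 : Integrable (fun q => (v : Sq X → ℂ) q * fl (dx L) q) (mu X) :=
    (Lp.memLp v).integrable_mul m1
  have i2 : Integrable (fun q => (v : Sq X → ℂ) q * fl (dy L) q) (mu X) :=
    (Lp.memLp v).integrable_mul m2
  rw [integral_sub i2 (i1.const_mul τ), integral_const_mul, hI1, hI2] at h2
  have j1 := int_mul hint hχ hc hs (1, 0)
  have j2 := int_mul hint hχ hc hs (0, 1)
  have h3 : ∫ p, ext α β (fun s p => (v : Sq X → ℂ) (s, p)) s p *
      (τ * fderiv ℝ χ p (1, 0) - fderiv ℝ χ p (0, 1)) =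
      τ * (∫ p, ext α β (fun s p => (v : Sq X → ℂ) (s, p)) s p * fderiv ℝ χ p (1, 0)) -
        ∫ p, ext α β (fun s p => (v : Sq X → ℂ) (s, p)) s p * fderiv ℝ χ p (0, 1) := by
    rw [← integral_const_mul, ← integral_sub (j1.const_mul τ) j2]
    apply integral_congr_ae
    refine Eventually.of_forall fun p => ?_
    simp only
    ring
  rw [h3]
  linear_combination -h2

private theorem chart_hol {τ : ℂ} (hτ : τ ∈ HH) {v : KK X}
    (hv : ∀ χ ∈ H1 α β, inner ℂ (χ 2 - conj τ • χ 1) v = 0) {U : Set (ℝ × ℝ)} (hU : IsOpen U)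
    (s : X) (hint : IntegrableOn (ext α β (fun s p => (v : Sq X → ℂ) (s, p)) s) U)
    (hT : ∀ χ : ℝ × ℝ → ℂ, ContDiff ℝ (⊤ : ℕ∞) χ → HasCompactSupport χ → tsupport χ ⊆ U →
      ∃ L : X → ℝ × ℝ → ℂ, Nice α β L (fun _ => 0) ∧ FinS L ∧
      ∀ f : Sq X → ℂ, AEStronglyMeasurable f (mu X) → (∀ s, IntegrableOn (fun p => f (s, p)) unitSq) →
        ∫ q, f q * fl L q ∂(mu X) = ∫ p, ext α β (fun s p => f (s, p)) s p * χ p ∧
        ∫ q, f q * fl (dx L) q ∂(mu X) =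
          ∫ p, ext α β (fun s p => f (s, p)) s p * fderiv ℝ χ p (1, 0) ∧
        ∫ q, f q * fl (dy L) q ∂(mu X) =
          ∫ p, ext α β (fun s p => f (s, p)) s p * fderiv ℝ χ p (0, 1)) :
    ∃ g : ℂ → ℂ, DifferentiableOn ℂ g (zt τ '' U) ∧
      (∀ᵐ p ∂(volume.restrict U), ext α β (fun s p => (v : Sq X → ℂ) (s, p)) s p = g (zt τ p)) ∧
      ∀ p ∈ U, pv α β (v : Sq X → ℂ) s p = g (zt τ p) := by
  obtain ⟨g, hg, hae⟩ := weyl τ hτ U hU (ext α β (fun s p => (v : Sq X → ℂ) (s, p)) s)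
    hint.locallyIntegrableOn (fun χ h1 h2 h3 => weak_chart hv hint h1 h2 h3 (hT χ h1 h2 h3))
  refine ⟨g, hg, hae, fun p hp => ?_⟩
  refine pv_eq hU (g := fun p => g (zt τ p)) hae ?_ hp
  have hz : Continuous (zt τ) :=
    continuous_iff_continuousAt.2 fun p => (hasFDerivAt_zt τ p).continuousAt
  exact hg.continuousOn.comp hz.continuousOn (fun q hq => Set.mem_image_of_mem _ hq)

theorem holC_of {τ : ℂ} (hτ : τ ∈ HH) (v : KK X)
    (hv : ∀ χ ∈ H1 α β, inner ℂ (χ 2 - conj τ • χ 1) v = 0) :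
    HolC α β τ (pv α β (v : Sq X → ℂ)) ∧
      ∀ s, ∀ᵐ p ∂(volume.restrict unitSq), (v : Sq X → ℂ) (s, p) = pv α β (v : Sq X → ℂ) s p := by
  have hsl : ∀ s, IntegrableOn (fun p => (v : Sq X → ℂ) (s, p)) unitSq :=
    fun s => (slice_int (Lp.memLp v) s).1
  have hR : ∀ s, ∃ g : ℂ → ℂ, DifferentiableOn ℂ g (zt τ '' Rc) ∧
      (∀ᵐ p ∂(volume.restrict Rc), ext α β (fun s p => (v : Sq X → ℂ) (s, p)) s p = g (zt τ p)) ∧
      ∀ p ∈ Rc, pv α β (v : Sq X → ℂ) s p = g (zt τ p) := fun s =>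
    chart_hol hτ hv isOpen_Rc.1 s (ext_intOn α β hsl s).1 (fun χ h1 h2 h3 => test_R α β h1 h2 h3 s)
  have hK : ∀ s, ∃ g : ℂ → ℂ, DifferentiableOn ℂ g (zt τ '' Kc) ∧
      (∀ᵐ p ∂(volume.restrict Kc), ext α β (fun s p => (v : Sq X → ℂ) (s, p)) s p = g (zt τ p)) ∧
      ∀ p ∈ Kc, pv α β (v : Sq X → ℂ) s p = g (zt τ p) := fun s =>
    chart_hol hτ hv isOpen_Kc.1 s (ext_intOn α β hsl s).2 (fun χ h1 h2 h3 => test_K α β h1 h2 h3 s)
  have hglue := pv_glue (α := α) (β := β) (v : Sq X → ℂ)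
  refine ⟨⟨hglue, fun s z hz => ?_⟩, fun s => ?_⟩
  · -- local differentiability
    obtain ⟨σ, a, ha, hloc⟩ := cross_chart α β s hz
    have hev := hloc _ hglue
    have hev' : ∀ᶠ z' in 𝓝 z, pv α β (v : Sq X → ℂ) s (zinv τ z') =
        pv α β (v : Sq X → ℂ) σ (zinv τ z' + a) :=
      (continuous_zinv τ).continuousAt.eventually hev
    have main : ∀ U : Set (ℝ × ℝ), IsOpen U → zinv τ z + a ∈ U →
        (∃ g : ℂ → ℂ, DifferentiableOn ℂ g (zt τ '' U) ∧
          ∀ p ∈ U, pv α β (v : Sq X → ℂ) σ p = g (zt τ p)) →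
        DifferentiableWithinAt ℂ (fun z => pv α β (v : Sq X → ℂ) s (zinv τ z))
          {z | zinv τ z ∈ Cross} z := by
      rintro U hU haU ⟨g, hg, hgU⟩
      have hUo : IsOpen (zt τ '' U) := by
        rw [image_zt hτ]
        exact isOpen_zinv τ hU
      have hzz : ∀ z', zt τ (zinv τ z' + a) = z' + zt τ a := by
        intro z'
        rw [zt_add, zt_zinv hτ]
      have h1 : ∀ᶠ z' in 𝓝 z, zinv τ z' + a ∈ U :=
        ((continuous_zinv τ).add continuous_const).continuousAt.eventually (hU.mem_nhds haU)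
      have h2 : (fun z => pv α β (v : Sq X → ℂ) s (zinv τ z)) =ᶠ[𝓝 z] fun z' => g (z' + zt τ a) := by
        filter_upwards [hev', h1] with z' b1 b2
        rw [b1, hgU _ b2, hzz]
      have h3 : DifferentiableAt ℂ g (z + zt τ a) := by
        apply (hg _ _).differentiableAt (hUo.mem_nhds _)
        · rw [← hzz]
          exact Set.mem_image_of_mem _ haU
        · rw [← hzz]
          exact Set.mem_image_of_mem _ haU
      have h4 : DifferentiableAt ℂ (fun z' => g (z' + zt τ a)) z :=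
        DifferentiableAt.comp z h3 (differentiableAt_id.add_const _)
      exact (h4.congr_of_eventuallyEq h2).differentiableWithinAt
    rcases ha with ha | ha
    · obtain ⟨g, g1, g2, g3⟩ := hR σ
      exact main Rc isOpen_Rc.1 ha ⟨g, g1, g3⟩
    · obtain ⟨g, g1, g2, g3⟩ := hK σ
      exact main Kc isOpen_Kc.1 ha ⟨g, g1, g3⟩
  · obtain ⟨g, g1, g2, g3⟩ := hR s
    have hsub : unitSq ⊆ Rc := by
      rintro ⟨x, y⟩ ⟨hx, hy⟩
      exact ⟨⟨by linarith [hx.1], hx.2⟩, hy⟩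
    have hm : MeasurableSet unitSq := measurableSet_Ioo.prod measurableSet_Ioo
    have h1 := ae_restrict_of_ae_restrict_of_subset hsub g2
    filter_upwards [h1, ae_restrict_mem hm] with p hp1 hp2
    rw [g3 p (hsub hp2), ← hp1, ext_sq _ s hp2]

theorem holC_hh (hSG : SG α β) {w : X → ℝ} (hw : InW α β w) {τ : ℂ} (hτ : τ ∈ HH) :
    HolC α β τ (pv α β (hh α β w τ : Sq X → ℂ)) ∧
      ∀ s, ∀ᵐ p ∂(volume.restrict unitSq),
        (hh α β w τ : Sq X → ℂ) (s, p) = pv α β (hh α β w τ : Sq X → ℂ) s p :=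
  holC_of hτ _ fun _ hχ => hh_weq hSG hw hτ hχ

end Pool.Agent.Helper96.OF
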