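import Pool.Agent.Helper42.OF.L04

/-!
# OFL-L05: unique continuation

Z = set of squares s with `∀ p ∈ Cross, h s p = 0`. s0 ∈ Z: `AnalyticOnNhd.eqOn_zero_of_preconnected_of_frequently_eq_zero` on the open preconnected set {z | zinv τ z ∈ Cross} (L02 cross_preconn; DifferentiableOn.analyticOnNhd).
s ∈ Z ⟹ α s ∈ Z: `h (α s) (x,y) = h s (x+1,y) = 0` for 0<y<1: vanishes on an open subset, so everywhere by the same identity theorem. Same for α⁻¹ (h s = h (α (α⁻¹ s))), β, β⁻¹. Conn: closure induction.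
-/

set_option autoImplicit false

open MeasureTheory Filter Topology
open scoped ComplexConjugate

namespace Pool.Agent.Helper96.OF

variable {X : Type}

private theorem l05_step {α β : Equiv.Perm X} {τ : ℂ} (hτ : τ ∈ HH) {h : X → ℝ × ℝ → ℂ}
    (hh : HolC α β τ h) (s : X) {p0 : ℝ × ℝ} (hp0 : p0 ∈ Cross)
    (hz : ∃ᶠ z in 𝓝[≠] (zt τ p0), h s (zinv τ z) = 0) : ∀ p ∈ Cross, h s p = 0 := by
  have hU : IsOpen {z | zinv τ z ∈ Cross} := isOpen_zinv τ isOpen_cross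
  have hp0' : zt τ p0 ∈ {z | zinv τ z ∈ Cross} := by
    change zinv τ (zt τ p0) ∈ Cross
    rwa [zinv_zt hτ]
  have h1 := ((hh.hol s).analyticOnNhd hU).eqOn_zero_of_preconnected_of_frequently_eq_zero
    (cross_preconn hτ) hp0' hz
  intro p hp
  have hp' : zt τ p ∈ {z | zinv τ z ∈ Cross} := by
    change zinv τ (zt τ p) ∈ Cross
    rwa [zinv_zt hτ]
  have h2 := h1 hp'
  simpa [zinv_zt hτ] using h2

private theorem l05_open {α β : Equiv.Perm X} {τ : ℂ} (hτ : τ ∈ HH) {h : X → ℝ × ℝ → ℂ}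
    (hh : HolC α β τ h) (s : X) {p0 : ℝ × ℝ} {V : Set (ℝ × ℝ)} (hV : IsOpen V) (hVC : V ⊆ Cross)
    (hp0 : p0 ∈ V) (hz : ∀ p ∈ V, h s p = 0) : ∀ p ∈ Cross, h s p = 0 := by
  apply l05_step hτ hh s (hVC hp0)
  apply Filter.Eventually.frequently
  apply Filter.Eventually.filter_mono nhdsWithin_le_nhds
  have h1 : {z | zinv τ z ∈ V} ∈ 𝓝 (zt τ p0) := by
    apply (isOpen_zinv τ hV).mem_nhds
    change zinv τ (zt τ p0) ∈ V
    rwa [zinv_zt hτ]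
  filter_upwards [h1] with z hz'
  exact hz _ hz'

theorem uniq_cont {α β : Equiv.Perm X} (hconn : Conn α β) {τ : ℂ} (hτ : τ ∈ HH) {h : X → ℝ × ℝ → ℂ}
    (hh : HolC α β τ h) (s0 : X) {p0 : ℝ × ℝ} (hp0 : p0 ∈ Cross)
    (hz : ∃ᶠ z in 𝓝[≠] (zt τ p0), h s0 (zinv τ z) = 0) : ∀ s, ∀ p ∈ Cross, h s p = 0 := by
  have hrow : IsOpen {p : ℝ × ℝ | 0 < p.2 ∧ p.2 < 1} :=
    (isOpen_lt continuous_const continuous_snd).inter (isOpen_lt continuous_snd continuous_const)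
  have hcol : IsOpen {p : ℝ × ℝ | 0 < p.1 ∧ p.1 < 1} :=
    (isOpen_lt continuous_const continuous_fst).inter (isOpen_lt continuous_fst continuous_const)
  have hpr : ((1 / 2, 1 / 2) : ℝ × ℝ) ∈ {p : ℝ × ℝ | 0 < p.2 ∧ p.2 < 1} := by
    constructor <;> norm_num
  have hpc : ((1 / 2, 1 / 2) : ℝ × ℝ) ∈ {p : ℝ × ℝ | 0 < p.1 ∧ p.1 < 1} := by
    constructor <;> norm_num
  have hrC : {p : ℝ × ℝ | 0 < p.2 ∧ p.2 < 1} ⊆ Cross := fun p hp => Or.inl hp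
  have hcC : {p : ℝ × ℝ | 0 < p.1 ∧ p.1 < 1} ⊆ Cross := fun p hp => Or.inr hp
  have a1 : ∀ s, (∀ p ∈ Cross, h s p = 0) → ∀ p ∈ Cross, h (α s) p = 0 := by
    intro s hs
    refine l05_open hτ hh (α s) hrow hrC hpr ?_
    rintro ⟨x, y⟩ ⟨h1, h2⟩
    rw [← hh.glue.row s x y h1 h2]
    exact hs _ (Or.inl ⟨h1, h2⟩)
  have a2 : ∀ s, (∀ p ∈ Cross, h (α s) p = 0) → ∀ p ∈ Cross, h s p = 0 := by
    intro s hs
    refine l05_open hτ hh s hrow hrC hpr ?_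
    rintro ⟨x, y⟩ ⟨h1, h2⟩
    have h3 := hh.glue.row s (x - 1) y h1 h2
    rw [sub_add_cancel] at h3
    rw [h3]
    exact hs _ (Or.inl ⟨h1, h2⟩)
  have b1 : ∀ s, (∀ p ∈ Cross, h s p = 0) → ∀ p ∈ Cross, h (β s) p = 0 := by
    intro s hs
    refine l05_open hτ hh (β s) hcol hcC hpc ?_
    rintro ⟨x, y⟩ ⟨h1, h2⟩
    rw [← hh.glue.col s x y h1 h2]
    exact hs _ (Or.inr ⟨h1, h2⟩)
  have b2 : ∀ s, (∀ p ∈ Cross, h (β s) p = 0) → ∀ p ∈ Cross, h s p = 0 := by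
    intro s hs
    refine l05_open hτ hh s hcol hcC hpc ?_
    rintro ⟨x, y⟩ ⟨h1, h2⟩
    have h3 := hh.glue.col s x (y - 1) h1 h2
    rw [sub_add_cancel] at h3
    rw [h3]
    exact hs _ (Or.inr ⟨h1, h2⟩)
  have key : ∀ g ∈ Subgroup.closure ({α, β} : Set (Equiv.Perm X)), ∀ s,
      (∀ p ∈ Cross, h s p = 0) ↔ ∀ p ∈ Cross, h (g s) p = 0 := by
    intro g hg
    induction hg using Subgroup.closure_induction with
    | mem g hg =>
      rcases hg with rfl | rfl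
      · exact fun s => ⟨a1 s, a2 s⟩
      · exact fun s => ⟨b1 s, b2 s⟩
    | one => exact fun s => Iff.rfl
    | mul g g' _ _ i1 i2 => exact fun s => (i2 s).trans (i1 (g' s))
    | inv g _ i1 =>
      intro s
      have h1 := i1 (g⁻¹ s)
      rw [show g (g⁻¹ s) = s by simp] at h1
      exact h1.symm
  intro s
  obtain ⟨g, hg, rfl⟩ := hconn s0 s
  exact (key g hg s0).1 (l05_step hτ hh s0 hp0 hz)

variable [Countable X] [MeasurableSpace X] [DiscreteMeasurableSpace X] {α β : Equiv.Perm X}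

omit [DiscreteMeasurableSpace X] in
private theorem l05_ae {P : Sq X → Prop}
    (h : ∀ s, ∀ᵐ p ∂((volume : Measure (ℝ × ℝ)).restrict unitSq), P (s, p)) :
    ∀ᵐ q ∂(mu X), P q := by
  have h1 : {q : Sq X | ¬ P q} ⊆ ⋃ s : X, ({s} : Set X) ×ˢ {p | ¬ P (s, p)} := by
    rintro ⟨s, p⟩ hq
    exact Set.mem_iUnion.2 ⟨s, rfl, hq⟩
  refine measure_mono_null h1 (measure_iUnion_null fun s => ?_)
  rw [mu, Measure.prod_prod]
  have h2 : ((volume : Measure (ℝ × ℝ)).restrict unitSq) {p | ¬ P (s, p)} = 0 := h s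
  rw [h2, mul_zero]

theorem hh_zero_of (hSG : SG α β) (hconn : Conn α β) {w : X → ℝ} (hw : InW α β w) {τ : ℂ}
    (hτ : τ ∈ HH) (s0 : X) {p0 : ℝ × ℝ} (hp0 : p0 ∈ Cross)
    (hz : ∃ᶠ z in 𝓝[≠] (zt τ p0), pv α β (hh α β w τ : Sq X → ℂ) s0 (zinv τ z) = 0) :
    hh α β w τ = 0 := by
  obtain ⟨h1, h2⟩ := holC_hh hSG hw hτ
  have h3 := uniq_cont hconn hτ h1 s0 hp0 hz
  have h4 : ∀ᵐ q ∂(mu X), (hh α β w τ : Sq X → ℂ) q = 0 := by
    refine l05_ae fun s => ?_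
    have h8 : ∀ᵐ p ∂((volume : Measure (ℝ × ℝ)).restrict unitSq), p ∈ unitSq :=
      ae_restrict_mem (measurableSet_Ioo.prod measurableSet_Ioo)
    filter_upwards [h2 s, h8] with p hp hp'
    rw [hp]
    exact h3 s p (Or.inl ⟨hp'.2.1, hp'.2.2⟩)
  exact Lp.eq_zero_iff_ae_eq_zero.2 h4

end Pool.Agent.Helper96.OF
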