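import Pool.Agent.Helper42.OF.L02

/-!
# OFL-L06: the developing map around a corner

Let z = exp t, p = (x,y) = zinv τ z, j = ⌊im t/(2π)⌋, φ = fract(im t/(2π)). y > 0 iff 0 < φ < 1/2, y < 0 iff 1/2 < φ, φ = 0: y = 0 < x, φ = 1/2: y = 0 > x (im (exp t) = e^{re t} sin(im t)). |x|,|y| < 1/3 by rd_bound.
`dev_local`: (a) 0<φ<1/2: σ = ζ^j s0, a = 0, near t the same branch; p ∈ row strip. (b) 1/2<φ<1: σ = β⁻¹α⁻¹ζ^j s0, a = (1,1), 0 < y+1 < 1.
(c) φ = 1/2: σ = β⁻¹α⁻¹ζ^j s0, a = (1,1), (x+1, 1) ∈ Cross. For t' near t with y' ≤ 0 by definition; for y' > 0 (x' < 0 small): f(ζ^j s0)(x',y') = f(α⁻¹ζ^j s0)(x'+1,y') [row] = f(β⁻¹α⁻¹ζ^j s0)(x'+1,y'+1) [col].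
(d) φ = 0: σ = ζ^j s0, a = 0, (x,0) ∈ Cross. For t' near t with im t' < im t: j' = j-1 and f(β⁻¹α⁻¹ζ^{j-1}s0)(x'+1,y'+1) = f(αβ⁻¹α⁻¹ζ^{j-1}s0)(x',y'+1) [row, 0<y'+1<1] = f(βαβ⁻¹α⁻¹ζ^{j-1}s0)(x',y') [col, 0<x'<1] = f(ζ^j s0)(x',y').
`dev_period`: im increases by 2πk, floor by k, fract unchanged, exp unchanged, ζ^{j+k} s0 = ζ^j s0.
`dev_hol`: dev_local: near t `h σ (zinv τ (exp t') + a) = H (exp t' + zt τ a)`, H = h σ ∘ zinv τ (zinv_add, zinv_zt), complex differentiable at exp t + zt τ a.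
`dev_log`: im log ∈ (0,π) for 0 < p.2: floor((im log + 2πj)/2π) = j, fract < 1/2; exp(log z) = z.
`dev_box`: for the L² estimate (L08): for every t with exp(re t) < rd τ there are σ and a with `dev f t = f σ (p + a)`, and (p + a in Rc, ball(p+a, ‖p‖/2) ⊆ Rc) or the same for Kc, and both squares of that chart belong to the star:
 y>0, |x| ≤ y: σ = ζ^j s0, a = 0, Rc [squares ζ^j s0, α⁻¹ζ^j s0]. y<0, |x| ≤ |y|: by row f(β⁻¹α⁻¹ζ^j s0)(x+1,y+1) = f(αβ⁻¹α⁻¹ζ^j s0)(x,y+1), σ = αβ⁻¹α⁻¹ζ^j s0 = β⁻¹ζ^{j+1}s0, a = (0,1), Rc [squares β⁻¹ζ^{j+1}s0, α⁻¹σ = β⁻¹α⁻¹ζ^j s0].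
 x>0, |y|<x: y ≥ 0: σ = ζ^j s0, a = 0, Kc [ζ^j s0, β⁻¹ζ^j s0]; y<0: σ = ζ^{j+1}s0, a = 0 (as in (d)). x<0, |y|<|x|: σ = α⁻¹ζ^j s0, a = (1,0), Kc [squares α⁻¹ζ^j s0, β⁻¹α⁻¹ζ^j s0] (y ≤ 0: f(β⁻¹α⁻¹ζ^j s0)(x+1,y+1) = f(α⁻¹ζ^j s0)(x+1,y) by col).
 (‖p‖ = max(|x|,|y|).)
-/

set_option autoImplicit false

open MeasureTheory Filter Topology
open scoped ComplexConjugate

namespace Pool.Agent.Helper96.OF

variable {X : Type} {α β : Equiv.Perm X}

namespace L06

/-- the angle divided by `2π` -/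
noncomputable def th (t : ℂ) : ℝ := t.im / (2 * Real.pi)

theorem im_eq (t : ℂ) : t.im = 2 * Real.pi * Int.fract (th t) + (⌊th t⌋ : ℝ) * (2 * Real.pi) := by
  have h1 : Int.fract (th t) = th t - ⌊th t⌋ := rfl
  rw [h1]
  unfold th
  have : Real.pi ≠ 0 := Real.pi_ne_zero
  field_simp
  ring

theorem sin_im (t : ℂ) : Real.sin t.im = Real.sin (2 * Real.pi * Int.fract (th t)) := by
  conv_lhs => rw [im_eq t, Real.sin_add_int_mul_two_pi]

theorem cos_im (t : ℂ) : Real.cos t.im = Real.cos (2 * Real.pi * Int.fract (th t)) := by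
  conv_lhs => rw [im_eq t, Real.cos_add_int_mul_two_pi]

theorem zy (τ t : ℂ) : (zinv τ (Complex.exp t)).2 =
    Real.exp t.re * Real.sin (2 * Real.pi * Int.fract (th t)) / τ.im := by
  show (Complex.exp t).im / τ.im = _
  rw [Complex.exp_im, sin_im]

theorem zx (τ t : ℂ) : (zinv τ (Complex.exp t)).1 =
    Real.exp t.re * Real.cos (2 * Real.pi * Int.fract (th t)) -
      τ.re * (zinv τ (Complex.exp t)).2 := by
  show (Complex.exp t).re - τ.re * ((Complex.exp t).im / τ.im) = _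
  rw [Complex.exp_re, cos_im]
  rfl

theorem yA {τ : ℂ} (hτ : τ ∈ HH) {t : ℂ} (h0 : 0 < Int.fract (th t))
    (h1 : Int.fract (th t) < 1 / 2) : 0 < (zinv τ (Complex.exp t)).2 := by
  rw [zy]
  have hp := Real.pi_pos
  have hs : 0 < Real.sin (2 * Real.pi * Int.fract (th t)) :=
    Real.sin_pos_of_pos_of_lt_pi (by positivity) (by nlinarith)
  have hi : (0:ℝ) < τ.im := hτ
  have := Real.exp_pos t.re
  positivity

theorem yB {τ : ℂ} (hτ : τ ∈ HH) {t : ℂ} (h0 : 1 / 2 < Int.fract (th t)) :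
    (zinv τ (Complex.exp t)).2 < 0 := by
  rw [zy]
  have hp := Real.pi_pos
  have h1 := Int.fract_lt_one (th t)
  have hs : Real.sin (2 * Real.pi * Int.fract (th t)) < 0 := by
    have h2 : 0 < Real.sin (2 * Real.pi * Int.fract (th t) - Real.pi) :=
      Real.sin_pos_of_pos_of_lt_pi (by nlinarith) (by nlinarith)
    rw [Real.sin_sub_pi] at h2
    linarith
  have hi : (0:ℝ) < τ.im := hτ
  have := Real.exp_pos t.re
  exact div_neg_of_neg_of_pos (mul_neg_of_pos_of_neg this hs) hi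

theorem xyC (τ : ℂ) {t : ℂ} (h0 : Int.fract (th t) = 0) :
    (zinv τ (Complex.exp t)).2 = 0 ∧ 0 < (zinv τ (Complex.exp t)).1 := by
  have h2 : (zinv τ (Complex.exp t)).2 = 0 := by
    rw [zy, h0]; simp
  refine ⟨h2, ?_⟩
  rw [zx, h2, h0]
  have := Real.exp_pos t.re
  simpa using this

theorem xyD (τ : ℂ) {t : ℂ} (h0 : Int.fract (th t) = 1 / 2) :
    (zinv τ (Complex.exp t)).2 = 0 ∧ (zinv τ (Complex.exp t)).1 < 0 := by
  have h3 : 2 * Real.pi * (1 / 2 : ℝ) = Real.pi := by ring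
  have h2 : (zinv τ (Complex.exp t)).2 = 0 := by
    rw [zy, h0, h3, Real.sin_pi]; simp
  refine ⟨h2, ?_⟩
  rw [zx, h2, h0, h3, Real.cos_pi]
  have := Real.exp_pos t.re
  linarith

theorem xy_bd {τ : ℂ} (hτ : τ ∈ HH) {t : ℂ} (ht : Real.exp t.re < rd τ) :
    |(zinv τ (Complex.exp t)).1| < 1 / 3 ∧ |(zinv τ (Complex.exp t)).2| < 1 / 3 :=
  rd_bound hτ (by rw [Complex.norm_exp]; exact ht)

variable {X : Type} {α β : Equiv.Perm X}

theorem dev_lt {E : Type} (τ : ℂ) (s0 : X) (f : X → ℝ × ℝ → E) {t : ℂ} {j : ℤ}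
    (h1 : (j : ℝ) ≤ th t) (h2 : th t < j + 1 / 2) :
    dev α β τ s0 f t = f ((zeta α β ^ j) s0) (zinv τ (Complex.exp t)) := by
  have hfl : ⌊th t⌋ = j := by
    rw [Int.floor_eq_iff]
    exact ⟨h1, by linarith⟩
  have hfr : Int.fract (th t) < 1 / 2 := by
    have : Int.fract (th t) = th t - ⌊th t⌋ := rfl
    rw [this, hfl]; linarith
  have hfr' : Int.fract (t.im / (2 * Real.pi)) < 1 / 2 := hfr
  unfold dev
  rw [if_pos hfr']
  have h3 : ⌊t.im / (2 * Real.pi)⌋ = j := hfl
  rw [h3]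

theorem dev_ge {E : Type} (τ : ℂ) (s0 : X) (f : X → ℝ × ℝ → E) {t : ℂ} {j : ℤ}
    (h1 : (j : ℝ) + 1 / 2 ≤ th t) (h2 : th t < j + 1) :
    dev α β τ s0 f t = f (β⁻¹ (α⁻¹ ((zeta α β ^ j) s0))) (zinv τ (Complex.exp t) + (1, 1)) := by
  have hfl : ⌊th t⌋ = j := by
    rw [Int.floor_eq_iff]
    exact ⟨by linarith, h2⟩
  have hfr : ¬ Int.fract (th t) < 1 / 2 := by
    have : Int.fract (th t) = th t - ⌊th t⌋ := rfl
    rw [this, hfl]; linarith
  have hfr' : ¬ Int.fract (t.im / (2 * Real.pi)) < 1 / 2 := hfr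
  unfold dev
  rw [if_neg hfr']
  have h3 : ⌊t.im / (2 * Real.pi)⌋ = j := hfl
  rw [h3]

theorem ai (γ : Equiv.Perm X) (s : X) : γ (γ⁻¹ s) = s := γ.apply_symm_apply s

theorem ia (γ : Equiv.Perm X) (s : X) : γ⁻¹ (γ s) = s := γ.symm_apply_apply s

theorem cont_th : Continuous th := by
  unfold th
  exact Complex.continuous_im.div_const _

theorem cont_p (τ : ℂ) : Continuous fun t => zinv τ (Complex.exp t) :=
  (continuous_zinv τ).comp Complex.continuous_exp

theorem zsucc (s0 : X) (j : ℤ) : β (α (β⁻¹ (α⁻¹ ((zeta α β ^ j) s0)))) =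
    (zeta α β ^ (j + 1)) s0 := by
  rw [add_comm, zpow_add, zpow_one]
  rfl

/-- crossing the negative real axis -/
theorem cross_neg {E : Type} {f : X → ℝ × ℝ → E} (hf : Glue α β f) (s : X) {p : ℝ × ℝ}
    (h1 : 0 < p.2) (h2 : p.2 < 1) (h3 : -1 < p.1) (h4 : p.1 < 0) :
    f s p = f (β⁻¹ (α⁻¹ s)) (p + (1, 1)) := by
  obtain ⟨x, y⟩ := p
  simp only at h1 h2 h3 h4
  have e1 := hf.row (α⁻¹ s) x y h1 h2
  have e2 := hf.col (β⁻¹ (α⁻¹ s)) (x + 1) y (by linarith) (by linarith)
  rw [ai] at e1 e2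
  show f s (x, y) = f (β⁻¹ (α⁻¹ s)) (x + 1, y + 1)
  rw [e2, e1]

/-- crossing the positive real axis -/
theorem cross_pos {E : Type} {f : X → ℝ × ℝ → E} (hf : Glue α β f) (s : X) {p : ℝ × ℝ}
    (h1 : -1 < p.2) (h2 : p.2 < 0) (h3 : 0 < p.1) (h4 : p.1 < 1) :
    f s (p + (1, 1)) = f (β (α s)) p := by
  obtain ⟨x, y⟩ := p
  simp only at h1 h2 h3 h4
  have e1 := hf.row s x (y + 1) (by linarith) (by linarith)
  have e2 := hf.col (α s) x y h3 h4
  show f s (x + 1, y + 1) = f (β (α s)) (x, y)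
  rw [e1, e2]

end L06

open L06

theorem dev_local {τ : ℂ} (hτ : τ ∈ HH) (s0 : X) {t : ℂ} (ht : Real.exp t.re < rd τ) :
    ∃ (σ : X) (a : ℝ × ℝ), zinv τ (Complex.exp t) + a ∈ Cross ∧
      ∀ {E : Type} (f : X → ℝ × ℝ → E), Glue α β f →
        ∀ᶠ t' in 𝓝 t, dev α β τ s0 f t' = f σ (zinv τ (Complex.exp t') + a) := by
  obtain ⟨hx, hy⟩ := xy_bd hτ ht
  rw [abs_lt] at hx hy
  have hnear : ∀ᶠ t' in 𝓝 t, Real.exp t'.re < rd τ := by
    have hc : Continuous fun t' : ℂ => Real.exp t'.re := Real.continuous_exp.comp Complex.continuous_re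
    exact hc.continuousAt.eventually_lt continuousAt_const ht
  set j : ℤ := ⌊th t⌋ with hj
  have hfr : Int.fract (th t) = th t - j := rfl
  have hfr0 := Int.fract_nonneg (th t)
  have hfr1 := Int.fract_lt_one (th t)
  rcases lt_trichotomy (Int.fract (th t)) (1 / 2) with h12 | h12 | h12
  · rcases hfr0.eq_or_lt with h0 | h0
    · -- on the positive axis
      obtain ⟨hy0, hx0⟩ := xyC τ h0.symm
      refine ⟨(zeta α β ^ j) s0, 0, ?_, ?_⟩
      · rw [add_zero]
        exact Or.inr ⟨hx0, by linarith [hx.2]⟩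
      · intro E f hf
        have hth : th t = j := by rw [← h0] at hfr; linarith
        have e1 : ∀ᶠ t' in 𝓝 t, (j : ℝ) - 1 / 2 < th t' :=
          continuousAt_const.eventually_lt cont_th.continuousAt (by rw [hth]; linarith)
        have e2 : ∀ᶠ t' in 𝓝 t, th t' < (j : ℝ) + 1 / 2 :=
          cont_th.continuousAt.eventually_lt continuousAt_const (by rw [hth]; linarith)
        have e3 : ∀ᶠ t' in 𝓝 t, 0 < (zinv τ (Complex.exp t')).1 :=
          continuousAt_const.eventually_lt (continuous_fst.comp (cont_p τ)).continuousAt hx0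
        filter_upwards [e1, e2, e3, hnear] with t' h1 h2 h3 h4
        obtain ⟨hx', hy'⟩ := xy_bd hτ h4
        rw [abs_lt] at hx' hy'
        rw [add_zero]
        by_cases h5 : (j : ℝ) ≤ th t'
        · exact dev_lt τ s0 f h5 h2
        · push Not at h5
          have h6 : dev α β τ s0 f t' = f (β⁻¹ (α⁻¹ ((zeta α β ^ (j - 1)) s0)))
              (zinv τ (Complex.exp t') + (1, 1)) :=
            dev_ge τ s0 f (by push_cast; linarith) (by push_cast; linarith)
          have h7 : (1:ℝ) / 2 < Int.fract (th t') := by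
            have hfl : ⌊th t'⌋ = j - 1 := by
              rw [Int.floor_eq_iff]
              push_cast
              exact ⟨by linarith, by linarith⟩
            have : Int.fract (th t') = th t' - ⌊th t'⌋ := rfl
            rw [this, hfl]
            push_cast
            linarith
          have h8 := yB hτ h7
          rw [h6, cross_pos hf _ (by linarith [hy'.1]) h8 h3 (by linarith [hx'.2]), zsucc,
            sub_add_cancel]
    · -- upper half plane
      have hy0 := yA hτ h0 h12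
      refine ⟨(zeta α β ^ j) s0, 0, ?_, ?_⟩
      · rw [add_zero]
        exact Or.inl ⟨hy0, by linarith [hy.2]⟩
      · intro E f hf
        have e1 : ∀ᶠ t' in 𝓝 t, (j : ℝ) < th t' :=
          continuousAt_const.eventually_lt cont_th.continuousAt (by linarith)
        have e2 : ∀ᶠ t' in 𝓝 t, th t' < (j : ℝ) + 1 / 2 :=
          cont_th.continuousAt.eventually_lt continuousAt_const (by linarith)
        filter_upwards [e1, e2] with t' h1 h2
        rw [add_zero]
        exact dev_lt τ s0 f h1.le h2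
  · -- on the negative axis
    obtain ⟨hy0, hx0⟩ := xyD τ h12
    refine ⟨β⁻¹ (α⁻¹ ((zeta α β ^ j) s0)), (1, 1), ?_, ?_⟩
    · right
      show 0 < (zinv τ (Complex.exp t)).1 + 1 ∧ (zinv τ (Complex.exp t)).1 + 1 < 1
      exact ⟨by linarith [hx.1], by linarith⟩
    · intro E f hf
      have hth : th t = j + 1 / 2 := by rw [h12] at hfr; linarith
      have e1 : ∀ᶠ t' in 𝓝 t, (j : ℝ) < th t' :=
        continuousAt_const.eventually_lt cont_th.continuousAt (by rw [hth]; linarith)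
      have e2 : ∀ᶠ t' in 𝓝 t, th t' < (j : ℝ) + 1 :=
        cont_th.continuousAt.eventually_lt continuousAt_const (by rw [hth]; linarith)
      have e3 : ∀ᶠ t' in 𝓝 t, (zinv τ (Complex.exp t')).1 < 0 :=
        (continuous_fst.comp (cont_p τ)).continuousAt.eventually_lt continuousAt_const hx0
      filter_upwards [e1, e2, e3, hnear] with t' h1 h2 h3 h4
      obtain ⟨hx', hy'⟩ := xy_bd hτ h4
      rw [abs_lt] at hx' hy'
      by_cases h5 : (j : ℝ) + 1 / 2 ≤ th t'
      · exact dev_ge τ s0 f h5 h2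
      · push Not at h5
        rw [dev_lt τ s0 f h1.le h5]
        have hfl : ⌊th t'⌋ = j := by
          rw [Int.floor_eq_iff]
          exact ⟨h1.le, h2⟩
        have hfr' : Int.fract (th t') = th t' - ⌊th t'⌋ := rfl
        rw [hfl] at hfr'
        have h8 : 0 < (zinv τ (Complex.exp t')).2 := yA hτ (by linarith) (by linarith)
        exact cross_neg hf _ h8 (by linarith [hy'.2]) (by linarith [hx'.1]) h3
  · -- lower half plane
    have hy0 := yB hτ h12
    refine ⟨β⁻¹ (α⁻¹ ((zeta α β ^ j) s0)), (1, 1), ?_, ?_⟩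
    · left
      show 0 < (zinv τ (Complex.exp t)).2 + 1 ∧ (zinv τ (Complex.exp t)).2 + 1 < 1
      exact ⟨by linarith [hy.1], by linarith⟩
    · intro E f hf
      have e1 : ∀ᶠ t' in 𝓝 t, (j : ℝ) + 1 / 2 < th t' :=
        continuousAt_const.eventually_lt cont_th.continuousAt (by linarith)
      have e2 : ∀ᶠ t' in 𝓝 t, th t' < (j : ℝ) + 1 :=
        cont_th.continuousAt.eventually_lt continuousAt_const (by linarith)
      filter_upwards [e1, e2] with t' h1 h2
      exact dev_ge τ s0 f h1.le h2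

theorem dev_period {E : Type} {τ : ℂ} {s0 : X} {k : ℕ} (hs : (zeta α β ^ k) s0 = s0)
    (f : X → ℝ × ℝ → E) (t : ℂ) :
    dev α β τ s0 f (t + 2 * Real.pi * Complex.I * k) = dev α β τ s0 f t := by
  have hp : Real.pi ≠ 0 := Real.pi_ne_zero
  have him : (t + 2 * Real.pi * Complex.I * k).im = t.im + 2 * Real.pi * k := by
    simp
  have hdiv : (t + 2 * Real.pi * Complex.I * k).im / (2 * Real.pi) =
      t.im / (2 * Real.pi) + (k : ℝ) := by
    rw [him]
    field_simp
  have hexp : Complex.exp (t + 2 * Real.pi * Complex.I * k) = Complex.exp t := by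
    have := Complex.exp_periodic.nat_mul k t
    rw [← this]
    congr 1
    ring
  have hz : ∀ j : ℤ, (zeta α β ^ (j + (k : ℤ))) s0 = (zeta α β ^ j) s0 := by
    intro j
    rw [zpow_add, Equiv.Perm.mul_apply, zpow_natCast, hs]
  unfold dev
  rw [hdiv, hexp, Int.fract_add_natCast, Int.floor_add_natCast, hz]

theorem dev_hol {τ : ℂ} (hτ : τ ∈ HH) {h : X → ℝ × ℝ → ℂ} (hh : HolC α β τ h) (s0 : X) :
    DifferentiableOn ℂ (dev α β τ s0 h) {t | Real.exp t.re < rd τ} := by
  intro t ht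
  obtain ⟨σ, a, ha, hev⟩ := dev_local (α := α) (β := β) hτ s0 ht
  have h1 := hev h hh.glue
  have hza : ∀ z, zinv τ z + a = zinv τ (z + zt τ a) := by
    intro z
    rw [zinv_add, zinv_zt hτ]
  have h2 : DifferentiableAt ℂ (fun z => h σ (zinv τ z)) (Complex.exp t + zt τ a) := by
    refine (hh.hol σ).differentiableAt ((isOpen_zinv τ isOpen_cross).mem_nhds ?_)
    show zinv τ (Complex.exp t + zt τ a) ∈ Cross
    rw [← hza]
    exact ha
  have h3 : DifferentiableAt ℂ (fun t' => Complex.exp t' + zt τ a) t :=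
    Complex.differentiable_exp.differentiableAt.add_const _
  have h4 : DifferentiableAt ℂ (fun t' => h σ (zinv τ (Complex.exp t') + a)) t := by
    have h5 := DifferentiableAt.comp t h2 h3
    have h6 : (fun t' => h σ (zinv τ (Complex.exp t') + a)) =
        (fun z => h σ (zinv τ z)) ∘ fun t' => Complex.exp t' + zt τ a := by
      funext t'
      simp only [Function.comp_apply]
      rw [hza]
    rw [h6]
    exact h5
  exact (h4.congr_of_eventuallyEq h1).differentiableWithinAt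

theorem dev_log {E : Type} {τ : ℂ} (hτ : τ ∈ HH) (f : X → ℝ × ℝ → E) (s0 : X) (j : ℤ) {p : ℝ × ℝ}
    (hp : 0 < p.2) :
    dev α β τ s0 f (Complex.log (zt τ p) + 2 * Real.pi * Complex.I * j) =
      f ((zeta α β ^ j) s0) p := by
  have hpi := Real.pi_pos
  have hi : (0:ℝ) < τ.im := hτ
  have him : 0 < (zt τ p).im := by
    unfold zt
    simp only [Complex.add_im, Complex.ofReal_im, Complex.mul_im, Complex.ofReal_re, mul_zero,
      zero_add, add_zero]
    positivity
  have hne : zt τ p ≠ 0 := by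
    intro h0
    rw [h0] at him
    simp at him
  have harg1 : 0 < (zt τ p).arg := by
    rcases (Complex.arg_nonneg_iff.mpr him.le).eq_or_lt with h | h
    · have := (Complex.arg_eq_zero_iff.mp h.symm).2
      linarith
    · exact h
  have harg2 : (zt τ p).arg < Real.pi := by
    rcases (Complex.arg_le_pi (zt τ p)).eq_or_lt with h | h
    · have := (Complex.arg_eq_pi_iff.mp h).2
      linarith
    · exact h
  set t : ℂ := Complex.log (zt τ p) + 2 * Real.pi * Complex.I * j with ht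
  have htim : t.im = (zt τ p).arg + 2 * Real.pi * j := by
    rw [ht]
    simp [Complex.log_im]
  have hth : th t = (zt τ p).arg / (2 * Real.pi) + j := by
    unfold th
    rw [htim]
    field_simp
  have h1 : 0 < (zt τ p).arg / (2 * Real.pi) := by positivity
  have h2 : (zt τ p).arg / (2 * Real.pi) < 1 / 2 := by
    rw [div_lt_iff₀ (by positivity)]
    linarith
  have hexp : Complex.exp t = zt τ p := by
    have := Complex.exp_periodic.int_mul j (Complex.log (zt τ p))
    rw [Complex.exp_log hne] at this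
    rw [← this, ht]
    congr 1
    ring
  rw [dev_lt τ s0 f (j := j) (by rw [hth]; linarith) (by rw [hth]; linarith), hexp, zinv_zt hτ]

theorem dev_box {τ : ℂ} (hτ : τ ∈ HH) (s0 : X) {t : ℂ} (ht : Real.exp t.re < rd τ) :
    ∃ (j : ℤ) (σ : X) (a : ℝ × ℝ),
      ((Metric.ball (zinv τ (Complex.exp t) + a) (‖zinv τ (Complex.exp t)‖ / 2) ⊆ Rc ∧
          ((σ = (zeta α β ^ j) s0 ∧ a = 0) ∨
            (σ = β⁻¹ ((zeta α β ^ (j + 1)) s0) ∧ α⁻¹ σ = β⁻¹ (α⁻¹ ((zeta α β ^ j) s0)) ∧ a = (0, 1)))) ∨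
        (Metric.ball (zinv τ (Complex.exp t) + a) (‖zinv τ (Complex.exp t)‖ / 2) ⊆ Kc ∧
          ((σ = (zeta α β ^ j) s0 ∧ a = 0) ∨ (σ = α⁻¹ ((zeta α β ^ j) s0) ∧ a = (1, 0))))) ∧
      ∀ {E : Type} (f : X → ℝ × ℝ → E), Glue α β f →
        dev α β τ s0 f t = f σ (zinv τ (Complex.exp t) + a) := by
  obtain ⟨hx, hy⟩ := xy_bd hτ ht
  have hnorm : ‖zinv τ (Complex.exp t)‖ =
      max |(zinv τ (Complex.exp t)).1| |(zinv τ (Complex.exp t)).2| := rfl
  set p : ℝ × ℝ := zinv τ (Complex.exp t) with hp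
  set j : ℤ := ⌊th t⌋ with hj
  have hfr : Int.fract (th t) = th t - j := rfl
  have hfr0 := Int.fract_nonneg (th t)
  have hfr1 := Int.fract_lt_one (th t)
  -- signs and the angle
  have hlow : p.2 < 0 → (j : ℝ) + 1 / 2 ≤ th t := by
    intro h
    by_contra hcon
    push Not at hcon
    rcases hfr0.eq_or_lt with h0 | h0
    · have := (xyC τ h0.symm).1
      rw [← hp] at this
      linarith
    · have := yA hτ h0 (by linarith)
      rw [← hp] at this
      linarith
  have hup : 0 < p.2 → th t < (j : ℝ) + 1 / 2 := by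
    intro h
    by_contra hcon
    push Not at hcon
    rcases (show (1:ℝ) / 2 ≤ Int.fract (th t) by linarith).eq_or_lt with h0 | h0
    · have := (xyD τ h0.symm).1
      rw [← hp] at this
      linarith
    · have := yB hτ h0
      rw [← hp] at this
      linarith
  have hzp : p.2 = 0 → 0 < p.1 → th t < (j : ℝ) + 1 / 2 := by
    intro h h'
    by_contra hcon
    push Not at hcon
    rcases (show (1:ℝ) / 2 ≤ Int.fract (th t) by linarith).eq_or_lt with h0 | h0
    · have := (xyD τ h0.symm).2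
      rw [← hp] at this
      linarith
    · have := yB hτ h0
      rw [← hp] at this
      linarith
  have hzn : p.2 = 0 → p.1 < 0 → (j : ℝ) + 1 / 2 ≤ th t := by
    intro h h'
    by_contra hcon
    push Not at hcon
    rcases hfr0.eq_or_lt with h0 | h0
    · have := (xyC τ h0.symm).2
      rw [← hp] at this
      linarith
    · have := yA hτ h0 (by linarith)
      rw [← hp] at this
      linarith
  have hpne : ¬ (p.1 = 0 ∧ p.2 = 0) := by
    rintro ⟨h1, h2⟩
    rcases hfr0.eq_or_lt with h0 | h0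
    · have := (xyC τ h0.symm).2
      rw [← hp] at this
      linarith
    · rcases lt_trichotomy (Int.fract (th t)) (1 / 2) with h12 | h12 | h12
      · have := yA hτ h0 h12
        rw [← hp] at this
        linarith
      · have := (xyD τ h12).2
        rw [← hp] at this
        linarith
      · have := yB hτ h12
        rw [← hp] at this
        linarith
  have hjle : (j : ℝ) ≤ th t := by linarith
  have hjlt : th t < (j : ℝ) + 1 := by linarith
  have hball : ∀ (a q : ℝ × ℝ) (r : ℝ), q ∈ Metric.ball (p + a) r →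
      (p.1 + a.1 - r < q.1 ∧ q.1 < p.1 + a.1 + r) ∧ (p.2 + a.2 - r < q.2 ∧ q.2 < p.2 + a.2 + r) := by
    intro a q r hq
    rw [Metric.mem_ball, Prod.dist_eq, max_lt_iff, Real.dist_eq, Real.dist_eq, abs_lt, abs_lt] at hq
    obtain ⟨⟨a1, a2⟩, a3, a4⟩ := hq
    simp only [Prod.fst_add, Prod.snd_add] at a1 a2 a3 a4
    exact ⟨⟨by linarith, by linarith⟩, by linarith, by linarith⟩
  rcases le_or_gt |p.1| |p.2| with hc | hc
  · have hnp : ‖p‖ = |p.2| := by rw [hnorm, max_eq_right hc]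
    have hy0 : p.2 ≠ 0 := by
      intro h0
      rw [h0, abs_zero] at hc
      exact hpne ⟨abs_eq_zero.mp (le_antisymm hc (abs_nonneg _)), h0⟩
    rw [abs_lt] at hx hy
    rcases lt_or_gt_of_ne hy0 with hneg | hpos
    · -- lower half plane, row chart
      rw [abs_of_neg hneg] at hc hnp
      rw [abs_le] at hc
      refine ⟨j, α (β⁻¹ (α⁻¹ ((zeta α β ^ j) s0))), (0, 1), Or.inl ⟨?_, Or.inr ⟨?_, ?_, rfl⟩⟩, ?_⟩
      · intro q hq
        rw [hnp] at hq
        obtain ⟨⟨a1, a2⟩, a3, a4⟩ := hball _ q _ hq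
        simp only at a1 a2 a3 a4
        exact ⟨⟨by linarith [hx.1], by linarith [hx.2]⟩, ⟨by linarith [hy.1], by linarith⟩⟩
      · rw [← zsucc, ia]
      · rw [ia]
      · intro E f hf
        rw [dev_ge τ s0 f (hlow hneg) hjlt, ← hp]
        have e1 := hf.row (β⁻¹ (α⁻¹ ((zeta α β ^ j) s0))) p.1 (p.2 + 1) (by linarith [hy.1])
          (by linarith)
        have e2 : p + (1, 1) = (p.1 + 1, p.2 + 1) := rfl
        have e3 : p + (0, 1) = (p.1, p.2 + 1) := by
          ext
          · simp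
          · simp
        rw [e2, e3, e1]
    · -- upper half plane, row chart
      rw [abs_of_pos hpos] at hc hnp
      rw [abs_le] at hc
      refine ⟨j, (zeta α β ^ j) s0, 0, Or.inl ⟨?_, Or.inl ⟨rfl, rfl⟩⟩, ?_⟩
      · intro q hq
        rw [hnp] at hq
        obtain ⟨⟨a1, a2⟩, a3, a4⟩ := hball _ q _ hq
        simp only [Prod.fst_zero, Prod.snd_zero] at a1 a2 a3 a4
        exact ⟨⟨by linarith [hx.1], by linarith [hx.2]⟩, ⟨by linarith [hy.1], by linarith [hy.2]⟩⟩
      · intro E f hf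
        rw [add_zero]
        exact dev_lt τ s0 f hjle (hup hpos)
  · have hnp : ‖p‖ = |p.1| := by rw [hnorm, max_eq_left hc.le]
    have hx0 : p.1 ≠ 0 := by
      intro h0
      rw [h0, abs_zero] at hc
      exact absurd (abs_nonneg p.2) (not_le.mpr hc)
    rw [abs_lt] at hx hy
    rcases lt_or_gt_of_ne hx0 with hneg | hpos
    · -- left half plane, column chart
      rw [abs_of_neg hneg] at hc hnp
      rw [abs_lt] at hc
      refine ⟨j, α⁻¹ ((zeta α β ^ j) s0), (1, 0), Or.inr ⟨?_, Or.inr ⟨rfl, rfl⟩⟩, ?_⟩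
      · intro q hq
        rw [hnp] at hq
        obtain ⟨⟨a1, a2⟩, a3, a4⟩ := hball _ q _ hq
        simp only at a1 a2 a3 a4
        exact ⟨⟨by linarith [hx.1], by linarith [hx.2]⟩, ⟨by linarith [hy.1], by linarith [hy.2]⟩⟩
      · intro E f hf
        have e3 : p + (1, 0) = (p.1 + 1, p.2) := by
          ext
          · simp
          · simp
        rcases le_or_gt p.2 0 with hy1 | hy1
        · have h5 : (j : ℝ) + 1 / 2 ≤ th t := by
            rcases hy1.eq_or_lt with h | h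
            · exact hzn h hneg
            · exact hlow h
          rw [dev_ge τ s0 f h5 hjlt, ← hp]
          have e1 := hf.col (β⁻¹ (α⁻¹ ((zeta α β ^ j) s0))) (p.1 + 1) p.2 (by linarith [hx.1])
            (by linarith)
          rw [ai] at e1
          have e2 : p + (1, 1) = (p.1 + 1, p.2 + 1) := rfl
          rw [e2, e3, e1]
        · rw [dev_lt τ s0 f hjle (hup hy1), ← hp]
          have e1 := hf.row (α⁻¹ ((zeta α β ^ j) s0)) p.1 p.2 hy1 (by linarith [hy.2])
          rw [ai] at e1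
          rw [e3, e1]
    · -- right half plane, column chart
      rw [abs_of_pos hpos] at hc hnp
      rw [abs_lt] at hc
      have hb : Metric.ball (p + 0) (‖p‖ / 2) ⊆ Kc := by
        intro q hq
        rw [hnp] at hq
        obtain ⟨⟨a1, a2⟩, a3, a4⟩ := hball _ q _ hq
        simp only [Prod.fst_zero, Prod.snd_zero] at a1 a2 a3 a4
        exact ⟨⟨by linarith [hx.1], by linarith [hx.2]⟩, ⟨by linarith [hy.1], by linarith [hy.2]⟩⟩
      rcases lt_or_ge p.2 0 with hy1 | hy1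
      · refine ⟨j + 1, (zeta α β ^ (j + 1)) s0, 0, Or.inr ⟨hb, Or.inl ⟨rfl, rfl⟩⟩, ?_⟩
        intro E f hf
        rw [dev_ge τ s0 f (hlow hy1) hjlt, ← hp,
          cross_pos hf _ (by linarith [hy.1]) hy1 hpos (by linarith [hx.2]), zsucc, add_zero]
      · refine ⟨j, (zeta α β ^ j) s0, 0, Or.inr ⟨hb, Or.inl ⟨rfl, rfl⟩⟩, ?_⟩
        intro E f hf
        rw [add_zero]
        refine dev_lt τ s0 f hjle ?_
        rcases hy1.eq_or_lt with h | h
        · exact hzp h.symm hpos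
        · exact hup h

end Pool.Agent.Helper96.OF
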