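import Mathlib

/-!
# OFL-L07: periodic holomorphic functions on a half plane (pure complex analysis)

`P` holomorphic and bounded on {exp(re t) < R}, 2πik-periodic, and P → 0 along some sequence with re → -∞.
f u := P (2πik u) is 1-periodic, holomorphic for im u > -log R/(2πk), bounded; g := `Function.Periodic.cuspFunction 1 f` (Mathlib.Analysis.Complex.Periodic): `g (exp(2πiu)) = f u` (eq_cuspFunction), i.e. `g (exp(t/k)) = P t`;
g is differentiable on ball 0 R1, R1 = R^(1/k) (differentiableAt_cuspFunction at points ξ ≠ 0, ξ = exp(t/k), t = k log ξ, exp(re t) = ‖ξ‖^k < R; differentiableAt_cuspFunction_zero), bounded by M (at 0 by continuity), g 0 = 0 (limit along the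
sequence). Schwarz: ‖g ξ‖ ≤ M ‖ξ‖/R1 (apply `Complex.dist_le_div_mul_dist_of_mapsTo_ball` or the closed ball version with M + ε, or the maximum principle for dslope g 0), and `‖dslope g 0 ξ‖ ≤ M/R1`.
Q := primitive of `k • dslope g 0` on the ball (`DifferentiableOn.isExactOn_ball`, with_val_at 0 0). d/dt Q(exp(t/k)) = k dslope g 0 ξ · ξ/k = g ξ = P t. ‖Q ξ‖ ≤ k (M/R1) ‖ξ‖ (mean value inequality on the convex ball).
-/

set_option autoImplicit false

open MeasureTheory Filter Topology

namespace Pool.Agent.Helper96.OF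

theorem periodic_rep {k : ℕ} (hk : 0 < k) {R : ℝ} (hR : 0 < R) {P : ℂ → ℂ}
    (hP : DifferentiableOn ℂ P {t | Real.exp t.re < R})
    (hper : ∀ t, P (t + 2 * Real.pi * Complex.I * k) = P t) {M : ℝ}
    (hM : ∀ t : ℂ, Real.exp t.re < R → ‖P t‖ ≤ M) (u : ℕ → ℂ)
    (hu : Tendsto (fun n => (u n).re) atTop atBot) (hu0 : Tendsto (fun n => P (u n)) atTop (𝓝 0)) :
    (∀ t : ℂ, Real.exp t.re < R → ‖P t‖ ≤ M * (Real.exp t.re / R) ^ (1 / (k : ℝ))) ∧
    ∃ Q : ℂ → ℂ, DifferentiableOn ℂ Q (Metric.ball 0 (R ^ (1 / (k : ℝ)))) ∧ Q 0 = 0 ∧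
      (∀ t : ℂ, Real.exp t.re < R →
        HasDerivAt (fun t => Q (Complex.exp (t / k))) (P t) t) ∧
      ∀ M' : ℝ, (∀ t : ℂ, Real.exp t.re < R → ‖P t‖ ≤ M') →
        ∀ ξ ∈ Metric.ball (0 : ℂ) (R ^ (1 / (k : ℝ))), ‖Q ξ‖ ≤ k * M' * ‖ξ‖ / R ^ (1 / (k : ℝ)) := by
  have hkR : (0 : ℝ) < k := by exact_mod_cast hk
  have hkC : (k : ℂ) ≠ 0 := by exact_mod_cast hk.ne'
  have hpi : (Real.pi : ℂ) ≠ 0 := by exact_mod_cast Real.pi_ne_zero
  have hI : Complex.I ≠ 0 := Complex.I_ne_zero
  set R1 : ℝ := R ^ (1 / (k : ℝ)) with hR1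
  have hR1pos : 0 < R1 := Real.rpow_pos_of_pos hR _
  have hopen : IsOpen {t : ℂ | Real.exp t.re < R} :=
    isOpen_lt (Real.continuous_exp.comp Complex.continuous_re) continuous_const
  set f : ℂ → ℂ := fun z => P (2 * Real.pi * Complex.I * k * z) with hf
  have hfper : Function.Periodic f ((1 : ℝ) : ℂ) := by
    intro z
    simp only [hf]
    rw [← hper (2 * Real.pi * Complex.I * k * z)]
    congr 1
    push_cast
    ring
  set g : ℂ → ℂ := Function.Periodic.cuspFunction 1 f with hg
  -- value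
  have hgv : ∀ z : ℂ, g (Complex.exp (2 * Real.pi * Complex.I * z)) = f z := by
    intro z
    have := Function.Periodic.eq_cuspFunction one_ne_zero hfper z
    rw [Function.Periodic.qParam] at this
    rw [← this]
    congr 2
    push_cast
    ring
  have hge : ∀ t : ℂ, g (Complex.exp (t / k)) = P t := by
    intro t
    have := hgv (t / (2 * Real.pi * Complex.I * k))
    have e1 : 2 * (Real.pi : ℂ) * Complex.I * (t / (2 * Real.pi * Complex.I * k)) = t / k := by
      field_simp
    have e2 : 2 * (Real.pi : ℂ) * Complex.I * k * (t / (2 * Real.pi * Complex.I * k)) = t := by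
      field_simp
    rw [e1] at this
    rw [this]
    simp only [hf]
    rw [e2]
  have hfd : ∀ z : ℂ, Real.exp (2 * Real.pi * Complex.I * k * z : ℂ).re < R →
      DifferentiableAt ℂ f z := by
    intro z hz
    have h1 : DifferentiableAt ℂ P (2 * Real.pi * Complex.I * k * z) :=
      hP.differentiableAt (hopen.mem_nhds hz)
    have h2 : DifferentiableAt ℂ (fun z : ℂ => 2 * (Real.pi : ℂ) * Complex.I * k * z) z := by
      fun_prop
    exact DifferentiableAt.comp z h1 h2
  -- points of the ball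
  have hlift : ∀ ξ : ℂ, ξ ≠ 0 → ‖ξ‖ < R1 → Real.exp ((k : ℂ) * Complex.log ξ).re < R := by
    intro ξ hξ hn
    have h0 : 0 < ‖ξ‖ := norm_pos_iff.mpr hξ
    have : ((k : ℂ) * Complex.log ξ).re = Real.log ‖ξ‖ * k := by
      simp [Complex.mul_re, Complex.log_re, mul_comm]
    rw [this, ← Real.rpow_def_of_pos h0]
    calc ‖ξ‖ ^ (k : ℝ) < R1 ^ (k : ℝ) := Real.rpow_lt_rpow h0.le hn hkR
      _ = R := by
        rw [hR1, ← Real.rpow_mul hR.le, one_div, inv_mul_cancel₀ hkR.ne', Real.rpow_one]
  have hexplog : ∀ ξ : ℂ, ξ ≠ 0 → Complex.exp (((k : ℂ) * Complex.log ξ) / k) = ξ := by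
    intro ξ hξ
    rw [mul_div_cancel_left₀ _ hkC, Complex.exp_log hξ]
  have hgne : ∀ ξ : ℂ, ξ ≠ 0 → ‖ξ‖ < R1 → DifferentiableAt ℂ g ξ := by
    intro ξ hξ hn
    have h1 := hlift ξ hξ hn
    set z : ℂ := ((k : ℂ) * Complex.log ξ) / (2 * Real.pi * Complex.I * k) with hz
    have e2 : 2 * (Real.pi : ℂ) * Complex.I * k * z = (k : ℂ) * Complex.log ξ := by
      rw [hz]; field_simp
    have h2 : DifferentiableAt ℂ f z := hfd z (by rw [e2]; exact h1)
    have h3 := Function.Periodic.differentiableAt_cuspFunction one_ne_zero hfper h2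
    have e3 : Function.Periodic.qParam 1 z = ξ := by
      rw [Function.Periodic.qParam]
      have : 2 * (Real.pi : ℂ) * Complex.I * z / ((1 : ℝ) : ℂ) = Complex.log ξ := by
        rw [hz]; push_cast; field_simp
      rw [this, Complex.exp_log hξ]
    rw [e3] at h3
    exact h3
  have hev : ∀ᶠ z in comap Complex.im atTop,
      Real.exp (2 * Real.pi * Complex.I * k * z : ℂ).re < R := by
    have h1 : ∀ᶠ y : ℝ in atTop, Real.exp (-(2 * Real.pi * k * y)) < R := by
      have : Tendsto (fun y : ℝ => Real.exp (-(2 * Real.pi * k * y))) atTop (𝓝 0) := by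
        refine Real.tendsto_exp_neg_atTop_nhds_zero.comp ?_
        exact Tendsto.const_mul_atTop (by positivity) tendsto_id
      exact this.eventually (gt_mem_nhds hR)
    have h2 := h1.comap Complex.im
    filter_upwards [h2] with z hz
    have : (2 * (Real.pi : ℂ) * Complex.I * k * z).re = -(2 * Real.pi * k * z.im) := by
      simp [Complex.mul_re, Complex.mul_im]
    rw [this]; exact hz
  have hg0 : DifferentiableAt ℂ g 0 := by
    refine Function.Periodic.differentiableAt_cuspFunction_zero one_pos hfper ?_ ?_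
    · filter_upwards [hev] with z hz using hfd z hz
    · refine Asymptotics.IsBigO.of_bound M ?_
      filter_upwards [hev] with z hz
      simpa using hM _ hz
  have hgd : DifferentiableOn ℂ g (Metric.ball 0 R1) := by
    intro ξ hξ
    rw [Metric.mem_ball, dist_zero_right] at hξ
    by_cases h : ξ = 0
    · subst h; exact hg0.differentiableWithinAt
    · exact (hgne ξ h hξ).differentiableWithinAt
  have hnormexp : ∀ t : ℂ, ‖Complex.exp (t / k)‖ = Real.exp t.re ^ (1 / (k : ℝ)) := by
    intro t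
    rw [Complex.norm_exp, ← Real.exp_mul]
    congr 1
    have : (t / (k : ℂ)).re = t.re / k := by
      have := Complex.div_ofReal_re t (k : ℝ)
      simpa using this
    rw [this]; ring
  have hg00 : g 0 = 0 := by
    have h1 : Tendsto (fun n => Complex.exp (u n / k)) atTop (𝓝 0) := by
      rw [tendsto_zero_iff_norm_tendsto_zero]
      have h2 : Tendsto (fun n => Real.exp ((u n).re / k)) atTop (𝓝 0) :=
        Real.tendsto_exp_atBot.comp (hu.atBot_div_const hkR)
      refine h2.congr fun n => ?_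
      rw [hnormexp, ← Real.exp_mul]
      congr 1; ring
    have h3 : Tendsto (fun n => g (Complex.exp (u n / k))) atTop (𝓝 (g 0)) :=
      hg0.continuousAt.tendsto.comp h1
    have h4 : Tendsto (fun n => g (Complex.exp (u n / k))) atTop (𝓝 0) :=
      hu0.congr fun n => (hge (u n)).symm
    exact tendsto_nhds_unique h3 h4
  have hex : ∃ t : ℂ, Real.exp t.re < R := by
    refine ⟨((Real.log R - 1 : ℝ) : ℂ), ?_⟩
    rw [Complex.ofReal_re, Real.exp_sub, Real.exp_log hR]
    have : 1 < Real.exp 1 := by simp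
    exact div_lt_self hR this
  have hmaps : ∀ M' : ℝ, (∀ t : ℂ, Real.exp t.re < R → ‖P t‖ ≤ M') →
      Set.MapsTo g (Metric.ball 0 R1) (Metric.closedBall (g 0) M') := by
    intro M' hM' ξ hξ
    rw [Metric.mem_ball, dist_zero_right] at hξ
    rw [Metric.mem_closedBall, hg00, dist_zero_right]
    by_cases h : ξ = 0
    · subst h
      obtain ⟨t, ht⟩ := hex
      rw [hg00, norm_zero]
      exact (norm_nonneg _).trans (hM' t ht)
    · have := hge ((k : ℂ) * Complex.log ξ)
      rw [hexplog ξ h] at this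
      rw [this]
      exact hM' _ (hlift ξ h hξ)
  have hmem : ∀ t : ℂ, Real.exp t.re < R → Complex.exp (t / k) ∈ Metric.ball (0 : ℂ) R1 := by
    intro t ht
    rw [Metric.mem_ball, dist_zero_right, hnormexp]
    exact Real.rpow_lt_rpow (Real.exp_pos _).le ht (by positivity)
  refine ⟨?_, ?_⟩
  · intro t ht
    have h1 := Complex.dist_le_div_mul_dist_of_mapsTo_ball hgd (hmaps M hM) (hmem t ht)
    rw [hge, hg00, dist_zero_right, dist_zero_right, hnormexp] at h1
    refine h1.trans (le_of_eq ?_)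
    rw [Real.div_rpow (Real.exp_pos _).le hR.le]
    rw [← hR1]; ring
  · have hds : DifferentiableOn ℂ (dslope g 0) (Metric.ball 0 R1) :=
      (Complex.differentiableOn_dslope (Metric.ball_mem_nhds _ hR1pos)).mpr hgd
    have hds2 : DifferentiableOn ℂ (fun ξ => (k : ℂ) * dslope g 0 ξ) (Metric.ball 0 R1) :=
      hds.const_mul _
    obtain ⟨Q, hQ0, hQ⟩ := hds2.isExactOn_ball.with_val_at 0 0
    refine ⟨Q, fun ξ hξ => (hQ ξ hξ).differentiableAt.differentiableWithinAt, hQ0, ?_, ?_⟩
    · intro t ht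
      have h1 := hQ _ (hmem t ht)
      have h2 : HasDerivAt (fun t : ℂ => Complex.exp (t / k)) (Complex.exp (t / k) * (1 / k)) t := by
        exact ((hasDerivAt_id t).div_const (k : ℂ)).cexp
      have h3 := h1.comp t h2
      have h4 : (k : ℂ) * dslope g 0 (Complex.exp (t / k)) * (Complex.exp (t / k) * (1 / k)) =
          P t := by
        have h5 := sub_smul_dslope g 0 (Complex.exp (t / k))
        rw [hg00, sub_zero, sub_zero, smul_eq_mul, hge] at h5
        rw [← h5]
        field_simp
      rw [h4] at h3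
      exact h3
    · intro M' hM' ξ hξ
      have hb : ∀ x ∈ Metric.ball (0 : ℂ) R1, ‖(k : ℂ) * dslope g 0 x‖ ≤ k * (M' / R1) := by
        intro x hx
        rw [norm_mul, Complex.norm_natCast]
        exact mul_le_mul_of_nonneg_left
          (Complex.norm_dslope_le_div_of_mapsTo_ball hgd (hmaps M' hM') hx) hkR.le
      have h1 := Convex.norm_image_sub_le_of_norm_hasDerivWithin_le
        (f := Q) (f' := fun x => (k : ℂ) * dslope g 0 x) (C := k * (M' / R1))
        (s := Metric.ball (0 : ℂ) R1) (x := 0) (y := ξ)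
        (fun x hx => (hQ x hx).hasDerivWithinAt) hb (convex_ball _ _)
        (Metric.mem_ball_self hR1pos) hξ
      rw [hQ0, sub_zero, sub_zero] at h1
      refine h1.trans (le_of_eq ?_)
      ring

end Pool.Agent.Helper96.OF
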