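import Pool.Agent.Helper42.OF.L03
import Pool.Agent.Helper42.OF.L06
import Pool.Agent.Helper42.OF.L07
import Pool.Agent.Helper96.OF.W2

/-!
# OFL-L08: decay of a z_τ-holomorphic L² family at a finite corner: |h| ≤ C |p|^(1/k-1)

`dev_bound`: constants from W2 zt_bound (K), L02 K_bounds (K). Let p = zinv τ (exp t), r = ‖p‖/2 > 0 (p ≠ 0 since exp t ≠ 0). L06 dev_box: `dev h t = h σ (p+a)`, ball (p+a) r ⊆ Rc (or Kc). g := h σ ∘ zinv τ is holomorphic on `zt τ '' ball`, zt_bound: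
`‖h σ (p+a)‖² ≤ (C/r²) ∫_{ball} ‖h σ q‖² dq ≤ (C/r²) ∫_{Rc} ‖h σ q‖²`; h is compatible with the gluing so `h σ q = ext (h) σ q` for a.e. q in Rc (resp. Kc) and L03 ext_sqOn: the integral is the sum of the two squares, both in the star
(index j mod k: ζ^k s0 = s0), so ≤ starE. ‖exp t‖ = ‖zt τ p‖ ≤ (1+‖τ‖) ‖p‖ (norm_zt_le), so ‖exp t * h‖² ≤ 4 C (1+‖τ‖)² starE.
`dev_zero`: u n = log (zt τ (δn,δn)), δn = 1/(n+4): `dev h (u n) = h s0 (δn,δn)` (dev_log with j = 0); zt_bound on ball((δn,δn), δn/2) ⊆ (0,2δn)²: ‖exp(u n) h‖² ≤ C' ∫_{(0,2δn)²} ‖h s0‖² → 0 (integrable function, decreasing sets with empty intersection: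
`tendsto_setIntegral_of_antitone` / dominated convergence). re (u n) = log ‖zt τ (δn,δn)‖ → -∞.
`decay`: L07 periodic_rep (first conclusion) for P t = exp t * dev h t, R = rd τ, M = C sqrt starE: ‖P t‖ ≤ M (‖z‖/rd τ)^(1/k). For p = (x,y), 0<x,y<ρ, t = log (zt τ p): ‖h s0 p‖ ≤ M rd^(-1/k) ‖z‖^(1/k-1) and ‖z‖ ≥ c max(x,y) (K_bounds: ‖p‖ ≤ C ‖z‖),
exponent 1/k - 1 ≤ 0. ρ so small that ‖zt τ p‖ < rd τ (norm_zt_le, K_bounds).
-/

set_option autoImplicit false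

open MeasureTheory Filter Topology
open scoped ComplexConjugate

namespace Pool.Agent.Helper96.OF

section aux

variable {X : Type} {α β : Equiv.Perm X}

/-- a glued family agrees with the extension of its slices on the row chart -/
private theorem ext_glue_R {f : X → ℝ × ℝ → ℂ} (hf : Glue α β f) (s : X) {q : ℝ × ℝ}
    (hq : q ∈ Rc) : ext α β f s q = f s q := by
  obtain ⟨x, y⟩ := q
  obtain ⟨⟨hx0, hx1⟩, hy0, hy1⟩ := hq
  simp only at hx0 hx1 hy0 hy1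
  by_cases hx : 0 ≤ x
  · have e1 : ⌊x⌋ = 0 := Int.floor_eq_zero_iff.mpr ⟨hx, hx1⟩
    have e2 : ⌊y⌋ = 0 := Int.floor_eq_zero_iff.mpr ⟨hy0.le, hy1⟩
    simp only [ext, e1, e2, zpow_zero, Int.fract]
    simp
  · push Not at hx
    have e1 : ⌊x⌋ = -1 := by
      rw [Int.floor_eq_iff]; push_cast; constructor <;> linarith
    have e2 : ⌊y⌋ = 0 := Int.floor_eq_zero_iff.mpr ⟨hy0.le, hy1⟩
    have h1 := hf.row (α⁻¹ s) x y hy0 hy1
    rw [show α (α⁻¹ s) = s by simp] at h1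
    simp only [ext, e1, e2, zpow_zero, Int.fract]
    rw [← h1]
    simp

private theorem ext_glue_K {f : X → ℝ × ℝ → ℂ} (hf : Glue α β f) (s : X) {q : ℝ × ℝ}
    (hq : q ∈ Kc) : ext α β f s q = f s q := by
  obtain ⟨x, y⟩ := q
  obtain ⟨⟨hx0, hx1⟩, hy0, hy1⟩ := hq
  simp only at hx0 hx1 hy0 hy1
  have e1 : ⌊x⌋ = 0 := Int.floor_eq_zero_iff.mpr ⟨hx0.le, hx1⟩
  by_cases hy : 0 ≤ y
  · have e2 : ⌊y⌋ = 0 := Int.floor_eq_zero_iff.mpr ⟨hy, hy1⟩
    simp only [ext, e1, e2, zpow_zero, Int.fract]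
    simp
  · push Not at hy
    have e2 : ⌊y⌋ = -1 := by
      rw [Int.floor_eq_iff]; push_cast; constructor <;> linarith
    have h1 := hf.col (β⁻¹ s) x y hx0 hx1
    rw [show β (β⁻¹ s) = s by simp] at h1
    simp only [ext, e1, e2, zpow_zero, Int.fract]
    rw [← h1]
    simp

/-- the `L²` mean value bound for a `z_τ`-holomorphic family on a ball inside the cross -/
private theorem hol_bound {K : Set ℂ} {C : ℝ}
    (hC : ∀ τ ∈ K, ∀ (p : ℝ × ℝ) (r : ℝ), 0 < r → ∀ g : ℂ → ℂ,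
      DifferentiableOn ℂ g (zt τ '' Metric.ball p r) →
      IntegrableOn (fun q => ‖g (zt τ q)‖ ^ 2) (Metric.ball p r) →
      ‖g (zt τ p)‖ ^ 2 ≤ (C / r ^ 2) * ∫ q in Metric.ball p r, ‖g (zt τ q)‖ ^ 2 ∧
      ‖deriv g (zt τ p)‖ ^ 2 ≤ (C / r ^ 4) * ∫ q in Metric.ball p r, ‖g (zt τ q)‖ ^ 2)
    {τ : ℂ} (hτK : τ ∈ K) (hτ : τ ∈ HH) {h : X → ℝ × ℝ → ℂ} (hh : HolC α β τ h) (σ : X)
    {p : ℝ × ℝ} {r : ℝ} (hr : 0 < r) (hsub : Metric.ball p r ⊆ Cross)
    (hi : IntegrableOn (fun q => ‖h σ q‖ ^ 2) (Metric.ball p r)) :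
    ‖h σ p‖ ^ 2 ≤ (C / r ^ 2) * ∫ q in Metric.ball p r, ‖h σ q‖ ^ 2 := by
  have e : ∀ q, (fun z => h σ (zinv τ z)) (zt τ q) = h σ q := by
    intro q
    simp only [zinv_zt hτ]
  have hd : DifferentiableOn ℂ (fun z => h σ (zinv τ z)) (zt τ '' Metric.ball p r) := by
    refine (hh.hol σ).mono ?_
    rw [image_zt hτ]
    intro z hz
    exact hsub hz
  have := (hC τ hτK p r hr (fun z => h σ (zinv τ z)) hd (by simpa only [e] using hi)).1
  simpa only [e] using this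

end aux

variable {X : Type} [Countable X] [MeasurableSpace X] [DiscreteMeasurableSpace X]

omit [Countable X] [MeasurableSpace X] [DiscreteMeasurableSpace X] in
private theorem star_terms (α β : Equiv.Perm X) {k : ℕ} (hk : 0 < k) {s0 : X}
    (hs : (zeta α β ^ k) s0 = s0) (v : Sq X → ℂ) (j : ℤ) :
    (∫ p in unitSq, ‖v ((zeta α β ^ j) s0, p)‖ ^ 2) ≤ starE α β s0 k v ∧
    (∫ p in unitSq, ‖v (α⁻¹ ((zeta α β ^ j) s0), p)‖ ^ 2) ≤ starE α β s0 k v ∧
    (∫ p in unitSq, ‖v (β⁻¹ (α⁻¹ ((zeta α β ^ j) s0)), p)‖ ^ 2) ≤ starE α β s0 k v ∧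
    (∫ p in unitSq, ‖v (β⁻¹ ((zeta α β ^ j) s0), p)‖ ^ 2) ≤ starE α β s0 k v := by
  have hk' : (k : ℤ) ≠ 0 := by exact_mod_cast hk.ne'
  -- the residue
  obtain ⟨i, hi, hij⟩ : ∃ i : ℕ, i < k ∧ (zeta α β ^ j) s0 = (zeta α β ^ i) s0 := by
    refine ⟨(j % k).toNat, ?_, ?_⟩
    · have h1 := Int.emod_nonneg j hk'
      have h2 := Int.emod_lt_of_pos j (by exact_mod_cast hk : (0 : ℤ) < k)
      omega
    · have h1 := Int.emod_nonneg j hk'
      have h3 : ∀ n : ℤ, ((zeta α β ^ k) ^ n) s0 = s0 := by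
        intro n
        exact Equiv.Perm.zpow_apply_eq_self_of_apply_eq_self hs n
      have h4 : j = (((j % k).toNat : ℕ) : ℤ) + k * (j / k) := by
        rw [Int.toNat_of_nonneg h1]
        exact (Int.emod_add_mul_ediv j k).symm
      conv_lhs => rw [h4, zpow_add, Equiv.Perm.mul_apply, zpow_mul, zpow_natCast _ k, h3, zpow_natCast]
  rw [hij]
  have hnn : ∀ σ : X, 0 ≤ ∫ p in unitSq, ‖v (σ, p)‖ ^ 2 := fun σ =>
    integral_nonneg fun p => by positivity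
  have hle : ((∫ p in unitSq, ‖v ((zeta α β ^ i) s0, p)‖ ^ 2) +
      (∫ p in unitSq, ‖v (α⁻¹ ((zeta α β ^ i) s0), p)‖ ^ 2) +
      (∫ p in unitSq, ‖v (β⁻¹ (α⁻¹ ((zeta α β ^ i) s0)), p)‖ ^ 2) +
      ∫ p in unitSq, ‖v (β⁻¹ ((zeta α β ^ i) s0), p)‖ ^ 2) ≤ starE α β s0 k v := by
    unfold starE
    refine Finset.single_le_sum
      (f := fun j : ℕ => (∫ p in unitSq, ‖v ((zeta α β ^ j) s0, p)‖ ^ 2) +
      (∫ p in unitSq, ‖v (α⁻¹ ((zeta α β ^ j) s0), p)‖ ^ 2) +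
      (∫ p in unitSq, ‖v (β⁻¹ (α⁻¹ ((zeta α β ^ j) s0)), p)‖ ^ 2) +
      ∫ p in unitSq, ‖v (β⁻¹ ((zeta α β ^ j) s0), p)‖ ^ 2) ?_ (Finset.mem_range.mpr hi)
    intro n _
    have := hnn ((zeta α β ^ n) s0)
    have := hnn (α⁻¹ ((zeta α β ^ n) s0))
    have := hnn (β⁻¹ (α⁻¹ ((zeta α β ^ n) s0)))
    have := hnn (β⁻¹ ((zeta α β ^ n) s0))
    positivity
  have h1 := hnn ((zeta α β ^ i) s0)
  have h2 := hnn (α⁻¹ ((zeta α β ^ i) s0))
  have h3 := hnn (β⁻¹ (α⁻¹ ((zeta α β ^ i) s0)))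
  have h4 := hnn (β⁻¹ ((zeta α β ^ i) s0))
  refine ⟨?_, ?_, ?_, ?_⟩ <;> linarith

omit [Countable X] [MeasurableSpace X] [DiscreteMeasurableSpace X] in
private theorem starE_nonneg' (α β : Equiv.Perm X) (s0 : X) (k : ℕ) (v : Sq X → ℂ) :
    0 ≤ starE α β s0 k v := by
  unfold starE
  refine Finset.sum_nonneg fun j _ => ?_
  have hnn : ∀ σ : X, 0 ≤ ∫ p in unitSq, ‖v (σ, p)‖ ^ 2 := fun σ =>
    integral_nonneg fun p => by positivity
  have := hnn ((zeta α β ^ j) s0)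
  have := hnn (α⁻¹ ((zeta α β ^ j) s0))
  have := hnn (β⁻¹ (α⁻¹ ((zeta α β ^ j) s0)))
  have := hnn (β⁻¹ ((zeta α β ^ j) s0))
  positivity

theorem dev_bound (α β : Equiv.Perm X) (K : Set ℂ) (hK : IsCompact K) (hKH : K ⊆ HH) :
    ∃ C : ℝ, 0 < C ∧ ∀ τ ∈ K, ∀ k : ℕ, 0 < k → ∀ s0 : X, (zeta α β ^ k) s0 = s0 →
      ∀ h : X → ℝ × ℝ → ℂ, HolC α β τ h → (∀ s, IntegrableOn (fun p => ‖h s p‖ ^ 2) unitSq) →
      ∀ t : ℂ, Real.exp t.re < rd τ →
        ‖Complex.exp t * dev α β τ s0 h t‖ ≤ C * Real.sqrt (starE α β s0 k (fl h)) := by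
  obtain ⟨C, hC0, hC⟩ := zt_bound K hK hKH
  obtain ⟨c, CK, hc, hCK, hb⟩ := K_bounds K hK hKH
  refine ⟨(1 + CK) * Real.sqrt (8 * C), by positivity, ?_⟩
  intro τ hτK k hk s0 hs h hh hint t ht
  have hτ := hKH hτK
  obtain ⟨-, -, hτn, -⟩ := hb τ hτK
  set p : ℝ × ℝ := zinv τ (Complex.exp t) with hp
  have hzp : zt τ p = Complex.exp t := zt_zinv hτ _
  have hp0 : 0 < ‖p‖ := by
    rw [norm_pos_iff]
    intro h0
    rw [h0] at hzp
    have : zt τ 0 = 0 := by simp [zt]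
    rw [this] at hzp
    exact Complex.exp_ne_zero t hzp.symm
  have hr : 0 < ‖p‖ / 2 := by positivity
  obtain ⟨j, σ, a, hcase, hdev⟩ := dev_box (α := α) (β := β) hτ s0 ht
  have hE := starE_nonneg' α β s0 k (fl h)
  have hfl : ∀ s, IntegrableOn (fun p => ‖fl h (s, p)‖ ^ 2) unitSq := hint
  -- the main bound
  have hmain : ‖h σ (p + a)‖ ^ 2 ≤ (C / (‖p‖ / 2) ^ 2) * (2 * starE α β s0 k (fl h)) := by
    rcases hcase with ⟨hsub, hsq⟩ | ⟨hsub, hsq⟩
    · have hR := (ext_sqOn α β hfl σ).1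
      have hcongr : ∀ q ∈ Rc, ‖ext α β (fun s p => fl h (s, p)) σ q‖ ^ 2 = ‖h σ q‖ ^ 2 := by
        intro q hq
        rw [ext_glue_R (f := fun s p => fl h (s, p)) hh.glue σ hq]
        rfl
      have hmeas : MeasurableSet Rc := isOpen_Rc.1.measurableSet
      have hi : IntegrableOn (fun q => ‖h σ q‖ ^ 2) Rc :=
        hR.1.congr_fun hcongr hmeas
      have hval : ∫ q in Rc, ‖h σ q‖ ^ 2 =
          (∫ p in unitSq, ‖fl h (α⁻¹ σ, p)‖ ^ 2) + ∫ p in unitSq, ‖fl h (σ, p)‖ ^ 2 := by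
        rw [← hR.2]
        exact (setIntegral_congr_fun hmeas hcongr).symm
      have h1 := hol_bound hC hτK hτ hh σ hr (hsub.trans isOpen_Rc.2) (hi.mono_set hsub)
      refine h1.trans (mul_le_mul_of_nonneg_left ?_ (by positivity))
      have h2 : ∫ q in Metric.ball (p + a) (‖p‖ / 2), ‖h σ q‖ ^ 2 ≤ ∫ q in Rc, ‖h σ q‖ ^ 2 :=
        setIntegral_mono_set hi (Eventually.of_forall fun q => by positivity)
          (LE.le.eventuallyLE hsub)
      refine h2.trans ?_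
      rw [hval]
      rcases hsq with ⟨rfl, -⟩ | ⟨hσ, hασ, -⟩
      · obtain ⟨t1, t2, t3, t4⟩ := star_terms α β hk hs (fl h) j
        linarith
      · obtain ⟨t1, t2, t3, t4⟩ := star_terms α β hk hs (fl h) j
        obtain ⟨u1, u2, u3, u4⟩ := star_terms α β hk hs (fl h) (j + 1)
        rw [hασ, hσ]
        linarith
    · have hR := (ext_sqOn α β hfl σ).2
      have hcongr : ∀ q ∈ Kc, ‖ext α β (fun s p => fl h (s, p)) σ q‖ ^ 2 = ‖h σ q‖ ^ 2 := by
        intro q hq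
        rw [ext_glue_K (f := fun s p => fl h (s, p)) hh.glue σ hq]
        rfl
      have hmeas : MeasurableSet Kc := isOpen_Kc.1.measurableSet
      have hi : IntegrableOn (fun q => ‖h σ q‖ ^ 2) Kc :=
        hR.1.congr_fun hcongr hmeas
      have hval : ∫ q in Kc, ‖h σ q‖ ^ 2 =
          (∫ p in unitSq, ‖fl h (β⁻¹ σ, p)‖ ^ 2) + ∫ p in unitSq, ‖fl h (σ, p)‖ ^ 2 := by
        rw [← hR.2]
        exact (setIntegral_congr_fun hmeas hcongr).symm
      have h1 := hol_bound hC hτK hτ hh σ hr (hsub.trans isOpen_Kc.2) (hi.mono_set hsub)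
      refine h1.trans (mul_le_mul_of_nonneg_left ?_ (by positivity))
      have h2 : ∫ q in Metric.ball (p + a) (‖p‖ / 2), ‖h σ q‖ ^ 2 ≤ ∫ q in Kc, ‖h σ q‖ ^ 2 :=
        setIntegral_mono_set hi (Eventually.of_forall fun q => by positivity)
          (LE.le.eventuallyLE hsub)
      refine h2.trans ?_
      rw [hval]
      obtain ⟨t1, t2, t3, t4⟩ := star_terms α β hk hs (fl h) j
      rcases hsq with ⟨rfl, -⟩ | ⟨rfl, -⟩
      · linarith
      · linarith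
  rw [norm_mul, hdev h hh.glue, ← hp]
  have hexp : ‖Complex.exp t‖ ≤ (1 + CK) * ‖p‖ := by
    rw [← hzp]
    refine (norm_zt_le τ p).trans ?_
    exact mul_le_mul_of_nonneg_right (by linarith) hp0.le
  have hh1 : ‖h σ (p + a)‖ ≤ Real.sqrt (8 * C) * Real.sqrt (starE α β s0 k (fl h)) / ‖p‖ := by
    have h3 : ‖h σ (p + a)‖ ≤ Real.sqrt ((C / (‖p‖ / 2) ^ 2) * (2 * starE α β s0 k (fl h))) :=
      Real.le_sqrt_of_sq_le hmain
    refine h3.trans (le_of_eq ?_)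
    have h4 : (C / (‖p‖ / 2) ^ 2) * (2 * starE α β s0 k (fl h)) =
        (8 * C) * starE α β s0 k (fl h) / ‖p‖ ^ 2 := by
      field_simp
      ring
    rw [h4, Real.sqrt_div' _ (by positivity), Real.sqrt_sq hp0.le, Real.sqrt_mul (by positivity)]
  calc ‖Complex.exp t‖ * ‖h σ (p + a)‖
      ≤ ((1 + CK) * ‖p‖) * (Real.sqrt (8 * C) * Real.sqrt (starE α β s0 k (fl h)) / ‖p‖) :=
        mul_le_mul hexp hh1 (norm_nonneg _) (by positivity)
    _ = (1 + CK) * Real.sqrt (8 * C) * Real.sqrt (starE α β s0 k (fl h)) := by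
        field_simp

theorem dev_zero (α β : Equiv.Perm X) {τ : ℂ} (hτ : τ ∈ HH) (s0 : X) {h : X → ℝ × ℝ → ℂ}
    (hh : HolC α β τ h) (hi : ∀ s, IntegrableOn (fun p => ‖h s p‖ ^ 2) unitSq) :
    ∃ u : ℕ → ℂ, Tendsto (fun n => (u n).re) atTop atBot ∧
      Tendsto (fun n => Complex.exp (u n) * dev α β τ s0 h (u n)) atTop (𝓝 0) := by
  have hKH : ({τ} : Set ℂ) ⊆ HH := by
    intro z hz
    rw [Set.mem_singleton_iff] at hz
    rw [hz]; exact hτ
  obtain ⟨C, hC0, hC⟩ := zt_bound {τ} isCompact_singleton hKH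
  have hτim : 0 < τ.im := hτ
  set δ : ℕ → ℝ := fun n => 1 / ((n : ℝ) + 4) with hδ
  have hδ0 : ∀ n, 0 < δ n := fun n => by simp only [hδ]; positivity
  have hδ4 : ∀ n, δ n ≤ 1 / 4 := fun n => by
    simp only [hδ]
    apply one_div_le_one_div_of_le (by norm_num)
    have : (0 : ℝ) ≤ n := Nat.cast_nonneg n
    linarith
  have hδlim : Tendsto δ atTop (𝓝 0) := by
    have h1 : Tendsto (fun n : ℕ => (n : ℝ) + 4) atTop atTop :=
      tendsto_atTop_add_const_right _ _ tendsto_natCast_atTop_atTop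
    simpa only [hδ, one_div, Function.comp_def] using tendsto_inv_atTop_zero.comp h1
  have hz : ∀ n, zt τ (δ n, δ n) ≠ 0 := by
    intro n h0
    have := congrArg Complex.im h0
    simp [zt] at this
    rcases this with h | h
    · exact hτim.ne' h
    · exact (hδ0 n).ne' h
  have hzn : ∀ n, ‖zt τ (δ n, δ n)‖ ≤ (1 + ‖τ‖) * δ n := by
    intro n
    have h1 := norm_zt_le τ (δ n, δ n)
    have h2 : ‖((δ n, δ n) : ℝ × ℝ)‖ = δ n := by
      rw [Prod.norm_def, max_self, Real.norm_eq_abs, abs_of_pos (hδ0 n)]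
    rwa [h2] at h1
  have hdev : ∀ n, dev α β τ s0 h (Complex.log (zt τ (δ n, δ n))) = h s0 (δ n, δ n) := by
    intro n
    have := dev_log (α := α) (β := β) hτ h s0 0 (p := (δ n, δ n)) (hδ0 n)
    simpa using this
  refine ⟨fun n => Complex.log (zt τ (δ n, δ n)), ?_, ?_⟩
  · simp only [Complex.log_re]
    refine Real.tendsto_log_nhdsGT_zero.comp ?_
    rw [tendsto_nhdsWithin_iff]
    refine ⟨?_, Eventually.of_forall fun n => norm_pos_iff.mpr (hz n)⟩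
    refine squeeze_zero (fun n => norm_nonneg _) hzn ?_
    simpa using hδlim.const_mul (1 + ‖τ‖)
  · -- the integrals over the shrinking squares
    set S : ℕ → Set (ℝ × ℝ) := fun n => Set.Ioo (0 : ℝ) (2 * δ n) ×ˢ Set.Ioo (0 : ℝ) (2 * δ n) with hS
    have hSm : ∀ n, MeasurableSet (S n) := fun n => measurableSet_Ioo.prod measurableSet_Ioo
    have hSanti : Antitone S := by
      intro n m hnm
      have : δ m ≤ δ n := by
        simp only [hδ]
        apply one_div_le_one_div_of_le (by positivity)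
        have : (n : ℝ) ≤ m := by exact_mod_cast hnm
        linarith
      exact Set.prod_mono (Set.Ioo_subset_Ioo_right (by linarith))
        (Set.Ioo_subset_Ioo_right (by linarith))
    have hSsub : ∀ n, S n ⊆ unitSq := by
      intro n
      have := hδ4 n
      exact Set.prod_mono (Set.Ioo_subset_Ioo_right (by linarith))
        (Set.Ioo_subset_Ioo_right (by linarith))
    have hSint : ⋂ n, S n = ∅ := by
      rw [Set.eq_empty_iff_forall_notMem]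
      intro q hq
      rw [Set.mem_iInter] at hq
      have hq1 : 0 < q.1 := (hq 0).1.1
      have h2 : Tendsto (fun n => 2 * δ n) atTop (𝓝 0) := by simpa using hδlim.const_mul 2
      obtain ⟨n, hn⟩ := (h2.eventually (gt_mem_nhds hq1)).exists
      exact absurd (hq n).1.2 (not_lt.mpr hn.le)
    have hlim : Tendsto (fun n => ∫ q in S n, ‖h s0 q‖ ^ 2) atTop (𝓝 0) := by
      have := tendsto_setIntegral_of_antitone (μ := volume) (f := fun q => ‖h s0 q‖ ^ 2) hSm hSanti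
        ⟨0, (hi s0).mono_set (hSsub 0)⟩
      rw [hSint] at this
      simpa using this
    -- pointwise bound
    have hpt : ∀ n, ‖Complex.exp (Complex.log (zt τ (δ n, δ n))) *
        dev α β τ s0 h (Complex.log (zt τ (δ n, δ n)))‖ ≤
        Real.sqrt (4 * C * (1 + ‖τ‖) ^ 2 * ∫ q in S n, ‖h s0 q‖ ^ 2) := by
      intro n
      have hd0 := hδ0 n
      rw [hdev, Complex.exp_log (hz n), norm_mul]
      have hball : Metric.ball ((δ n, δ n) : ℝ × ℝ) (δ n / 2) ⊆ S n := by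
        intro q hq
        rw [Metric.mem_ball, Prod.dist_eq, max_lt_iff, Real.dist_eq, Real.dist_eq, abs_lt, abs_lt] at hq
        simp only at hq
        refine ⟨⟨?_, ?_⟩, ?_, ?_⟩ <;> linarith [hq.1.1, hq.1.2, hq.2.1, hq.2.2]
      have hcross : Metric.ball ((δ n, δ n) : ℝ × ℝ) (δ n / 2) ⊆ Cross := by
        intro q hq
        have := hSsub n (hball hq)
        exact Or.inl this.2
      have hint : IntegrableOn (fun q => ‖h s0 q‖ ^ 2) (S n) := (hi s0).mono_set (hSsub n)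
      have h1 := hol_bound hC (Set.mem_singleton τ) hτ hh s0 (p := (δ n, δ n)) (r := δ n / 2)
        (by positivity) hcross (hint.mono_set hball)
      have h2 : ∫ q in Metric.ball ((δ n, δ n) : ℝ × ℝ) (δ n / 2), ‖h s0 q‖ ^ 2 ≤
          ∫ q in S n, ‖h s0 q‖ ^ 2 :=
        setIntegral_mono_set hint (Eventually.of_forall fun q => by positivity)
          (LE.le.eventuallyLE hball)
      have h3 : ‖h s0 (δ n, δ n)‖ ^ 2 ≤ (C / (δ n / 2) ^ 2) * ∫ q in S n, ‖h s0 q‖ ^ 2 :=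
        h1.trans (mul_le_mul_of_nonneg_left h2 (by positivity))
      apply Real.le_sqrt_of_sq_le
      rw [mul_pow]
      have h4 : ‖zt τ (δ n, δ n)‖ ^ 2 ≤ ((1 + ‖τ‖) * δ n) ^ 2 :=
        pow_le_pow_left₀ (norm_nonneg _) (hzn n) 2
      have h5 : (0 : ℝ) ≤ ∫ q in S n, ‖h s0 q‖ ^ 2 := integral_nonneg fun q => by positivity
      calc ‖zt τ (δ n, δ n)‖ ^ 2 * ‖h s0 (δ n, δ n)‖ ^ 2
          ≤ ((1 + ‖τ‖) * δ n) ^ 2 * ((C / (δ n / 2) ^ 2) * ∫ q in S n, ‖h s0 q‖ ^ 2) :=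
            mul_le_mul h4 h3 (by positivity) (by positivity)
        _ = 4 * C * (1 + ‖τ‖) ^ 2 * ∫ q in S n, ‖h s0 q‖ ^ 2 := by
            field_simp
            ring
    refine squeeze_zero_norm hpt ?_
    have : Tendsto (fun n => Real.sqrt (4 * C * (1 + ‖τ‖) ^ 2 * ∫ q in S n, ‖h s0 q‖ ^ 2)) atTop
        (𝓝 (Real.sqrt (4 * C * (1 + ‖τ‖) ^ 2 * 0))) :=
      (Real.continuous_sqrt.tendsto _).comp (hlim.const_mul _)
    simpa using this

theorem decay (α β : Equiv.Perm X) (K : Set ℂ) (hK : IsCompact K) (hKH : K ⊆ HH) (k : ℕ)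
    (hk : 0 < k) :
    ∃ C ρ : ℝ, 0 < C ∧ 0 < ρ ∧ ρ ≤ 1 / 3 ∧ ∀ τ ∈ K, ∀ s0 : X, (zeta α β ^ k) s0 = s0 →
      ∀ h : X → ℝ × ℝ → ℂ, HolC α β τ h → (∀ s, IntegrableOn (fun p => ‖h s p‖ ^ 2) unitSq) →
      ∀ x y : ℝ, 0 < x → x < ρ → 0 < y → y < ρ →
        ‖h s0 (x, y)‖ ≤
          C * Real.sqrt (starE α β s0 k (fl h)) * (max x y) ^ (1 / (k : ℝ) - 1) := by
  obtain ⟨C0, hC0, hdb⟩ := dev_bound (X := X) α β K hK hKH
  obtain ⟨c, CK, hc, hCK, hb⟩ := K_bounds K hK hKH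
  have hkR : (0 : ℝ) < k := by exact_mod_cast hk
  have hk1 : (1 : ℝ) ≤ k := by exact_mod_cast hk
  have hexp : 1 / (k : ℝ) - 1 ≤ 0 := by
    rw [sub_nonpos]
    rw [div_le_one hkR]; exact hk1
  refine ⟨C0 * (c⁻¹) ^ (1 / (k : ℝ)) * (CK⁻¹) ^ (1 / (k : ℝ) - 1),
    min (1 / 3) (c / (2 * (1 + CK))), by positivity, lt_min (by norm_num) (by positivity),
    min_le_left _ _, ?_⟩
  intro τ hτK s0 hs h hh hint x y hx0 hx hy0 hy
  have hτ := hKH hτK
  obtain ⟨hcr, -, hτn, hzi⟩ := hb τ hτK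
  have hrd : 0 < rd τ := rd_pos hτ
  set m : ℝ := max x y with hm
  have hm0 : 0 < m := lt_max_of_lt_left hx0
  have hmρ : m < c / (2 * (1 + CK)) :=
    max_lt (lt_of_lt_of_le hx (min_le_right _ _)) (lt_of_lt_of_le hy (min_le_right _ _))
  have hnorm : ‖((x, y) : ℝ × ℝ)‖ = m := by
    rw [Prod.norm_def, Real.norm_eq_abs, Real.norm_eq_abs, abs_of_pos hx0, abs_of_pos hy0]
  set z : ℂ := zt τ (x, y) with hz
  have hz0 : z ≠ 0 := by
    intro h0
    have := congrArg Complex.im h0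
    simp [hz, zt] at this
    rcases this with h | h
    · exact (ne_of_gt (show 0 < τ.im from hτ)) h
    · exact hy0.ne' h
  have hzpos : 0 < ‖z‖ := norm_pos_iff.mpr hz0
  have hzle : ‖z‖ < rd τ := by
    have h1 : ‖z‖ ≤ (1 + ‖τ‖) * m := by
      have := norm_zt_le τ (x, y)
      rwa [hnorm] at this
    have h2 : (1 + ‖τ‖) * m ≤ (1 + CK) * m := mul_le_mul_of_nonneg_right (by linarith) hm0.le
    have h3 : (1 + CK) * m < c := by
      have : (1 + CK) * m < (1 + CK) * (c / (2 * (1 + CK))) :=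
        mul_lt_mul_of_pos_left hmρ (by positivity)
      have h4 : (1 + CK) * (c / (2 * (1 + CK))) = c / 2 := by field_simp
      linarith
    linarith
  have hzge : CK⁻¹ * m ≤ ‖z‖ := by
    have := hzi z
    rw [hz, zinv_zt hτ, hnorm, ← hz] at this
    rw [inv_mul_le_iff₀ hCK]
    exact this
  -- the representation
  obtain ⟨u, hu, hu0⟩ := dev_zero α β hτ s0 hh hint
  have hP : DifferentiableOn ℂ (fun t => Complex.exp t * dev α β τ s0 h t)
      {t | Real.exp t.re < rd τ} :=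
    Complex.differentiable_exp.differentiableOn.mul (dev_hol hτ hh s0)
  have hper : ∀ t : ℂ, (fun t => Complex.exp t * dev α β τ s0 h t)
      (t + 2 * Real.pi * Complex.I * k) = (fun t => Complex.exp t * dev α β τ s0 h t) t := by
    intro t
    simp only
    rw [dev_period hs]
    have : Complex.exp (t + 2 * Real.pi * Complex.I * k) = Complex.exp t := by
      have h1 := Complex.exp_periodic.nat_mul k t
      rw [show t + 2 * (Real.pi : ℂ) * Complex.I * k = t + k * (2 * Real.pi * Complex.I) by ring]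
      exact h1
    rw [this]
  have hrep := (periodic_rep hk hrd hP hper (hdb τ hτK k hk s0 hs h hh hint) u hu hu0).1
    (Complex.log z) (by rw [Complex.log_re, Real.exp_log hzpos]; exact hzle)
  have hdl : dev α β τ s0 h (Complex.log z) = h s0 (x, y) := by
    have := dev_log (α := α) (β := β) hτ h s0 0 (p := (x, y)) hy0
    simpa using this
  rw [hdl, Complex.exp_log hz0, norm_mul, Complex.log_re, Real.exp_log hzpos] at hrep
  set E := Real.sqrt (starE α β s0 k (fl h)) with hE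
  have hE0 : 0 ≤ E := Real.sqrt_nonneg _
  -- divide
  have h1 : ‖h s0 (x, y)‖ ≤ C0 * E * ((rd τ)⁻¹ ^ (1 / (k : ℝ))) * ‖z‖ ^ (1 / (k : ℝ) - 1) := by
    have h2 : ‖h s0 (x, y)‖ = (‖z‖ * ‖h s0 (x, y)‖) / ‖z‖ := by field_simp
    rw [h2, div_le_iff₀ hzpos]
    refine hrep.trans (le_of_eq ?_)
    rw [div_eq_mul_inv, Real.mul_rpow hzpos.le (inv_nonneg.mpr hrd.le), Real.rpow_sub_one hzpos.ne']
    field_simp
  have h2 : ‖z‖ ^ (1 / (k : ℝ) - 1) ≤ (CK⁻¹ * m) ^ (1 / (k : ℝ) - 1) :=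
    Real.rpow_le_rpow_of_nonpos (by positivity) hzge hexp
  have h3 : (rd τ)⁻¹ ^ (1 / (k : ℝ)) ≤ (c⁻¹) ^ (1 / (k : ℝ)) :=
    Real.rpow_le_rpow (by positivity) (inv_anti₀ hc hcr) (by positivity)
  calc ‖h s0 (x, y)‖ ≤ C0 * E * ((rd τ)⁻¹ ^ (1 / (k : ℝ))) * ‖z‖ ^ (1 / (k : ℝ) - 1) := h1
    _ ≤ C0 * E * ((c⁻¹) ^ (1 / (k : ℝ))) * (CK⁻¹ * m) ^ (1 / (k : ℝ) - 1) := by
        gcongr
    _ = C0 * (c⁻¹) ^ (1 / (k : ℝ)) * (CK⁻¹) ^ (1 / (k : ℝ) - 1) * E *
          m ^ (1 / (k : ℝ) - 1) := by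
        rw [Real.mul_rpow (by positivity) hm0.le]
        ring

end Pool.Agent.Helper96.OF
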