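import Pool.Agent.Helper42.OF.L04
import Pool.Agent.Helper96.OF.FT10

/-!
# OFL-L09: pointwise representative of the harmonic function, `dF = 2 Re (h dz)`

Let F = FF α β w τ (a.e. strongly measurable, real, bounded by C a.e.: FF_meas, FF_bound, so slicewise integrable), h = hh, ht = pv h.
(1) For χ a test function on Rc, L from test_R: `∫ F L_x = -∫ PP L`, `∫ F L_y = -∫ RR L` (F = Φ + ψ 0: FT3 `ibp` for Φ [nice_Phi], FT5 `ibp_H1` for ψ = sol; PP = ph1 + ψ 1, cls_ae, Phi_energy). PP_eq: PP = h + conj h, RR = τ h + conj τ conj h.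
So `∫ ext F s (τ χ_x - χ_y) = -∫ ext (τ PP - RR) s χ = -(τ - conj τ) ∫ conj (ext h s) χ`.
(2) p0 ∈ Rc: ε with U = {q : ‖zt τ q - zt τ p0‖ < ε} ⊆ Rc; zt τ '' U = ball. H primitive of `ht s ∘ zinv τ` on the ball (`DifferentiableOn.isExactOn_ball`). u = H ∘ zt + conj (H ∘ zt): C¹ on U with `fderiv u = gradL τ (ht s q)`; classical integration by parts for
χ supported in U: `∫ u (τ χ_x - χ_y) = -(τ - conj τ) ∫ conj (ht s) χ` (e.g. `integral_mul_fderiv_eq_neg_fderiv_mul_of_integrable` for χ u extended by 0, or the divergence of the C¹ function χ u). So ext F s - u satisfies the weak equation on U; W1 weyl: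
`ext F s - u = g ∘ zt τ` a.e. on U, g holomorphic on the ball; F real a.e. ⟹ im g = 0 a.e., hence everywhere on the ball (L02 eq_of_ae), so deriv g = 0 (Cauchy-Riemann) . pv_eq: `pv F s = g ∘ zt + u` on U, HasFDerivAt with derivative gradL τ (ht s p0), and real.
(3) same for Kc; L01 cross_chart for general points of Cross (ht and pv F move together: same σ, a).
(4) a.e. equality on the unit squares: unitSq ⊆ Rc; local a.e. equalities F = pv F near every point of Rc give it a.e. on unitSq (countable cover / `ae_restrict_of_forall_mem_nhds..`, Lindelöf: `MeasureTheory.Measure... ae_of_locally`; e.g. use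
`IsSigmaCompact`/`TopologicalSpace.countable_cover_nhds`).
-/

set_option autoImplicit false

open MeasureTheory Filter Topology
open scoped ComplexConjugate

namespace Pool.Agent.Helper96.OF

variable {X : Type} [Countable X] [MeasurableSpace X] [DiscreteMeasurableSpace X] {α β : Equiv.Perm X}

/-- weak derivatives of `F` against nice finitely supported functions -/
theorem FF_ibp (hSG : SG α β) {w : X → ℝ} (hw : InW α β w) {τ : ℂ} (hτ : τ ∈ HH)
    {L : X → ℝ × ℝ → ℂ} {c : X → ℂ} (hL : Nice α β L c) (hs : FinS L) :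
    ∫ q, FF α β w τ q * fl (dx L) q ∂(mu X) = - ∫ q, (PP α β w τ : Sq X → ℂ) q * fl L q ∂(mu X) ∧
    ∫ q, FF α β w τ q * fl (dy L) q ∂(mu X) = - ∫ q, (RR α β w τ : Sq X → ℂ) q * fl L q ∂(mu X) := by
  have hΦ : Nice α β (Phi α β (toC w)) (toC w) := ft6_nice_PhiC hw
  obtain ⟨hE1, hE2⟩ := Phi_energy hw
  obtain ⟨hi1, hi2⟩ := ibp hΦ hL hs
  have hsol : sol α β w τ ∈ H1 α β := (sol_spec hSG hw hτ).1.1
  obtain ⟨hj1, hj2⟩ := ibp_H1 hsol hL hs
  have hmul : ∀ (v : KK X) {g : X → ℝ × ℝ → ℂ} {d : X → ℂ}, Nice α β g d → FinS g →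
      Integrable (fun q => (v : Sq X → ℂ) q * fl g q) (mu X) := by
    intro v g d hg hgs
    exact (Lp.memLp v).integrable_mul (nice_memLp hg hgs 2)
  constructor
  · have e1 : (fun q => FF α β w τ q * fl (dx L) q) = fun q =>
        fl (Phi α β (toC w)) q * fl (dx L) q + (sol α β w τ 0 : Sq X → ℂ) q * fl (dx L) q := by
      funext q; unfold FF; ring
    rw [e1, integral_add (int_prod hΦ (nice_dx hL) (finS_dx hs).1)
      (hmul _ (nice_dx hL) (finS_dx hs).1)]
    have e2 : ∫ q, (PP α β w τ : Sq X → ℂ) q * fl L q ∂(mu X) =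
        ∫ q, fl (dx (Phi α β (toC w))) q * fl L q ∂(mu X) +
          ∫ q, (sol α β w τ 1 : Sq X → ℂ) q * fl L q ∂(mu X) := by
      rw [← integral_add (int_prod (nice_dx hΦ) hL hs) (hmul _ hL hs)]
      refine integral_congr_ae ?_
      have h1 := Lp.coeFn_add (ph1 α β w) (sol α β w τ 1)
      have h2 := cls_ae hE1
      filter_upwards [h1, h2] with q hq1 hq2
      have : (PP α β w τ : Sq X → ℂ) q = fl (dx (Phi α β (toC w))) q +
          (sol α β w τ 1 : Sq X → ℂ) q := by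
        unfold PP
        rw [hq1, Pi.add_apply, ← hq2]
        rfl
      rw [this]; ring
    rw [e2, hi1, hj1]; ring
  · have e1 : (fun q => FF α β w τ q * fl (dy L) q) = fun q =>
        fl (Phi α β (toC w)) q * fl (dy L) q + (sol α β w τ 0 : Sq X → ℂ) q * fl (dy L) q := by
      funext q; unfold FF; ring
    rw [e1, integral_add (int_prod hΦ (nice_dy hL) (finS_dx hs).2)
      (hmul _ (nice_dy hL) (finS_dx hs).2)]
    have e2 : ∫ q, (RR α β w τ : Sq X → ℂ) q * fl L q ∂(mu X) =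
        ∫ q, fl (dy (Phi α β (toC w))) q * fl L q ∂(mu X) +
          ∫ q, (sol α β w τ 2 : Sq X → ℂ) q * fl L q ∂(mu X) := by
      rw [← integral_add (int_prod (nice_dy hΦ) hL hs) (hmul _ hL hs)]
      refine integral_congr_ae ?_
      have h1 := Lp.coeFn_add (ph2 α β w) (sol α β w τ 2)
      have h2 := cls_ae hE2
      filter_upwards [h1, h2] with q hq1 hq2
      have : (RR α β w τ : Sq X → ℂ) q = fl (dy (Phi α β (toC w))) q +
          (sol α β w τ 2 : Sq X → ℂ) q := by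
        unfold RR
        rw [hq1, Pi.add_apply, ← hq2]
        rfl
      rw [this]; ring
    rw [e2, hi2, hj2]; ring

/-! ### Charts -/

/-- what we need of the charts `Rc`, `Kc` -/
private structure Cht (α β : Equiv.Perm X) (Ω : Set (ℝ × ℝ)) : Prop where
  opn : IsOpen Ω
  sub : Ω ⊆ Cross
  test : ∀ χ : ℝ × ℝ → ℂ, ContDiff ℝ (⊤ : ℕ∞) χ → HasCompactSupport χ → tsupport χ ⊆ Ω → ∀ s : X,
    ∃ L : X → ℝ × ℝ → ℂ, Nice α β L (fun _ => 0) ∧ FinS L ∧
      ∀ f : Sq X → ℂ, AEStronglyMeasurable f (mu X) → (∀ s, IntegrableOn (fun p => f (s, p)) unitSq) →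
        ∫ q, f q * fl L q ∂(mu X) = ∫ p, ext α β (fun s p => f (s, p)) s p * χ p ∧
        ∫ q, f q * fl (dx L) q ∂(mu X) =
          ∫ p, ext α β (fun s p => f (s, p)) s p * fderiv ℝ χ p (1, 0) ∧
        ∫ q, f q * fl (dy L) q ∂(mu X) =
          ∫ p, ext α β (fun s p => f (s, p)) s p * fderiv ℝ χ p (0, 1)
  intg : ∀ f : Sq X → ℂ, (∀ s, IntegrableOn (fun p => f (s, p)) unitSq) → ∀ s : X,
    IntegrableOn (ext α β (fun s p => f (s, p)) s) Ω
  ae : ∀ f g : X → ℝ × ℝ → ℂ, (∀ s, ∀ᵐ p ∂(volume.restrict unitSq), f s p = g s p) → ∀ s : X,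
    ∀ᵐ p ∂(volume.restrict Ω), ext α β f s p = ext α β g s p
  gl : ∀ f : X → ℝ × ℝ → ℂ, Glue α β f → ∀ s, ∀ p ∈ Ω, ext α β f s p = f s p

private theorem cht_R (α β : Equiv.Perm X) : Cht α β Rc where
  opn := isOpen_Rc.1
  sub := isOpen_Rc.2
  test χ hχ hc hs s := test_R α β hχ hc hs s
  intg f hf s := (ext_intOn α β hf s).1
  ae f g h s := (ext_aeOn α β h s).1
  gl f hf s := by
    rintro ⟨x, y⟩ ⟨⟨hx0, hx1⟩, hy0, hy1⟩
    simp only at hx0 hx1 hy0 hy1
    have hy : ⌊y⌋ = 0 := Int.floor_eq_zero_iff.2 ⟨hy0.le, hy1⟩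
    unfold ext
    simp only
    rw [hy, zpow_zero, Int.fract, Int.fract, hy, Int.cast_zero, sub_zero]
    by_cases h : 0 ≤ x
    · have hx : ⌊x⌋ = 0 := Int.floor_eq_zero_iff.2 ⟨h, hx1⟩
      rw [hx, zpow_zero, Int.cast_zero, sub_zero]
      rfl
    · have hx : ⌊x⌋ = -1 := by
        rw [Int.floor_eq_iff]
        push Not at h
        push_cast
        constructor <;> linarith
      rw [hx]
      have h1 := hf.row ((α ^ (-1 : ℤ)) s) x y hy0 hy1
      push_cast
      rw [sub_neg_eq_add]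
      change f ((α ^ (-1 : ℤ)) s) (x + 1, y) = _
      rw [h1]
      simp

private theorem cht_K (α β : Equiv.Perm X) : Cht α β Kc where
  opn := isOpen_Kc.1
  sub := isOpen_Kc.2
  test χ hχ hc hs s := test_K α β hχ hc hs s
  intg f hf s := (ext_intOn α β hf s).2
  ae f g h s := (ext_aeOn α β h s).2
  gl f hf s := by
    rintro ⟨x, y⟩ ⟨⟨hx0, hx1⟩, hy0, hy1⟩
    simp only at hx0 hx1 hy0 hy1
    have hx : ⌊x⌋ = 0 := Int.floor_eq_zero_iff.2 ⟨hx0.le, hx1⟩
    unfold ext
    simp only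
    rw [hx, zpow_zero, Int.fract, Int.fract, hx, Int.cast_zero, sub_zero]
    by_cases h : 0 ≤ y
    · have hy : ⌊y⌋ = 0 := Int.floor_eq_zero_iff.2 ⟨h, hy1⟩
      rw [hy, zpow_zero, Int.cast_zero, sub_zero]
      rfl
    · have hy : ⌊y⌋ = -1 := by
        rw [Int.floor_eq_iff]
        push Not at h
        push_cast
        constructor <;> linarith
      rw [hy]
      have h1 := hf.col ((β ^ (-1 : ℤ)) s) x y hx0 hx1
      push_cast
      rw [sub_neg_eq_add]
      change f ((β ^ (-1 : ℤ)) s) (x, y + 1) = _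
      rw [h1]
      simp

private theorem int_test {Ω : Set (ℝ × ℝ)} {f η : ℝ × ℝ → ℂ} (hf : IntegrableOn f Ω)
    (hη : Continuous η) (hc : HasCompactSupport η) (hs : tsupport η ⊆ Ω) :
    Integrable (fun p => f p * η p) := by
  have h1 : IntegrableOn (fun p => f p * η p) (tsupport η) :=
    (hf.mono_set hs).mul_continuousOn hη.continuousOn hc
  rwa [integrableOn_iff_integrable_of_support_subset] at h1
  intro p hp
  exact subset_tsupport _ (fun h => hp (by simp [h]))

private theorem int_cont {U : Set (ℝ × ℝ)} (hU : IsOpen U) {f η : ℝ × ℝ → ℂ}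
    (hf : ContinuousOn f U) (hη : Continuous η) (hc : HasCompactSupport η) (hs : tsupport η ⊆ U) :
    Integrable (fun p => f p * η p) := by
  have h1 : Continuous (fun p => f p * η p) := by
    refine continuous_of_tsupport fun x hx => ?_
    have hx' : x ∈ tsupport η := tsupport_mul_subset_right hx
    exact (hf.continuousAt (hU.mem_nhds (hs hx'))).mul hη.continuousAt
  exact h1.integrable_of_hasCompactSupport hc.mul_left

private theorem F_slice (_hSG : SG α β) {w : X → ℝ} (hw : InW α β w) {τ : ℂ} (_hτ : τ ∈ HH) (s : X) :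
    IntegrableOn (fun p => FF α β w τ (s, p)) unitSq := by
  have hΦ : Nice α β (Phi α β (toC w)) (toC w) := ft6_nice_PhiC hw
  obtain ⟨C, hC⟩ := nice_bdd hΦ s
  have h1 : IntegrableOn (Phi α β (toC w) s) unitSq :=
    ft4_bdd_int ((hΦ.smooth s).continuousOn.mono unitSq_subset_Cross) hC
  exact h1.add (slice_int (Lp.memLp (sol α β w τ 0)) s).1

/-- the weak equation for `F` on a chart -/
private theorem weak_F (hSG : SG α β) {w : X → ℝ} (hw : InW α β w) {τ : ℂ} (hτ : τ ∈ HH)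
    {Ω : Set (ℝ × ℝ)} (hC : Cht α β Ω) (s : X) {χ : ℝ × ℝ → ℂ} (hχ : ContDiff ℝ (⊤ : ℕ∞) χ)
    (hc : HasCompactSupport χ) (hs : tsupport χ ⊆ Ω) :
    ∫ p, ext α β (fun s p => FF α β w τ (s, p)) s p *
        (τ * fderiv ℝ χ p (1, 0) - fderiv ℝ χ p (0, 1)) =
      (conj τ - τ) * ∫ p, conj (pv α β (hh α β w τ : Sq X → ℂ) s p) * χ p := by
  obtain ⟨L, hL, hfin, hT⟩ := hC.test χ hχ hc hs s
  obtain ⟨-, T1, T2⟩ := hT _ (FF_meas hSG hw hτ).1 (F_slice hSG hw hτ)
  obtain ⟨P0, -, -⟩ := hT (PP α β w τ) (Lp.aestronglyMeasurable _)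
    (fun s => (slice_int (Lp.memLp (PP α β w τ)) s).1)
  obtain ⟨R0, -, -⟩ := hT (RR α β w τ) (Lp.aestronglyMeasurable _)
    (fun s => (slice_int (Lp.memLp (RR α β w τ)) s).1)
  obtain ⟨I1, I2⟩ := FF_ibp hSG hw hτ hL hfin
  have hFi := hC.intg _ (F_slice hSG hw hτ) s
  have hPi := hC.intg _ (fun s => (slice_int (Lp.memLp (PP α β w τ)) s).1) s
  have hRi := hC.intg _ (fun s => (slice_int (Lp.memLp (RR α β w τ)) s).1) s
  have hcd : ∀ v : ℝ × ℝ, Continuous fun p => fderiv ℝ χ p v := fun v =>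
    (hχ.continuous_fderiv (by simp)).clm_apply continuous_const
  have hcs : ∀ v : ℝ × ℝ, HasCompactSupport fun p => fderiv ℝ χ p v := fun v =>
    hc.fderiv_apply (𝕜 := ℝ) v
  have hts : ∀ v : ℝ × ℝ, tsupport (fun p => fderiv ℝ χ p v) ⊆ Ω := fun v =>
    (tsupport_fderiv_apply_subset ℝ v).trans hs
  have e1 : (fun p => ext α β (fun s p => FF α β w τ (s, p)) s p *
        (τ * fderiv ℝ χ p (1, 0) - fderiv ℝ χ p (0, 1))) = fun p =>
      τ * (ext α β (fun s p => FF α β w τ (s, p)) s p * fderiv ℝ χ p (1, 0)) -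
        ext α β (fun s p => FF α β w τ (s, p)) s p * fderiv ℝ χ p (0, 1) := by
    funext p; ring
  rw [e1, integral_sub ((int_test hFi (hcd _) (hcs _) (hts _)).const_mul τ)
    (int_test hFi (hcd _) (hcs _) (hts _)), integral_const_mul, ← T1, ← T2, I1, I2, P0, R0]
  have e2 : (τ * -∫ p, ext α β (fun s p => (PP α β w τ : Sq X → ℂ) (s, p)) s p * χ p) -
      -∫ p, ext α β (fun s p => (RR α β w τ : Sq X → ℂ) (s, p)) s p * χ p =
      ∫ p, (ext α β (fun s p => (RR α β w τ : Sq X → ℂ) (s, p)) s p * χ p -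
        τ * (ext α β (fun s p => (PP α β w τ : Sq X → ℂ) (s, p)) s p * χ p)) := by
    rw [integral_sub (int_test hRi hχ.continuous hc hs)
      ((int_test hPi hχ.continuous hc hs).const_mul τ), integral_const_mul]
    ring
  rw [e2, ← integral_const_mul]
  refine integral_congr_ae ?_
  -- a.e. identity on the squares
  have hH := holC_hh hSG hw hτ
  have hsq : ∀ s, ∀ᵐ p ∂(volume.restrict unitSq),
      (RR α β w τ : Sq X → ℂ) (s, p) - τ * (PP α β w τ : Sq X → ℂ) (s, p) =
        (conj τ - τ) * conj (pv α β (hh α β w τ : Sq X → ℂ) s p) := by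
    obtain ⟨hP, hR⟩ := PP_eq hSG hw hτ
    have h1 : ∀ᵐ q ∂(mu X), (RR α β w τ : Sq X → ℂ) q - τ * (PP α β w τ : Sq X → ℂ) q =
        (conj τ - τ) * conj ((hh α β w τ : Sq X → ℂ) q) := by
      have a1 := Lp.coeFn_add (hh α β w τ) (JK X (hh α β w τ))
      have a2 := Lp.coeFn_add (τ • hh α β w τ) (conj τ • JK X (hh α β w τ))
      have a3 := Lp.coeFn_smul τ (hh α β w τ)
      have a4 := Lp.coeFn_smul (conj τ) (JK X (hh α β w τ))
      have a5 := JK_ae (hh α β w τ)
      rw [hP, hR]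
      filter_upwards [a1, a2, a3, a4, a5] with q b1 b2 b3 b4 b5
      rw [b1, b2, Pi.add_apply, Pi.add_apply, b3, b4, Pi.smul_apply, Pi.smul_apply, b5,
        smul_eq_mul, smul_eq_mul]
      ring
    have h2 := (ae_mu_iff _).1 h1
    intro s
    filter_upwards [h2 s, hH.2 s] with p hp hp'
    rw [hp, hp']
  have hΩ := hC.ae (fun s p => (RR α β w τ : Sq X → ℂ) (s, p) - τ * (PP α β w τ : Sq X → ℂ) (s, p))
    (fun s p => (conj τ - τ) * conj (pv α β (hh α β w τ : Sq X → ℂ) s p)) hsq s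
  rw [ae_restrict_iff' hC.opn.measurableSet] at hΩ
  filter_upwards [hΩ] with p hp
  by_cases hpΩ : p ∈ Ω
  · have h3 := hp hpΩ
    have h4 : ext α β (fun s p => (RR α β w τ : Sq X → ℂ) (s, p) -
        τ * (PP α β w τ : Sq X → ℂ) (s, p)) s p =
        ext α β (fun s p => (RR α β w τ : Sq X → ℂ) (s, p)) s p -
          τ * ext α β (fun s p => (PP α β w τ : Sq X → ℂ) (s, p)) s p := rfl
    have h5 : ext α β (fun s p => (conj τ - τ) * conj (pv α β (hh α β w τ : Sq X → ℂ) s p)) s p =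
        (conj τ - τ) * conj (ext α β (pv α β (hh α β w τ : Sq X → ℂ)) s p) := rfl
    rw [h4, h5, hC.gl _ hH.1.glue s p hpΩ] at h3
    calc ext α β (fun s p => (RR α β w τ : Sq X → ℂ) (s, p)) s p * χ p -
        τ * (ext α β (fun s p => (PP α β w τ : Sq X → ℂ) (s, p)) s p * χ p) =
        (ext α β (fun s p => (RR α β w τ : Sq X → ℂ) (s, p)) s p -
          τ * ext α β (fun s p => (PP α β w τ : Sq X → ℂ) (s, p)) s p) * χ p := by ring
      _ = _ := by rw [h3]; ring
  · have h0 : χ p = 0 := by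
      by_contra hne
      exact hpΩ (hs (subset_tsupport _ hne))
    rw [h0]; ring

/-- the weak equation of an explicit function -/
private theorem weak_u {τ : ℂ} {U : Set (ℝ × ℝ)} (hU : IsOpen U) {u ht : ℝ × ℝ → ℂ}
    (hht : ContinuousOn ht U) (hu : ∀ p ∈ U, HasFDerivAt u (gradL τ (ht p)) p)
    {χ : ℝ × ℝ → ℂ} (hχ : ContDiff ℝ (⊤ : ℕ∞) χ)
    (hc : HasCompactSupport χ) (hs : tsupport χ ⊆ U) :
    ∫ p, u p * (τ * fderiv ℝ χ p (1, 0) - fderiv ℝ χ p (0, 1)) =
      (conj τ - τ) * ∫ p, conj (ht p) * χ p := by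
  have hcd : ∀ v : ℝ × ℝ, Continuous fun p => fderiv ℝ χ p v := fun v =>
    (hχ.continuous_fderiv (by simp)).clm_apply continuous_const
  have hcs : ∀ v : ℝ × ℝ, HasCompactSupport fun p => fderiv ℝ χ p v := fun v =>
    hc.fderiv_apply (𝕜 := ℝ) v
  have hts : ∀ v : ℝ × ℝ, tsupport (fun p => fderiv ℝ χ p v) ⊆ U := fun v =>
    (tsupport_fderiv_apply_subset ℝ v).trans hs
  have huc : ContinuousOn u U := fun p hp => (hu p hp).continuousAt.continuousWithinAt
  have hcg : ∀ v : ℝ × ℝ, ContinuousOn (fun p => gradL τ (ht p) v) U := by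
    intro v
    simp only [gradL_apply]
    have h1 : ContinuousOn (fun p => ht p * zt τ v) U := hht.mul continuousOn_const
    exact h1.add (Complex.continuous_conj.comp_continuousOn h1)
  have hib : ∀ v : ℝ × ℝ, ∫ p, u p * fderiv ℝ χ p v = - ∫ p, gradL τ (ht p) v * χ p := by
    intro v
    have hcongr : (fun p => fderiv ℝ u p v * χ p) = fun p => gradL τ (ht p) v * χ p := by
      funext p
      by_cases hp : p ∈ U
      · rw [(hu p hp).fderiv]
      · have h0 : χ p = 0 := by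
          by_contra hne
          exact hp (hs (subset_tsupport _ hne))
        rw [h0, mul_zero, mul_zero]
    rw [← hcongr]
    refine integral_mul_fderiv_eq_neg_fderiv_mul_of_integrable ?_ ?_ ?_ ?_ ?_
    · rw [hcongr]; exact int_cont hU (hcg v) hχ.continuous hc hs
    · exact int_cont hU huc (hcd v) (hcs v) (hts v)
    · exact int_cont hU huc hχ.continuous hc hs
    · intro x hx; exact (hu x (hs hx)).differentiableAt
    · intro x _; exact (hχ.differentiable (by simp)) x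
  have e1 : (fun p => u p * (τ * fderiv ℝ χ p (1, 0) - fderiv ℝ χ p (0, 1))) = fun p =>
      τ * (u p * fderiv ℝ χ p (1, 0)) - u p * fderiv ℝ χ p (0, 1) := by
    funext p; ring
  rw [e1, integral_sub ((int_cont hU huc (hcd _) (hcs _) (hts _)).const_mul τ)
    (int_cont hU huc (hcd _) (hcs _) (hts _)), integral_const_mul, hib, hib]
  have e2 : (τ * -∫ p, gradL τ (ht p) (1, 0) * χ p) - -∫ p, gradL τ (ht p) (0, 1) * χ p =
      ∫ p, (gradL τ (ht p) (0, 1) * χ p - τ * (gradL τ (ht p) (1, 0) * χ p)) := by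
    rw [integral_sub (int_cont hU (hcg _) hχ.continuous hc hs)
      ((int_cont hU (hcg _) hχ.continuous hc hs).const_mul τ), integral_const_mul]
    ring
  rw [e2, ← integral_const_mul]
  congr 1
  funext p
  rw [gradL_apply, gradL_apply]
  have z1 : zt τ (1, 0) = 1 := by simp [zt]
  have z2 : zt τ (0, 1) = τ := by simp [zt]
  rw [z1, z2, map_mul, map_mul, map_one]
  ring

private theorem local_rep (hSG : SG α β) {w : X → ℝ} (hw : InW α β w) {τ : ℂ} (hτ : τ ∈ HH)
    {Ω : Set (ℝ × ℝ)} (hC : Cht α β Ω) (s : X) {p0 : ℝ × ℝ} (hp0 : p0 ∈ Ω) :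
    ∃ U : Set (ℝ × ℝ), IsOpen U ∧ p0 ∈ U ∧ U ⊆ Ω ∧
      (∀ᵐ p ∂(volume.restrict U), ext α β (fun s p => FF α β w τ (s, p)) s p =
        pv α β (FF α β w τ) s p) ∧
      HasFDerivAt (pv α β (FF α β w τ) s)
        (gradL τ (pv α β (hh α β w τ : Sq X → ℂ) s p0)) p0 ∧
      (pv α β (FF α β w τ) s p0).im = 0 := by
  have hH := (holC_hh hSG hw hτ).1
  obtain ⟨ε, hε, hball⟩ := Metric.isOpen_iff.1 (isOpen_zinv τ hC.opn) (zt τ p0)
    (by change zinv τ (zt τ p0) ∈ Ω; rw [zinv_zt hτ]; exact hp0)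
  have hcz : Continuous (zt τ) :=
    continuous_iff_continuousAt.2 fun p => (hasFDerivAt_zt τ p).continuousAt
  have hUo : IsOpen (zt τ ⁻¹' Metric.ball (zt τ p0) ε) := Metric.isOpen_ball.preimage hcz
  have hUp : p0 ∈ zt τ ⁻¹' Metric.ball (zt τ p0) ε := Metric.mem_ball_self hε
  have hUΩ : zt τ ⁻¹' Metric.ball (zt τ p0) ε ⊆ Ω := by
    intro p hp
    have h1 : zinv τ (zt τ p) ∈ Ω := hball hp
    rwa [zinv_zt hτ] at h1
  have himg : zt τ '' (zt τ ⁻¹' Metric.ball (zt τ p0) ε) = Metric.ball (zt τ p0) ε :=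
    Set.image_preimage_eq _ fun z => ⟨zinv τ z, zt_zinv hτ z⟩
  have hol : DifferentiableOn ℂ (fun z => pv α β (hh α β w τ : Sq X → ℂ) s (zinv τ z))
      (Metric.ball (zt τ p0) ε) := (hH.hol s).mono fun z hz => hC.sub (hball hz)
  obtain ⟨H, hHd⟩ := hol.isExactOn_ball
  have hu : ∀ p ∈ zt τ ⁻¹' Metric.ball (zt τ p0) ε,
      HasFDerivAt (fun p => H (zt τ p) + conj (H (zt τ p)))
        (gradL τ (pv α β (hh α β w τ : Sq X → ℂ) s p)) p := by
    intro p hp
    have h1 := hHd _ hp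
    simp only at h1
    rw [zinv_zt hτ] at h1
    have h2 := (h1.hasFDerivAt.restrictScalars ℝ).comp p (hasFDerivAt_zt τ p)
    have h3 := (Complex.conjCLE : ℂ →L[ℝ] ℂ).hasFDerivAt.comp p h2
    refine (h2.add h3).congr_fderiv ?_
    ext <;> simp [gradL, ztL, mul_comm]
  have huc : ContinuousOn (fun p => H (zt τ p) + conj (H (zt τ p)))
      (zt τ ⁻¹' Metric.ball (zt τ p0) ε) := fun p hp => (hu p hp).continuousAt.continuousWithinAt
  have hht : ContinuousOn (pv α β (hh α β w τ : Sq X → ℂ) s)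
      (zt τ ⁻¹' Metric.ball (zt τ p0) ε) := (hH.cont hτ s).mono (hUΩ.trans hC.sub)
  have hFi := hC.intg _ (F_slice hSG hw hτ) s
  obtain ⟨g, hg, hfg⟩ := weyl τ hτ (zt τ ⁻¹' Metric.ball (zt τ p0) ε) hUo
    (fun p => ext α β (fun s p => FF α β w τ (s, p)) s p - (H (zt τ p) + conj (H (zt τ p))))
    ((hFi.mono_set hUΩ).locallyIntegrableOn.sub (huc.locallyIntegrableOn hUo.measurableSet)) (by
      intro χ hχ hc hs
      have hcd : ∀ v : ℝ × ℝ, Continuous fun p => fderiv ℝ χ p v := fun v =>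
        (hχ.continuous_fderiv (by simp)).clm_apply continuous_const
      have hcs : ∀ v : ℝ × ℝ, HasCompactSupport fun p => fderiv ℝ χ p v := fun v =>
        hc.fderiv_apply (𝕜 := ℝ) v
      have hts : ∀ v : ℝ × ℝ, tsupport (fun p => fderiv ℝ χ p v) ⊆
          zt τ ⁻¹' Metric.ball (zt τ p0) ε := fun v =>
        (tsupport_fderiv_apply_subset ℝ v).trans hs
      have h1 := weak_F hSG hw hτ hC s hχ hc (hs.trans hUΩ)
      have h2 := weak_u hUo hht hu hχ hc hs
      have e1 : (fun p => (ext α β (fun s p => FF α β w τ (s, p)) s p -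
          (H (zt τ p) + conj (H (zt τ p)))) * (τ * fderiv ℝ χ p (1, 0) - fderiv ℝ χ p (0, 1))) =
          fun p => ext α β (fun s p => FF α β w τ (s, p)) s p *
            (τ * fderiv ℝ χ p (1, 0) - fderiv ℝ χ p (0, 1)) -
            (H (zt τ p) + conj (H (zt τ p))) *
            (τ * fderiv ℝ χ p (1, 0) - fderiv ℝ χ p (0, 1)) := by
        funext p; ring
      have i1 : Integrable fun p => ext α β (fun s p => FF α β w τ (s, p)) s p *
            (τ * fderiv ℝ χ p (1, 0) - fderiv ℝ χ p (0, 1)) := by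
        have := ((int_test hFi (hcd (1, 0)) (hcs _) ((hts _).trans hUΩ)).const_mul τ).sub
          (int_test hFi (hcd (0, 1)) (hcs _) ((hts _).trans hUΩ))
        refine this.congr (Filter.Eventually.of_forall fun p => ?_)
        simp only [Pi.sub_apply]
        ring
      have i2 : Integrable fun p => (H (zt τ p) + conj (H (zt τ p))) *
            (τ * fderiv ℝ χ p (1, 0) - fderiv ℝ χ p (0, 1)) := by
        have := ((int_cont hUo huc (hcd (1, 0)) (hcs _) (hts _)).const_mul τ).sub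
          (int_cont hUo huc (hcd (0, 1)) (hcs _) (hts _))
        refine this.congr (Filter.Eventually.of_forall fun p => ?_)
        simp only [Pi.sub_apply]
        ring
      rw [e1, integral_sub i1 i2, h1, h2, sub_self])
  rw [himg] at hg
  have hgc : ContinuousOn (fun p => g (zt τ p)) (zt τ ⁻¹' Metric.ball (zt τ p0) ε) :=
    hg.continuousOn.comp hcz.continuousOn fun p hp => hp
  -- reality
  have hreal : ∀ p ∈ zt τ ⁻¹' Metric.ball (zt τ p0) ε, g (zt τ p) = conj (g (zt τ p)) := by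
    refine eq_of_ae hUo hgc (Complex.continuous_conj.comp_continuousOn hgc) ?_
    have h1 := (ae_mu_iff _).1 (FF_meas hSG hw hτ).2
    have h2 := hC.ae (fun s p => FF α β w τ (s, p)) (fun s p => conj (FF α β w τ (s, p)))
      (fun s => by
        filter_upwards [h1 s] with p hp
        rw [Complex.conj_eq_iff_im.2 hp]) s
    have h3 := ae_restrict_of_ae_restrict_of_subset hUΩ h2
    filter_upwards [h3, hfg] with p a1 a2
    have a3 : ext α β (fun s p => conj (FF α β w τ (s, p))) s p =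
      conj (ext α β (fun s p => FF α β w τ (s, p)) s p) := rfl
    rw [a3] at a1
    rw [← a2, map_sub, ← a1, map_add, Complex.conj_conj, add_comm (conj (H (zt τ p)))]
  have hae : ∀ᵐ p ∂(volume.restrict (zt τ ⁻¹' Metric.ball (zt τ p0) ε)),
      ext α β (fun s p => FF α β w τ (s, p)) s p =
        g (zt τ p) + (H (zt τ p) + conj (H (zt τ p))) := by
    filter_upwards [hfg] with p hp
    rw [← hp]; ring
  have hpvF : ∀ p ∈ zt τ ⁻¹' Metric.ball (zt τ p0) ε, pv α β (FF α β w τ) s p =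
      g (zt τ p) + (H (zt τ p) + conj (H (zt τ p))) := fun p hp =>
    pv_eq hUo (g := fun p => g (zt τ p) + (H (zt τ p) + conj (H (zt τ p)))) hae (hgc.add huc) hp
  refine ⟨_, hUo, hUp, hUΩ, ?_, ?_, ?_⟩
  · filter_upwards [hae, ae_restrict_mem hUo.measurableSet] with p hp hp'
    rw [hp, hpvF p hp']
  · -- the derivative of `g`
    have hgd : HasDerivAt g (deriv g (zt τ p0)) (zt τ p0) :=
      (hg.differentiableAt (Metric.isOpen_ball.mem_nhds hUp)).hasDerivAt
    have h2 := (hgd.hasFDerivAt.restrictScalars ℝ).comp p0 (hasFDerivAt_zt τ p0)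
    have h3 := (Complex.conjCLE : ℂ →L[ℝ] ℂ).hasFDerivAt.comp p0 h2
    have h4 : HasFDerivAt (g ∘ zt τ) _ p0 := h3.congr_of_eventuallyEq
      (Filter.eventuallyEq_of_mem (hUo.mem_nhds hUp) fun p hp => hreal p hp)
    have h5 := h2.unique h4
    have h6 : ∀ v : ℝ × ℝ, deriv g (zt τ p0) * zt τ v = conj (deriv g (zt τ p0) * zt τ v) := by
      intro v
      have h7 := congrArg (fun L : ℝ × ℝ →L[ℝ] ℂ => L v) h5
      simp [ztL_apply] at h7
      rw [map_mul, mul_comm (conj _)]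
      rw [mul_comm]
      exact h7
    have h8 := h6 (zinv τ 1)
    have h9 := h6 (zinv τ Complex.I)
    rw [zt_zinv hτ, mul_one] at h8
    rw [zt_zinv hτ, map_mul, Complex.conj_I, ← h8] at h9
    have h10 : deriv g (zt τ p0) = 0 := by
      have : deriv g (zt τ p0) * (2 * Complex.I) = 0 := by
        rw [mul_comm]; linear_combination h9
      rcases mul_eq_zero.1 this with h | h
      · exact h
      · simp at h
    have h11 : HasFDerivAt (fun p => g (zt τ p)) (0 : ℝ × ℝ →L[ℝ] ℂ) p0 := by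
      refine h2.congr_fderiv ?_
      rw [h10]
      ext <;> simp
    have h12 := h11.add (hu p0 hUp)
    rw [zero_add] at h12
    exact h12.congr_of_eventuallyEq (Filter.eventuallyEq_of_mem (hUo.mem_nhds hUp) hpvF)
  · rw [hpvF p0 hUp, Complex.add_im, Complex.add_im, Complex.conj_im]
    have := Complex.conj_eq_iff_im.1 (hreal p0 hUp).symm
    rw [this]; ring

theorem FF_pv (hSG : SG α β) {w : X → ℝ} (hw : InW α β w) {τ : ℂ} (hτ : τ ∈ HH) :
    (∀ s, ∀ p ∈ Cross, HasFDerivAt (pv α β (FF α β w τ) s)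
      (gradL τ (pv α β (hh α β w τ : Sq X → ℂ) s p)) p) ∧
    (∀ s, ∀ᵐ p ∂(volume.restrict unitSq), FF α β w τ (s, p) = pv α β (FF α β w τ) s p) ∧
    ∀ s, ∀ p ∈ Cross, (pv α β (FF α β w τ) s p).im = 0 := by
  have key : ∀ s, ∀ p ∈ Cross, HasFDerivAt (pv α β (FF α β w τ) s)
      (gradL τ (pv α β (hh α β w τ : Sq X → ℂ) s p)) p ∧
      (pv α β (FF α β w τ) s p).im = 0 := by
    intro s p hp
    obtain ⟨σ, a, ha, hf⟩ := cross_chart α β s hp
    have h1 := hf (pv α β (FF α β w τ)) (pv_glue _)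
    have h2 := hf (pv α β (hh α β w τ : Sq X → ℂ)) (pv_glue _)
    have h3 : HasFDerivAt (pv α β (FF α β w τ) σ)
        (gradL τ (pv α β (hh α β w τ : Sq X → ℂ) σ (p + a))) (p + a) ∧
        (pv α β (FF α β w τ) σ (p + a)).im = 0 := by
      rcases ha with ha | ha
      · obtain ⟨U, -, -, -, -, h4, h5⟩ := local_rep hSG hw hτ (cht_R α β) σ ha
        exact ⟨h4, h5⟩
      · obtain ⟨U, -, -, -, -, h4, h5⟩ := local_rep hSG hw hτ (cht_K α β) σ ha
        exact ⟨h4, h5⟩
    constructor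
    · rw [h2.self_of_nhds]
      have h4 := h3.1.comp p ((hasFDerivAt_id p).add_const a)
      rw [ContinuousLinearMap.comp_id] at h4
      exact h4.congr_of_eventuallyEq h1
    · rw [h1.self_of_nhds]; exact h3.2
  refine ⟨fun s p hp => (key s p hp).1, ?_, fun s p hp => (key s p hp).2⟩
  intro s
  have hm : MeasurableSet unitSq := isOpen_unitSq.measurableSet
  rw [ae_restrict_iff' hm, ae_iff]
  refine measure_null_of_locally_null _ fun p hp => ?_
  simp only [Classical.not_imp, Set.mem_ofPred_eq] at hp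
  have hsub : unitSq ⊆ Rc := by
    rintro ⟨x, y⟩ ⟨⟨h1, h2⟩, h3, h4⟩
    exact ⟨⟨by linarith, h2⟩, h3, h4⟩
  obtain ⟨U, hU, hpU, -, h4, -⟩ := local_rep hSG hw hτ (cht_R α β) s (hsub hp.1)
  refine ⟨{a | ¬(a ∈ unitSq → FF α β w τ (s, a) = pv α β (FF α β w τ) s a)} ∩ U,
    inter_mem_nhdsWithin _ (hU.mem_nhds hpU), ?_⟩
  rw [ae_restrict_iff' hU.measurableSet, ae_iff] at h4
  refine measure_mono_null ?_ h4
  rintro q ⟨hq1, hq2⟩
  simp only [Classical.not_imp, Set.mem_ofPred_eq] at hq1 ⊢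
  refine ⟨hq2, ?_⟩
  rw [ext_sq _ _ hq1.1]
  exact hq1.2

end Pool.Agent.Helper96.OF
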