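import Pool.Agent.Helper42.OF.L08
import Pool.Agent.Helper42.OF.L09
import Pool.Agent.Helper42.OF.L05

/-!
# OFL-L10: F = A + 2 Re Q(exp(t/k)) around a finite corner; the corner value AA

`AA_rep`: P t = exp t * dev (pv h) t is holomorphic on {exp(re t) < rd τ} (dev_hol, holC_hh), 2πik-periodic (dev_period, exp), bounded (dev_bound with K = {τ}, L² slices: hh ∈ L², L01b slice_int, a.e. equality), → 0 along dev_zero. Q from L07 periodic_rep.
Fh t = dev (pv F) t: by dev_local (same σ, a for pv F and pv h) and L09 FF_pv, chain rule: HasFDerivAt Fh (gradC (P t)) t (d(zinv τ (exp t')) composed with ztL is exp t dt: `zt τ (zinv τ z) = z`). So Fh - Q(exp(·/k)) - conj Q(exp(·/k)) has derivative 0 on the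
half plane (convex, open), constant = A, real since all terms are real.
`LimC_unique`: mu of {s0} × (0,ρ)² is positive. `AA_eq`: definition + LimC_unique.
`AA_unif`: p = (x,y) in the square of ζ^j s0, t = log z + 2πi j (dev_log): |pv F - A| = 2|Re Q(exp(t/k))| ≤ 2 k M ‖z‖^(1/k) / rd^(1/k), M = C sqrt starE (dev_bound on K; starE of pv h and of hh agree: L01b starE_congr), ‖z‖ ≤ (1+‖τ‖) max(x,y); K_bounds for rd. So LimC at ζ^j s0 with
value A (max ^ (1/k) → 0; a.e. equality of F and pv F from FF_pv, L01b ae_mu_iff), i.e. A = AA (ζ^j s0) for every j, and the estimate.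
-/

set_option autoImplicit false

open MeasureTheory Filter Topology
open scoped ComplexConjugate

namespace Pool.Agent.Helper96.OF

variable {X : Type} [Countable X] [MeasurableSpace X] [DiscreteMeasurableSpace X] {α β : Equiv.Perm X}

theorem LimC_unique {F : Sq X → ℂ} {s0 : X} {A B : ℂ} (hA : LimC F s0 A) (hB : LimC F s0 B) :
    A = B := by
  by_contra hne
  have hpos : 0 < ‖A - B‖ / 3 := by
    have : 0 < ‖A - B‖ := norm_pos_iff.mpr (sub_ne_zero.mpr hne)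
    positivity
  obtain ⟨ρ1, h1, hA⟩ := hA _ hpos
  obtain ⟨ρ2, h2, hB⟩ := hB _ hpos
  have hA' := (ae_mu_iff (fun q : Sq X => q.1 = s0 → q.2.1 < ρ1 → q.2.2 < ρ1 →
    ‖F q - A‖ ≤ ‖A - B‖ / 3)).1 hA s0
  have hB' := (ae_mu_iff (fun q : Sq X => q.1 = s0 → q.2.1 < ρ2 → q.2.2 < ρ2 →
    ‖F q - B‖ ≤ ‖A - B‖ / 3)).1 hB s0
  set ρ := min (min ρ1 ρ2) 1 with hρ
  have hρ0 : 0 < ρ := lt_min (lt_min h1 h2) one_pos
  set V : Set (ℝ × ℝ) := Set.Ioo (0:ℝ) ρ ×ˢ Set.Ioo (0:ℝ) ρ with hV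
  have hVU : V ⊆ unitSq := by
    intro p hp
    have h3 : ρ ≤ 1 := min_le_right _ _
    exact ⟨⟨hp.1.1, hp.1.2.trans_le h3⟩, ⟨hp.2.1, hp.2.2.trans_le h3⟩⟩
  have hVo : IsOpen V := isOpen_Ioo.prod isOpen_Ioo
  have hVn : V.Nonempty := ⟨(ρ / 2, ρ / 2), ⟨⟨by simp; linarith, by simp; linarith⟩,
    ⟨by simp; linarith, by simp; linarith⟩⟩⟩
  have hne0 : (volume : Measure (ℝ × ℝ)) V ≠ 0 := (hVo.measure_pos volume hVn).ne'
  have hNB : (ae ((volume : Measure (ℝ × ℝ)).restrict V)).NeBot :=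
    ae_restrict_neBot.2 hne0
  have hA2 := ae_restrict_of_ae_restrict_of_subset hVU hA'
  have hB2 := ae_restrict_of_ae_restrict_of_subset hVU hB'
  have hm : ∀ᵐ p ∂((volume : Measure (ℝ × ℝ)).restrict V), p ∈ V :=
    ae_restrict_mem hVo.measurableSet
  obtain ⟨p, hpA, hpB, hpV⟩ := (hA2.and (hB2.and hm)).exists
  have e1 : p.1 < ρ1 := hpV.1.2.trans_le ((min_le_left _ _).trans (min_le_left _ _))
  have e2 : p.2 < ρ1 := hpV.2.2.trans_le ((min_le_left _ _).trans (min_le_left _ _))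
  have e3 : p.1 < ρ2 := hpV.1.2.trans_le ((min_le_left _ _).trans (min_le_right _ _))
  have e4 : p.2 < ρ2 := hpV.2.2.trans_le ((min_le_left _ _).trans (min_le_right _ _))
  have f1 := hpA rfl e1 e2
  have f2 := hpB rfl e3 e4
  have f3 : ‖A - B‖ ≤ ‖F (s0, p) - B‖ + ‖F (s0, p) - A‖ := by
    have : A - B = (F (s0, p) - B) - (F (s0, p) - A) := by ring
    rw [this]
    exact norm_sub_le _ _
  linarith

theorem AA_eq {w : X → ℝ} {τ : ℂ} {s0 : X} {A : ℝ} (h : LimC (FF α β w τ) s0 (A : ℂ)) :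
    AA α β w s0 τ = A := by
  classical
  have hex : ∃ A : ℝ, LimC (FF α β w τ) s0 (A : ℂ) := ⟨A, h⟩
  unfold AA
  rw [dif_pos hex]
  exact_mod_cast LimC_unique hex.choose_spec h

private theorem l10_intOn (hSG : SG α β) {w : X → ℝ} (hw : InW α β w) {τ : ℂ} (hτ : τ ∈ HH) :
    ∀ s, IntegrableOn (fun p => ‖pv α β (hh α β w τ : Sq X → ℂ) s p‖ ^ 2) unitSq := by
  intro s
  have h1 := (slice_int (Lp.memLp (hh α β w τ)) s).2
  refine h1.congr ?_
  filter_upwards [(holC_hh hSG hw hτ).2 s] with p hp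
  rw [hp]

private theorem l10_starE (hSG : SG α β) {w : X → ℝ} (hw : InW α β w) {τ : ℂ} (hτ : τ ∈ HH)
    (s0 : X) (k : ℕ) :
    starE α β s0 k (fl (pv α β (hh α β w τ : Sq X → ℂ))) =
      starE α β s0 k (hh α β w τ : Sq X → ℂ) := by
  apply starE_congr
  apply (ae_mu_iff _).2
  intro s
  filter_upwards [(holC_hh hSG hw hτ).2 s] with p hp
  simp only [fl]
  exact hp.symm

/-- `zinv τ` as a continuous real linear map -/
private noncomputable def l10_zinvL (τ : ℂ) : ℂ →L[ℝ] ℝ × ℝ :=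
  LinearMap.toContinuousLinearMap
    { toFun := zinv τ
      map_add' := zinv_add τ
      map_smul' := by
        intro c z
        simp only [zinv, Complex.smul_re, Complex.smul_im, smul_eq_mul, RingHom.id_apply,
          Prod.smul_mk, Prod.mk.injEq]
        constructor <;> ring }

private theorem l10_zinvL_apply (τ z : ℂ) : l10_zinvL τ z = zinv τ z := rfl

/-- derivative of the developed function -/
private theorem l10_fderiv (hSG : SG α β) {w : X → ℝ} (hw : InW α β w) {τ : ℂ} (hτ : τ ∈ HH)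
    (s0 : X) {t : ℂ} (ht : Real.exp t.re < rd τ) :
    HasFDerivAt (dev α β τ s0 (pv α β (FF α β w τ)))
      (gradC (Complex.exp t * dev α β τ s0 (pv α β (hh α β w τ : Sq X → ℂ)) t)) t ∧
    (dev α β τ s0 (pv α β (FF α β w τ)) t).im = 0 := by
  obtain ⟨σ, a, hc, hloc⟩ := dev_local (α := α) (β := β) hτ s0 ht
  have hF := hloc (pv α β (FF α β w τ)) (pv_glue _)
  have hH := (hloc (pv α β (hh α β w τ : Sq X → ℂ)) (pv_glue _)).self_of_nhds
  obtain ⟨d1, -, d3⟩ := FF_pv hSG hw hτ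
  constructor
  · rw [hH]
    refine HasFDerivAt.congr_of_eventuallyEq ?_ hF
    have e1 : HasFDerivAt (fun t' : ℂ => Complex.exp t')
        ((Complex.exp t) • ContinuousLinearMap.id ℝ ℂ) t := by
      refine ((Complex.hasDerivAt_exp t).hasFDerivAt.restrictScalars ℝ).congr_fderiv ?_
      apply ContinuousLinearMap.ext
      intro v
      simp [mul_comm]
    have e2 : HasFDerivAt (fun t' : ℂ => zinv τ (Complex.exp t') + a)
        ((l10_zinvL τ).comp ((Complex.exp t) • ContinuousLinearMap.id ℝ ℂ)) t := by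
      have := ((l10_zinvL τ).hasFDerivAt (x := Complex.exp t)).comp t e1
      exact this.add_const a
    have e3 := (d1 σ _ hc).comp t e2
    refine e3.congr_fderiv ?_
    apply ContinuousLinearMap.ext
    intro v
    rw [ContinuousLinearMap.comp_apply, gradL_apply, gradC_apply, ContinuousLinearMap.comp_apply,
      l10_zinvL_apply, zt_zinv hτ]
    simp only [ContinuousLinearMap.smul_apply, ContinuousLinearMap.id_apply, smul_eq_mul]
    have e5 : Complex.exp t * pv α β (hh α β w τ : Sq X → ℂ) σ (zinv τ (Complex.exp t) + a) * v =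
        pv α β (hh α β w τ : Sq X → ℂ) σ (zinv τ (Complex.exp t) + a) * (Complex.exp t * v) := by
      ring
    rw [e5]
  · rw [hF.self_of_nhds]
    exact d3 σ _ hc

theorem AA_rep (hSG : SG α β) {w : X → ℝ} (hw : InW α β w) {τ : ℂ} (hτ : τ ∈ HH) {k : ℕ}
    (hk : 0 < k) {s0 : X} (hs : (zeta α β ^ k) s0 = s0) :
    ∃ (A : ℝ) (Q : ℂ → ℂ), DifferentiableOn ℂ Q (Metric.ball 0 (rd τ ^ (1 / (k : ℝ)))) ∧ Q 0 = 0 ∧
      (∀ t : ℂ, Real.exp t.re < rd τ → dev α β τ s0 (pv α β (FF α β w τ)) t =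
        (A : ℂ) + Q (Complex.exp (t / k)) + conj (Q (Complex.exp (t / k)))) ∧
      (∀ t : ℂ, Real.exp t.re < rd τ → HasDerivAt (fun t => Q (Complex.exp (t / k)))
        (Complex.exp t * dev α β τ s0 (pv α β (hh α β w τ : Sq X → ℂ)) t) t) ∧
      ∀ M' : ℝ, (∀ t : ℂ, Real.exp t.re < rd τ →
          ‖Complex.exp t * dev α β τ s0 (pv α β (hh α β w τ : Sq X → ℂ)) t‖ ≤ M') →
        ∀ ξ ∈ Metric.ball (0 : ℂ) (rd τ ^ (1 / (k : ℝ))),
          ‖Q ξ‖ ≤ k * M' * ‖ξ‖ / rd τ ^ (1 / (k : ℝ)) := by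
  have hol := (holC_hh hSG hw hτ).1
  have hint := l10_intOn hSG hw hτ
  have hrd := rd_pos hτ
  obtain ⟨C, hC0, hC⟩ := dev_bound α β {τ} isCompact_singleton (by
    intro x hx
    rw [Set.mem_singleton_iff] at hx
    rw [hx]
    exact hτ)
  have hb := hC τ rfl k hk s0 hs _ hol hint
  obtain ⟨u, hu1, hu2⟩ := dev_zero α β hτ s0 hol hint
  set P : ℂ → ℂ := fun t => Complex.exp t *
    dev α β τ s0 (pv α β (hh α β w τ : Sq X → ℂ)) t with hPdef
  have hP : DifferentiableOn ℂ P {t | Real.exp t.re < rd τ} :=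
    Complex.differentiable_exp.differentiableOn.mul (dev_hol hτ hol s0)
  have hper : ∀ t, P (t + 2 * Real.pi * Complex.I * k) = P t := by
    intro t
    simp only [hPdef]
    rw [dev_period hs]
    congr 1
    rw [Complex.exp_eq_exp_iff_exists_int]
    exact ⟨k, by push_cast; ring⟩
  obtain ⟨-, Q, q1, q2, q3, q4⟩ := periodic_rep hk hrd hP hper hb u hu1 hu2
  set U : Set ℂ := {t | Real.exp t.re < rd τ} with hU
  have hUo : IsOpen U := isOpen_lt (Real.continuous_exp.comp Complex.continuous_re)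
    continuous_const
  have hUeq : U = {t : ℂ | t.re < Real.log (rd τ)} := by
    ext t
    simp only [hU, Set.mem_setOf_eq]
    rw [Real.lt_log_iff_exp_lt hrd]
  have hUc : Convex ℝ U := by
    rw [hUeq]
    exact convex_halfSpace_re_lt _
  have hUp : IsPreconnected U := hUc.isPreconnected
  set G : ℂ → ℂ := fun t => dev α β τ s0 (pv α β (FF α β w τ)) t -
    (Q (Complex.exp (t / k)) + conj (Q (Complex.exp (t / k)))) with hG
  have hGd : ∀ t ∈ U, HasFDerivAt G (0 : ℂ →L[ℝ] ℂ) t := by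
    intro t ht
    have e1 := (l10_fderiv hSG hw hτ s0 ht).1
    have e2 := (q3 t ht).hasFDerivAt.restrictScalars ℝ
    have e3 : HasFDerivAt (fun t => conj (Q (Complex.exp (t / k)))) _ t :=
      ((Complex.conjCLE : ℂ →L[ℝ] ℂ).hasFDerivAt
        (x := Q (Complex.exp (t / k)))).comp t e2
    have e4 := e1.sub (e2.add e3)
    refine e4.congr_fderiv ?_
    apply ContinuousLinearMap.ext
    intro v
    have hPt : P t = Complex.exp t * dev α β τ s0 (pv α β (hh α β w τ : Sq X → ℂ)) t := rfl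
    simp only [← hPt]
    simp [gradC_apply, mul_comm]
  have hconst : ∀ x ∈ U, ∀ y ∈ U, G x = G y := by
    intro x hx y hy
    exact hUo.is_const_of_fderiv_eq_zero (𝕜 := ℝ) hUp
      (fun t ht => (hGd t ht).differentiableAt.differentiableWithinAt)
      (fun t ht => (hGd t ht).fderiv) hx hy
  -- a base point
  set b : ℂ := ((Real.log (rd τ) - 1 : ℝ) : ℂ) with hbdef
  have hbU : b ∈ U := by
    rw [hUeq]
    simp [hbdef]
  have him : (G b).im = 0 := by
    have := (l10_fderiv hSG hw hτ s0 hbU).2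
    simp only [hG, Complex.sub_im, Complex.add_im, Complex.conj_im, this]
    ring
  refine ⟨(G b).re, Q, q1, q2, ?_, q3, q4⟩
  intro t ht
  have h1 : G t = G b := hconst t ht b hbU
  have h2 : ((G b).re : ℂ) = G b := by
    apply Complex.ext
    · simp
    · simp [him]
  rw [h2, ← h1]
  simp only [hG]
  ring

private theorem l10_core (hSG : SG α β) (K : Set ℂ) (hK : IsCompact K) (hKH : K ⊆ HH) {k : ℕ}
    (hk : 0 < k) :
    ∃ C ρ : ℝ, 0 < C ∧ 0 < ρ ∧ ρ ≤ 1 / 3 ∧ ∀ w : X → ℝ, InW α β w → ∀ τ ∈ K, ∀ s0 : X,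
      (zeta α β ^ k) s0 = s0 → ∃ A : ℝ, ∀ j : ℤ, ∀ x y : ℝ, 0 < x → x < ρ → 0 < y → y < ρ →
        ‖pv α β (FF α β w τ) ((zeta α β ^ j) s0) (x, y) - (A : ℂ)‖ ≤
          C * Real.sqrt (starE α β s0 k (hh α β w τ : Sq X → ℂ)) * (max x y) ^ (1 / (k : ℝ)) := by
  obtain ⟨C0, hC0, hC⟩ := dev_bound α β K hK hKH
  obtain ⟨c, C1, hc0, hC1, hcc⟩ := K_bounds K hK hKH
  have hkR : (0 : ℝ) < k := by exact_mod_cast hk
  have hinv : (0 : ℝ) ≤ 1 / (k : ℝ) := by positivity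
  refine ⟨2 * k * C0 * ((1 + C1) / c) ^ (1 / (k : ℝ)), min (1 / 3) (c / (1 + C1)), by positivity,
    lt_min (by norm_num) (by positivity), min_le_left _ _, ?_⟩
  intro w hw τ hτK s0 hs
  have hτ : τ ∈ HH := hKH hτK
  obtain ⟨k1, k2, k3, -⟩ := hcc τ hτK
  obtain ⟨A, Q, -, -, r3, -, r5⟩ := AA_rep hSG hw hτ hk hs
  refine ⟨A, ?_⟩
  intro j x y hx hxρ hy hyρ
  set M := C0 * Real.sqrt (starE α β s0 k (hh α β w τ : Sq X → ℂ)) with hM
  have hMb : ∀ t : ℂ, Real.exp t.re < rd τ →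
      ‖Complex.exp t * dev α β τ s0 (pv α β (hh α β w τ : Sq X → ℂ)) t‖ ≤ M := by
    intro t ht
    have := hC τ hτK k hk s0 hs _ (holC_hh hSG hw hτ).1 (l10_intOn hSG hw hτ) t ht
    rw [l10_starE hSG hw hτ] at this
    exact this
  have hM0 : 0 ≤ M := by positivity
  set z : ℂ := zt τ (x, y) with hz
  have hmax : ‖((x, y) : ℝ × ℝ)‖ = max x y := by
    rw [Prod.norm_def]
    simp [Real.norm_eq_abs, abs_of_pos hx, abs_of_pos hy]
  have hz1 : ‖z‖ ≤ (1 + C1) * max x y := by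
    have h1 := norm_zt_le τ (x, y)
    rw [hmax] at h1
    refine h1.trans ?_
    have : 0 < max x y := lt_max_of_lt_left hx
    gcongr
  have hmlt : max x y < c / (1 + C1) :=
    (max_lt hxρ hyρ).trans_le (min_le_right _ _)
  have hzlt : ‖z‖ < rd τ := by
    refine hz1.trans_lt (lt_of_lt_of_le ?_ k1)
    rw [lt_div_iff₀ (by positivity)] at hmlt
    linarith
  have hz0 : z ≠ 0 := by
    intro h0
    have h1 := zinv_zt hτ (x, y)
    rw [← hz, h0] at h1
    have h2 := congrArg Prod.snd h1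
    simp [zinv] at h2
    linarith
  have hzpos : 0 < ‖z‖ := norm_pos_iff.2 hz0
  set t : ℂ := Complex.log z + 2 * Real.pi * Complex.I * j with ht
  have htre : t.re = Real.log ‖z‖ := by
    simp [ht, Complex.log_re]
  have hexp : Real.exp t.re = ‖z‖ := by
    rw [htre, Real.exp_log hzpos]
  have htU : Real.exp t.re < rd τ := by rw [hexp]; exact hzlt
  have hdl := dev_log (α := α) (β := β) hτ (pv α β (FF α β w τ)) s0 j (p := (x, y)) hy
  rw [← hz, ← ht] at hdl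
  rw [← hdl, r3 t htU]
  set ξ : ℂ := Complex.exp (t / k) with hξ
  have hξn : ‖ξ‖ = ‖z‖ ^ (1 / (k : ℝ)) := by
    rw [hξ, Complex.norm_exp]
    have : (t / (k : ℂ)).re = t.re / k := by
      rw [show (k : ℂ) = ((k : ℝ) : ℂ) by push_cast; rfl, Complex.div_ofReal_re]
    rw [this, htre, Real.rpow_def_of_pos hzpos]
    congr 1
    ring
  have hrd := rd_pos hτ
  have hξb : ξ ∈ Metric.ball (0 : ℂ) (rd τ ^ (1 / (k : ℝ))) := by
    rw [mem_ball_zero_iff, hξn]
    exact Real.rpow_lt_rpow hzpos.le hzlt (by positivity)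
  have hQ := r5 M hMb ξ hξb
  have hratio : ‖ξ‖ / rd τ ^ (1 / (k : ℝ)) ≤
      ((1 + C1) / c) ^ (1 / (k : ℝ)) * (max x y) ^ (1 / (k : ℝ)) := by
    have hm0 : 0 < max x y := lt_max_of_lt_left hx
    rw [hξn, ← Real.div_rpow hzpos.le hrd.le, ← Real.mul_rpow (by positivity) hm0.le]
    apply Real.rpow_le_rpow (by positivity) _ hinv
    rw [div_mul_eq_mul_div]
    exact div_le_div₀ (by positivity) hz1 hc0 k1
  calc ‖(A : ℂ) + Q ξ + conj (Q ξ) - (A : ℂ)‖ = ‖Q ξ + conj (Q ξ)‖ := by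
        congr 1
        ring
    _ ≤ ‖Q ξ‖ + ‖conj (Q ξ)‖ := norm_add_le _ _
    _ = 2 * ‖Q ξ‖ := by rw [RCLike.norm_conj]; ring
    _ ≤ 2 * (k * M * ‖ξ‖ / rd τ ^ (1 / (k : ℝ))) := by linarith
    _ = 2 * k * M * (‖ξ‖ / rd τ ^ (1 / (k : ℝ))) := by ring
    _ ≤ 2 * k * M * (((1 + C1) / c) ^ (1 / (k : ℝ)) * (max x y) ^ (1 / (k : ℝ))) := by
        apply mul_le_mul_of_nonneg_left hratio
        positivity
    _ = _ := by
        rw [hM]
        ring

private theorem l10_limC (hSG : SG α β) {w : X → ℝ} (hw : InW α β w) {τ : ℂ} (hτ : τ ∈ HH)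
    {k : ℕ} (hk : 0 < k) {s : X} {A C ρ : ℝ} (hC : 0 ≤ C) (hρ : 0 < ρ)
    (h : ∀ x y : ℝ, 0 < x → x < ρ → 0 < y → y < ρ →
      ‖pv α β (FF α β w τ) s (x, y) - (A : ℂ)‖ ≤ C * (max x y) ^ (1 / (k : ℝ))) :
    LimC (FF α β w τ) s (A : ℂ) := by
  intro ε hε
  have hkR : (0 : ℝ) < k := by exact_mod_cast hk
  have hcont : Tendsto (fun r : ℝ => C * r ^ (1 / (k : ℝ))) (𝓝 0) (𝓝 0) := by
    have h1 : ContinuousAt (fun r : ℝ => r ^ (1 / (k : ℝ))) 0 :=
      Real.continuousAt_rpow_const 0 _ (Or.inr (by positivity))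
    have h2 := h1.tendsto.const_mul C
    rw [Real.zero_rpow (by positivity), mul_zero] at h2
    exact h2
  have hev := hcont.eventually (gt_mem_nhds hε)
  obtain ⟨δ, hδ, hδ2⟩ := Metric.eventually_nhds_iff.1 hev
  refine ⟨min δ ρ, lt_min hδ hρ, ?_⟩
  apply (ae_mu_iff _).2
  intro s'
  by_cases hss : s' = s
  · subst hss
    have hae := (FF_pv hSG hw hτ).2.1 s'
    have hmem : ∀ᵐ p ∂((volume : Measure (ℝ × ℝ)).restrict unitSq), p ∈ unitSq :=
      ae_restrict_mem (measurableSet_Ioo.prod measurableSet_Ioo)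
    filter_upwards [hae, hmem] with p hp hpm _ h1 h2
    rw [hp]
    have hx := hpm.1.1
    have hy := hpm.2.1
    have h3 := h p.1 p.2 hx (h1.trans_le (min_le_right _ _)) hy (h2.trans_le (min_le_right _ _))
    refine h3.trans ?_
    have h4 : dist (max p.1 p.2) 0 < δ := by
      rw [Real.dist_eq, sub_zero, abs_of_pos (lt_max_of_lt_left hx)]
      exact max_lt (h1.trans_le (min_le_left _ _)) (h2.trans_le (min_le_left _ _))
    exact (hδ2 h4).le
  · filter_upwards with p hp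
    exact absurd hp hss

theorem AA_unif (hSG : SG α β) (K : Set ℂ) (hK : IsCompact K) (hKH : K ⊆ HH) {k : ℕ} (hk : 0 < k) :
    ∃ C ρ : ℝ, 0 < C ∧ 0 < ρ ∧ ρ ≤ 1 / 3 ∧ ∀ w : X → ℝ, InW α β w → ∀ τ ∈ K, ∀ s0 : X,
      (zeta α β ^ k) s0 = s0 → ∀ j : ℤ, ∀ x y : ℝ, 0 < x → x < ρ → 0 < y → y < ρ →
        ‖pv α β (FF α β w τ) ((zeta α β ^ j) s0) (x, y) - (AA α β w s0 τ : ℂ)‖ ≤
          C * Real.sqrt (starE α β s0 k (hh α β w τ : Sq X → ℂ)) * (max x y) ^ (1 / (k : ℝ)) := by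
  obtain ⟨C, ρ, hC, hρ, hρ3, h⟩ := l10_core hSG K hK hKH hk
  refine ⟨C, ρ, hC, hρ, hρ3, ?_⟩
  intro w hw τ hτK s0 hs
  obtain ⟨A, hA⟩ := h w hw τ hτK s0 hs
  have hlim : LimC (FF α β w τ) s0 (A : ℂ) := by
    apply l10_limC hSG hw (hKH hτK) hk
      (C := C * Real.sqrt (starE α β s0 k (hh α β w τ : Sq X → ℂ))) (by positivity) hρ
    intro x y hx hx2 hy hy2
    have := hA 0 x y hx hx2 hy hy2
    simpa using this
  rw [AA_eq hlim]
  exact hA

private theorem l10_all (hSG : SG α β) {w : X → ℝ} (hw : InW α β w) {τ : ℂ} (hτ : τ ∈ HH) {k : ℕ}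
    (hk : 0 < k) {s0 : X} (hs : (zeta α β ^ k) s0 = s0) (j : ℤ) :
    LimC (FF α β w τ) ((zeta α β ^ j) s0) (AA α β w s0 τ : ℂ) := by
  obtain ⟨C, ρ, hC, hρ, -, h⟩ := AA_unif hSG {τ} isCompact_singleton (by
    intro x hx
    rw [Set.mem_singleton_iff] at hx
    rw [hx]
    exact hτ) hk
  apply l10_limC hSG hw hτ hk
      (C := C * Real.sqrt (starE α β s0 k (hh α β w τ : Sq X → ℂ))) (by positivity) hρ
  intro x y hx hx2 hy hy2
  exact h w hw τ rfl s0 hs j x y hx hx2 hy hy2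

theorem AA_LimC (hSG : SG α β) {w : X → ℝ} (hw : InW α β w) {τ : ℂ} (hτ : τ ∈ HH) {k : ℕ}
    (hk : 0 < k) {s0 : X} (hs : (zeta α β ^ k) s0 = s0) :
    LimC (FF α β w τ) s0 (AA α β w s0 τ : ℂ) := by
  simpa using l10_all hSG hw hτ hk hs 0

/-- the corner value only depends on the corner -/
theorem AA_zeta (hSG : SG α β) {w : X → ℝ} (hw : InW α β w) {τ : ℂ} (hτ : τ ∈ HH) {k : ℕ}
    (hk : 0 < k) {s0 : X} (hs : (zeta α β ^ k) s0 = s0) (j : ℤ) :
    AA α β w ((zeta α β ^ j) s0) τ = AA α β w s0 τ :=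
  AA_eq (l10_all hSG hw hτ hk hs j)

end Pool.Agent.Helper96.OF
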