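import Pool.Agent.Helper42.OF.L10
import Pool.Agent.Helper96.OF.Z1

/-!
# OFL-L10b: a nonnegative F with corner value 0

A, Q from AA_rep; A = AA s0 τ (as in L10: dev_log, the limit at the corner) = 0. pv F ≥ 0 on Cross: pv F = F ≥ 0 a.e. on the squares, continuous; a point of Cross on an edge is a limit of points of the open (row or column) strip where pv F s = pv F σ (shifted) ≥ 0
(Glue); so Fh t = 2 Re Q(exp(t/k)) ≥ 0 for exp(re t) < rd τ, i.e. re Q ≥ 0 on the ball (every ξ ≠ 0 in the ball is exp(t/k), Q 0 = 0). The function exp(-Q) has norm ≤ 1 and equals 1 at the centre: maximum principle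
(`Complex.eqOn_of_isPreconnected_of_isMaxOn_norm` / `Complex.norm_eqOn_of_...`) ⟹ exp(-Q) constant, so Q' = 0, Q = 0. So exp t * dev (pv h) t = 0 (HasDerivAt of the zero function, unique), pv h s0 (x,y) = 0 for small x,y>0 (dev_log), L05 hh_zero_of (p0 = a small
point of the unit square) ⟹ hh = 0. Z1 hh_zero: L2s (w - c), F = c a.e., so LimC gives c = AA = 0 (AA_eq with LimC of the constant), L2s w.
-/

set_option autoImplicit false

open MeasureTheory Filter Topology
open scoped ComplexConjugate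

namespace Pool.Agent.Helper96.OF

variable {X : Type} [Countable X] [MeasurableSpace X] [DiscreteMeasurableSpace X] {α β : Equiv.Perm X}

/-- hh = 0 and corner value 0 imply w ∈ ℓ² -/
theorem L2s_of_hh_zero (hSG : SG α β) (hconn : Conn α β) {w : X → ℝ} (hw : InW α β w) {τ : ℂ}
    (hτ : τ ∈ HH) (s0 : X) (h0 : hh α β w τ = 0) (hA : AA α β w s0 τ = 0) : L2s w := by
  obtain ⟨k, hk, hF⟩ := hh_zero hSG hconn hw hτ h0
  have h1 : LimC (FF α β w τ) s0 (k : ℂ) := by
    intro ε hε
    refine ⟨1, one_pos, ?_⟩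
    filter_upwards [hF] with q hq _ _ _
    rw [hq, sub_self, norm_zero]
    exact hε.le
  have h2 : k = 0 := by rw [← AA_eq h1, hA]
  simpa [h2] using hk

private theorem unitSq_sub_Rc : unitSq ⊆ Rc := by
  rintro ⟨x, y⟩ ⟨hx, hy⟩
  exact ⟨⟨by linarith [hx.1], hx.2⟩, hy⟩

private theorem nonneg_limit {G : ℝ × ℝ → ℝ} {p v : ℝ × ℝ} (hc : ContinuousAt G p)
    (h : ∀ n : ℕ, 0 ≤ G (p + (1 / ((n : ℝ) + 2)) • v)) : 0 ≤ G p := by
  have h1 : Tendsto (fun n : ℕ => p + (1 / ((n : ℝ) + 2)) • v) atTop (𝓝 p) := by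
    have h2 : Tendsto (fun n : ℕ => 1 / ((n : ℝ) + 2)) atTop (𝓝 0) := by
      have h3 : Tendsto (fun n : ℕ => ((n : ℝ) + 2)) atTop atTop :=
        tendsto_atTop_add_const_right _ _ tendsto_natCast_atTop_atTop
      simpa using h3.const_div_atTop (1 : ℝ)
    have h3 := (h2.smul_const v).const_add p
    simpa using h3
  exact ge_of_tendsto' (hc.tendsto.comp h1) h

private theorem pv_nonneg (hSG : SG α β) {w : X → ℝ} (hw : InW α β w) {τ : ℂ}
    (hτ : τ ∈ HH) (hpos : ∀ᵐ q ∂(mu X), 0 ≤ (FF α β w τ q).re) (s : X) {p : ℝ × ℝ}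
    (hp : p ∈ Cross) : 0 ≤ (pv α β (FF α β w τ) s p).re := by
  obtain ⟨hd, hae, -⟩ := FF_pv hSG hw hτ
  have hg : Glue α β (pv α β (FF α β w τ)) := pv_glue _
  have hca : ∀ s, ∀ p ∈ Cross, ContinuousAt (fun p => (pv α β (FF α β w τ) s p).re) p :=
    fun s p hp => Complex.continuous_re.continuousAt.comp (hd s p hp).continuousAt
  have hsq : ∀ s, ∀ p ∈ unitSq, 0 ≤ (pv α β (FF α β w τ) s p).re := by
    intro s
    have hU : IsOpen unitSq := isOpen_Ioo.prod isOpen_Ioo
    have hsub : unitSq ⊆ Cross := unitSq_sub_Rc.trans isOpen_Rc.2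
    have hc : ContinuousOn (fun p => (pv α β (FF α β w τ) s p).re) unitSq :=
      fun p hp => (hca s p (hsub hp)).continuousWithinAt
    have h1 := eq_of_ae hU
      (f := fun p => ((max 0 (pv α β (FF α β w τ) s p).re : ℝ) : ℂ))
      (g := fun p => (((pv α β (FF α β w τ) s p).re : ℝ) : ℂ))
      (Complex.continuous_ofReal.comp_continuousOn (continuousOn_const.sup hc))
      (Complex.continuous_ofReal.comp_continuousOn hc) (by
        filter_upwards [(ae_mu_iff _).1 hpos s, hae s] with p h1 h2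
        rw [← h2, max_eq_right h1])
    intro p hp
    have h2 := h1 p hp
    rw [Complex.ofReal_inj] at h2
    rw [← h2]
    exact le_max_left _ _
  have hR : ∀ s, ∀ p ∈ Rc, 0 ≤ (pv α β (FF α β w τ) s p).re := by
    rintro s ⟨x, y⟩ hp
    obtain ⟨hx, hy⟩ := hp
    simp only [Set.mem_Ioo] at hx hy
    rcases lt_trichotomy x 0 with h | h | h
    · have h1 := hg.row (α⁻¹ s) x y hy.1 hy.2
      have h2 : α (α⁻¹ s) = s := Equiv.apply_symm_apply α s
      rw [h2] at h1
      rw [← h1]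
      exact hsq _ _ ⟨⟨by linarith, by linarith⟩, hy⟩
    · subst h
      refine nonneg_limit (v := ((1 : ℝ), (0 : ℝ))) (hca s _ (isOpen_Rc.2 (show ((0 : ℝ), y) ∈ Rc from ⟨hx, hy⟩))) fun n => ?_
      refine hsq s _ ⟨?_, ?_⟩
      · have h2 : (0 : ℝ) < (n : ℝ) + 2 := by positivity
        have h3 : 1 / ((n : ℝ) + 2) < 1 := by
          rw [div_lt_one h2]
          have : (0 : ℝ) ≤ n := Nat.cast_nonneg n
          linarith
        have h4 : (0 : ℝ) < 1 / ((n : ℝ) + 2) := by positivity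
        simp only [Prod.smul_mk, Prod.mk_add_mk, Set.mem_Ioo, smul_eq_mul, mul_one, zero_add]
        exact ⟨h4, h3⟩
      · simp only [Prod.smul_mk, Prod.mk_add_mk, Set.mem_Ioo, smul_zero, add_zero]
        exact hy
    · exact hsq _ _ ⟨⟨h, hx.2⟩, hy⟩
  have hK : ∀ s, ∀ p ∈ Kc, 0 ≤ (pv α β (FF α β w τ) s p).re := by
    rintro s ⟨x, y⟩ hp
    obtain ⟨hx, hy⟩ := hp
    simp only [Set.mem_Ioo] at hx hy
    rcases lt_trichotomy y 0 with h | h | h
    · have h1 := hg.col (β⁻¹ s) x y hx.1 hx.2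
      have h2 : β (β⁻¹ s) = s := Equiv.apply_symm_apply β s
      rw [h2] at h1
      rw [← h1]
      exact hsq _ _ ⟨hx, ⟨by linarith, by linarith⟩⟩
    · subst h
      refine nonneg_limit (v := ((0 : ℝ), (1 : ℝ))) (hca s _ (isOpen_Kc.2 (show (x, (0 : ℝ)) ∈ Kc from ⟨hx, hy⟩))) fun n => ?_
      refine hsq s _ ⟨?_, ?_⟩
      · simp only [Prod.smul_mk, Prod.mk_add_mk, Set.mem_Ioo, smul_zero, add_zero]
        exact hx
      · have h2 : (0 : ℝ) < (n : ℝ) + 2 := by positivity
        have h3 : 1 / ((n : ℝ) + 2) < 1 := by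
          rw [div_lt_one h2]
          have : (0 : ℝ) ≤ n := Nat.cast_nonneg n
          linarith
        have h4 : (0 : ℝ) < 1 / ((n : ℝ) + 2) := by positivity
        simp only [Prod.smul_mk, Prod.mk_add_mk, Set.mem_Ioo, smul_eq_mul, mul_one, zero_add]
        exact ⟨h4, h3⟩
    · exact hsq _ _ ⟨hx, ⟨h, hy.2⟩⟩
  obtain ⟨σ, a, ha, hev⟩ := cross_chart α β s hp
  have h1 := (hev _ hg).self_of_nhds
  rw [h1]
  rcases ha with ha | ha
  · exact hR _ _ ha
  · exact hK _ _ ha

theorem AA_pos_zero (hSG : SG α β) (hconn : Conn α β) {w : X → ℝ} (hw : InW α β w) {τ : ℂ}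
    (hτ : τ ∈ HH) {k : ℕ} (hk : 0 < k) {s0 : X} (hs : (zeta α β ^ k) s0 = s0)
    (hpos : ∀ᵐ q ∂(mu X), 0 ≤ (FF α β w τ q).re) (hA : AA α β w s0 τ = 0) : L2s w := by
  obtain ⟨A, Q, hQd, hQ0, hrep, hder, -⟩ := AA_rep hSG hw hτ hk hs
  have hR : 0 < rd τ := rd_pos hτ
  have hR1 : 0 < rd τ ^ (1 / (k : ℝ)) := Real.rpow_pos_of_pos hR _
  have hkR : (0 : ℝ) < k := by exact_mod_cast hk
  have hkC : (k : ℂ) ≠ 0 := by exact_mod_cast hk.ne'
  have him : ∀ p : ℝ × ℝ, (zt τ p).im = τ.im * p.2 := by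
    intro p
    simp [zt]
  have hne : ∀ p : ℝ × ℝ, 0 < p.2 → zt τ p ≠ 0 := by
    intro p hp h
    have h1 := him p
    rw [h, Complex.zero_im] at h1
    have h2 : 0 < τ.im * p.2 := mul_pos hτ hp
    linarith
  have hlog : ∀ p : ℝ × ℝ, 0 < p.2 → Real.exp (Complex.log (zt τ p)).re = ‖zt τ p‖ := by
    intro p hp
    rw [Complex.log_re, Real.exp_log (norm_pos_iff.2 (hne p hp))]
  have hdev0 : ∀ {E : Type} (f : X → ℝ × ℝ → E) {p : ℝ × ℝ}, 0 < p.2 →
      dev α β τ s0 f (Complex.log (zt τ p)) = f s0 p := by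
    intro E f p hp
    have h1 := dev_log (α := α) (β := β) hτ f s0 0 hp
    simpa using h1
  -- the point `exp (t / k)`
  have hball : ∀ t : ℂ, Real.exp t.re < rd τ →
      Complex.exp (t / k) ∈ Metric.ball (0 : ℂ) (rd τ ^ (1 / (k : ℝ))) := by
    intro t ht
    rw [mem_ball_zero_iff, Complex.norm_exp]
    have h1 : (t / (k : ℂ)).re = t.re * (1 / (k : ℝ)) := by
      rw [Complex.div_natCast_re]
      ring
    rw [h1, Real.exp_mul]
    exact Real.rpow_lt_rpow (Real.exp_pos _).le ht (by positivity)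
  -- the corner value is `A`
  have hA0 : A = 0 := by
    obtain ⟨C, ρ, hC, hρ, hρ3, hunif⟩ := AA_unif (X := X) hSG {τ} isCompact_singleton
      (Set.singleton_subset_iff.2 hτ) hk
    set δ : ℕ → ℝ := fun n => 1 / ((n : ℝ) + 1) with hδ
    have hδpos : ∀ n, 0 < δ n := fun n => by positivity
    have hδ0 : Tendsto δ atTop (𝓝 0) := tendsto_one_div_add_atTop_nhds_zero_nat
    have hz0 : Tendsto (fun n => ‖zt τ (δ n, δ n)‖) atTop (𝓝 0) := by
      refine squeeze_zero (fun _ => norm_nonneg _) (fun n => norm_zt_le τ (δ n, δ n)) ?_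
      have h1 : ∀ n, ‖(δ n, δ n)‖ = δ n := by
        intro n
        rw [Prod.norm_def, max_self, Real.norm_eq_abs, abs_of_pos (hδpos n)]
      simp only [h1]
      simpa using hδ0.const_mul (1 + ‖τ‖)
    have h1 : ∀ᶠ n in atTop, δ n < ρ ∧ ‖zt τ (δ n, δ n)‖ < rd τ :=
      (hδ0.eventually (gt_mem_nhds hρ)).and (hz0.eventually (gt_mem_nhds hR))
    -- first limit
    have l1 : Tendsto (fun n => pv α β (FF α β w τ) s0 (δ n, δ n)) atTop (𝓝 0) := by
      rw [tendsto_zero_iff_norm_tendsto_zero]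
      refine squeeze_zero' (Eventually.of_forall fun _ => norm_nonneg _)
        (g := fun n => C * Real.sqrt (starE α β s0 k (hh α β w τ : Sq X → ℂ)) *
          (δ n) ^ (1 / (k : ℝ))) ?_ ?_
      · filter_upwards [h1] with n hn
        have h2 := hunif w hw τ (Set.mem_singleton τ) s0 hs 0 (δ n) (δ n) (hδpos n) hn.1 (hδpos n) hn.1
        rw [hA] at h2
        simpa using h2
      · have h3 : Tendsto (fun n => (δ n) ^ (1 / (k : ℝ))) atTop (𝓝 0) := by
          have h4 := hδ0.rpow_const (p := 1 / (k : ℝ)) (Or.inr (by positivity))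
          rwa [Real.zero_rpow (by positivity)] at h4
        simpa using h3.const_mul (C * Real.sqrt (starE α β s0 k (hh α β w τ : Sq X → ℂ)))
    -- second limit
    have l2 : Tendsto (fun n => Complex.exp (Complex.log (zt τ (δ n, δ n)) / k)) atTop (𝓝 0) := by
      rw [tendsto_zero_iff_norm_tendsto_zero]
      have h3 : ∀ n, ‖Complex.exp (Complex.log (zt τ (δ n, δ n)) / k)‖ =
          ‖zt τ (δ n, δ n)‖ ^ (1 / (k : ℝ)) := by
        intro n
        rw [Complex.norm_exp, Complex.div_natCast_re]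
        rw [← hlog (δ n, δ n) (hδpos n), ← Real.exp_mul]
        congr 1
        ring
      simp only [h3]
      have h4 := hz0.rpow_const (p := 1 / (k : ℝ)) (Or.inr (by positivity))
      rwa [Real.zero_rpow (by positivity)] at h4
    have hQc : ContinuousAt Q 0 :=
      (hQd.differentiableAt (Metric.isOpen_ball.mem_nhds (Metric.mem_ball_self hR1))).continuousAt
    have l3 : Tendsto (fun n => Q (Complex.exp (Complex.log (zt τ (δ n, δ n)) / k))) atTop (𝓝 0) := by
      have h5 := hQc.tendsto.comp l2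
      rwa [hQ0] at h5
    have l4 : Tendsto (fun n => (A : ℂ) + Q (Complex.exp (Complex.log (zt τ (δ n, δ n)) / k)) +
        conj (Q (Complex.exp (Complex.log (zt τ (δ n, δ n)) / k)))) atTop (𝓝 ((A : ℂ))) := by
      have h6 := (l3.const_add (A : ℂ)).add ((Complex.continuous_conj.tendsto 0).comp l3)
      simpa using h6
    have l5 : Tendsto (fun n => pv α β (FF α β w τ) s0 (δ n, δ n)) atTop (𝓝 (A : ℂ)) := by
      refine l4.congr' ?_
      filter_upwards [h1] with n hn
      rw [← hrep (Complex.log (zt τ (δ n, δ n))) (by rw [hlog _ (hδpos n)]; exact hn.2)]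
      exact hdev0 _ (hδpos n)
    have h7 := tendsto_nhds_unique l5 l1
    exact_mod_cast h7
  -- nonnegativity of the real part of Q
  have hQpos : ∀ ξ ∈ Metric.ball (0 : ℂ) (rd τ ^ (1 / (k : ℝ))), 0 ≤ (Q ξ).re := by
    intro ξ hξ
    by_cases h0 : ξ = 0
    · rw [h0, hQ0, Complex.zero_re]
    · have e1 : Complex.exp ((k * Complex.log ξ) / k) = ξ := by
        rw [mul_div_cancel_left₀ _ hkC, Complex.exp_log h0]
      have e2 : Real.exp (k * Complex.log ξ).re < rd τ := by
        have h2 : (k * Complex.log ξ).re = Real.log ‖ξ‖ * k := by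
          rw [← Complex.ofReal_natCast, Complex.re_ofReal_mul, Complex.log_re]
          ring
        rw [h2, Real.exp_mul, Real.exp_log (norm_pos_iff.2 h0)]
        have h3 : ‖ξ‖ < rd τ ^ (1 / (k : ℝ)) := by simpa using hξ
        calc ‖ξ‖ ^ (k : ℝ) < (rd τ ^ (1 / (k : ℝ))) ^ (k : ℝ) :=
              Real.rpow_lt_rpow (norm_nonneg _) h3 hkR
          _ = rd τ := by
              rw [← Real.rpow_mul hR.le, one_div, inv_mul_cancel₀ hkR.ne', Real.rpow_one]
      have h4 := hrep _ e2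
      rw [e1, hA0] at h4
      obtain ⟨σ, a, hcr, hev⟩ := dev_local (α := α) (β := β) hτ s0 e2
      have h5 := (hev _ (pv_glue (FF α β w τ))).self_of_nhds
      have h6 := pv_nonneg hSG hw hτ hpos σ hcr
      rw [← h5, h4] at h6
      simp only [Complex.ofReal_zero, zero_add, Complex.add_re, Complex.conj_re] at h6
      linarith
  -- maximum principle
  have hconst : ∀ ξ ∈ Metric.ball (0 : ℂ) (rd τ ^ (1 / (k : ℝ))), Complex.exp (-Q ξ) = 1 := by
    have hd : DifferentiableOn ℂ (fun ξ => Complex.exp (-Q ξ))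
        (Metric.ball (0 : ℂ) (rd τ ^ (1 / (k : ℝ)))) := hQd.neg.cexp
    have hmax : IsMaxOn (norm ∘ fun ξ => Complex.exp (-Q ξ))
        (Metric.ball (0 : ℂ) (rd τ ^ (1 / (k : ℝ)))) 0 := by
      intro ξ hξ
      simp only [Function.comp, Complex.norm_exp, Set.mem_setOf_eq]
      rw [hQ0]
      refine Real.exp_le_exp.2 ?_
      have h1 := hQpos ξ hξ
      simpa using h1
    have h2 := Complex.eqOn_of_isPreconnected_of_isMaxOn_norm
      (convex_ball (0 : ℂ) (rd τ ^ (1 / (k : ℝ)))).isPreconnected Metric.isOpen_ball hd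
      (Metric.mem_ball_self hR1) hmax
    intro ξ hξ
    have h3 := h2 hξ
    simpa [hQ0] using h3
  -- vanishing of the derivative
  have hopen : IsOpen {t : ℂ | Real.exp t.re < rd τ} :=
    isOpen_lt (Real.continuous_exp.comp Complex.continuous_re) continuous_const
  have hzero : ∀ t : ℂ, Real.exp t.re < rd τ →
      dev α β τ s0 (pv α β (hh α β w τ : Sq X → ℂ)) t = 0 := by
    intro t ht
    have h1 := ((hder t ht).neg).cexp
    have h2 : (fun t : ℂ => Complex.exp (-Q (Complex.exp (t / k)))) =ᶠ[𝓝 t] fun _ => 1 := by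
      filter_upwards [hopen.mem_nhds ht] with t' ht'
      exact hconst _ (hball t' ht')
    have h3 : HasDerivAt (fun t : ℂ => Complex.exp (-Q (Complex.exp (t / k)))) 0 t :=
      (hasDerivAt_const t (1 : ℂ)).congr_of_eventuallyEq h2
    have h4 := h1.unique h3
    have h5 := mul_eq_zero.1 h4
    rcases h5 with h5 | h5
    · exact absurd h5 (Complex.exp_ne_zero _)
    · rw [neg_eq_zero] at h5
      exact (mul_eq_zero.1 h5).resolve_left (Complex.exp_ne_zero _)
  -- unique continuation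
  have hfin : hh α β w τ = 0 := by
    set δ : ℝ := min (1 / 2) (rd τ / (2 * (1 + ‖τ‖))) with hδ
    have hτ1 : 0 < 1 + ‖τ‖ := by positivity
    have hδpos : 0 < δ := lt_min (by norm_num) (by positivity)
    have hδ1 : δ ≤ 1 / 2 := min_le_left _ _
    have hδ2 : (1 + ‖τ‖) * δ < rd τ := by
      have h1 : δ ≤ rd τ / (2 * (1 + ‖τ‖)) := min_le_right _ _
      calc (1 + ‖τ‖) * δ ≤ (1 + ‖τ‖) * (rd τ / (2 * (1 + ‖τ‖))) :=
            mul_le_mul_of_nonneg_left h1 hτ1.le
        _ = rd τ / 2 := by field_simp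
        _ < rd τ := by linarith
    have hp0 : ((δ, δ) : ℝ × ℝ) ∈ Cross := Or.inl ⟨hδpos, by show δ < 1; linarith⟩
    have hz0 : ‖zt τ (δ, δ)‖ < rd τ := by
      refine lt_of_le_of_lt (norm_zt_le τ (δ, δ)) ?_
      rw [Prod.norm_def, max_self, Real.norm_eq_abs, abs_of_pos hδpos]
      exact hδ2
    refine hh_zero_of hSG hconn hw hτ s0 hp0 ?_
    refine Filter.Eventually.frequently ?_
    refine Filter.Eventually.filter_mono nhdsWithin_le_nhds ?_
    have h1 : ∀ᶠ z in 𝓝 (zt τ (δ, δ)), ‖z‖ < rd τ :=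
      continuous_norm.continuousAt.eventually (gt_mem_nhds hz0)
    have h2 : ∀ᶠ z in 𝓝 (zt τ (δ, δ)), 0 < (zinv τ z).2 := by
      have h3 : ContinuousAt (fun z => (zinv τ z).2) (zt τ (δ, δ)) :=
        (continuous_snd.comp (continuous_zinv τ)).continuousAt
      refine h3.eventually (lt_mem_nhds ?_)
      show 0 < (zinv τ (zt τ (δ, δ))).2
      rw [zinv_zt hτ]
      exact hδpos
    filter_upwards [h1, h2] with z hz1 hz2
    have h3 := hdev0 (pv α β (hh α β w τ : Sq X → ℂ)) hz2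
    rw [← h3]
    refine hzero _ ?_
    rw [hlog _ hz2, zt_zinv hτ]
    exact hz1
  exact L2s_of_hh_zero hSG hconn hw hτ s0 hfin hA

end Pool.Agent.Helper96.OF
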