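import Pool.Agent.Helper42.OF.L10
import Pool.Agent.Helper80.OF.M1

/-!
# OFL-L11: properties of the corner value AA

Everything is uniqueness of LimC (AA_eq, AA_LimC). `AA_add`: `FF (w+w') = FF w + FF w'` a.e. (FT10 sol_add, FT7 Phi_add, toC), LimC of a sum. `AA_smul`, `AA_const` (FT10 hh_const: sol = 0, Phi_one), `AA_L2` (FT10 FF_L2).
`AA_relabel`: RL relabel_eq: `FF α β (w ∘ θ) τ = FF α' β' w τ (θ s, p)` a.e.; pull back the a.e. statement (rlT measure preserving: `MeasurePreserving.quasiMeasurePreserving.ae`). zeta α' β' (θ s) = θ (zeta α β s).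
`AA_shear`: SH5 shear_eq with n = 1: `FF α β w τ q = FF α (β α⁻¹) w (τ-1) (shT α 1 q)` a.e.; for 0<x,y, x+y<1: shT α 1 (s0,(x,y)) = (s0,(x+y,y)), so LimC (FF α β w τ) s0 A' with A' = AA of the sheared marking: given ρ' for ε, x,y < min(ρ'/2, 1/2) works.
Points with x ≤ 0 etc. are not in the support of mu (ae_mu_iff: only unitSq).
`AA_refl`: RF2 refl_eq. `AA_t1`: M0 al_t1, SG and InW of the markings (M0 sg_psi, inW_psi), zeta_al_be. `AA_t2`: refl, shear, refl as in helper80's M1 EE_t2 (zeta_swap: the corner of (β, α) is the same set, (zeta β α)^k s0 = s0 too).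
-/

set_option autoImplicit false

open MeasureTheory Filter Topology
open scoped ComplexConjugate

namespace Pool.Agent.Helper96.OF

variable {X : Type} [Countable X] [MeasurableSpace X] [DiscreteMeasurableSpace X]
  {α β α' β' : Equiv.Perm X}

omit [Countable X] [DiscreteMeasurableSpace X] in
private theorem l11_congr {F G : Sq X → ℂ} {s0 : X} {A : ℂ} (h : F =ᵐ[mu X] G) (hG : LimC G s0 A) :
    LimC F s0 A := by
  intro ε hε
  obtain ⟨ρ, hρ, hae⟩ := hG ε hε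
  refine ⟨ρ, hρ, ?_⟩
  filter_upwards [h, hae] with q h1 h2
  rw [h1]; exact h2

omit [Countable X] [DiscreteMeasurableSpace X] in
private theorem l11_add {F G : Sq X → ℂ} {s0 : X} {A B : ℂ} (hF : LimC F s0 A) (hG : LimC G s0 B) :
    LimC (fun q => F q + G q) s0 (A + B) := by
  intro ε hε
  obtain ⟨ρ, hρ, hae⟩ := hF (ε / 2) (by positivity)
  obtain ⟨ρ', hρ', hae'⟩ := hG (ε / 2) (by positivity)
  refine ⟨min ρ ρ', lt_min hρ hρ', ?_⟩
  filter_upwards [hae, hae'] with q h1 h2 hq hx hy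
  have e1 := h1 hq (lt_of_lt_of_le hx (min_le_left _ _)) (lt_of_lt_of_le hy (min_le_left _ _))
  have e2 := h2 hq (lt_of_lt_of_le hx (min_le_right _ _)) (lt_of_lt_of_le hy (min_le_right _ _))
  have e3 : F q + G q - (A + B) = (F q - A) + (G q - B) := by ring
  rw [e3]
  refine (norm_add_le _ _).trans ?_
  linarith

omit [Countable X] [DiscreteMeasurableSpace X] in
private theorem l11_smul {F : Sq X → ℂ} {s0 : X} {A : ℂ} (r : ℝ) (hF : LimC F s0 A) :
    LimC (fun q => (r : ℂ) * F q) s0 ((r : ℂ) * A) := by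
  intro ε hε
  have h0 : 0 < |r| + 1 := by positivity
  obtain ⟨ρ, hρ, hae⟩ := hF (ε / (|r| + 1)) (by positivity)
  refine ⟨ρ, hρ, ?_⟩
  filter_upwards [hae] with q h1 hq hx hy
  have e1 := h1 hq hx hy
  rw [← mul_sub, norm_mul, Complex.norm_real, Real.norm_eq_abs]
  calc |r| * ‖F q - A‖ ≤ (|r| + 1) * (ε / (|r| + 1)) :=
        mul_le_mul (by linarith) e1 (norm_nonneg _) h0.le
    _ = ε := by field_simp

private theorem l11_FF_add (hSG : SG α β) {w w' : X → ℝ} (hw : InW α β w) (hw' : InW α β w') {τ : ℂ}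
    (hτ : τ ∈ HH) : FF α β (fun x => w x + w' x) τ =ᵐ[mu X] fun q => FF α β w τ q + FF α β w' τ q := by
  have h := Lp.coeFn_add (sol α β w τ 0) (sol α β w' τ 0)
  have e : (fun x => toC w x + toC w' x) = toC (fun x => w x + w' x) := by
    funext x; simp [toC]
  filter_upwards [h] with q hq
  unfold FF
  rw [sol_add hSG hw hw' hτ, PiLp.add_apply, hq, ← e]
  simp only [fl, Phi_add, Pi.add_apply]
  ring

private theorem l11_FF_smul (hSG : SG α β) {w : X → ℝ} (hw : InW α β w) (r : ℝ) {τ : ℂ}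
    (hτ : τ ∈ HH) : FF α β (fun x => r * w x) τ =ᵐ[mu X] fun q => (r : ℂ) * FF α β w τ q := by
  have h := Lp.coeFn_smul (r : ℂ) (sol α β w τ 0)
  have e : (fun x => (r : ℂ) * toC w x) = toC (fun x => r * w x) := by
    funext x; simp [toC]
  filter_upwards [h] with q hq
  unfold FF
  rw [sol_smul hSG hw r hτ, PiLp.smul_apply, hq, ← e]
  simp only [fl, Phi_smul, Pi.smul_apply, smul_eq_mul]
  ring

theorem AA_add (hSG : SG α β) {w w' : X → ℝ} (hw : InW α β w) (hw' : InW α β w') {τ : ℂ}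
    (hτ : τ ∈ HH) {k : ℕ} (hk : 0 < k) {s0 : X} (hs : (zeta α β ^ k) s0 = s0) :
    AA α β (fun x => w x + w' x) s0 τ = AA α β w s0 τ + AA α β w' s0 τ := by
  refine AA_eq ?_
  push_cast
  exact l11_congr (l11_FF_add hSG hw hw' hτ) (l11_add (AA_LimC hSG hw hτ hk hs) (AA_LimC hSG hw' hτ hk hs))

theorem AA_smul (hSG : SG α β) {w : X → ℝ} (hw : InW α β w) (r : ℝ) {τ : ℂ}
    (hτ : τ ∈ HH) {k : ℕ} (hk : 0 < k) {s0 : X} (hs : (zeta α β ^ k) s0 = s0) :
    AA α β (fun x => r * w x) s0 τ = r * AA α β w s0 τ := by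
  refine AA_eq ?_
  push_cast
  exact l11_congr (l11_FF_smul hSG hw r hτ) (l11_smul r (AA_LimC hSG hw hτ hk hs))

theorem AA_const (hSG : SG α β) (r : ℝ) {τ : ℂ} (hτ : τ ∈ HH) (s0 : X) :
    AA α β (fun _ => r) s0 τ = r := by
  refine AA_eq ?_
  intro ε hε
  refine ⟨1, one_pos, ?_⟩
  have h0 : (((0 : K3 X) 0 : KK X) : Sq X → ℂ) =ᵐ[mu X] 0 := Lp.coeFn_zero ℂ 2 (mu X)
  filter_upwards [h0] with q hq _ _ _
  have e : toC (fun _ : X => r) = fun _ => (r : ℂ) := rfl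
  unfold FF
  rw [(hh_const hSG r hτ).2, e, hq]
  simp only [fl, Phi_one, Pi.zero_apply, add_zero, sub_self, norm_zero]
  exact hε.le

theorem AA_L2 (hSG : SG α β) {w w' : X → ℝ} (hw : InW α β w) (hw' : InW α β w')
    (h2 : L2s (fun x => w x - w' x)) {τ : ℂ} (hτ : τ ∈ HH) {k : ℕ} (hk : 0 < k) {s0 : X}
    (hs : (zeta α β ^ k) s0 = s0) : AA α β w s0 τ = AA α β w' s0 τ :=
  AA_eq (l11_congr (FF_L2 hSG hw hw' h2 hτ).2 (AA_LimC hSG hw' hτ hk hs))

private theorem l11_zeta_pow {θ : Equiv.Perm X} (h1 : θ * α = α' * θ) (h2 : θ * β = β' * θ)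
    {k : ℕ} {s0 : X} (hs : (zeta α β ^ k) s0 = s0) : (zeta α' β' ^ k) (θ s0) = θ s0 := by
  have ha : α' = θ * α * θ⁻¹ := by rw [h1]; group
  have hb : β' = θ * β * θ⁻¹ := by rw [h2]; group
  have h : zeta α' β' = θ * zeta α β * θ⁻¹ := by
    rw [ha, hb]
    unfold zeta
    group
  rw [h, conj_pow]
  simp [hs]

theorem AA_relabel {θ : Equiv.Perm X} (h1 : θ * α = α' * θ) (h2 : θ * β = β' * θ)
    (hSG : SG α β) (hSG' : SG α' β') {w : X → ℝ} (hw : InW α' β' w) {τ : ℂ} (hτ : τ ∈ HH)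
    {k : ℕ} (hk : 0 < k) {s0 : X} (hs : (zeta α β ^ k) s0 = s0) :
    AA α β (fun x => w (θ x)) s0 τ = AA α' β' w (θ s0) τ := by
  refine AA_eq (l11_congr (relabel_eq h1 h2 hSG hSG' hw hτ).2.1 ?_)
  intro ε hε
  obtain ⟨ρ, hρ, hae⟩ := AA_LimC hSG' hw hτ hk (l11_zeta_pow h1 h2 hs) ε hε
  refine ⟨ρ, hρ, ?_⟩
  filter_upwards [ae_comp (rlT_mp θ) hae] with q hq e1 e2 e3
  exact hq (by show θ q.1 = θ s0; rw [e1]) e2 e3

omit [Countable X] [MeasurableSpace X] [DiscreteMeasurableSpace X] in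
private theorem l11_zeta_shear : zeta α (β * α⁻¹) = zeta α β := by
  have h := zeta_shear α β 1
  simpa only [zpow_neg, zpow_one] using h

theorem AA_shear (hSG : SG α β) {w : X → ℝ} (hw : InW α β w) {τ : ℂ} (hτ : τ ∈ HH)
    {k : ℕ} (hk : 0 < k) {s0 : X} (hs : (zeta α β ^ k) s0 = s0) :
    AA α (β * α⁻¹) w s0 (τ - 1) = AA α β w s0 τ := by
  symm
  have hSG' : SG α (β * α⁻¹) := by
    have := sg_shear hSG 1
    simpa only [zpow_neg, zpow_one] using this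
  have hw' : InW α (β * α⁻¹) w := by
    have := inW_shear hw 1
    simpa only [zpow_neg, zpow_one] using this
  have hτ' : τ - 1 ∈ HH := by simpa [HH] using hτ
  have hs' : (zeta α (β * α⁻¹) ^ k) s0 = s0 := by rw [l11_zeta_shear]; exact hs
  have he := (shear_eq hSG hw 1 hτ).2.1
  simp only [zpow_neg, zpow_one, Int.cast_one] at he
  refine AA_eq (l11_congr he ?_)
  intro ε hε
  obtain ⟨ρ, hρ, hae⟩ := AA_LimC hSG' hw' hτ' hk hs' ε hε
  refine ⟨min (ρ / 2) (1 / 2), by positivity, ?_⟩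
  have hsq : ∀ᵐ q ∂(mu X), q.2 ∈ unitSq := ae_mu_of _ fun s p hp => hp
  filter_upwards [ae_comp (shT_mp α 1) hae, hsq] with q hq hsq e1 e2 e3
  have x0 : 0 < q.2.1 := hsq.1.1
  have y0 : 0 < q.2.2 := hsq.2.1
  have e2a := lt_of_lt_of_le e2 (min_le_left _ _)
  have e2b := lt_of_lt_of_le e2 (min_le_right _ _)
  have e3a := lt_of_lt_of_le e3 (min_le_left _ _)
  have e3b := lt_of_lt_of_le e3 (min_le_right _ _)
  have hfl : ⌊q.2.1 + ((1 : ℤ) : ℝ) * q.2.2⌋ = 0 := by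
    rw [Int.floor_eq_zero_iff]
    push_cast
    constructor <;> linarith
  have hfr : Int.fract (q.2.1 + ((1 : ℤ) : ℝ) * q.2.2) = q.2.1 + q.2.2 := by
    rw [← Int.self_sub_floor, hfl]
    push_cast
    ring
  have hT : shT α 1 q = (q.1, (q.2.1 + q.2.2, q.2.2)) := by
    unfold shT
    rw [hfl, hfr]
    simp
  rw [hT] at hq ⊢
  exact hq e1 (by show q.2.1 + q.2.2 < ρ; linarith) (by show q.2.2 < ρ; linarith)

theorem AA_refl (hSG : SG α β) (hSG' : SG β α) {w : X → ℝ} (hw : InW α β w) {τ : ℂ} (hτ : τ ∈ HH)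
    {k : ℕ} (hk : 0 < k) {s0 : X} (hs : (zeta α β ^ k) s0 = s0) :
    AA β α w s0 (1 / conj τ) = AA α β w s0 τ := by
  symm
  have hs' : (zeta β α ^ k) s0 = s0 := by
    rw [zeta_swap α β, inv_pow, Equiv.Perm.inv_eq_iff_eq]
    exact hs.symm
  refine AA_eq (l11_congr (refl_eq hSG hSG' hw hτ).2.1 ?_)
  intro ε hε
  obtain ⟨ρ, hρ, hae⟩ := AA_LimC hSG' (inW_swap hw) (inv_conj_mem_HH hτ) hk hs' ε hε
  refine ⟨ρ, hρ, ?_⟩
  filter_upwards [ae_comp rfT_mp hae] with q hq e1 e2 e3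
  exact hq e1 e3 e2

section
variable [MulAction A X]

omit [Countable X] [MeasurableSpace X] [DiscreteMeasurableSpace X] in
private theorem l11_gz {ψ : MulAut A} (hψ : ψ ∈ B3) {k : ℕ} {s0 : X} (hs : gz ^ k • s0 = s0) :
    (zeta (al X ψ) (be X ψ) ^ k) s0 = s0 := by
  rw [zeta_al_be hψ]
  have h : (MulAction.toPerm gz : Equiv.Perm X) ^ k = MulAction.toPerm (gz ^ k) :=
    (map_pow (MulAction.toPermHom A X) gz k).symm
  rw [h]
  exact hs

theorem AA_t1 (hSG : SG (MulAction.toPerm ga : Equiv.Perm X) (MulAction.toPerm gb)) {w : X → ℝ}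
    (hw : InW (MulAction.toPerm ga : Equiv.Perm X) (MulAction.toPerm gb) w) {ψ : MulAut A}
    (hψ : ψ ∈ B3) {τ : ℂ} (hτ : τ ∈ HH) {k : ℕ} (hk : 0 < k) {s0 : X} (hs : gz ^ k • s0 = s0) :
    AA (al X (t1 * ψ)) (be X (t1 * ψ)) w s0 (τ - 1) = AA (al X ψ) (be X ψ) w s0 τ := by
  rw [(al_t1 ψ).1, (al_t1 ψ).2]
  exact AA_shear (sg_psi ψ hSG) (inW_psi hψ hw) hτ hk (l11_gz hψ hs)

private theorem l11_sg_swap {α β : Equiv.Perm X} (h : SG α β) : SG β α := by
  obtain ⟨C, h0, hC⟩ := h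
  refine ⟨C, h0, fun w hw => ?_⟩
  rw [add_comm (∑' x, (w (β x) - w x) ^ 2)]
  exact hC w hw

private theorem l11_t2_aux {τ : ℂ} (hτ : τ ∈ HH) :
    1 / conj (1 / conj τ - 1) = τ / (1 - τ) := by
  have h0 : τ ≠ 0 := by
    rintro rfl
    simp [HH] at hτ
  have h1 : (1 : ℂ) - τ ≠ 0 := by
    intro h
    have : τ = 1 := by linear_combination -h
    rw [this] at hτ
    simp [HH] at hτ
  have h2 : conj (1 / conj τ - 1) = 1 / τ - 1 := by
    simp
  rw [h2]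
  have h3 : 1 / τ - 1 = (1 - τ) / τ := by
    field_simp
  rw [h3, one_div_div]

theorem AA_t2 (hSG : SG (MulAction.toPerm ga : Equiv.Perm X) (MulAction.toPerm gb)) {w : X → ℝ}
    (hw : InW (MulAction.toPerm ga : Equiv.Perm X) (MulAction.toPerm gb) w) {ψ : MulAut A}
    (hψ : ψ ∈ B3) {τ : ℂ} (hτ : τ ∈ HH) {k : ℕ} (hk : 0 < k) {s0 : X} (hs : gz ^ k • s0 = s0) :
    AA (al X (t2 * ψ)) (be X (t2 * ψ)) w s0 (τ / (1 - τ)) = AA (al X ψ) (be X ψ) w s0 τ := by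
  rw [(al_t2 ψ).1, (al_t2 ψ).2]
  have hS := sg_psi ψ hSG
  have hW := inW_psi hψ hw
  have hS' := l11_sg_swap hS
  have hτ' := inv_conj_mem_HH hτ
  have hτ'' : 1 / conj τ - 1 ∈ HH := by simpa [HH] using hτ'
  have hz := l11_gz hψ hs
  have hz' : (zeta (be X ψ) (al X ψ) ^ k) s0 = s0 := by
    rw [zeta_swap (al X ψ) (be X ψ), inv_pow, Equiv.Perm.inv_eq_iff_eq]
    exact hz.symm
  have hS1 : SG (be X ψ) (al X ψ * (be X ψ)⁻¹) := by
    have := sg_shear hS' 1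
    simpa only [zpow_neg, zpow_one] using this
  have hW1 : InW (be X ψ) (al X ψ * (be X ψ)⁻¹) w := by
    have := inW_shear (inW_swap hW) 1
    simpa only [zpow_neg, zpow_one] using this
  have hz1 : (zeta (be X ψ) (al X ψ * (be X ψ)⁻¹) ^ k) s0 = s0 := by
    rw [l11_zeta_shear]; exact hz'
  have e1 := AA_refl hS hS' hW hτ hk hz
  have e2 := AA_shear hS' (inW_swap hW) hτ' hk hz'
  have e3 := AA_refl hS1 (l11_sg_swap hS1) hW1 hτ'' hk hz1
  rw [l11_t2_aux hτ] at e3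
  rw [e3, e2, e1]

end

end Pool.Agent.Helper96.OF
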