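import Pool.Agent.Helper42.OF.L10

/-!
# OFL-L12: the corner values of different corners are asymptotic to w

ρ, C from AA_unif (K = {τ}). On the box (0,ρ)² of the square s n (ρ ≤ 1/3): FF = Φ + ψ 0, Φ = w (s n) (FT7 Phi_corner), |FF - AA| ≤ C sqrt(starE (s n)) (max^(1/k) ≤ 1; FF = pv FF a.e.: FF_pv). So a.e. on the box
|w(s n) - AA| ≤ |ψ 0 (s n, p)| + C sqrt(starE (s n)); square, integrate: ρ² |w(s n)-AA|² ≤ 2 ∫_{unitSq}|ψ 0 (s n, p)|² dp + 2 ρ² C² starE (s n). Both tend to 0: L01b slice_sum (terms of a summable family along an injective sequence: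
`Summable.tendsto_cofinite_zero`, `Function.Injective.tendsto_cofinite`, Nat.cofinite_eq_atTop) and starE_tendsto (hh ∈ L²: Lp.memLp).
-/

set_option autoImplicit false

open MeasureTheory Filter Topology
open scoped ComplexConjugate

namespace Pool.Agent.Helper96.OF

variable {X : Type} [Countable X] [MeasurableSpace X] [DiscreteMeasurableSpace X] {α β : Equiv.Perm X}

theorem AA_lim (hSG : SG α β) {w : X → ℝ} (hw : InW α β w) {τ : ℂ} (hτ : τ ∈ HH) {k : ℕ}
    (hk : 0 < k) (s : ℕ → X) (hinj : Function.Injective s)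
    (hs : ∀ n, (zeta α β ^ k) (s n) = s n) :
    Tendsto (fun n => AA α β w (s n) τ - w (s n)) atTop (𝓝 0) := by
  obtain ⟨C, ρ, hC, hρ, hρ3, hU⟩ := AA_unif hSG {τ} isCompact_singleton
    (Set.singleton_subset_iff.2 hτ) hk
  have hw' := hw
  set ψ : KK X := sol α β w τ 0 with hψ
  have hψL : MemLp (ψ : Sq X → ℂ) 2 (mu X) := Lp.memLp ψ
  have hhL : MemLp (hh α β w τ : Sq X → ℂ) 2 (mu X) := Lp.memLp _
  have hinv : ∀ x, toC w (zeta α β x) = toC w x := by
    intro x
    unfold toC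
    rw [hw.inv x]
  set Box : Set (ℝ × ℝ) := Set.Ioo (0:ℝ) ρ ×ˢ Set.Ioo (0:ℝ) ρ with hBox
  have hBoxm : MeasurableSet Box := measurableSet_Ioo.prod measurableSet_Ioo
  have hBoxs : Box ⊆ unitSq := by
    rintro ⟨x, y⟩ ⟨hx, hy⟩
    exact ⟨⟨hx.1, by linarith [hx.2]⟩, ⟨hy.1, by linarith [hy.2]⟩⟩
  have hvol : (volume : Measure (ℝ × ℝ)).real Box = ρ ^ 2 := by
    rw [Measure.real, hBox, Measure.volume_eq_prod, Measure.prod_prod, Real.volume_Ioo, sub_zero,
      ENNReal.toReal_mul, ENNReal.toReal_ofReal hρ.le]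
    ring
  -- the estimate
  have hest : ∀ n, ρ ^ 2 * (AA α β w (s n) τ - w (s n)) ^ 2 ≤
      2 * (∫ p in unitSq, ‖(ψ : Sq X → ℂ) (s n, p)‖ ^ 2) +
        2 * (ρ ^ 2 * (C ^ 2 * starE α β (s n) k (hh α β w τ : Sq X → ℂ))) := by
    intro n
    have hsl := slice_int hψL (s n)
    have hE0 := (starE_le (α := α) (β := β) hhL (s n) k).1
    set D : ℝ := C * Real.sqrt (starE α β (s n) k (hh α β w τ : Sq X → ℂ)) with hD
    have hDsq : D ^ 2 = C ^ 2 * starE α β (s n) k (hh α β w τ : Sq X → ℂ) := by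
      rw [hD, mul_pow, Real.sq_sqrt hE0]
    have hae : ∀ᵐ p ∂(volume.restrict Box), (AA α β w (s n) τ - w (s n)) ^ 2 ≤
        2 * ‖(ψ : Sq X → ℂ) (s n, p)‖ ^ 2 + 2 * D ^ 2 := by
      have h1 := (FF_pv hSG hw hτ).2.1 (s n)
      have h2 : ∀ᵐ p ∂(volume.restrict Box), FF α β w τ (s n, p) = pv α β (FF α β w τ) (s n) p :=
        ae_mono (Measure.restrict_mono hBoxs le_rfl) h1
      filter_upwards [h2, ae_restrict_mem hBoxm] with p hp hpB
      obtain ⟨hx, hy⟩ := hpB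
      have h3 := hU w hw τ rfl (s n) (hs n) 0 p.1 p.2 hx.1 hx.2 hy.1 hy.2
      have h4 : ((zeta α β) ^ (0 : ℤ)) (s n) = s n := by simp
      rw [h4] at h3
      have h5 : (p.1, p.2) = p := rfl
      rw [h5, ← hp] at h3
      have h6 : FF α β w τ (s n, p) = (w (s n) : ℂ) + (ψ : Sq X → ℂ) (s n, p) := by
        unfold FF fl
        have := (Phi_corner hinv (s n) p.1 p.2 hx.1 (by linarith [hx.2]) hy.1 (by linarith [hy.2])).1
        rw [h5] at this
        simp only
        rw [this]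
        rfl
      rw [h6] at h3
      have h7 : (max p.1 p.2) ^ (1 / (k : ℝ)) ≤ 1 := by
        apply Real.rpow_le_one
        · exact le_trans hx.1.le (le_max_left _ _)
        · exact max_le (by linarith [hx.2]) (by linarith [hy.2])
        · positivity
      have hD0 : 0 ≤ D := by positivity
      have h8 : ‖(w (s n) : ℂ) + (ψ : Sq X → ℂ) (s n, p) - (AA α β w (s n) τ : ℂ)‖ ≤ D :=
        h3.trans (by
          calc D * (max p.1 p.2) ^ (1 / (k : ℝ)) ≤ D * 1 := mul_le_mul_of_nonneg_left h7 hD0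
            _ = D := mul_one D)
      have h9 : |AA α β w (s n) τ - w (s n)| ≤ ‖(ψ : Sq X → ℂ) (s n, p)‖ + D := by
        have e : (((AA α β w (s n) τ - w (s n) : ℝ)) : ℂ) = (ψ : Sq X → ℂ) (s n, p) -
            ((w (s n) : ℂ) + (ψ : Sq X → ℂ) (s n, p) - (AA α β w (s n) τ : ℂ)) := by
          push_cast; ring
        have h10 : ‖(((AA α β w (s n) τ - w (s n) : ℝ)) : ℂ)‖ = |AA α β w (s n) τ - w (s n)| := by
          rw [Complex.norm_real]; rfl
        rw [← h10, e]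
        exact (norm_sub_le _ _).trans (add_le_add le_rfl h8)
      have h11 : (AA α β w (s n) τ - w (s n)) ^ 2 ≤ (‖(ψ : Sq X → ℂ) (s n, p)‖ + D) ^ 2 := by
        rw [← sq_abs]
        exact pow_le_pow_left₀ (abs_nonneg _) h9 2
      nlinarith [sq_nonneg (‖(ψ : Sq X → ℂ) (s n, p)‖ - D)]
    have hi1 : IntegrableOn (fun p => ‖(ψ : Sq X → ℂ) (s n, p)‖ ^ 2) Box := hsl.2.mono_set hBoxs
    have hfin : (volume : Measure (ℝ × ℝ)) Box ≠ ⊤ := by
      intro h
      have : (volume : Measure (ℝ × ℝ)).real Box = 0 := by rw [Measure.real, h]; rfl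
      rw [hvol] at this
      have := pow_pos hρ 2
      linarith
    have hc : ∀ c : ℝ, IntegrableOn (fun _ : ℝ × ℝ => c) Box := fun c =>
      integrableOn_const hfin
    have hsum : Integrable (fun p => 2 * ‖(ψ : Sq X → ℂ) (s n, p)‖ ^ 2 + 2 * D ^ 2)
        (volume.restrict Box) := Integrable.add (hi1.const_mul 2) (hc (2 * D ^ 2))
    have h12 := integral_mono_ae (μ := volume.restrict Box) (hc ((AA α β w (s n) τ - w (s n)) ^ 2))
      hsum hae
    rw [setIntegral_const, hvol, smul_eq_mul] at h12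
    have h13 : ∫ p in Box, (2 * ‖(ψ : Sq X → ℂ) (s n, p)‖ ^ 2 + 2 * D ^ 2) =
        2 * (∫ p in Box, ‖(ψ : Sq X → ℂ) (s n, p)‖ ^ 2) + ρ ^ 2 * (2 * D ^ 2) := by
      have := integral_add (μ := volume.restrict Box) (hi1.const_mul 2) (hc (2 * D ^ 2))
      rw [setIntegral_const, hvol, smul_eq_mul, integral_const_mul] at this
      exact this
    rw [h13] at h12
    have h14 : ∫ p in Box, ‖(ψ : Sq X → ℂ) (s n, p)‖ ^ 2 ≤ ∫ p in unitSq, ‖(ψ : Sq X → ℂ) (s n, p)‖ ^ 2 :=
      setIntegral_mono_set hsl.2 (Eventually.of_forall fun p => by positivity)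
        (Eventually.of_forall hBoxs)
    rw [← hDsq]
    nlinarith
  -- the limits
  have hcof : Tendsto s atTop cofinite := by
    rw [← Nat.cofinite_eq_atTop]
    exact hinj.tendsto_cofinite
  have hl1 : Tendsto (fun n => ∫ p in unitSq, ‖(ψ : Sq X → ℂ) (s n, p)‖ ^ 2) atTop (𝓝 0) :=
    (slice_sum hψL).1.tendsto_cofinite_zero.comp hcof
  have hl2 := starE_tendsto (α := α) (β := β) hhL k s hinj
  have hl3 : Tendsto (fun n => 2 * (∫ p in unitSq, ‖(ψ : Sq X → ℂ) (s n, p)‖ ^ 2) +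
        2 * (ρ ^ 2 * (C ^ 2 * starE α β (s n) k (hh α β w τ : Sq X → ℂ)))) atTop (𝓝 0) := by
    have h := (hl1.const_mul 2).add (((hl2.const_mul (C ^ 2)).const_mul (ρ ^ 2)).const_mul 2)
    simpa using h
  have hl4 : Tendsto (fun n => ρ ^ 2 * (AA α β w (s n) τ - w (s n)) ^ 2) atTop (𝓝 0) :=
    squeeze_zero (fun n => by positivity) hest hl3
  have hl5 : Tendsto (fun n => (AA α β w (s n) τ - w (s n)) ^ 2) atTop (𝓝 0) := by
    have h := hl4.const_mul (ρ ^ 2)⁻¹
    rw [mul_zero] at h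
    refine h.congr fun n => ?_
    have : ρ ^ 2 ≠ 0 := by positivity
    field_simp
  have hl6 := hl5.sqrt
  rw [Real.sqrt_zero] at hl6
  have hl7 : Tendsto (fun n => |AA α β w (s n) τ - w (s n)|) atTop (𝓝 0) := by
    refine hl6.congr fun n => ?_
    exact Real.sqrt_sq_eq_abs _
  exact (tendsto_zero_iff_abs_tendsto_zero _).2 hl7

end Pool.Agent.Helper96.OF
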