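import Pool.Agent.Helper42.OF.L04
import Pool.Agent.Helper96.OF.W3
import Pool.Agent.Helper96.OF.Z1a

/-!
# OFL-L13: pointwise h and G = ∂_τ F on the unit square of s0, depending holomorphically on τ

Ω = unitSq ⊆ Rc; ext v s0 = v(s0,·) on unitSq (ext_sq). Tests χ on Ω: L from L03 test_R (tsupport χ ⊆ unitSq ⊆ Rc).
(h) W3 `reg` with f τ p = hh τ (s0, p): (1) L01b slice_int; (1b) norm of hh τ is bounded on compacts (h_hol continuous, slice integral ≤ ‖hh τ‖²); (2) `∫ f τ η = ℓ(hh τ)` with ℓ a continuous ℂ-linear functional on KK X (integration against the bounded finitely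
supported class; e.g. ℓ v = inner ℂ (cls (conj (fl L))) v), composed with h_hol; (3) weak equation as in L04. Result ft; pv (hh τ) s0 p = ft τ p for p ∈ unitSq (pv_eq; ft τ is continuous), so (a).
(G) `reg` with f τ p = GG τ 0 (s0,p) - y hh τ (s0,p): (3): `∫ G χ_x = -∫ G_1 χ`, `∫ G χ_y = -∫ G_2 χ` (FT5 ibp_H1, G_mem), G_1 = h' , G_2 = h + τ h' (h' = deriv (hh) τ in L²), so `∫ G (τ χ_x - χ_y) = ∫ h χ`; and `∫ y h (τ χ_x - χ_y) = ∫ h (τ (yχ)_x - (yχ)_y) + ∫ h χ = ∫ h χ`.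
Result bt; pv (GG τ 0) s0 p = bt τ p + p.2 * ft τ p on unitSq; so (b), (d).
(c) For p ∈ unitSq, bumps ρ_n at p (normed ContDiffBump of radius 1/(n+1), complexified): last clause of reg: `deriv (fun σ => ∫ f σ ρ_n) τ → deriv (fun σ => ft σ p) τ`, and `deriv (∫ hh σ ρ_n) τ = ∫ h' ρ_n = ∫ G_1 ρ_n = -∫ G ∂_x ρ_n = ∫ (∂_x G) ρ_n` where G = pv G
is smooth in p (bt τ = g ∘ zt, ft τ = g' ∘ zt, so it has a continuous derivative): → ∂_x G (p). So ∂_x G = ∂_τ h; likewise ∂_y G = h + τ ∂_τ h (use G_2; ∫ h ρ_n → h(p) by reg). [Alternative: ∂_y G = from z_τ-holomorphy of G - y h: ∂_y (G - y h) = τ ∂_x (G - y h), ∂_y h = τ ∂_x h,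
so ∂_y G = h + τ ∂_x G.]
-/

set_option autoImplicit false

open MeasureTheory Filter Topology
open scoped ComplexConjugate

namespace Pool.Agent.Helper96.OF

namespace L13

theorem isOpen_HH13 : IsOpen HH := isOpen_lt continuous_const Complex.continuous_im

theorem unitSq_Rc : unitSq ⊆ Rc := by
  rintro p ⟨h1, h2⟩
  exact ⟨⟨by linarith [h1.1], h1.2⟩, h2⟩

theorem memLp_test {χ : ℝ × ℝ → ℂ} (hχ : Continuous χ) (hc : HasCompactSupport χ) :
    MemLp χ 2 (volume.restrict unitSq) := (hχ.memLp_of_hasCompactSupport hc).restrict unitSq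

/-- integrability of the pairing -/
theorem int_test {g : ℝ × ℝ → ℂ} (hg : MemLp g 2 (volume.restrict unitSq)) {χ : ℝ × ℝ → ℂ}
    (hχ : Continuous χ) (hc : HasCompactSupport χ) (hs : tsupport χ ⊆ unitSq) :
    Integrable (fun p => g p * χ p) := by
  have h1 : IntegrableOn (fun p => g p * χ p) unitSq := hg.integrable_mul (memLp_test hχ hc)
  rw [integrableOn_iff_integrable_of_support_subset] at h1
  · exact h1
  · intro p hp
    apply hs
    apply subset_tsupport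
    intro h0
    apply hp
    show g p * χ p = 0
    rw [h0, mul_zero]

theorem fd_test {χ : ℝ × ℝ → ℂ} (hχ : ContDiff ℝ (⊤ : ℕ∞) χ) (hc : HasCompactSupport χ)
    (hs : tsupport χ ⊆ unitSq) (v : ℝ × ℝ) :
    Continuous (fun p => fderiv ℝ χ p v) ∧ HasCompactSupport (fun p => fderiv ℝ χ p v) ∧
      tsupport (fun p => fderiv ℝ χ p v) ⊆ unitSq := by
  refine ⟨(hχ.continuous_fderiv (by simp)).clm_apply continuous_const, ?_, ?_⟩
  · exact hc.fderiv_apply (𝕜 := ℝ) v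
  · exact (tsupport_fderiv_apply_subset ℝ v).trans hs

variable {X : Type} {α β : Equiv.Perm X}

theorem ext_mul (v : Sq X → ℂ) (s0 : X) {χ : ℝ × ℝ → ℂ} (hs : tsupport χ ⊆ unitSq) :
    (fun p => ext α β (fun s p => v (s, p)) s0 p * χ p) = fun p => v (s0, p) * χ p := by
  funext p
  by_cases hp : p ∈ unitSq
  · rw [ext_sq _ _ hp]
  · have h0 : χ p = 0 := by
      by_contra h
      exact hp (hs (subset_tsupport χ h))
    rw [h0, mul_zero, mul_zero]

variable [Countable X] [MeasurableSpace X] [DiscreteMeasurableSpace X]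

/-- a test function on the unit square of `s0` as a nice function -/
theorem test_sq (α β : Equiv.Perm X) {χ : ℝ × ℝ → ℂ} (hχ : ContDiff ℝ (⊤ : ℕ∞) χ)
    (hc : HasCompactSupport χ) (hs : tsupport χ ⊆ unitSq) (s0 : X) :
    ∃ L : X → ℝ × ℝ → ℂ, Nice α β L (fun _ => 0) ∧ FinS L ∧
      ∀ v : KK X, ∫ q, (v : Sq X → ℂ) q * fl L q ∂(mu X) = ∫ p, (v : Sq X → ℂ) (s0, p) * χ p ∧
        ∫ q, (v : Sq X → ℂ) q * fl (dx L) q ∂(mu X) = ∫ p, (v : Sq X → ℂ) (s0, p) * fderiv ℝ χ p (1, 0) ∧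
        ∫ q, (v : Sq X → ℂ) q * fl (dy L) q ∂(mu X) = ∫ p, (v : Sq X → ℂ) (s0, p) * fderiv ℝ χ p (0, 1) := by
  obtain ⟨L, hL, hLf, h⟩ := test_R α β hχ hc (hs.trans unitSq_Rc) s0
  refine ⟨L, hL, hLf, fun v => ?_⟩
  have h1 := h (v : Sq X → ℂ) (Lp.aestronglyMeasurable v) (fun s => (slice_int (Lp.memLp v) s).1)
  rw [ext_mul _ _ hs, ext_mul _ _ (fd_test hχ hc hs (1, 0)).2.2, ext_mul _ _ (fd_test hχ hc hs (0, 1)).2.2] at h1
  exact h1

theorem pair_inner {L : X → ℝ × ℝ → ℂ} {c : X → ℂ} (hL : Nice α β L c) (hLf : FinS L) (v : KK X) :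
    inner ℂ (cls (fun q => conj (fl L q))) v = ∫ q, (v : Sq X → ℂ) q * fl L q ∂(mu X) := by
  have h1 : FinS (fun s p => conj (L s p)) := by
    obtain ⟨S, hS⟩ := hLf
    exact ⟨S, fun s hs p hp => by simp [hS s hs p hp]⟩
  have h2 : MemLp (fun q => conj (fl L q)) 2 (mu X) := nice_memLp (nice_conj hL) h1 2
  rw [inner_KK]
  apply integral_congr_ae
  filter_upwards [cls_ae h2] with q hq
  rw [hq, Complex.conj_conj, mul_comm]

theorem ell (s0 : X) {χ : ℝ × ℝ → ℂ} (hχ : ContDiff ℝ (⊤ : ℕ∞) χ)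
    (hc : HasCompactSupport χ) (hs : tsupport χ ⊆ unitSq) :
    ∃ ℓ : KK X →L[ℂ] ℂ, ∀ v : KK X, ℓ v = ∫ p, (v : Sq X → ℂ) (s0, p) * χ p := by
  obtain ⟨L, hL, hLf, h⟩ := test_sq (1 : Equiv.Perm X) 1 hχ hc hs s0
  refine ⟨innerSL ℂ (cls (fun q => conj (fl L q))), fun v => ?_⟩
  rw [innerSL_apply_apply, pair_inner hL hLf, (h v).1]

theorem ibp_sq {V : K3 X} (hV : V ∈ H1 α β) (s0 : X) {χ : ℝ × ℝ → ℂ} (hχ : ContDiff ℝ (⊤ : ℕ∞) χ)
    (hc : HasCompactSupport χ) (hs : tsupport χ ⊆ unitSq) :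
    ∫ p, (V 0 : Sq X → ℂ) (s0, p) * fderiv ℝ χ p (1, 0) = - ∫ p, (V 1 : Sq X → ℂ) (s0, p) * χ p ∧
    ∫ p, (V 0 : Sq X → ℂ) (s0, p) * fderiv ℝ χ p (0, 1) = - ∫ p, (V 2 : Sq X → ℂ) (s0, p) * χ p := by
  obtain ⟨L, hL, hLf, h⟩ := test_sq α β hχ hc hs s0
  obtain ⟨h1, h2⟩ := ibp_H1 hV hL hLf
  rw [(h (V 1)).1, (h (V 0)).2.1] at h1
  rw [(h (V 2)).1, (h (V 0)).2.2] at h2
  constructor
  · rw [h1, neg_neg]
  · rw [h2, neg_neg]

theorem weq_sq {τ : ℂ} (v : KK X) (hv : ∀ χ ∈ H1 α β, inner ℂ (χ 2 - conj τ • χ 1) v = 0) (s0 : X)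
    {χ : ℝ × ℝ → ℂ} (hχ : ContDiff ℝ (⊤ : ℕ∞) χ) (hc : HasCompactSupport χ) (hs : tsupport χ ⊆ unitSq) :
    ∫ p, (v : Sq X → ℂ) (s0, p) * (τ * fderiv ℝ χ p (1, 0) - fderiv ℝ χ p (0, 1)) = 0 := by
  obtain ⟨L, hL, hLf, h⟩ := test_sq α β hχ hc hs s0
  have hLc := nice_conj hL
  have hLcf : FinS (fun s p => conj (L s p)) := by
    obtain ⟨S, hS⟩ := hLf
    exact ⟨S, fun s hs p hp => by simp [hS s hs p hp]⟩
  have h0 := hv _ (trip_mem hLc hLcf)
  have e1 : (trip (fun s p => conj (L s p)) : K3 X) 1 = cls (fun q => conj (fl (dx L) q)) := by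
    show cls (fl (dx fun s p => conj (L s p))) = _
    refine cls_congr (ae_mu_of _ fun s p hp => ?_)
    exact (dx_conj hL s p (unitSq_subset_Cross hp)).1
  have e2 : (trip (fun s p => conj (L s p)) : K3 X) 2 = cls (fun q => conj (fl (dy L) q)) := by
    show cls (fl (dy fun s p => conj (L s p))) = _
    refine cls_congr (ae_mu_of _ fun s p hp => ?_)
    exact (dx_conj hL s p (unitSq_subset_Cross hp)).2
  rw [e1, e2, inner_sub_left, inner_smul_left, Complex.conj_conj, pair_inner (nice_dy hL) (finS_dx hLf).2,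
    pair_inner (nice_dx hL) (finS_dx hLf).1, (h v).2.1, (h v).2.2] at h0
  have m := Z1.slice_memLp (Lp.memLp v) s0
  obtain ⟨a1, a2, a3⟩ := fd_test hχ hc hs (1, 0)
  obtain ⟨b1, b2, b3⟩ := fd_test hχ hc hs (0, 1)
  have i1 := (int_test m a1 a2 a3).const_mul τ
  have i2 := int_test m b1 b2 b3
  have e3 : (fun p => (v : Sq X → ℂ) (s0, p) * (τ * fderiv ℝ χ p (1, 0) - fderiv ℝ χ p (0, 1))) =
      fun p => τ * ((v : Sq X → ℂ) (s0, p) * fderiv ℝ χ p (1, 0)) -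
        (v : Sq X → ℂ) (s0, p) * fderiv ℝ χ p (0, 1) := by
    funext p; ring
  rw [e3, integral_sub i1 i2, integral_const_mul]
  rw [← neg_eq_zero, neg_sub]
  exact h0

/-- norms of holomorphic families are bounded on compact sets -/
theorem bdd_K {E : Type*} [NormedAddCommGroup E] [NormedSpace ℂ E] {g : ℂ → E} (hg : DifferentiableOn ℂ g HH)
    (K : Set ℂ) (hK : IsCompact K) (hKH : K ⊆ HH) : ∃ C : ℝ, 0 ≤ C ∧ ∀ τ ∈ K, ‖g τ‖ ≤ C := by
  obtain ⟨C, hC⟩ := hK.exists_bound_of_continuousOn (hg.continuousOn.mono hKH)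
  exact ⟨max C 0, le_max_right _ _, fun τ hτ => (hC τ hτ).trans (le_max_left _ _)⟩

theorem slice_norm (v : KK X) (s0 : X) : ∫ p in unitSq, ‖(v : Sq X → ℂ) (s0, p)‖ ^ 2 ≤ ‖v‖ ^ 2 := by
  refine (Z1.slice_le (Lp.memLp v) s0).trans (le_of_eq ?_)
  rw [← cls_norm (Lp.memLp v)]
  congr 2
  apply Lp.ext
  exact cls_ae (Lp.memLp v)

omit [Countable X] [DiscreteMeasurableSpace X] in
theorem int_congr_ell {g : ℂ → KK X} {s0 : X} {η : ℝ × ℝ → ℂ} {ℓ : KK X →L[ℂ] ℂ}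
    (hℓ : ∀ v : KK X, ℓ v = ∫ p, (v : Sq X → ℂ) (s0, p) * η p) (hg : DifferentiableOn ℂ g HH) :
    DifferentiableOn ℂ (fun τ => ∫ p, (g τ : Sq X → ℂ) (s0, p) * η p) HH := by
  have h1 : DifferentiableOn ℂ (fun τ => ℓ (g τ)) HH := ℓ.differentiable.comp_differentiableOn hg
  exact h1.congr fun τ _ => (hℓ _).symm

theorem reg_h (hSG : SG α β) {w : X → ℝ} (hw : InW α β w) (hH : HolW α β w) (s0 : X) :
    ∃ ft : ℂ → ℝ × ℝ → ℂ,
      (∀ τ ∈ HH, ∃ g : ℂ → ℂ, DifferentiableOn ℂ g (zt τ '' unitSq) ∧ ∀ p ∈ unitSq, ft τ p = g (zt τ p)) ∧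
      (∀ τ ∈ HH, ∀ᵐ p ∂(volume.restrict unitSq), (hh α β w τ : Sq X → ℂ) (s0, p) = ft τ p) ∧
      (∀ p ∈ unitSq, DifferentiableOn ℂ (fun τ => ft τ p) HH) ∧
      (∀ p ∈ unitSq, ∀ τ ∈ HH, ∀ ρ : ℕ → ℝ × ℝ → ℂ,
        (∀ n, ContDiff ℝ (⊤ : ℕ∞) (ρ n) ∧ tsupport (ρ n) ⊆ Metric.closedBall p (1 / (n + 1)) ∧
          ∫ q, ρ n q = 1 ∧ ∫ q, ‖ρ n q‖ = 1) →
        Tendsto (fun n => ∫ q, (hh α β w τ : Sq X → ℂ) (s0, q) * ρ n q) atTop (𝓝 (ft τ p)) ∧
        Tendsto (fun n => deriv (fun σ => ∫ q, (hh α β w σ : Sq X → ℂ) (s0, q) * ρ n q) τ) atTop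
          (𝓝 (deriv (fun σ => ft σ p) τ))) := by
  apply reg unitSq isOpen_unitSq (fun τ p => (hh α β w τ : Sq X → ℂ) (s0, p))
  · intro τ hτ
    exact Z1.slice_memLp (Lp.memLp _) s0
  · intro K hK hKH
    obtain ⟨C, hC0, hC⟩ := bdd_K hH.h_hol K hK hKH
    exact ⟨C ^ 2, fun τ hτ => (slice_norm _ s0).trans (pow_le_pow_left₀ (norm_nonneg _) (hC τ hτ) 2)⟩
  · intro η hη hc hs
    obtain ⟨ℓ, hℓ⟩ := ell s0 hη hc hs
    exact int_congr_ell hℓ hH.h_hol
  · intro τ hτ χ hχ hc hs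
    exact weq_sq _ (fun V hV => hh_weq hSG hw hτ hV) s0 hχ hc hs

theorem y_test {η : ℝ × ℝ → ℂ} (hη : ContDiff ℝ (⊤ : ℕ∞) η) (hc : HasCompactSupport η)
    (hs : tsupport η ⊆ unitSq) :
    ContDiff ℝ (⊤ : ℕ∞) (fun p : ℝ × ℝ => (p.2 : ℂ) * η p) ∧
      HasCompactSupport (fun p : ℝ × ℝ => (p.2 : ℂ) * η p) ∧
      tsupport (fun p : ℝ × ℝ => (p.2 : ℂ) * η p) ⊆ unitSq := by
  refine ⟨?_, hc.mul_left, (closure_mono (Function.support_mul_subset_right _ _)).trans hs⟩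
  exact (Complex.ofRealCLM.contDiff.comp contDiff_snd).mul hη

theorem y_fderiv {η : ℝ × ℝ → ℂ} (hη : ContDiff ℝ (⊤ : ℕ∞) η) (p v : ℝ × ℝ) :
    fderiv ℝ (fun p : ℝ × ℝ => (p.2 : ℂ) * η p) p v = (p.2 : ℂ) * fderiv ℝ η p v + (v.2 : ℂ) * η p := by
  have h1 : HasFDerivAt (fun p : ℝ × ℝ => (p.2 : ℂ))
      (Complex.ofRealCLM.comp (ContinuousLinearMap.snd ℝ ℝ ℝ)) p :=
    Complex.ofRealCLM.hasFDerivAt.comp p (ContinuousLinearMap.snd ℝ ℝ ℝ).hasFDerivAt
  have h2 : HasFDerivAt η (fderiv ℝ η p) p := (hη.differentiable (by simp) p).hasFDerivAt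
  have h3 : HasFDerivAt (fun p : ℝ × ℝ => (p.2 : ℂ) * η p) _ p := h1.mul h2
  rw [h3.fderiv]
  simp
  ring

theorem y_memLp {g : ℝ × ℝ → ℂ} (hg : MemLp g 2 (volume.restrict unitSq)) :
    MemLp (fun p : ℝ × ℝ => (p.2 : ℂ) * g p) 2 (volume.restrict unitSq) := by
  refine MemLp.of_le_mul (c := 1) hg ?_ ?_
  · have hc : Continuous (fun p : ℝ × ℝ => (p.2 : ℂ)) := by fun_prop
    exact hc.aestronglyMeasurable.mul hg.1
  · rw [ae_restrict_iff' isOpen_unitSq.measurableSet]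
    refine Eventually.of_forall fun p hp => ?_
    rw [norm_mul, Complex.norm_real]
    refine mul_le_mul_of_nonneg_right ?_ (norm_nonneg _)
    rw [Real.norm_eq_abs, abs_le]
    exact ⟨by linarith [hp.2.1], hp.2.2.le⟩

theorem reg_G (hSG : SG α β) {w : X → ℝ} (hw : InW α β w) (hH : HolW α β w) (s0 : X) :
    ∃ bt : ℂ → ℝ × ℝ → ℂ,
      (∀ τ ∈ HH, ∃ g : ℂ → ℂ, DifferentiableOn ℂ g (zt τ '' unitSq) ∧ ∀ p ∈ unitSq, bt τ p = g (zt τ p)) ∧
      (∀ τ ∈ HH, ∀ᵐ p ∂(volume.restrict unitSq), (GG α β w τ 0 : Sq X → ℂ) (s0, p) -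
        (p.2 : ℂ) * (hh α β w τ : Sq X → ℂ) (s0, p) = bt τ p) ∧
      (∀ p ∈ unitSq, DifferentiableOn ℂ (fun τ => bt τ p) HH) := by
  have hG0 : DifferentiableOn ℂ (fun τ => GG α β w τ 0) HH :=
    ((PiLp.proj 2 (fun _ : Fin 3 => KK X) 0 : K3 X →L[ℂ] KK X).differentiable).comp_differentiableOn hH.G_hol
  have hm : ∀ v v' : KK X, MemLp (fun p : ℝ × ℝ => (v : Sq X → ℂ) (s0, p) - (p.2 : ℂ) * (v' : Sq X → ℂ) (s0, p)) 2
      (volume.restrict unitSq) := fun v v' =>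
    (Z1.slice_memLp (Lp.memLp v) s0).sub (y_memLp (Z1.slice_memLp (Lp.memLp v') s0))
  suffices hX : _ ∧ _ ∧ _ by
    obtain ⟨bt, h1, h2, h3, -⟩ := reg unitSq isOpen_unitSq
      (fun τ p => (GG α β w τ 0 : Sq X → ℂ) (s0, p) - (p.2 : ℂ) * (hh α β w τ : Sq X → ℂ) (s0, p))
      (fun τ _ => hm _ _) hX.1 hX.2.1 hX.2.2
    exact ⟨bt, h1, h2, h3⟩
  refine ⟨?_, ?_, ?_⟩
  · intro K hK hKH
    obtain ⟨C, hC0, hC⟩ := bdd_K hH.h_hol K hK hKH
    obtain ⟨C', hC0', hC'⟩ := bdd_K hG0 K hK hKH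
    refine ⟨2 * C' ^ 2 + 2 * C ^ 2, fun τ hτ => ?_⟩
    have m1 := Z1.slice_memLp (Lp.memLp (GG α β w τ 0)) s0
    have m2 := Z1.slice_memLp (Lp.memLp (hh α β w τ)) s0
    have i1 : Integrable (fun p => ‖(GG α β w τ 0 : Sq X → ℂ) (s0, p)‖ ^ 2) (volume.restrict unitSq) :=
      m1.integrable_norm_pow (by norm_num)
    have i2 : Integrable (fun p => ‖(hh α β w τ : Sq X → ℂ) (s0, p)‖ ^ 2) (volume.restrict unitSq) :=
      m2.integrable_norm_pow (by norm_num)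
    have i3 := (hm (GG α β w τ 0) (hh α β w τ)).integrable_norm_pow (by norm_num : (2:ℕ) ≠ 0)
    calc _ ≤ ∫ p in unitSq, (2 * ‖(GG α β w τ 0 : Sq X → ℂ) (s0, p)‖ ^ 2 +
          2 * ‖(hh α β w τ : Sq X → ℂ) (s0, p)‖ ^ 2) := by
          refine integral_mono_ae i3 ((i1.const_mul 2).add (i2.const_mul 2)) ?_
          filter_upwards [ae_restrict_mem isOpen_unitSq.measurableSet] with p hp
          have h5 : ‖(GG α β w τ 0 : Sq X → ℂ) (s0, p) - (p.2 : ℂ) * (hh α β w τ : Sq X → ℂ) (s0, p)‖ ≤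
              ‖(GG α β w τ 0 : Sq X → ℂ) (s0, p)‖ + ‖(hh α β w τ : Sq X → ℂ) (s0, p)‖ := by
            refine (norm_sub_le _ _).trans ?_
            refine add_le_add le_rfl ?_
            rw [norm_mul, Complex.norm_real]
            have h6 : ‖p.2‖ ≤ 1 := by
              rw [Real.norm_eq_abs, abs_le]
              exact ⟨by linarith [hp.2.1], hp.2.2.le⟩
            calc _ ≤ 1 * ‖(hh α β w τ : Sq X → ℂ) (s0, p)‖ := mul_le_mul_of_nonneg_right h6 (norm_nonneg _)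
              _ = _ := one_mul _
          have h7 := pow_le_pow_left₀ (norm_nonneg _) h5 2
          refine h7.trans ?_
          nlinarith [sq_nonneg (‖(GG α β w τ 0 : Sq X → ℂ) (s0, p)‖ - ‖(hh α β w τ : Sq X → ℂ) (s0, p)‖)]
      _ = (2 * ∫ p in unitSq, ‖(GG α β w τ 0 : Sq X → ℂ) (s0, p)‖ ^ 2) +
          (2 * ∫ p in unitSq, ‖(hh α β w τ : Sq X → ℂ) (s0, p)‖ ^ 2) := by
          rw [integral_add (i1.const_mul 2) (i2.const_mul 2), integral_const_mul, integral_const_mul]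
      _ ≤ _ := by
          have h8 := (slice_norm (GG α β w τ 0) s0).trans (pow_le_pow_left₀ (norm_nonneg _) (hC' τ hτ) 2)
          have h9 := (slice_norm (hh α β w τ) s0).trans (pow_le_pow_left₀ (norm_nonneg _) (hC τ hτ) 2)
          linarith
  · intro η hη hc hs
    obtain ⟨ℓ, hℓ⟩ := ell s0 hη hc hs
    obtain ⟨y1, y2, y3⟩ := y_test hη hc hs
    obtain ⟨ℓ', hℓ'⟩ := ell s0 y1 y2 y3
    refine ((int_congr_ell hℓ hG0).sub (int_congr_ell hℓ' hH.h_hol)).congr fun τ hτ => ?_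
    have i1 := int_test (Z1.slice_memLp (Lp.memLp (GG α β w τ 0)) s0) hη.continuous hc hs
    have i2 := int_test (Z1.slice_memLp (Lp.memLp (hh α β w τ)) s0) y1.continuous y2 y3
    rw [Pi.sub_apply, ← integral_sub i1 i2]
    congr 1
    funext p
    ring
  · intro τ hτ χ hχ hc hs
    obtain ⟨y1, y2, y3⟩ := y_test hχ hc hs
    have w1 := weq_sq (hh α β w τ) (fun V hV => hh_weq hSG hw hτ hV) s0 y1 y2 y3
    obtain ⟨b1, b2⟩ := ibp_sq (hH.G_mem τ hτ) s0 hχ hc hs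
    rw [hH.G_1 τ hτ] at b1
    rw [hH.G_2 τ hτ] at b2
    have mG := Z1.slice_memLp (Lp.memLp (GG α β w τ 0)) s0
    have mh := Z1.slice_memLp (Lp.memLp (hh α β w τ)) s0
    have md := Z1.slice_memLp (Lp.memLp (deriv (hh α β w) τ)) s0
    obtain ⟨a1, a2, a3⟩ := fd_test hχ hc hs (1, 0)
    obtain ⟨c1, c2, c3⟩ := fd_test hχ hc hs (0, 1)
    -- second component
    have e2 : ∫ p, ((hh α β w τ + τ • deriv (hh α β w) τ : KK X) : Sq X → ℂ) (s0, p) * χ p =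
        (∫ p, (hh α β w τ : Sq X → ℂ) (s0, p) * χ p) +
          τ * ∫ p, ((deriv (hh α β w) τ : KK X) : Sq X → ℂ) (s0, p) * χ p := by
      obtain ⟨ℓ, hℓ⟩ := ell (X := X) s0 hχ hc hs
      rw [← hℓ, ← hℓ, ← hℓ, map_add, map_smul, smul_eq_mul]
    rw [e2] at b2
    have i1 := int_test mG a1 a2 a3
    have i2 := int_test mG c1 c2 c3
    have i3 := int_test mh hχ.continuous hc hs
    obtain ⟨z1, z2, z3⟩ := fd_test y1 y2 y3 (1, 0)
    obtain ⟨z1', z2', z3'⟩ := fd_test y1 y2 y3 (0, 1)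
    have i4 := int_test mh z1 z2 z3
    have i5 := int_test mh z1' z2' z3'
    -- the weak equation for `y h`
    have e3 : (fun p : ℝ × ℝ => ((GG α β w τ 0 : Sq X → ℂ) (s0, p) - (p.2 : ℂ) * (hh α β w τ : Sq X → ℂ) (s0, p)) *
        (τ * fderiv ℝ χ p (1, 0) - fderiv ℝ χ p (0, 1))) =
        fun p => (τ * ((GG α β w τ 0 : Sq X → ℂ) (s0, p) * fderiv ℝ χ p (1, 0)) -
          (GG α β w τ 0 : Sq X → ℂ) (s0, p) * fderiv ℝ χ p (0, 1)) -
          ((hh α β w τ : Sq X → ℂ) (s0, p) * (τ * fderiv ℝ (fun p : ℝ × ℝ => (p.2 : ℂ) * χ p) p (1, 0) -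
            fderiv ℝ (fun p : ℝ × ℝ => (p.2 : ℂ) * χ p) p (0, 1)) +
            (hh α β w τ : Sq X → ℂ) (s0, p) * χ p) := by
      funext p
      rw [y_fderiv hχ, y_fderiv hχ]
      push_cast
      ring
    have i6 : Integrable (fun p => (hh α β w τ : Sq X → ℂ) (s0, p) *
        (τ * fderiv ℝ (fun p : ℝ × ℝ => (p.2 : ℂ) * χ p) p (1, 0) -
            fderiv ℝ (fun p : ℝ × ℝ => (p.2 : ℂ) * χ p) p (0, 1))) := by
      have := (i4.const_mul τ).sub i5
      refine this.congr (Eventually.of_forall fun p => ?_)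
      simp only [Pi.sub_apply]
      ring
    have j1 : Integrable (fun p : ℝ × ℝ => τ * ((GG α β w τ 0 : Sq X → ℂ) (s0, p) * fderiv ℝ χ p (1, 0)) -
          (GG α β w τ 0 : Sq X → ℂ) (s0, p) * fderiv ℝ χ p (0, 1)) := (i1.const_mul τ).sub i2
    have j2 : Integrable (fun p : ℝ × ℝ => (hh α β w τ : Sq X → ℂ) (s0, p) *
        (τ * fderiv ℝ (fun p : ℝ × ℝ => (p.2 : ℂ) * χ p) p (1, 0) -
            fderiv ℝ (fun p : ℝ × ℝ => (p.2 : ℂ) * χ p) p (0, 1)) +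
            (hh α β w τ : Sq X → ℂ) (s0, p) * χ p) := i6.add i3
    rw [e3, integral_sub j1 j2, integral_sub (i1.const_mul τ) i2,
      integral_add i6 i3, integral_const_mul, w1, b1, b2]
    ring

/-- integration by parts against a test function -/
theorem ibp_plane {u ux : ℝ × ℝ → ℂ} {u' : ℝ × ℝ → (ℝ × ℝ →L[ℝ] ℂ)}
    (hu : ∀ q ∈ unitSq, HasFDerivAt u (u' q) q) (hux : ∀ q ∈ unitSq, u' q (1, 0) = ux q)
    (hc : ContinuousOn ux unitSq) {ρ : ℝ × ℝ → ℂ} (hρ : ContDiff ℝ (⊤ : ℕ∞) ρ) (hρc : HasCompactSupport ρ)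
    (hs : tsupport ρ ⊆ unitSq) :
    ∫ q, u q * fderiv ℝ ρ q (1, 0) = - ∫ q, ux q * ρ q := by
  have huc : ContinuousOn u unitSq := fun q hq => (hu q hq).continuousAt.continuousWithinAt
  have key : ∀ (a b : ℝ × ℝ → ℂ), ContinuousOn a unitSq → Continuous b → tsupport b ⊆ tsupport ρ →
      Integrable (fun q => a q * b q) := by
    intro a b ha hb hb2
    have h1 : IntegrableOn (fun q => a q * b q) (tsupport ρ) :=
      ((ha.mono hs).mul hb.continuousOn).integrableOn_compact hρc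
    rwa [integrableOn_iff_integrable_of_support_subset] at h1
    intro q hq
    apply hb2
    apply subset_tsupport
    intro h0
    apply hq
    show a q * b q = 0
    rw [h0, mul_zero]
  have hd : Continuous (fun q => fderiv ℝ ρ q (1, 0)) :=
    (hρ.continuous_fderiv (by simp)).clm_apply continuous_const
  have := integral_bilinear_hasLineDerivAt_right_eq_neg_left_of_integrable (μ := (volume : Measure (ℝ × ℝ)))
    (f := u) (f' := ux) (g := ρ) (g' := fun q => fderiv ℝ ρ q (1, 0)) (v := ((1, 0) : ℝ × ℝ))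
    (B := ContinuousLinearMap.mul ℝ ℂ)
    (key ux ρ hc hρ.continuous subset_rfl) (key u _ huc hd (tsupport_fderiv_apply_subset ℝ _))
    (key u ρ huc hρ.continuous subset_rfl)
    (fun q hq => by
      have h1 := (hu q (hs hq)).hasLineDerivAt (1, 0)
      rwa [hux q (hs hq)] at h1)
    (fun q _ => (hρ.differentiable (by simp) q).hasFDerivAt.hasLineDerivAt (1, 0))
  exact this

theorem exists_rho13 (p : ℝ × ℝ) : ∃ ρ : ℕ → ℝ × ℝ → ℂ,
    ∀ n, ContDiff ℝ (⊤ : ℕ∞) (ρ n) ∧ tsupport (ρ n) ⊆ Metric.closedBall p (1 / (n + 1)) ∧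
          ∫ q, ρ n q = 1 ∧ ∫ q, ‖ρ n q‖ = 1 := by
  have hpos : ∀ n : ℕ, (0:ℝ) < 1 / (n + 1) := fun n => by positivity
  let φ : ∀ n : ℕ, ContDiffBump p := fun n =>
    ⟨1 / (n + 1) / 2, 1 / (n + 1), by have := hpos n; positivity, by have := hpos n; linarith⟩
  refine ⟨fun n q => (((φ n).normed volume q : ℝ) : ℂ), fun n => ⟨?_, ?_, ?_, ?_⟩⟩
  · exact Complex.ofRealCLM.contDiff.comp (φ n).contDiff_normed
  · have h1 : tsupport (fun q => (((φ n).normed volume q : ℝ) : ℂ)) ⊆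
        tsupport ((φ n).normed (volume : Measure (ℝ × ℝ))) := by
      apply closure_mono
      intro q hq hq2
      apply hq
      show (((φ n).normed volume q : ℝ) : ℂ) = 0
      rw [hq2]; simp
    refine h1.trans ?_
    rw [(φ n).tsupport_normed_eq]
  · rw [integral_complex_ofReal, (φ n).integral_normed]; simp
  · have : (fun q => ‖(((φ n).normed volume q : ℝ) : ℂ)‖) = fun q => (φ n).normed volume q := by
      funext q
      rw [Complex.norm_real, Real.norm_of_nonneg ((φ n).nonneg_normed q)]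
    rw [this, (φ n).integral_normed]

/-- averages converge -/
theorem avg_tendsto {g : ℝ × ℝ → ℂ} {p : ℝ × ℝ} (hg : ContinuousOn g unitSq) (hp : p ∈ unitSq)
    {ρ : ℕ → ℝ × ℝ → ℂ}
    (hρ : ∀ n, ContDiff ℝ (⊤ : ℕ∞) (ρ n) ∧ tsupport (ρ n) ⊆ Metric.closedBall p (1 / (n + 1)) ∧
          ∫ q, ρ n q = 1 ∧ ∫ q, ‖ρ n q‖ = 1) :
    Tendsto (fun n => ∫ q, g q * ρ n q) atTop (𝓝 (g p)) := by
  have hlim : Tendsto (fun n : ℕ => (1 : ℝ) / (n + 1)) atTop (𝓝 0) := tendsto_one_div_add_atTop_nhds_zero_nat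
  obtain ⟨R, hR, hRΩ⟩ := Metric.isOpen_iff.1 isOpen_unitSq p hp
  rw [Metric.tendsto_atTop']
  intro ε hε
  have hcp : ContinuousAt g p := hg.continuousAt (isOpen_unitSq.mem_nhds hp)
  obtain ⟨δ, hδ, hδε⟩ := Metric.continuousAt_iff.1 hcp (ε / 2) (by positivity)
  have h1 := hlim.eventually (gt_mem_nhds (lt_min hR hδ))
  obtain ⟨N, hN⟩ := eventually_atTop.1 h1
  refine ⟨N, fun n hn => ?_⟩
  have hn' := hN n hn.le
  have hsub : tsupport (ρ n) ⊆ Metric.ball p (min R δ) := fun q hq =>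
    lt_of_le_of_lt ((hρ n).2.1 hq) hn'
  have hcs : HasCompactSupport (ρ n) := HasCompactSupport.of_support_subset_isCompact
    (isCompact_closedBall p (1 / (n + 1))) ((subset_tsupport _).trans (hρ n).2.1)
  have hri : Integrable (ρ n) := (hρ n).1.continuous.integrable_of_hasCompactSupport hcs
  have hΩ : tsupport (ρ n) ⊆ unitSq := hsub.trans ((Metric.ball_subset_ball (min_le_left _ _)).trans hRΩ)
  have hgi : Integrable (fun q => g q * ρ n q) := by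
    have h1 : IntegrableOn (fun q => g q * ρ n q) (tsupport (ρ n)) :=
      ((hg.mono hΩ).mul (hρ n).1.continuous.continuousOn).integrableOn_compact hcs
    rwa [integrableOn_iff_integrable_of_support_subset] at h1
    intro q hq
    apply subset_tsupport
    intro h0
    apply hq
    show g q * ρ n q = 0
    rw [h0, mul_zero]
  rw [dist_eq_norm]
  have e1 : (∫ q, g q * ρ n q) - g p = ∫ q, (g q * ρ n q - g p * ρ n q) := by
    rw [integral_sub hgi (hri.const_mul _), integral_const_mul, (hρ n).2.2.1, mul_one]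
  rw [e1]
  have hb : ∀ᵐ q ∂(volume : Measure (ℝ × ℝ)), ‖g q * ρ n q - g p * ρ n q‖ ≤ ε / 2 * ‖ρ n q‖ := by
    refine Eventually.of_forall fun q => ?_
    by_cases hq : ρ n q = 0
    · rw [hq]; simp
    · have h2 := hsub (subset_tsupport _ hq)
      have h3 : dist q p < δ := lt_of_lt_of_le h2 (min_le_right _ _)
      have h4 := hδε h3
      rw [dist_eq_norm] at h4
      rw [← sub_mul, norm_mul]
      exact mul_le_mul_of_nonneg_right h4.le (norm_nonneg _)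
  refine lt_of_le_of_lt (norm_integral_le_of_norm_le (hri.norm.const_mul _) hb) ?_
  rw [integral_const_mul, (hρ n).2.2.2, mul_one]
  linarith

end L13

open L13

variable {X : Type} [Countable X] [MeasurableSpace X] [DiscreteMeasurableSpace X] {α β : Equiv.Perm X}

namespace L13

omit [Countable X] [DiscreteMeasurableSpace X] in
theorem pv_of {v : Sq X → ℂ} {s0 : X} {g : ℝ × ℝ → ℂ}
    (h : ∀ᵐ p ∂(volume.restrict unitSq), v (s0, p) = g p) (hg : ContinuousOn g unitSq) :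
    ∀ p ∈ unitSq, pv α β v s0 p = g p := by
  intro p hp
  refine pv_eq isOpen_unitSq ?_ hg hp
  filter_upwards [h, ae_restrict_mem isOpen_unitSq.measurableSet] with q hq hq2
  rw [ext_sq _ _ hq2, hq]

theorem cont_of {τ : ℂ} {ft : ℝ × ℝ → ℂ} {g : ℂ → ℂ} (hg : DifferentiableOn ℂ g (zt τ '' unitSq))
    (h : ∀ p ∈ unitSq, ft p = g (zt τ p)) : ContinuousOn ft unitSq := by
  have h1 : ContinuousOn (fun p => g (zt τ p)) unitSq :=
    hg.continuousOn.comp (by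
      have : Continuous (zt τ) := by unfold zt; fun_prop
      exact this.continuousOn) (fun p hp => Set.mem_image_of_mem _ hp)
  exact h1.congr h

theorem deriv_of {τ : ℂ} (hτ : τ ∈ HH) {g : ℂ → ℂ} (hg : DifferentiableOn ℂ g (zt τ '' unitSq)) :
    (∀ p ∈ unitSq, HasFDerivAt (fun q => g (zt τ q)) (deriv g (zt τ p) • ztL τ) p) ∧
      ContinuousOn (fun p => deriv g (zt τ p)) unitSq := by
  have ho : IsOpen (zt τ '' unitSq) := by
    rw [image_zt hτ]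
    exact isOpen_zinv τ isOpen_unitSq
  constructor
  · intro p hp
    have h1 : HasDerivAt g (deriv g (zt τ p)) (zt τ p) :=
      (hg.differentiableAt (ho.mem_nhds (Set.mem_image_of_mem _ hp))).hasDerivAt
    exact h1.comp_hasFDerivAt p (hasFDerivAt_zt τ p)
  · have h2 : ContinuousOn (deriv g) (zt τ '' unitSq) := (hg.deriv ho).continuousOn
    exact h2.comp (by
      have : Continuous (zt τ) := by unfold zt; fun_prop
      exact this.continuousOn) (fun p hp => Set.mem_image_of_mem _ hp)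

end L13

theorem h_point (hSG : SG α β) {w : X → ℝ} (hw : InW α β w) (hH : HolW α β w) (s0 : X) :
    ∀ p ∈ unitSq, DifferentiableOn ℂ (fun τ => pv α β (hh α β w τ : Sq X → ℂ) s0 p) HH := by
  intro p hp
  obtain ⟨ft, f1, f2, f3, -⟩ := reg_h hSG hw hH s0
  refine (f3 p hp).congr fun τ hτ => ?_
  obtain ⟨g, hg, hfg⟩ := f1 τ hτ
  exact pv_of (f2 τ hτ) (cont_of hg hfg) p hp

theorem G_point (hSG : SG α β) {w : X → ℝ} (hw : InW α β w) (hH : HolW α β w) (s0 : X) :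
    (∀ p ∈ unitSq, DifferentiableOn ℂ (fun τ => pv α β (GG α β w τ 0 : Sq X → ℂ) s0 p) HH) ∧
    (∀ τ ∈ HH, ∀ p ∈ unitSq, HasFDerivAt (pv α β (GG α β w τ 0 : Sq X → ℂ) s0)
      ((deriv (fun σ => pv α β (hh α β w σ : Sq X → ℂ) s0 p) τ) • ztL τ +
        (pv α β (hh α β w τ : Sq X → ℂ) s0 p) •
          Complex.ofRealCLM.comp (ContinuousLinearMap.snd ℝ ℝ ℝ)) p) ∧
    ∀ τ ∈ HH, ∀ᵐ p ∂(volume.restrict unitSq),
      (GG α β w τ 0 : Sq X → ℂ) (s0, p) = pv α β (GG α β w τ 0 : Sq X → ℂ) s0 p := by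
  obtain ⟨ft, f1, f2, f3, f4⟩ := reg_h hSG hw hH s0
  obtain ⟨bt, b1, b2, b3⟩ := reg_G hSG hw hH s0
  have hpvh : ∀ τ ∈ HH, ∀ p ∈ unitSq, pv α β (hh α β w τ : Sq X → ℂ) s0 p = ft τ p := by
    intro τ hτ p hp
    obtain ⟨g, hg, hfg⟩ := f1 τ hτ
    exact pv_of (f2 τ hτ) (cont_of hg hfg) p hp
  have hae : ∀ τ ∈ HH, ∀ᵐ p ∂(volume.restrict unitSq), (GG α β w τ 0 : Sq X → ℂ) (s0, p) =
      bt τ p + (p.2 : ℂ) * ft τ p := by
    intro τ hτ
    filter_upwards [f2 τ hτ, b2 τ hτ] with p h1 h2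
    rw [← h2, ← h1]
    ring
  have hpvG : ∀ τ ∈ HH, ∀ p ∈ unitSq, pv α β (GG α β w τ 0 : Sq X → ℂ) s0 p =
      bt τ p + (p.2 : ℂ) * ft τ p := by
    intro τ hτ p hp
    obtain ⟨g, hg, hfg⟩ := f1 τ hτ
    obtain ⟨g', hg', hfg'⟩ := b1 τ hτ
    refine pv_of (hae τ hτ) ((cont_of hg' hfg').add ?_) p hp
    have : Continuous (fun p : ℝ × ℝ => (p.2 : ℂ)) := by fun_prop
    exact this.continuousOn.mul (cont_of hg hfg)
  refine ⟨?_, ?_, ?_⟩
  · intro p hp
    exact ((b3 p hp).add ((f3 p hp).const_mul (p.2 : ℂ))).congr fun τ hτ => hpvG τ hτ p hp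
  · intro τ hτ p hp
    obtain ⟨g2, hg2, hfg2⟩ := f1 τ hτ
    obtain ⟨g1, hg1, hfg1⟩ := b1 τ hτ
    obtain ⟨d1, c1⟩ := deriv_of hτ hg1
    obtain ⟨d2, c2⟩ := deriv_of hτ hg2
    set y' : ℝ × ℝ →L[ℝ] ℂ := Complex.ofRealCLM.comp (ContinuousLinearMap.snd ℝ ℝ ℝ) with hy'
    have hy : ∀ q : ℝ × ℝ, HasFDerivAt (fun q : ℝ × ℝ => (q.2 : ℂ)) y' q := fun q =>
      Complex.ofRealCLM.hasFDerivAt.comp q (ContinuousLinearMap.snd ℝ ℝ ℝ).hasFDerivAt
    -- the function and its derivative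
    set u : ℝ × ℝ → ℂ := fun q => g1 (zt τ q) + (q.2 : ℂ) * g2 (zt τ q) with hu
    set ux : ℝ × ℝ → ℂ := fun q => deriv g1 (zt τ q) + (q.2 : ℂ) * deriv g2 (zt τ q) with hux
    have hdu : ∀ q ∈ unitSq, HasFDerivAt u (ux q • ztL τ + g2 (zt τ q) • y') q := by
      intro q hq
      have h1 := (d1 q hq).add ((hy q).mul (d2 q hq))
      refine h1.congr_fderiv ?_
      ext v
      · simp [hux]
        ring
      · simp [hux]
        ring
    have hcux : ContinuousOn ux unitSq := by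
      have : Continuous (fun p : ℝ × ℝ => (p.2 : ℂ)) := by fun_prop
      exact c1.add (this.continuousOn.mul c2)
    have hx : ∀ q ∈ unitSq, (ux q • ztL τ + g2 (zt τ q) • y') (1, 0) = ux q := by
      intro q _
      simp [ztL_apply, zt, hy']
    -- mollification
    obtain ⟨ρ, hρ⟩ := exists_rho13 p
    obtain ⟨-, l2⟩ := f4 p hp τ hτ ρ hρ
    have l3 := avg_tendsto hcux hp hρ
    have hev : ∀ᶠ n in atTop, ∫ q, ux q * ρ n q =
        deriv (fun σ => ∫ q, (hh α β w σ : Sq X → ℂ) (s0, q) * ρ n q) τ := by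
      have hlim : Tendsto (fun n : ℕ => (1 : ℝ) / (n + 1)) atTop (𝓝 0) :=
        tendsto_one_div_add_atTop_nhds_zero_nat
      obtain ⟨R, hR, hRΩ⟩ := Metric.isOpen_iff.1 isOpen_unitSq p hp
      filter_upwards [hlim.eventually (gt_mem_nhds hR)] with n hn
      have hsub : tsupport (ρ n) ⊆ unitSq := fun q hq => hRΩ (lt_of_le_of_lt ((hρ n).2.1 hq) hn)
      have hcs : HasCompactSupport (ρ n) := HasCompactSupport.of_support_subset_isCompact
        (isCompact_closedBall p (1 / (n + 1))) ((subset_tsupport _).trans (hρ n).2.1)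
      obtain ⟨ℓ, hℓ⟩ := ell (X := X) s0 (hρ n).1 hcs hsub
      have e1 : (fun σ => ∫ q, (hh α β w σ : Sq X → ℂ) (s0, q) * ρ n q) = fun σ => ℓ (hh α β w σ) := by
        funext σ
        rw [hℓ]
      have e2 : deriv (fun σ => ℓ (hh α β w σ)) τ = ℓ (deriv (hh α β w) τ) := by
        have h1 : HasDerivAt (hh α β w) (deriv (hh α β w) τ) τ :=
          (hH.h_hol.differentiableAt (isOpen_HH13.mem_nhds hτ)).hasDerivAt
        exact (ℓ.hasFDerivAt.comp_hasDerivAt τ h1).deriv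
      rw [e1, e2, hℓ]
      have e3 := ibp_plane hdu hx hcux (hρ n).1 hcs hsub
      have e4 := (ibp_sq (hH.G_mem τ hτ) s0 (hρ n).1 hcs hsub).1
      rw [hH.G_1 τ hτ] at e4
      have e5 : ∫ q, u q * fderiv ℝ (ρ n) q (1, 0) =
          ∫ q, (GG α β w τ 0 : Sq X → ℂ) (s0, q) * fderiv ℝ (ρ n) q (1, 0) := by
        have h0 : ∀ q, q ∉ unitSq → fderiv ℝ (ρ n) q (1, 0) = 0 := by
          intro q hq
          by_contra h
          exact hq ((fd_test (hρ n).1 hcs hsub (1, 0)).2.2 (subset_tsupport _ h))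
        rw [← setIntegral_eq_integral_of_forall_compl_eq_zero (s := unitSq) (fun q hq => by
            rw [h0 q hq, mul_zero]),
          ← setIntegral_eq_integral_of_forall_compl_eq_zero (s := unitSq)
            (f := fun q => (GG α β w τ 0 : Sq X → ℂ) (s0, q) * fderiv ℝ (ρ n) q (1, 0)) (fun q hq => by
            rw [h0 q hq, mul_zero])]
        refine integral_congr_ae ?_
        filter_upwards [hae τ hτ, ae_restrict_mem isOpen_unitSq.measurableSet] with q hq hq2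
        rw [hq, hfg1 q hq2, hfg2 q hq2]
      rw [← neg_inj, ← e3, e5, e4]
    have hD : ux p = deriv (fun σ => ft σ p) τ :=
      tendsto_nhds_unique (l3.congr' hev) l2
    have hD2 : deriv (fun σ => pv α β (hh α β w σ : Sq X → ℂ) s0 p) τ = ux p := by
      rw [hD]
      apply Filter.EventuallyEq.deriv_eq
      filter_upwards [isOpen_HH13.mem_nhds hτ] with σ hσ
      exact hpvh σ hσ p hp
    rw [hD2, hpvh τ hτ p hp, hfg2 p hp]
    refine (hdu p hp).congr_of_eventuallyEq ?_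
    filter_upwards [isOpen_unitSq.mem_nhds hp] with q hq
    rw [hpvG τ hτ q hq, hfg1 q hq, hfg2 q hq]
  · intro τ hτ
    filter_upwards [hae τ hτ, ae_restrict_mem isOpen_unitSq.measurableSet] with p h1 h2
    rw [h1, hpvG τ hτ p h2]

end Pool.Agent.Helper96.OF
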