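import Pool.Agent.Helper42.OF.L13
import Pool.Agent.Helper42.OF.L08

/-!
# OFL-L14: decay of h and ∂_τ h at the corner; the corner value g(τ) of G = ∂_τ F

`h_decay`: L08 decay for h = pv (hh τ) (holC_hh, slices of hh τ ∈ L²), starE ≤ 4k ‖hh τ‖² (L01b starE_le, starE_congr), bounded on K (h_hol). `dh_decay`: K' = closed thickening of K of radius η inside HH (`IsCompact.exists_cthickening_subset_open`), Cauchy estimate
(`Complex.norm_deriv_le_of_forall_mem_sphere_norm_le`) for τ ↦ pv (hh τ) s0 p (L13 h_point) on the disc of radius η: ‖∂_τ h‖ ≤ sup_{K'}/η.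
`exists_g`: by L13 G_point the gradient of Gt = pv (GG τ 0) s0 on (0,ρ)² is ≤ C (max x y)^(δ-1), δ = 1/k, uniformly for τ ∈ K. Diagonal: φ(r) = Gt (r,r), ‖φ'(r)‖ ≤ C r^(δ-1), so ‖φ r - φ r'‖ ≤ (C/δ) |r^δ - r'^δ| (e.g. `image_norm_le_of_norm_deriv_right_le_deriv_boundary`, or
the mean value inequality), Cauchy as r → 0+: limit g τ, ‖φ r - g τ‖ ≤ (C/δ) r^δ. (x,y), m = max x y: the horizontal or vertical segment from (x,y) to (m,m) has length ≤ m and max = m along it: ‖Gt (x,y) - Gt (m,m)‖ ≤ C m^δ. g is independent of K. Continuity of g: locally uniform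
limit of τ ↦ Gt τ (r,r), which is holomorphic (so g is holomorphic).
-/

set_option autoImplicit false

open MeasureTheory Filter Topology
open scoped ComplexConjugate

namespace Pool.Agent.Helper96.OF

variable {X : Type} [Countable X] [MeasurableSpace X] [DiscreteMeasurableSpace X] {α β : Equiv.Perm X}

private theorem isOpen_HH : IsOpen HH := isOpen_lt continuous_const Complex.continuous_im

private theorem norm_KK_sq (v : KK X) : ∫ q, ‖(v : Sq X → ℂ) q‖ ^ 2 ∂(mu X) = ‖v‖ ^ 2 := by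
  have h : cls (v : Sq X → ℂ) = v := by
    unfold cls
    rw [dif_pos (Lp.memLp v)]
    exact Lp.toLp_coeFn v _
  rw [← cls_norm (Lp.memLp v), h]

private theorem pv_slices (hSG : SG α β) {w : X → ℝ} (hw : InW α β w) {τ : ℂ} (hτ : τ ∈ HH) (s : X) :
    IntegrableOn (fun p => ‖pv α β (hh α β w τ : Sq X → ℂ) s p‖ ^ 2) unitSq := by
  have h1 := (slice_int (Lp.memLp (hh α β w τ)) s).2
  refine h1.congr ?_
  filter_upwards [(holC_hh hSG hw hτ).2 s] with p hp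
  rw [hp]

private theorem star_bd (hSG : SG α β) {w : X → ℝ} (hw : InW α β w) {τ : ℂ} (hτ : τ ∈ HH) (s0 : X)
    (k : ℕ) :
    starE α β s0 k (fl (pv α β (hh α β w τ : Sq X → ℂ))) ≤ 4 * k * ‖hh α β w τ‖ ^ 2 := by
  have h1 : (hh α β w τ : Sq X → ℂ) =ᵐ[mu X] fl (pv α β (hh α β w τ : Sq X → ℂ)) := by
    refine (ae_mu_iff (X := X) (fun q => (hh α β w τ : Sq X → ℂ) q =
      fl (pv α β (hh α β w τ : Sq X → ℂ)) q)).2 ?_
    intro s
    exact (holC_hh hSG hw hτ).2 s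
  rw [← starE_congr h1]
  refine (starE_le (Lp.memLp (hh α β w τ)) s0 k).2.trans ?_
  rw [norm_KK_sq]

private theorem decay_K (hSG : SG α β) {w : X → ℝ} (hw : InW α β w) (hH : HolW α β w) {k : ℕ}
    (hk : 0 < k) {s0 : X} (hs : (zeta α β ^ k) s0 = s0) (K : Set ℂ) (hK : IsCompact K)
    (hKH : K ⊆ HH) :
    ∃ C ρ : ℝ, 0 < C ∧ 0 < ρ ∧ ρ ≤ 1 / 3 ∧ ∀ τ ∈ K, ∀ x y : ℝ, 0 < x → x < ρ → 0 < y → y < ρ →
      ‖pv α β (hh α β w τ : Sq X → ℂ) s0 (x, y)‖ ≤ C * (max x y) ^ (1 / (k : ℝ) - 1) := by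
  obtain ⟨C, ρ, hC, hρ, hρ3, hdec⟩ := decay (X := X) α β K hK hKH k hk
  have hcont : ContinuousOn (hh α β w) K := hH.h_hol.continuousOn.mono hKH
  obtain ⟨B, hB⟩ := hK.exists_bound_of_continuousOn hcont
  refine ⟨C * Real.sqrt (4 * k * (|B| + 1) ^ 2), ρ, ?_, hρ, hρ3, ?_⟩
  · have : (0:ℝ) < k := by exact_mod_cast hk
    have h2 : 0 < |B| + 1 := by positivity
    positivity
  · intro τ hτ x y hx hxρ hy hyρ
    have hτH := hKH hτ
    have h1 := hdec τ hτ s0 hs _ (holC_hh hSG hw hτH).1 (pv_slices hSG hw hτH) x y hx hxρ hy hyρ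
    refine h1.trans ?_
    have hm : 0 ≤ (max x y) ^ (1 / (k : ℝ) - 1) := Real.rpow_nonneg (le_max_of_le_left hx.le) _
    refine mul_le_mul_of_nonneg_right ?_ hm
    refine mul_le_mul_of_nonneg_left ?_ hC.le
    apply Real.sqrt_le_sqrt
    refine (star_bd hSG hw hτH s0 k).trans ?_
    have h3 : ‖hh α β w τ‖ ≤ |B| + 1 := (hB τ hτ).trans (by linarith [le_abs_self B])
    have h4 : (0:ℝ) ≤ 4 * k := by positivity
    exact mul_le_mul_of_nonneg_left (pow_le_pow_left₀ (norm_nonneg _) h3 2) h4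

theorem h_decay (hSG : SG α β) {w : X → ℝ} (hw : InW α β w) (hH : HolW α β w) {k : ℕ}
    (hk : 0 < k) {s0 : X} (hs : (zeta α β ^ k) s0 = s0) (K : Set ℂ) (hK : IsCompact K)
    (hKH : K ⊆ HH) :
    ∃ C ρ : ℝ, 0 < C ∧ 0 < ρ ∧ ρ ≤ 1 / 3 ∧ ∀ τ ∈ K, ∀ x y : ℝ, 0 < x → x < ρ → 0 < y → y < ρ →
      ‖pv α β (hh α β w τ : Sq X → ℂ) s0 (x, y)‖ ≤ C * (max x y) ^ (1 / (k : ℝ) - 1) ∧
      ‖deriv (fun σ => pv α β (hh α β w σ : Sq X → ℂ) s0 (x, y)) τ‖ ≤
        C * (max x y) ^ (1 / (k : ℝ) - 1) := by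
  obtain ⟨η, hη, hηH⟩ := hK.exists_cthickening_subset_open isOpen_HH hKH
  have hK' : IsCompact (Metric.cthickening η K) := hK.cthickening
  obtain ⟨C, ρ, hC, hρ, hρ3, hdec⟩ := decay_K hSG hw hH hk hs _ hK' hηH
  refine ⟨C + C / η, ρ, by positivity, hρ, hρ3, ?_⟩
  intro τ hτ x y hx hxρ hy hyρ
  have hm : 0 ≤ (max x y) ^ (1 / (k : ℝ) - 1) := Real.rpow_nonneg (le_max_of_le_left hx.le) _
  have hτ' : τ ∈ Metric.cthickening η K := Metric.self_subset_cthickening K hτ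
  have hsub : Metric.closedBall τ η ⊆ Metric.cthickening η K :=
    Metric.closedBall_subset_cthickening hτ η
  have h0 : 0 ≤ C / η := by positivity
  constructor
  · refine (hdec τ hτ' x y hx hxρ hy hyρ).trans ?_
    exact mul_le_mul_of_nonneg_right (by linarith) hm
  · have hp : (x, y) ∈ unitSq := by
      refine ⟨⟨hx, ?_⟩, ⟨hy, ?_⟩⟩
      · show x < 1
        linarith
      · show y < 1
        linarith
    have hd : DifferentiableOn ℂ (fun σ => pv α β (hh α β w σ : Sq X → ℂ) s0 (x, y)) HH :=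
      h_point hSG hw hH s0 (x, y) hp
    have hd2 : DiffContOnCl ℂ (fun σ => pv α β (hh α β w σ : Sq X → ℂ) s0 (x, y))
        (Metric.ball τ η) := by
      apply DifferentiableOn.diffContOnCl
      refine hd.mono ?_
      exact (Metric.closure_ball_subset_closedBall).trans (hsub.trans hηH)
    have h5 := Complex.norm_deriv_le_of_forall_mem_sphere_norm_le hη hd2
      (C := C * (max x y) ^ (1 / (k : ℝ) - 1)) (by
        intro z hz
        exact hdec z (hsub (Metric.sphere_subset_closedBall hz)) x y hx hxρ hy hyρ)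
    refine h5.trans ?_
    rw [mul_div_right_comm]
    exact mul_le_mul_of_nonneg_right (by linarith) hm

private theorem norm_ztL_le (τ : ℂ) : ‖ztL τ‖ ≤ 1 + ‖τ‖ := by
  apply ContinuousLinearMap.opNorm_le_bound _ (by positivity)
  intro p
  rw [ztL_apply]
  exact norm_zt_le τ p

private theorem norm_snd_le' : ‖Complex.ofRealCLM.comp (ContinuousLinearMap.snd ℝ ℝ ℝ)‖ ≤ 1 := by
  apply ContinuousLinearMap.opNorm_le_bound _ (by norm_num)
  intro p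
  show ‖((p.2 : ℝ) : ℂ)‖ ≤ 1 * ‖p‖
  rw [Complex.norm_real, one_mul]
  exact norm_snd_le p

/-- gradient bound for `G` -/
private theorem grad_bd (hSG : SG α β) {w : X → ℝ} (hw : InW α β w) (hH : HolW α β w) {k : ℕ}
    (hk : 0 < k) {s0 : X} (hs : (zeta α β ^ k) s0 = s0) (K : Set ℂ) (hK : IsCompact K)
    (hKH : K ⊆ HH) :
    ∃ C ρ : ℝ, 0 < C ∧ 0 < ρ ∧ ρ ≤ 1 / 3 ∧ ∀ τ ∈ K, ∀ x y : ℝ, 0 < x → x < ρ → 0 < y → y < ρ →
      ∃ L : ℝ × ℝ →L[ℝ] ℂ, HasFDerivAt (pv α β (GG α β w τ 0 : Sq X → ℂ) s0) L (x, y) ∧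
        ‖L‖ ≤ C * (max x y) ^ (1 / (k : ℝ) - 1) := by
  obtain ⟨C, ρ, hC, hρ, hρ3, hdec⟩ := h_decay hSG hw hH hk hs K hK hKH
  obtain ⟨B, hB⟩ := hK.isBounded.exists_norm_le
  refine ⟨C * (1 + (1 + |B|)), ρ, by positivity, hρ, hρ3, ?_⟩
  intro τ hτ x y hx hxρ hy hyρ
  have hp : (x, y) ∈ unitSq := by
    refine ⟨⟨hx, ?_⟩, ⟨hy, ?_⟩⟩
    · show x < 1
      linarith
    · show y < 1
      linarith
  refine ⟨_, (G_point hSG hw hH s0).2.1 τ (hKH hτ) (x, y) hp, ?_⟩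
  obtain ⟨h1, h2⟩ := hdec τ hτ x y hx hxρ hy hyρ
  have hm : 0 ≤ (max x y) ^ (1 / (k : ℝ) - 1) := Real.rpow_nonneg (le_max_of_le_left hx.le) _
  have h3 : ‖τ‖ ≤ |B| := (hB τ hτ).trans (le_abs_self B)
  refine (norm_add_le _ _).trans ?_
  have e1 : ‖(deriv (fun σ => pv α β (hh α β w σ : Sq X → ℂ) s0 (x, y)) τ) • ztL τ‖ ≤
      (C * (max x y) ^ (1 / (k : ℝ) - 1)) * (1 + |B|) := by
    refine (ContinuousLinearMap.opNorm_smul_le _ _).trans ?_
    exact mul_le_mul h2 ((norm_ztL_le τ).trans (by linarith)) (norm_nonneg _) (by positivity)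
  have e2 : ‖(pv α β (hh α β w τ : Sq X → ℂ) s0 (x, y)) •
      Complex.ofRealCLM.comp (ContinuousLinearMap.snd ℝ ℝ ℝ)‖ ≤
      (C * (max x y) ^ (1 / (k : ℝ) - 1)) * 1 := by
    refine (ContinuousLinearMap.opNorm_smul_le _ _).trans ?_
    exact mul_le_mul h1 norm_snd_le' (norm_nonneg _) (by positivity)
  refine (add_le_add e1 e2).trans ?_
  apply le_of_eq
  ring

/-- functions with a singular gradient bound at the corner -/
private theorem corner_lim {f : ℝ × ℝ → ℂ} {C ρ δ : ℝ} (hC : 0 < C) (hρ : 0 < ρ) (hδ : 0 < δ)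
    (hδ1 : δ ≤ 1)
    (hf : ∀ x y : ℝ, 0 < x → x < ρ → 0 < y → y < ρ →
      ∃ L : ℝ × ℝ →L[ℝ] ℂ, HasFDerivAt f L (x, y) ∧ ‖L‖ ≤ C * (max x y) ^ (δ - 1)) :
    ∃ A : ℂ, Tendsto (fun r : ℝ => f (r, r)) (𝓝[>] 0) (𝓝 A) ∧
      ∀ x y : ℝ, 0 < x → x < ρ → 0 < y → y < ρ → ‖f (x, y) - A‖ ≤ (C + C / δ) * (max x y) ^ δ := by
  classical
  have hdiag : ∀ a b : ℝ, 0 < a → a ≤ b → b < ρ → ‖f (b, b) - f (a, a)‖ ≤ C / δ * b ^ δ := by
    intro a b ha hab hb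
    choose! L hL hLn using fun (r : ℝ) (hr : 0 < r ∧ r < ρ) => hf r r hr.1 hr.2 hr.1 hr.2
    have hder : ∀ r : ℝ, 0 < r → r < ρ → HasDerivAt (fun r : ℝ => f (r, r)) (L r (1, 1)) r := by
      intro r h1 h2
      have h3 : HasDerivAt (fun r : ℝ => (r, r)) ((1 : ℝ), (1 : ℝ)) r :=
        (hasDerivAt_id r).prodMk (hasDerivAt_id r)
      exact HasFDerivAt.comp_hasDerivAt (l := f) (f := fun r : ℝ => (r, r)) r (hL r ⟨h1, h2⟩) h3
    have hb' := image_norm_le_of_norm_deriv_right_le_deriv_boundary' (a := a) (b := b)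
      (f := fun r : ℝ => f (r, r) - f (a, a)) (f' := fun r => L r (1, 1))
      (B := fun r => C / δ * (r ^ δ - a ^ δ)) (B' := fun r => C * r ^ (δ - 1))
      (by
        intro r hr
        exact ((hder r (lt_of_lt_of_le ha hr.1) (lt_of_le_of_lt hr.2 hb)).continuousAt.sub
          continuousAt_const).continuousWithinAt)
      (by
        intro r hr
        exact ((hder r (lt_of_lt_of_le ha hr.1) (hr.2.trans hb)).sub_const _).hasDerivWithinAt)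
      (by simp)
      (by
        intro r hr
        have hr0 : r ≠ 0 := (lt_of_lt_of_le ha hr.1).ne'
        exact (((Real.continuousAt_rpow_const r δ (Or.inl hr0)).sub
          continuousAt_const).const_mul _).continuousWithinAt)
      (by
        intro r hr
        have hr0 : r ≠ 0 := (lt_of_lt_of_le ha hr.1).ne'
        have h4 : HasDerivAt (fun r : ℝ => C / δ * (r ^ δ - a ^ δ)) (C / δ * (δ * r ^ (δ - 1))) r :=
          ((Real.hasDerivAt_rpow_const (Or.inl hr0)).sub_const _).const_mul _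
        have h5 : C / δ * (δ * r ^ (δ - 1)) = C * r ^ (δ - 1) := by
          field_simp
        rw [h5] at h4
        exact h4.hasDerivWithinAt)
      (by
        intro r hr
        have h6 : ‖((1 : ℝ), (1 : ℝ))‖ = 1 := by simp [Prod.norm_def]
        have h7 := hLn r ⟨lt_of_lt_of_le ha hr.1, hr.2.trans hb⟩
        rw [max_self] at h7
        calc ‖L r (1, 1)‖ ≤ ‖L r‖ * ‖((1 : ℝ), (1 : ℝ))‖ := (L r).le_opNorm _
          _ ≤ _ := by rw [h6, mul_one]; exact h7)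
    have h8 := hb' (Set.right_mem_Icc.2 hab)
    refine h8.trans ?_
    have h9 : 0 ≤ a ^ δ := Real.rpow_nonneg ha.le _
    have h10 : 0 < C / δ := by positivity
    exact mul_le_mul_of_nonneg_left (by linarith) h10.le
  -- Cauchy
  have hpow : Tendsto (fun r : ℝ => C / δ * r ^ δ) (𝓝[>] 0) (𝓝 0) := by
    have h1 : Tendsto (fun r : ℝ => r ^ δ) (𝓝 0) (𝓝 ((0:ℝ) ^ δ)) :=
      (Real.continuousAt_rpow_const 0 δ (Or.inr hδ.le)).tendsto
    rw [Real.zero_rpow hδ.ne'] at h1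
    have h2 := (h1.mono_left (nhdsWithin_le_nhds (s := Set.Ioi 0))).const_mul (C / δ)
    rwa [mul_zero] at h2
  have hCau : Cauchy (Filter.map (fun r : ℝ => f (r, r)) (𝓝[>] 0)) := by
    rw [Metric.cauchy_iff]
    refine ⟨inferInstance, ?_⟩
    intro ε hε
    have h1 : ∀ᶠ r in 𝓝[>] (0:ℝ), C / δ * r ^ δ < ε ∧ r < ρ ∧ 0 < r := by
      filter_upwards [hpow.eventually (gt_mem_nhds hε),
        nhdsWithin_le_nhds (gt_mem_nhds hρ), self_mem_nhdsWithin] with r h1 h2 h3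
      exact ⟨h1, h2, h3⟩
    refine ⟨(fun r : ℝ => f (r, r)) '' {r | C / δ * r ^ δ < ε ∧ r < ρ ∧ 0 < r},
      Filter.image_mem_map h1, ?_⟩
    rintro _ ⟨a, ha, rfl⟩ _ ⟨b, hb, rfl⟩
    rcases le_total a b with hab | hab
    · rw [dist_comm, dist_eq_norm]
      exact lt_of_le_of_lt (hdiag a b ha.2.2 hab hb.2.1) hb.1
    · rw [dist_eq_norm]
      exact lt_of_le_of_lt (hdiag b a hb.2.2 hab ha.2.1) ha.1
  obtain ⟨A, hA⟩ := CompleteSpace.complete hCau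
  have hA' : Tendsto (fun r : ℝ => f (r, r)) (𝓝[>] 0) (𝓝 A) := hA
  refine ⟨A, hA', ?_⟩
  have hdiag2 : ∀ b : ℝ, 0 < b → b < ρ → ‖f (b, b) - A‖ ≤ C / δ * b ^ δ := by
    intro b hb hbρ
    have h1 : Tendsto (fun r : ℝ => ‖f (b, b) - f (r, r)‖) (𝓝[>] 0) (𝓝 ‖f (b, b) - A‖) :=
      (tendsto_const_nhds.sub hA').norm
    apply le_of_tendsto h1
    filter_upwards [nhdsWithin_le_nhds (gt_mem_nhds hb), self_mem_nhdsWithin] with r h2 h3
    exact hdiag r b h3 (le_of_lt h2) hbρ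
  intro x y hx hxρ hy hyρ
  set m := max x y with hm
  have hm0 : 0 < m := lt_max_of_lt_left hx
  have hmρ : m < ρ := max_lt hxρ hyρ
  have hxm : x ≤ m := le_max_left _ _
  have hym : y ≤ m := le_max_right _ _
  have hseg : ‖f (x, y) - f (m, m)‖ ≤ C * m ^ δ := by
    have hconv : Convex ℝ (Set.Icc x m ×ˢ Set.Icc y m) := (convex_Icc x m).prod (convex_Icc y m)
    choose! L hL hLn using fun (q : ℝ × ℝ) (hq : (0 < q.1 ∧ q.1 < ρ) ∧ (0 < q.2 ∧ q.2 < ρ)) =>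
      hf q.1 q.2 hq.1.1 hq.1.2 hq.2.1 hq.2.2
    have hin : ∀ q ∈ Set.Icc x m ×ˢ Set.Icc y m, (0 < q.1 ∧ q.1 < ρ) ∧ (0 < q.2 ∧ q.2 < ρ) := by
      rintro q ⟨⟨h1, h2⟩, ⟨h3, h4⟩⟩
      exact ⟨⟨lt_of_lt_of_le hx h1, lt_of_le_of_lt h2 hmρ⟩,
        ⟨lt_of_lt_of_le hy h3, lt_of_le_of_lt h4 hmρ⟩⟩
    have h1 := Convex.norm_image_sub_le_of_norm_hasFDerivWithin_le (f := f) (f' := L)
      (C := C * m ^ (δ - 1)) (s := Set.Icc x m ×ˢ Set.Icc y m) (x := (m, m)) (y := (x, y))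
      (fun q hq => (hL q (hin q hq)).hasFDerivWithinAt)
      (by
        intro q hq
        have h2 := hLn q (hin q hq)
        have h3 : max q.1 q.2 = m := by
          apply le_antisymm
          · exact max_le hq.1.2 hq.2.2
          · rw [hm]
            exact max_le_max hq.1.1 hq.2.1
        rwa [h3] at h2)
      hconv ⟨⟨hxm, le_refl _⟩, ⟨hym, le_refl _⟩⟩ ⟨⟨le_refl _, hxm⟩, ⟨le_refl _, hym⟩⟩
    refine h1.trans ?_
    have h4 : ‖(x, y) - (m, m)‖ ≤ m := by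
      rw [Prod.norm_def]
      apply max_le
      · show |x - m| ≤ m
        rw [abs_le]
        constructor <;> linarith
      · show |y - m| ≤ m
        rw [abs_le]
        constructor <;> linarith
    have h5 : m ^ δ = m ^ (δ - 1) * m := by
      rw [← Real.rpow_add_one hm0.ne']
      congr 1
      ring
    rw [h5, mul_assoc]
    refine mul_le_mul_of_nonneg_left ?_ hC.le
    exact mul_le_mul_of_nonneg_left h4 (Real.rpow_nonneg hm0.le _)
  calc ‖f (x, y) - A‖ = ‖(f (x, y) - f (m, m)) + (f (m, m) - A)‖ := by congr 1; ring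
    _ ≤ ‖f (x, y) - f (m, m)‖ + ‖f (m, m) - A‖ := norm_add_le _ _
    _ ≤ C * m ^ δ + C / δ * m ^ δ := add_le_add hseg (hdiag2 m hm0 hmρ)
    _ = _ := by ring

theorem exists_g (hSG : SG α β) {w : X → ℝ} (hw : InW α β w) (hH : HolW α β w) {k : ℕ}
    (hk : 0 < k) {s0 : X} (hs : (zeta α β ^ k) s0 = s0) :
    ∃ g : ℂ → ℂ, DifferentiableOn ℂ g HH ∧ ∀ K : Set ℂ, IsCompact K → K ⊆ HH →
      ∃ C ρ : ℝ, 0 < C ∧ 0 < ρ ∧ ρ ≤ 1 / 3 ∧ ∀ τ ∈ K, ∀ x y : ℝ, 0 < x → x < ρ → 0 < y → y < ρ →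
        ‖pv α β (GG α β w τ 0 : Sq X → ℂ) s0 (x, y) - g τ‖ ≤ C * (max x y) ^ (1 / (k : ℝ)) := by
  classical
  have hk0 : (0:ℝ) < k := by exact_mod_cast hk
  have hδ : (0:ℝ) < 1 / (k:ℝ) := by positivity
  have hδ1 : 1 / (k:ℝ) ≤ 1 := by
    rw [div_le_one hk0]
    exact_mod_cast hk
  set g : ℂ → ℂ := fun τ =>
    limUnder (𝓝[>] (0:ℝ)) (fun r : ℝ => pv α β (GG α β w τ 0 : Sq X → ℂ) s0 (r, r)) with hg
  have hmain : ∀ K : Set ℂ, IsCompact K → K ⊆ HH →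
      ∃ C ρ : ℝ, 0 < C ∧ 0 < ρ ∧ ρ ≤ 1 / 3 ∧ ∀ τ ∈ K, ∀ x y : ℝ, 0 < x → x < ρ → 0 < y → y < ρ →
        ‖pv α β (GG α β w τ 0 : Sq X → ℂ) s0 (x, y) - g τ‖ ≤ C * (max x y) ^ (1 / (k : ℝ)) := by
    intro K hK hKH
    obtain ⟨C, ρ, hC, hρ, hρ3, hb⟩ := grad_bd hSG hw hH hk hs K hK hKH
    refine ⟨C + C / (1 / (k:ℝ)), ρ, by positivity, hρ, hρ3, ?_⟩
    intro τ hτ x y hx hxρ hy hyρ
    obtain ⟨A, hA1, hA2⟩ := corner_lim hC hρ hδ hδ1 (hb τ hτ)
    have h1 : g τ = A := hA1.limUnder_eq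
    rw [h1]
    exact hA2 x y hx hxρ hy hyρ
  refine ⟨g, ?_, hmain⟩
  have hpt : ∀ n : ℕ, ((1 / ((n:ℝ) + 4), 1 / ((n:ℝ) + 4)) : ℝ × ℝ) ∈ unitSq := by
    intro n
    have h1 : (0:ℝ) < 1 / ((n:ℝ) + 4) := by positivity
    have h2 : 1 / ((n:ℝ) + 4) < 1 := by
      rw [div_lt_one (by positivity)]
      have : (0:ℝ) ≤ n := Nat.cast_nonneg n
      linarith
    exact ⟨⟨h1, h2⟩, ⟨h1, h2⟩⟩
  have htl : TendstoLocallyUniformlyOn (fun (n : ℕ) τ => pv α β (GG α β w τ 0 : Sq X → ℂ) s0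
      (1 / ((n:ℝ) + 4), 1 / ((n:ℝ) + 4))) g atTop HH := by
    rw [tendstoLocallyUniformlyOn_iff_forall_isCompact isOpen_HH]
    intro K hKH hK
    obtain ⟨C, ρ, hC, hρ, hρ3, hb⟩ := hmain K hK hKH
    rw [Metric.tendstoUniformlyOn_iff]
    intro ε hε
    have hlim : Tendsto (fun n : ℕ => (1 : ℝ) / ((n:ℝ) + 4)) atTop (𝓝 0) := by
      apply Tendsto.div_atTop tendsto_const_nhds
      exact tendsto_atTop_add_const_right _ _ tendsto_natCast_atTop_atTop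
    have hlim2 : Tendsto (fun n : ℕ => C * ((1 : ℝ) / ((n:ℝ) + 4)) ^ (1 / (k:ℝ))) atTop (𝓝 0) := by
      have h1 : Tendsto (fun r : ℝ => r ^ (1 / (k:ℝ))) (𝓝 0) (𝓝 ((0:ℝ) ^ (1 / (k:ℝ)))) :=
        (Real.continuousAt_rpow_const 0 _ (Or.inr hδ.le)).tendsto
      rw [Real.zero_rpow hδ.ne'] at h1
      have h2 := (h1.comp hlim).const_mul C
      rwa [mul_zero] at h2
    filter_upwards [hlim.eventually (gt_mem_nhds hρ), hlim2.eventually (gt_mem_nhds hε)]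
      with n hn1 hn2 τ hτ
    rw [dist_comm, dist_eq_norm]
    refine lt_of_le_of_lt ?_ hn2
    have h3 : (0:ℝ) < 1 / ((n:ℝ) + 4) := by positivity
    have h4 := hb τ hτ _ _ h3 hn1 h3 hn1
    rwa [max_self] at h4
  exact htl.differentiableOn (Eventually.of_forall fun n =>
    (G_point hSG hw hH s0).1 _ (hpt n)) isOpen_HH

end Pool.Agent.Helper96.OF
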