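import Pool.Agent.Helper42.OF.L14
import Pool.Agent.Helper42.OF.L10

/-!
# OFL-L14b: dA = 2 Re (g dτ)

The averages over the small squares `(0, 1/(n+4))²` of the square of `s0` are used instead of smooth bumps:
M_n(τ) = average of FF τ, D_n(τ) = average of GG τ 0.
(1) M_n(τ) = const + ℓ_n(sol τ 0), ℓ_n a continuous ℂ-linear functional on KK X; HolW.s_deriv: sol has derivative δ • GG + J3 (δ • GG), J3 componentwise JK (conjugation), so HasFDerivAt M_n (gradC (D_n τ)) τ for τ ∈ HH (ℓ_n (JK v) = conj (ℓ_n v)).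
(2) |M_n(τ) - A(τ)| ≤ C (1/(n+4))^(1/k) (L10 AA_unif with j = 0, FF_pv); |D_n(τ) - g(τ)| ≤ C (1/(n+4))^(1/k) uniformly on compacts (exists_g, G_point a.e. equality).
(3) derivative of a locally uniform limit (`hasFDerivAt_of_tendstoLocallyUniformlyOn`, HH open; gradC is continuous linear in c: ‖gradC c - gradC c'‖ ≤ 2|c-c'|).
-/

set_option autoImplicit false

open MeasureTheory Filter Topology
open scoped ComplexConjugate

namespace Pool.Agent.Helper96.OF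

section aux

variable {X : Type} [Countable X] [MeasurableSpace X] [DiscreteMeasurableSpace X]

/-- the small square in `s0` -/
private def SS (s0 : X) (r : ℝ) : Set (Sq X) := {s0} ×ˢ (Set.Ioo (0:ℝ) r ×ˢ Set.Ioo (0:ℝ) r)

private theorem SS_meas (s0 : X) (r : ℝ) : MeasurableSet (SS s0 r) :=
  (measurableSet_singleton s0).prod (measurableSet_Ioo.prod measurableSet_Ioo)

private theorem SS_vol (s0 : X) {r : ℝ} (h1 : r ≤ 1) :
    (mu X) (SS s0 r) = ENNReal.ofReal r * ENNReal.ofReal r := by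
  have hsub : Set.Ioo (0:ℝ) r ×ˢ Set.Ioo (0:ℝ) r ⊆ unitSq :=
    Set.prod_mono (Set.Ioo_subset_Ioo_right h1) (Set.Ioo_subset_Ioo_right h1)
  rw [mu, SS, Measure.prod_prod, Measure.count_singleton, one_mul,
    Measure.restrict_apply (measurableSet_Ioo.prod measurableSet_Ioo), Set.inter_eq_left.2 hsub,
    Measure.volume_eq_prod, Measure.prod_prod, Real.volume_Ioo, sub_zero]

private theorem SS_ne (s0 : X) {r : ℝ} (h1 : r ≤ 1) : (mu X) (SS s0 r) ≠ ⊤ := by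
  rw [SS_vol s0 h1]
  exact ENNReal.mul_ne_top ENNReal.ofReal_ne_top ENNReal.ofReal_ne_top

private theorem SS_real (s0 : X) {r : ℝ} (h0 : 0 < r) (h1 : r ≤ 1) : (mu X).real (SS s0 r) = r * r := by
  rw [Measure.real, SS_vol s0 h1, ENNReal.toReal_mul, ENNReal.toReal_ofReal h0.le]

private theorem avg_le (s0 : X) {r : ℝ} (h0 : 0 < r) (h1 : r ≤ 1) {f : Sq X → ℂ}
    (hf : IntegrableOn f (SS s0 r) (mu X)) {c : ℂ} {ε : ℝ}
    (hb : ∀ᵐ q ∂(mu X), q ∈ SS s0 r → ‖f q - c‖ ≤ ε) :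
    ‖(((r * r : ℝ) : ℂ))⁻¹ * (∫ q in SS s0 r, f q ∂(mu X)) - c‖ ≤ ε := by
  have hm : (0 : ℝ) < r * r := by positivity
  have hm' : ((r * r : ℝ) : ℂ) ≠ 0 := by exact_mod_cast hm.ne'
  have hci : IntegrableOn (fun _ : Sq X => c) (SS s0 r) (mu X) := by
    rw [integrableOn_const_iff]
    exact Or.inr (lt_top_iff_ne_top.2 (SS_ne s0 h1))
  have e1 : ∫ q in SS s0 r, (f q - c) ∂(mu X) =
      (∫ q in SS s0 r, f q ∂(mu X)) - ((r * r : ℝ) : ℂ) * c := by
    rw [integral_sub hf hci, setIntegral_const, SS_real s0 h0 h1]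
    simp
  have e2 : ‖∫ q in SS s0 r, (f q - c) ∂(mu X)‖ ≤ ε * (r * r) := by
    have := norm_setIntegral_le_of_norm_le_const_ae' (μ := mu X) (s := SS s0 r)
      (f := fun q => f q - c) (C := ε) (lt_top_iff_ne_top.2 (SS_ne s0 h1)) hb
    rwa [SS_real s0 h0 h1] at this
  have e3 : (((r * r : ℝ) : ℂ))⁻¹ * (∫ q in SS s0 r, f q ∂(mu X)) - c =
      (((r * r : ℝ) : ℂ))⁻¹ * ∫ q in SS s0 r, (f q - c) ∂(mu X) := by
    rw [e1, mul_sub, ← mul_assoc, inv_mul_cancel₀ hm', one_mul]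
  rw [e3, norm_mul, norm_inv, Complex.norm_real, Real.norm_eq_abs, abs_of_pos hm,
    inv_mul_le_iff₀ hm, mul_comm]
  exact e2

private theorem intOn_L2 (s0 : X) {r : ℝ} (h1 : r ≤ 1) {f : Sq X → ℂ} (hf : MemLp f 2 (mu X)) :
    IntegrableOn f (SS s0 r) (mu X) := by
  have : IsFiniteMeasure ((mu X).restrict (SS s0 r)) :=
    ⟨by rw [Measure.restrict_apply_univ]; exact lt_top_iff_ne_top.2 (SS_ne s0 h1)⟩
  exact (hf.mono_measure Measure.restrict_le_self).integrable (by norm_num)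

/-- average over the small square as a functional on `L²` -/
private noncomputable def LL (s0 : X) (r : ℝ) (h1 : r ≤ 1) : KK X →L[ℂ] ℂ :=
  (((r * r : ℝ) : ℂ))⁻¹ • innerSL ℂ (indicatorConstLp 2 (SS_meas s0 r) (SS_ne s0 h1) (1 : ℂ))

private theorem LL_apply (s0 : X) (r : ℝ) (h1 : r ≤ 1) (v : KK X) :
    LL s0 r h1 v = (((r * r : ℝ) : ℂ))⁻¹ * ∫ q in SS s0 r, (v : Sq X → ℂ) q ∂(mu X) := by
  rw [LL, _root_.smul_apply, smul_eq_mul, innerSL_apply_apply, L2.inner_indicatorConstLp_one]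

private theorem LL_JK (s0 : X) (r : ℝ) (h1 : r ≤ 1) (v : KK X) :
    LL s0 r h1 (JK X v) = conj (LL s0 r h1 v) := by
  rw [LL_apply, LL_apply, map_mul, map_inv₀, Complex.conj_ofReal, ← integral_conj]
  congr 1
  exact integral_congr_ae (ae_restrict_of_ae (JK_ae v))

private theorem gradC_sub_le (c c' : ℂ) : ‖gradC c - gradC c'‖ ≤ 2 * ‖c - c'‖ := by
  refine ContinuousLinearMap.opNorm_le_bound _ (by positivity) fun δ => ?_
  rw [_root_.sub_apply, gradC_apply, gradC_apply]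
  have e : c * δ + conj (c * δ) - (c' * δ + conj (c' * δ)) = (c - c') * δ + conj ((c - c') * δ) := by
    rw [sub_mul, map_sub]
    ring
  rw [e]
  refine (norm_add_le _ _).trans ?_
  rw [Complex.norm_conj, norm_mul]
  linarith

private theorem isOpen_HH' : IsOpen HH := isOpen_lt continuous_const Complex.continuous_im

private theorem ae_SS {P : Sq X → Prop} {s0 : X}
    (h : ∀ᵐ p ∂(volume.restrict unitSq), P (s0, p)) : ∀ᵐ q ∂(mu X), q.1 = s0 → P q := by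
  rw [ae_mu_iff]
  intro s
  by_cases hs : s = s0
  · subst hs
    filter_upwards [h] with p hp _
    exact hp
  · exact Eventually.of_forall fun p h => absurd h hs

private theorem rn_tendsto {k : ℕ} (hk : 0 < k) (C : ℝ) :
    Tendsto (fun n : ℕ => C * (1 / ((n : ℝ) + 4)) ^ (1 / (k : ℝ))) atTop (𝓝 0) := by
  have h1 : Tendsto (fun n : ℕ => 1 / ((n : ℝ) + 4)) atTop (𝓝 0) := by
    have h2 : Tendsto (fun n : ℕ => (n : ℝ) + 4) atTop atTop :=
      tendsto_atTop_add_const_right _ _ tendsto_natCast_atTop_atTop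
    simp only [one_div]
    exact tendsto_inv_atTop_zero.comp h2
  have hk' : (0 : ℝ) < 1 / (k : ℝ) := by positivity
  have h3 : Tendsto (fun n : ℕ => (1 / ((n : ℝ) + 4)) ^ (1 / (k : ℝ))) atTop (𝓝 (0 ^ (1 / (k : ℝ)))) :=
    h1.rpow_const (Or.inr hk'.le)
  rw [Real.zero_rpow hk'.ne'] at h3
  simpa using h3.const_mul C

end aux

variable {X : Type} [Countable X] [MeasurableSpace X] [DiscreteMeasurableSpace X] {α β : Equiv.Perm X}

theorem AA_deriv (hSG : SG α β) {w : X → ℝ} (hw : InW α β w) (hH : HolW α β w) {k : ℕ}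
    (hk : 0 < k) {s0 : X} (hs : (zeta α β ^ k) s0 = s0) (g : ℂ → ℂ)
    (hg : DifferentiableOn ℂ g HH)
    (hgK : ∀ K : Set ℂ, IsCompact K → K ⊆ HH →
      ∃ C ρ : ℝ, 0 < C ∧ 0 < ρ ∧ ρ ≤ 1 / 3 ∧ ∀ τ ∈ K, ∀ x y : ℝ, 0 < x → x < ρ → 0 < y → y < ρ →
        ‖pv α β (GG α β w τ 0 : Sq X → ℂ) s0 (x, y) - g τ‖ ≤ C * (max x y) ^ (1 / (k : ℝ)))
    {τ : ℂ} (hτ : τ ∈ HH) :
    HasFDerivAt (fun σ => ((AA α β w s0 σ : ℝ) : ℂ)) (gradC (g τ)) τ := by
  have hk' : (0 : ℝ) < 1 / (k : ℝ) := by positivity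
  have hr0 : ∀ n : ℕ, (0 : ℝ) < 1 / ((n : ℝ) + 4) := fun n => by positivity
  have hr1 : ∀ n : ℕ, 1 / ((n : ℝ) + 4) ≤ 1 := fun n => by
    rw [div_le_one (by positivity)]
    have : (0 : ℝ) ≤ n := Nat.cast_nonneg n
    linarith
  have hev : ∀ ρ : ℝ, 0 < ρ → ∀ᶠ n : ℕ in atTop, 1 / ((n : ℝ) + 4) < ρ := by
    intro ρ hρ
    have h1 : Tendsto (fun n : ℕ => 1 / ((n : ℝ) + 4)) atTop (𝓝 0) := by
      have h2 : Tendsto (fun n : ℕ => (n : ℝ) + 4) atTop atTop :=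
        tendsto_atTop_add_const_right _ _ tendsto_natCast_atTop_atTop
      simp only [one_div]
      exact tendsto_inv_atTop_zero.comp h2
    exact h1.eventually_lt_const hρ
  -- the averages
  set M : ℕ → ℂ → ℂ := fun n σ => ((((1 / ((n : ℝ) + 4)) * (1 / ((n : ℝ) + 4)) : ℝ) : ℂ))⁻¹ *
    ∫ q in SS s0 (1 / ((n : ℝ) + 4)), FF α β w σ q ∂(mu X) with hMdef
  set D : ℕ → ℂ → ℂ := fun n σ => LL s0 (1 / ((n : ℝ) + 4)) (hr1 n) (GG α β w σ 0) with hDdef
  obtain ⟨C0, hC0⟩ := hw.bdd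
  have hinvC : ∀ s, toC w (zeta α β s) = toC w s := by
    intro s
    simp only [toC, hw.inv]
  have hΦm : AEStronglyMeasurable (fl (Phi α β (toC w))) (mu X) := nice_meas (nice_Phi hinvC)
  have hΦi : ∀ n : ℕ, IntegrableOn (fl (Phi α β (toC w))) (SS s0 (1 / ((n : ℝ) + 4))) (mu X) := by
    intro n
    refine Measure.integrableOn_of_bounded (M := C0) (SS_ne s0 (hr1 n)) hΦm ?_
    exact Eventually.of_forall fun q => (Phi_bound hC0 q.1 q.2).1
  have hsi : ∀ (n : ℕ) (σ : ℂ), IntegrableOn (fun q => (sol α β w σ 0 : Sq X → ℂ) q)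
      (SS s0 (1 / ((n : ℝ) + 4))) (mu X) := fun n σ => intOn_L2 s0 (hr1 n) (Lp.memLp _)
  have hM1 : ∀ n : ℕ, M n = fun σ => ((((1 / ((n : ℝ) + 4)) * (1 / ((n : ℝ) + 4)) : ℝ) : ℂ))⁻¹ *
      (∫ q in SS s0 (1 / ((n : ℝ) + 4)), fl (Phi α β (toC w)) q ∂(mu X)) +
      LL s0 (1 / ((n : ℝ) + 4)) (hr1 n) (sol α β w σ 0) := by
    intro n
    funext σ
    simp only [hMdef, LL_apply]
    rw [← mul_add, ← integral_add (hΦi n) (hsi n σ)]
    rfl
  -- (1) derivative of the averages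
  have hMd : ∀ n : ℕ, ∀ σ ∈ HH, HasFDerivAt (M n) (gradC (D n σ)) σ := by
    intro n σ hσ
    rw [hM1 n]
    obtain ⟨h1, h2⟩ := hH.s_deriv σ hσ
    set T : K3 X →L[ℂ] ℂ := (LL s0 (1 / ((n : ℝ) + 4)) (hr1 n)).comp
      (PiLp.proj 2 (fun _ : Fin 3 => KK X) 0) with hT
    have h3 : HasFDerivAt (fun σ => T (sol α β w σ)) ((T.restrictScalars ℝ).comp
        (fderiv ℝ (sol α β w) σ)) σ := (T.restrictScalars ℝ).hasFDerivAt.comp σ h1
    have h4 : HasFDerivAt (fun σ => ((((1 / ((n : ℝ) + 4)) * (1 / ((n : ℝ) + 4)) : ℝ) : ℂ))⁻¹ *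
      (∫ q in SS s0 (1 / ((n : ℝ) + 4)), fl (Phi α β (toC w)) q ∂(mu X)) + T (sol α β w σ))
        ((T.restrictScalars ℝ).comp (fderiv ℝ (sol α β w) σ)) σ := h3.const_add _
    have h5 : (T.restrictScalars ℝ).comp (fderiv ℝ (sol α β w) σ) = gradC (D n σ) := by
      ext1 δ
      rw [ContinuousLinearMap.comp_apply, ContinuousLinearMap.coe_restrictScalars', h2 δ, gradC_apply]
      have h6 : T (δ • GG α β w σ + J3 (δ • GG α β w σ)) =
          LL s0 (1 / ((n : ℝ) + 4)) (hr1 n) (δ • GG α β w σ 0) +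
          LL s0 (1 / ((n : ℝ) + 4)) (hr1 n) (JK X (δ • GG α β w σ 0)) := by
        rw [map_add]
        rfl
      rw [h6, LL_JK, map_smul, smul_eq_mul, mul_comm δ]
    rw [h5] at h4
    exact h4
  -- (2a) convergence of `D`
  have hDlim : TendstoLocallyUniformlyOn (fun n σ => gradC (D n σ)) (fun σ => gradC (g σ)) atTop HH := by
    rw [tendstoLocallyUniformlyOn_iff_forall_isCompact isOpen_HH']
    intro K hKH hK
    obtain ⟨C, ρ, hC, hρ, -, hCρ⟩ := hgK K hK hKH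
    rw [Metric.tendstoUniformlyOn_iff]
    intro ε hε
    have h1 := (rn_tendsto hk C).eventually_lt_const (u := ε / 2) (by positivity)
    filter_upwards [h1, hev ρ hρ] with n hn1 hn2 σ hσ
    rw [dist_comm, dist_eq_norm]
    refine (gradC_sub_le _ _).trans_lt ?_
    have h2 : ‖D n σ - g σ‖ ≤ C * (1 / ((n : ℝ) + 4)) ^ (1 / (k : ℝ)) := by
      simp only [hDdef]
      rw [LL_apply]
      refine avg_le s0 (hr0 n) (hr1 n) (intOn_L2 s0 (hr1 n) (Lp.memLp _)) ?_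
      have h3 := ae_SS (P := fun q : Sq X => (GG α β w σ 0 : Sq X → ℂ) q =
        pv α β (GG α β w σ 0 : Sq X → ℂ) s0 q.2) ((G_point hSG hw hH s0).2.2 σ (hKH hσ))
      filter_upwards [h3] with q hq hqS
      rw [hq hqS.1]
      obtain ⟨-, ⟨hx0, hx1⟩, ⟨hy0, hy1⟩⟩ := hqS
      refine (hCρ σ hσ q.2.1 q.2.2 hx0 (hx1.trans hn2) hy0 (hy1.trans hn2)).trans ?_
      refine mul_le_mul_of_nonneg_left ?_ hC.le
      exact Real.rpow_le_rpow (le_max_of_le_left hx0.le) (max_le hx1.le hy1.le) hk'.le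
    linarith
  -- (2b) convergence of `M`
  have hMlim : ∀ σ ∈ HH, Tendsto (fun n => M n σ) atTop (𝓝 ((AA α β w s0 σ : ℝ) : ℂ)) := by
    intro σ hσ
    obtain ⟨C, ρ, hC, hρ, -, hCρ⟩ := AA_unif hSG {σ} isCompact_singleton
      (Set.singleton_subset_iff.2 hσ) hk
    rw [tendsto_iff_norm_sub_tendsto_zero]
    have h1 := rn_tendsto hk (C * Real.sqrt (starE α β s0 k (hh α β w σ : Sq X → ℂ)))
    refine squeeze_zero' (Eventually.of_forall fun n => norm_nonneg _) ?_ h1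
    filter_upwards [hev ρ hρ] with n hn
    simp only [hMdef]
    refine avg_le s0 (hr0 n) (hr1 n) ?_ ?_
    · have h2 : FF α β w σ = fun q => fl (Phi α β (toC w)) q + (sol α β w σ 0 : Sq X → ℂ) q := rfl
      rw [h2]
      exact (hΦi n).add (hsi n σ)
    have h3 := ae_SS (P := fun q : Sq X => FF α β w σ q = pv α β (FF α β w σ) s0 q.2)
      ((FF_pv hSG hw hσ).2.1 s0)
    filter_upwards [h3] with q hq hqS
    rw [hq hqS.1]
    obtain ⟨-, ⟨hx0, hx1⟩, ⟨hy0, hy1⟩⟩ := hqS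
    have h4 := hCρ w hw σ (Set.mem_singleton σ) s0 hs 0 q.2.1 q.2.2 hx0 (hx1.trans hn) hy0 (hy1.trans hn)
    rw [zpow_zero, Equiv.Perm.one_apply] at h4
    refine h4.trans ?_
    refine mul_le_mul_of_nonneg_left ?_ (by positivity)
    exact Real.rpow_le_rpow (le_max_of_le_left hx0.le) (max_le hx1.le hy1.le) hk'.le
  exact hasFDerivAt_of_tendstoLocallyUniformlyOn isOpen_HH' hDlim hMd hMlim hτ

/-- consequences: corner value identically zero gives g = 0; g = 0 gives a constant corner value -/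
theorem g_zero_of_AA (g : ℂ → ℂ) (w : X → ℝ) (s0 : X)
    (hd : ∀ τ ∈ HH, HasFDerivAt (fun σ => ((AA α β w s0 σ : ℝ) : ℂ)) (gradC (g τ)) τ)
    (h0 : ∀ τ ∈ HH, AA α β w s0 τ = 0) : ∀ τ ∈ HH, g τ = 0 := by
  intro τ hτ
  have h1 : (fun σ => ((AA α β w s0 σ : ℝ) : ℂ)) =ᶠ[𝓝 τ] fun _ => 0 := by
    filter_upwards [isOpen_HH'.mem_nhds hτ] with σ hσ
    rw [h0 σ hσ, Complex.ofReal_zero]
  have h2 : HasFDerivAt (fun σ => ((AA α β w s0 σ : ℝ) : ℂ)) (0 : ℂ →L[ℝ] ℂ) τ :=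
    (hasFDerivAt_const (0 : ℂ) τ).congr_of_eventuallyEq h1
  have h3 := (hd τ hτ).unique h2
  have h4 : gradC (g τ) (conj (g τ)) = 0 := by rw [h3]; rfl
  rw [gradC_apply, Complex.mul_conj, Complex.conj_ofReal, ← Complex.ofReal_add,
    Complex.ofReal_eq_zero] at h4
  have h5 : Complex.normSq (g τ) = 0 := by linarith
  exact Complex.normSq_eq_zero.1 h5

theorem AA_const_of_g (g : ℂ → ℂ) (w : X → ℝ) (s0 : X)
    (hd : ∀ τ ∈ HH, HasFDerivAt (fun σ => ((AA α β w s0 σ : ℝ) : ℂ)) (gradC (g τ)) τ)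
    (h0 : ∀ τ ∈ HH, g τ = 0) : ∀ τ ∈ HH, ∀ τ' ∈ HH, AA α β w s0 τ = AA α β w s0 τ' := by
  intro τ hτ τ' hτ'
  have hconv : Convex ℝ HH := convex_halfSpace_im_gt 0
  have h1 : ∀ σ ∈ HH, HasFDerivWithinAt (fun σ => ((AA α β w s0 σ : ℝ) : ℂ)) (0 : ℂ →L[ℝ] ℂ) HH σ := by
    intro σ hσ
    have h2 := hd σ hσ
    have h3 : gradC (g σ) = 0 := by
      rw [h0 σ hσ]
      ext1 δ
      rw [gradC_apply]
      simp
    rw [h3] at h2
    exact h2.hasFDerivWithinAt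
  have h4 := hconv.norm_image_sub_le_of_norm_hasFDerivWithin_le (C := 0) h1
    (fun x _ => by simp) hτ hτ'
  rw [zero_mul] at h4
  have h5 : ((AA α β w s0 τ' : ℝ) : ℂ) - ((AA α β w s0 τ : ℝ) : ℂ) = 0 := norm_le_zero_iff.1 h4
  have h6 := sub_eq_zero.1 h5
  exact (Complex.ofReal_injective h6).symm

end Pool.Agent.Helper96.OF
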