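import Pool.Agent.Helper42.OF.L14b
import Pool.Agent.Helper42.OF.L10b
import Pool.Agent.Helper96.OF.N1

/-!
# OFL-L15: the final local theorem

Notation (all at the square s0, p ∈ unitSq): h0 = pv (hh w0 τ), hb = pv (hh be τ), G0 = pv (GG w0 τ 0), Gb = pv (GG be τ 0); g0, gb from exists_g. By AA_deriv and g_zero_of_AA: gb = 0; by AA_const_of_g and hne there is τ0 ∈ HH with g0 τ0 ≠ 0.
(1) hwz pointwise: hb(τ,p) G0(τ,p) = h0(τ,p) Gb(τ,p) for all τ ∈ HH, p ∈ unitSq (a.e. by holC_hh, G_point (d), L01b ae_mu_iff; both sides continuous in p: HolC.cont, HasFDerivAt).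
(2) closed ball K = closedBall τ0 t0 ⊆ HH with |g0| ≥ 2c > 0 on K (continuity), and ρ so that |G0(τ,(r,r)) - g0 τ| ≤ c for 0<r<ρ, τ ∈ K (exists_g): |G0| ≥ c. lam τ r := Gb(τ,(r,r)) / G0(τ,(r,r)).
(3) derivative along the diagonal, `'` = d/dr: by G_point, G'(τ,(r,r)) = (1+τ) ∂_τ h + h = ∂_τ((1+τ) h)(τ,(r,r)) for G = G0, Gb. From (1) hb = lam h0 for τ near τ0, so ∂_τ((1+τ) hb) = lam ∂_τ((1+τ) h0) + (1+τ) h0 ∂_τ lam, and
lam' = (Gb' G0 - Gb G0')/G0² = ((1+τ) h0 / G0) ∂_τ lam. So ‖lam'‖ ≤ (1+|τ|) C r^(δ-1)/c ‖∂_τ lam‖, δ = 1/k (h_decay).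
(4) N1 nagumo on ball τ0 t0, r0 = ρ: hhol (h_point, G_point, quotient), hdiff (3), hb: |lam| ≤ (C ρ^δ)/c by exists_g with gb = 0, hlim: same estimate → 0. Conclusion: lam τ0 r = 0 for 0<r<r1 (r1 with C e r1^δ/(δ t0/2) < 1).
(5) So Gb(τ,(r,r)) = 0 and hb(τ0,(r,r)) = lam h0 = 0 for 0<r<r1: L05 hh_zero_of at p0 = (r1/2,r1/2) (the points (r,r) accumulate at p0; zt τ0 injective and continuous) ⟹ hh be τ0 = 0. L10b L2s_of_hh_zero with AA be s0 τ0 = 0.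
-/

set_option autoImplicit false

open MeasureTheory Filter Topology
open scoped ComplexConjugate

namespace Pool.Agent.Helper96.OF

variable {X : Type} [Countable X] [MeasurableSpace X] [DiscreteMeasurableSpace X] {α β : Equiv.Perm X}

private theorem l15_diag {G : ℝ × ℝ → ℂ} {τ a b : ℂ} {r : ℝ}
    (h : HasFDerivAt G (a • ztL τ +
      b • Complex.ofRealCLM.comp (ContinuousLinearMap.snd ℝ ℝ ℝ)) (r, r)) :
    HasDerivAt (fun r : ℝ => G (r, r)) ((1 + τ) * a + b) r := by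
  have h1 : HasDerivAt (fun r : ℝ => ((r, r) : ℝ × ℝ)) (1, 1) r :=
    (hasDerivAt_id r).prodMk (hasDerivAt_id r)
  have h2 := HasFDerivAt.comp_hasDerivAt (f := fun r : ℝ => ((r, r) : ℝ × ℝ)) r h h1
  have e : (a • ztL τ + b • Complex.ofRealCLM.comp (ContinuousLinearMap.snd ℝ ℝ ℝ)) (1, 1) =
      (1 + τ) * a + b := by
    rw [_root_.add_apply, _root_.smul_apply, _root_.smul_apply, ztL_apply]
    simp only [zt, ContinuousLinearMap.comp_apply, ContinuousLinearMap.coe_snd', smul_eq_mul,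
      Complex.ofRealCLM_apply, Complex.ofReal_one]
    ring
  rw [e] at h2
  exact h2

private theorem l15_isOpen_HH : IsOpen HH := isOpen_lt continuous_const Complex.continuous_im

private theorem l15_core (h0 hb G0 Gb : ℂ → ℝ × ℝ → ℂ)
    (a1 : ∀ p ∈ unitSq, DifferentiableOn ℂ (fun τ => h0 τ p) HH)
    (a2 : ∀ p ∈ unitSq, DifferentiableOn ℂ (fun τ => G0 τ p) HH)
    (a3 : ∀ p ∈ unitSq, DifferentiableOn ℂ (fun τ => Gb τ p) HH)
    (d0 : ∀ τ ∈ HH, ∀ p ∈ unitSq, HasFDerivAt (G0 τ) ((deriv (fun σ => h0 σ p) τ) • ztL τ +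
      (h0 τ p) • Complex.ofRealCLM.comp (ContinuousLinearMap.snd ℝ ℝ ℝ)) p)
    (db : ∀ τ ∈ HH, ∀ p ∈ unitSq, HasFDerivAt (Gb τ) ((deriv (fun σ => hb σ p) τ) • ztL τ +
      (hb τ p) • Complex.ofRealCLM.comp (ContinuousLinearMap.snd ℝ ℝ ℝ)) p)
    (e1 : ∀ τ ∈ HH, ∀ p ∈ unitSq, hb τ p * G0 τ p = h0 τ p * Gb τ p)
    {δ : ℝ} (hδ : 0 < δ) {τ0 : ℂ} {t0 : ℝ} (ht0 : 0 < t0) (hK : Metric.closedBall τ0 t0 ⊆ HH)
    {c Cb Ch ρ : ℝ} (hc : 0 < c) (hCb : 0 < Cb) (hCh : 0 < Ch) (hρ : 0 < ρ) (hρ' : ρ ≤ 1 / 3)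
    (b1 : ∀ τ ∈ Metric.closedBall τ0 t0, ∀ r : ℝ, 0 < r → r < ρ → c ≤ ‖G0 τ (r, r)‖)
    (b2 : ∀ τ ∈ Metric.closedBall τ0 t0, ∀ r : ℝ, 0 < r → r < ρ → ‖Gb τ (r, r)‖ ≤ Cb * r ^ δ)
    (b3 : ∀ τ ∈ Metric.closedBall τ0 t0, ∀ r : ℝ, 0 < r → r < ρ →
      ‖h0 τ (r, r)‖ ≤ Ch * r ^ (δ - 1)) :
    ∃ u : ℝ, 0 < u ∧ u ≤ ρ ∧ ∀ r : ℝ, 0 < r → r < u → hb τ0 (r, r) = 0 := by
  have hsq : ∀ r : ℝ, 0 < r → r < ρ → ((r, r) : ℝ × ℝ) ∈ unitSq := by
    intro r h1 h2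
    exact ⟨⟨h1, by simp only; linarith⟩, ⟨h1, by simp only; linarith⟩⟩
  have hbK : Metric.ball τ0 t0 ⊆ Metric.closedBall τ0 t0 := Metric.ball_subset_closedBall
  have hG0 : ∀ τ ∈ Metric.closedBall τ0 t0, ∀ r : ℝ, 0 < r → r < ρ → G0 τ (r, r) ≠ 0 := by
    intro τ hτ r h1 h2 h3
    have := b1 τ hτ r h1 h2
    rw [h3, norm_zero] at this
    linarith
  set lam : ℂ → ℝ → ℂ := fun τ r => Gb τ (r, r) / G0 τ (r, r) with hlam
  have hlamb : ∀ τ ∈ Metric.closedBall τ0 t0, ∀ r : ℝ, 0 < r → r < ρ →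
      ‖lam τ r‖ ≤ Cb * r ^ δ / c := by
    intro τ hτ r h1 h2
    simp only [hlam, norm_div]
    exact div_le_div₀ (by positivity) (b2 τ hτ r h1 h2) hc (b1 τ hτ r h1 h2)
  have hdl : ∀ r : ℝ, 0 < r → r < ρ → ∀ τ ∈ Metric.ball τ0 t0,
      DifferentiableAt ℂ (fun σ => lam σ r) τ := by
    intro r h1 h2 τ hτ
    have hτK := hbK hτ
    have hH : HH ∈ 𝓝 τ := l15_isOpen_HH.mem_nhds (hK hτK)
    exact ((a3 _ (hsq r h1 h2)).differentiableAt hH).div ((a2 _ (hsq r h1 h2)).differentiableAt hH)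
      (hG0 τ hτK r h1 h2)
  have hdiff : ∀ τ ∈ Metric.ball τ0 t0, ∀ r ∈ Set.Ioo 0 ρ, DifferentiableAt ℝ (lam τ) r ∧
      ‖deriv (lam τ) r‖ ≤ ((1 + ‖τ0‖ + t0) * Ch / c) * r ^ (δ - 1) *
        ‖deriv (fun σ => lam σ r) τ‖ := by
    intro τ hτ r hr
    have hτK := hbK hτ
    have hτH := hK hτK
    have hp := hsq r hr.1 hr.2
    have hne := hG0 τ hτK r hr.1 hr.2
    have g0' := l15_diag (d0 τ hτH _ hp)
    have gb' := l15_diag (db τ hτH _ hp)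
    have hq := gb'.div g0' hne
    have hH : HH ∈ 𝓝 τ := l15_isOpen_HH.mem_nhds hτH
    -- derivative of hb
    have hprod : deriv (fun σ => hb σ (r, r)) τ = deriv (fun σ => lam σ r) τ * h0 τ (r, r) +
        lam τ r * deriv (fun σ => h0 σ (r, r)) τ := by
      have h1 : (fun σ => hb σ (r, r)) =ᶠ[𝓝 τ] fun σ => lam σ r * h0 σ (r, r) := by
        filter_upwards [Metric.isOpen_ball.mem_nhds hτ] with σ hσ
        have hσK := hbK hσ
        have h2 := e1 σ (hK hσK) _ hp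
        have h3 := hG0 σ hσK r hr.1 hr.2
        simp only [hlam]
        field_simp
        rw [h2]
        ring
      rw [h1.deriv_eq]
      exact deriv_fun_mul (hdl r hr.1 hr.2 τ hτ) ((a1 _ hp).differentiableAt hH)
    have hval : hb τ (r, r) = lam τ r * h0 τ (r, r) := by
      have h2 := e1 τ hτH _ hp
      simp only [hlam]
      field_simp
      rw [h2]
      ring
    have hGb : Gb τ (r, r) = lam τ r * G0 τ (r, r) := by
      simp only [hlam]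
      field_simp
    have hder : deriv (lam τ) r = (1 + τ) * h0 τ (r, r) / G0 τ (r, r) *
        deriv (fun σ => lam σ r) τ := by
      have h1 : deriv (lam τ) r = _ := hq.deriv
      rw [h1, hprod, hval, hGb]
      field_simp
      ring
    refine ⟨hq.differentiableAt, ?_⟩
    rw [hder, norm_mul, norm_div, norm_mul]
    refine mul_le_mul_of_nonneg_right ?_ (norm_nonneg _)
    have hn : ‖(1 : ℂ) + τ‖ ≤ 1 + ‖τ0‖ + t0 := by
      have h1 : ‖τ‖ ≤ ‖τ0‖ + t0 := by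
        have h2 : τ = τ0 + (τ - τ0) := by ring
        rw [h2]
        refine (norm_add_le _ _).trans ?_
        rw [Metric.mem_ball, dist_eq_norm] at hτ
        linarith
      refine (norm_add_le _ _).trans ?_
      rw [norm_one]
      linarith
    have hr0 : 0 ≤ r ^ (δ - 1) := Real.rpow_nonneg hr.1.le _
    calc ‖(1 : ℂ) + τ‖ * ‖h0 τ (r, r)‖ / ‖G0 τ (r, r)‖
        ≤ (1 + ‖τ0‖ + t0) * (Ch * r ^ (δ - 1)) / c := by
          refine div_le_div₀ (by positivity) ?_ hc (b1 τ hτK r hr.1 hr.2)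
          exact mul_le_mul hn (b3 τ hτK r hr.1 hr.2) (norm_nonneg _) (by positivity)
      _ = (1 + ‖τ0‖ + t0) * Ch / c * r ^ (δ - 1) := by ring
  have hlim0 : Tendsto (fun r : ℝ => r ^ δ) (𝓝[>] 0) (𝓝 0) := by
    have h1 : Tendsto (fun r : ℝ => r ^ δ) (𝓝 0) (𝓝 ((0 : ℝ) ^ δ)) :=
      (Real.continuousAt_rpow_const 0 δ (Or.inr hδ.le)).tendsto
    rw [Real.zero_rpow hδ.ne'] at h1
    exact h1.mono_left nhdsWithin_le_nhds
  have hlim : ∀ τ ∈ Metric.ball τ0 t0, Tendsto (lam τ) (𝓝[>] 0) (𝓝 0) := by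
    intro τ hτ
    rw [tendsto_zero_iff_norm_tendsto_zero]
    have h1 : Tendsto (fun r : ℝ => Cb * r ^ δ / c) (𝓝[>] 0) (𝓝 0) := by
      have := (hlim0.const_mul Cb).div_const c
      rwa [mul_zero, zero_div] at this
    refine squeeze_zero' (Eventually.of_forall fun r => norm_nonneg _) ?_ h1
    filter_upwards [Ioo_mem_nhdsGT hρ] with r hr
    exact hlamb τ (hbK hτ) r hr.1 hr.2
  have hnag := nagumo τ0 t0 ρ δ ((1 + ‖τ0‖ + t0) * Ch / c) (Cb * ρ ^ δ / c) ht0 hρ hδ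
    (by positivity) lam
    (fun r hr τ hτ => (hdl r hr.1 hr.2 τ hτ).differentiableWithinAt) hdiff
    (fun τ hτ r hr => (hlamb τ (hbK hτ) r hr.1 hr.2).trans (by
      have h1 : r ^ δ ≤ ρ ^ δ := Real.rpow_le_rpow hr.1.le hr.2.le hδ.le
      gcongr)) hlim
  have hev : ∀ᶠ r : ℝ in 𝓝[>] 0, (1 + ‖τ0‖ + t0) * Ch / c * Real.exp 1 * r ^ δ / (δ * (t0 / 2)) < 1 := by
    have h1 : Tendsto (fun r : ℝ => (1 + ‖τ0‖ + t0) * Ch / c * Real.exp 1 * r ^ δ / (δ * (t0 / 2)))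
        (𝓝[>] 0) (𝓝 0) := by
      have := (hlim0.const_mul ((1 + ‖τ0‖ + t0) * Ch / c * Real.exp 1)).div_const (δ * (t0 / 2))
      rwa [mul_zero, zero_div] at this
    exact h1.eventually (gt_mem_nhds one_pos)
  have hmem := hev.and (Ioo_mem_nhdsGT hρ)
  obtain ⟨u, hu, hsub⟩ := mem_nhdsGT_iff_exists_Ioo_subset.1 hmem
  have hu0 : 0 < u := hu
  refine ⟨min u ρ, lt_min hu0 hρ, min_le_right _ _, fun r h1 h2 => ?_⟩
  have hru : r < u := h2.trans_le (min_le_left _ _)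
  have hrρ : r < ρ := h2.trans_le (min_le_right _ _)
  have h3 := (hsub ⟨h1, hru⟩).1
  have h4 : lam τ0 r = 0 := hnag τ0 (Metric.mem_ball_self (by positivity)) r ⟨h1, hrρ⟩ h3
  have hτK : τ0 ∈ Metric.closedBall τ0 t0 := Metric.mem_closedBall_self ht0.le
  have hne := hG0 τ0 hτK r h1 hrρ
  have h5 : Gb τ0 (r, r) = 0 := by
    simp only [hlam] at h4
    rcases div_eq_zero_iff.1 h4 with h6 | h6
    · exact h6
    · exact absurd h6 hne
  have h6 := e1 τ0 (hK hτK) _ (hsq r h1 hrρ)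
  rw [h5, mul_zero] at h6
  rcases mul_eq_zero.1 h6 with h7 | h7
  · exact h7
  · exact absurd h7 hne

theorem local_main (hSG : SG α β) (hconn : Conn α β) {k : ℕ} (hk : 0 < k) {s0 : X}
    (hs : (zeta α β ^ k) s0 = s0) {w0 wb : X → ℝ} (hw0 : InW α β w0) (hwb : InW α β wb)
    (hH0 : HolW α β w0) (hHb : HolW α β wb)
    (hwz : ∀ τ ∈ HH, (fun q => (hh α β wb τ : Sq X → ℂ) q * (GG α β w0 τ 0 : Sq X → ℂ) q) =ᵐ[mu X]
      fun q => (hh α β w0 τ : Sq X → ℂ) q * (GG α β wb τ 0 : Sq X → ℂ) q)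
    (hA : ∀ τ ∈ HH, AA α β wb s0 τ = 0)
    (hne : ∃ τ1 ∈ HH, ∃ τ2 ∈ HH, AA α β w0 s0 τ1 ≠ AA α β w0 s0 τ2) : L2s wb := by
  obtain ⟨g0, g0h, g0K⟩ := exists_g hSG hw0 hH0 hk hs
  obtain ⟨gb, gbh, gbK⟩ := exists_g hSG hwb hHb hk hs
  have hgb : ∀ τ ∈ HH, gb τ = 0 :=
    g_zero_of_AA gb wb s0 (fun τ hτ => AA_deriv hSG hwb hHb hk hs gb gbh gbK hτ) hA
  have hτ0 : ∃ τ0 ∈ HH, g0 τ0 ≠ 0 := by
    by_contra hcon
    push Not at hcon
    obtain ⟨τ1, h1, τ2, h2, h3⟩ := hne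
    exact h3 (AA_const_of_g g0 w0 s0
      (fun τ hτ => AA_deriv hSG hw0 hH0 hk hs g0 g0h g0K hτ) hcon τ1 h1 τ2 h2)
  obtain ⟨τ0, hτ0H, hg0⟩ := hτ0
  obtain ⟨G1, G2, G3⟩ := G_point hSG hw0 hH0 s0
  obtain ⟨B1, B2, B3⟩ := G_point hSG hwb hHb s0
  -- the relation
  have hUo : IsOpen (unitSq) := isOpen_Ioo.prod isOpen_Ioo
  have e1 : ∀ τ ∈ HH, ∀ p ∈ unitSq,
      pv α β (hh α β wb τ : Sq X → ℂ) s0 p * pv α β (GG α β w0 τ 0 : Sq X → ℂ) s0 p =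
      pv α β (hh α β w0 τ : Sq X → ℂ) s0 p * pv α β (GG α β wb τ 0 : Sq X → ℂ) s0 p := by
    intro τ hτ
    obtain ⟨c0, m0⟩ := holC_hh hSG hw0 hτ
    obtain ⟨cb, mb⟩ := holC_hh hSG hwb hτ
    have hG0c : ContinuousOn (pv α β (GG α β w0 τ 0 : Sq X → ℂ) s0) unitSq := fun p hp =>
      (G2 τ hτ p hp).continuousAt.continuousWithinAt
    have hGbc : ContinuousOn (pv α β (GG α β wb τ 0 : Sq X → ℂ) s0) unitSq := fun p hp =>
      (B2 τ hτ p hp).continuousAt.continuousWithinAt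
    refine eq_of_ae hUo ((cb.cont hτ s0).mono unitSq_subset_Cross |>.mul hG0c)
      ((c0.cont hτ s0).mono unitSq_subset_Cross |>.mul hGbc) ?_
    have h1 := (ae_mu_iff _).1 (hwz τ hτ) s0
    filter_upwards [h1, m0 s0, mb s0, G3 τ hτ, B3 τ hτ] with p q1 q2 q3 q4 q5
    rw [← q2, ← q3, ← q4, ← q5]
    exact q1
  -- the ball
  set c : ℝ := ‖g0 τ0‖ / 4 with hc
  have hgpos : 0 < ‖g0 τ0‖ := norm_pos_iff.2 hg0
  have hcpos : 0 < c := by positivity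
  have hball : ∃ t0 : ℝ, 0 < t0 ∧ Metric.closedBall τ0 t0 ⊆ HH ∧
      ∀ τ ∈ Metric.closedBall τ0 t0, 2 * c ≤ ‖g0 τ‖ := by
    have hH : HH ∈ 𝓝 τ0 := l15_isOpen_HH.mem_nhds hτ0H
    have hcont : ContinuousAt g0 τ0 := (g0h.differentiableAt hH).continuousAt
    have h1 : ∀ᶠ τ in 𝓝 τ0, 2 * c < ‖g0 τ‖ := by
      refine hcont.norm.eventually (lt_mem_nhds ?_)
      rw [hc]
      linarith
    have h2 : ∀ᶠ τ in 𝓝 τ0, τ ∈ HH ∧ 2 * c < ‖g0 τ‖ := Filter.Eventually.and hH h1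
    obtain ⟨t0, ht0, hsub⟩ := Metric.nhds_basis_closedBall.mem_iff.1 h2
    exact ⟨t0, ht0, fun τ hτ => (hsub hτ).1, fun τ hτ => (hsub hτ).2.le⟩
  obtain ⟨t0, ht0, hKH, hKg⟩ := hball
  have hKc : IsCompact (Metric.closedBall τ0 t0) := isCompact_closedBall τ0 t0
  obtain ⟨C0, ρ0, hC0, hρ0, hρ0', k0⟩ := g0K _ hKc hKH
  obtain ⟨Cb, ρb, hCb, hρb, hρb', kb⟩ := gbK _ hKc hKH
  obtain ⟨Ch, ρh, hCh, hρh, hρh', kh⟩ := h_decay hSG hw0 hH0 hk hs _ hKc hKH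
  have hk0 : (0 : ℝ) < (k : ℝ) := by exact_mod_cast hk
  have hδ : (0 : ℝ) < 1 / (k : ℝ) := by positivity
  set ρ : ℝ := min (min ρ0 ρb) (min ρh ((c / C0) ^ k)) with hρdef
  have hq : 0 < (c / C0) ^ k := by positivity
  have hρ : 0 < ρ := lt_min (lt_min hρ0 hρb) (lt_min hρh hq)
  have r0 : ρ ≤ ρ0 := (min_le_left _ _).trans (min_le_left _ _)
  have rb : ρ ≤ ρb := (min_le_left _ _).trans (min_le_right _ _)
  have rh : ρ ≤ ρh := (min_le_right _ _).trans (min_le_left _ _)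
  have rq : ρ ≤ (c / C0) ^ k := (min_le_right _ _).trans (min_le_right _ _)
  have hsmall : ∀ r : ℝ, 0 < r → r < ρ → C0 * r ^ (1 / (k : ℝ)) ≤ c := by
    intro r h1 h2
    have h3 : r ^ (1 / (k : ℝ)) ≤ ((c / C0) ^ k) ^ (1 / (k : ℝ)) :=
      Real.rpow_le_rpow h1.le (h2.le.trans rq) hδ.le
    have h4 : ((c / C0) ^ k) ^ (1 / (k : ℝ)) = c / C0 := by
      rw [one_div]
      exact Real.pow_rpow_inv_natCast (by positivity) hk.ne'
    rw [h4] at h3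
    calc C0 * r ^ (1 / (k : ℝ)) ≤ C0 * (c / C0) := mul_le_mul_of_nonneg_left h3 hC0.le
      _ = c := by field_simp
  obtain ⟨u, hu, huρ, hu0⟩ := l15_core
    (fun τ => pv α β (hh α β w0 τ : Sq X → ℂ) s0) (fun τ => pv α β (hh α β wb τ : Sq X → ℂ) s0)
    (fun τ => pv α β (GG α β w0 τ 0 : Sq X → ℂ) s0) (fun τ => pv α β (GG α β wb τ 0 : Sq X → ℂ) s0)
    (h_point hSG hw0 hH0 s0) G1 B1 G2 B2 e1 hδ ht0 hKH hcpos hCb hCh hρ (r0.trans hρ0')
    (by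
      intro τ hτ r h1 h2
      have h3 := k0 τ hτ r r h1 (h2.trans_le r0) h1 (h2.trans_le r0)
      rw [max_self] at h3
      have h4 := hsmall r h1 h2
      have h5 := hKg τ hτ
      have h6 := norm_sub_norm_le (g0 τ) (pv α β (GG α β w0 τ 0 : Sq X → ℂ) s0 (r, r))
      rw [norm_sub_rev] at h6
      linarith)
    (by
      intro τ hτ r h1 h2
      have h3 := kb τ hτ r r h1 (h2.trans_le rb) h1 (h2.trans_le rb)
      rw [max_self, hgb τ (hKH hτ), sub_zero] at h3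
      exact h3)
    (by
      intro τ hτ r h1 h2
      have h3 := (kh τ hτ r r h1 (h2.trans_le rh) h1 (h2.trans_le rh)).1
      rw [max_self] at h3
      exact h3)
  have hu3 : u ≤ 1 / 3 := huρ.trans (r0.trans hρ0')
  -- unique continuation
  have hp0 : ((u / 2, u / 2) : ℝ × ℝ) ∈ Cross := Or.inl ⟨by simp only; positivity, by simp only; linarith⟩
  have hz : ∃ᶠ z in 𝓝[≠] (zt τ0 (u / 2, u / 2)),
      pv α β (hh α β wb τ0 : Sq X → ℂ) s0 (zinv τ0 z) = 0 := by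
    have ht : Tendsto (fun r : ℝ => zt τ0 (r, r)) (𝓝[≠] (u / 2)) (𝓝[≠] (zt τ0 (u / 2, u / 2))) := by
      refine tendsto_nhdsWithin_of_tendsto_nhds_of_eventually_within _ ?_ ?_
      · have hc : Continuous fun r : ℝ => zt τ0 (r, r) := by
          unfold zt
          fun_prop
        exact (hc.tendsto _).mono_left nhdsWithin_le_nhds
      · filter_upwards [self_mem_nhdsWithin] with r hr
        intro heq
        apply hr
        have h1 := congrArg (zinv τ0) heq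
        rw [zinv_zt hτ0H, zinv_zt hτ0H] at h1
        exact congrArg Prod.fst h1
    have hev : ∀ᶠ r : ℝ in 𝓝[≠] (u / 2),
        pv α β (hh α β wb τ0 : Sq X → ℂ) s0 (zinv τ0 (zt τ0 (r, r))) = 0 := by
      have h1 : Set.Ioo 0 u ∈ 𝓝 (u / 2) := Ioo_mem_nhds (by positivity) (by linarith)
      filter_upwards [mem_nhdsWithin_of_mem_nhds h1] with r hr
      rw [zinv_zt hτ0H]
      exact hu0 r hr.1 hr.2
    exact ht.frequently hev.frequently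
  have hzero := hh_zero_of hSG hconn hwb hτ0H s0 hp0 hz
  exact L2s_of_hh_zero hSG hconn hwb hτ0H s0 hzero (hA τ0 hτ0H)

end Pool.Agent.Helper96.OF
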