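import Pool.Agent.Helper96.OF.Defs

/-!
# OFL-LDefs: local analysis at a finite corner (part III.4 of the plan), definitions

Plan of part OFL (helper42). Everything is done with canonical pointwise values.
* `pt f p` = limit of averages of f over small balls; `pv α β f s p` = canonical value at `p ∈ Cross` of the function `f` on the squares, seen from the square `s`.
* `HolC α β τ h`: h is a family on Cross compatible with row/col and `z_τ`-holomorphic. `pv α β (hh α β w τ)` is such a family (L04).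
* `dev`: developing map: functions around the corner as functions of `t`, `z = exp t`, 2πik-periodic if `ζ^k s0 = s0`. `P t = exp t * dev h t` is holomorphic, periodic, bounded and tends to 0, so it is
  `g(exp(t/k))` with g holomorphic near 0, g 0 = 0 (L07), which gives `|h| ≤ C |p|^(1/k-1)`, and `F = A + 2 Re Q(exp(t/k))` (L10). `A = AA α β w s0 τ`, defined through `LimC` (essential limit in the square of s0).
-/

set_option autoImplicit false

open MeasureTheory
open scoped ComplexConjugate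

namespace Pool.Agent.Helper96.OF

/-- canonical value at `p`: limit of averages over small balls -/
noncomputable def pt (f : ℝ × ℝ → ℂ) (p : ℝ × ℝ) : ℂ :=
  Filter.limUnder Filter.atTop fun n : ℕ => ⨍ q in Metric.ball p (1 / ((n : ℝ) + 1)), f q

variable {X : Type}

/-- canonical pointwise family of a function on the squares -/
noncomputable def pv (α β : Equiv.Perm X) (f : Sq X → ℂ) : X → ℝ × ℝ → ℂ := fun s p =>
  pt (ext α β (fun s p => f (s, p)) s) p

/-- inverse of `zt τ` -/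
noncomputable def zinv (τ : ℂ) (z : ℂ) : ℝ × ℝ := (z.re - τ.re * (z.im / τ.im), z.im / τ.im)

/-- `zt τ` as a continuous real linear map -/
noncomputable def ztL (τ : ℂ) : ℝ × ℝ →L[ℝ] ℂ :=
  Complex.ofRealCLM.comp (ContinuousLinearMap.fst ℝ ℝ ℝ) +
    τ • Complex.ofRealCLM.comp (ContinuousLinearMap.snd ℝ ℝ ℝ)

/-- `δ ↦ 2 Re (c (δx + τ δy))` -/
noncomputable def gradL (τ c : ℂ) : ℝ × ℝ →L[ℝ] ℂ :=
  c • ztL τ + (Complex.conjCLE : ℂ →L[ℝ] ℂ).comp (c • ztL τ)

/-- `δ ↦ 2 Re (c δ)` -/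
noncomputable def gradC (c : ℂ) : ℂ →L[ℝ] ℂ :=
  c • ContinuousLinearMap.id ℝ ℂ + (Complex.conjCLE : ℂ →L[ℝ] ℂ).comp (c • ContinuousLinearMap.id ℝ ℂ)

/-- row chart (squares `α⁻¹ s`, `s`), column chart (squares `β⁻¹ s`, `s`) -/
def Rc : Set (ℝ × ℝ) := Set.Ioo (-1 : ℝ) 1 ×ˢ Set.Ioo (0 : ℝ) 1
def Kc : Set (ℝ × ℝ) := Set.Ioo (0 : ℝ) 1 ×ˢ Set.Ioo (-1 : ℝ) 1

/-- compatibility with the gluing -/
structure Glue {E : Type} (α β : Equiv.Perm X) (f : X → ℝ × ℝ → E) : Prop where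
  row : ∀ s x y, 0 < y → y < 1 → f s (x + 1, y) = f (α s) (x, y)
  col : ∀ s x y, 0 < x → x < 1 → f s (x, y + 1) = f (β s) (x, y)

/-- `z_τ`-holomorphic family -/
structure HolC (α β : Equiv.Perm X) (τ : ℂ) (h : X → ℝ × ℝ → ℂ) : Prop where
  glue : Glue α β h
  hol : ∀ s, DifferentiableOn ℂ (fun z => h s (zinv τ z)) {z | zinv τ z ∈ Cross}

/-- radius of the corner disc in the coordinate `z` -/
noncomputable def rd (τ : ℂ) : ℝ := τ.im / (3 * (1 + τ.im + ‖τ‖))

/-- the family `f` around the corner of `s0` in the coordinate `t`, `z = exp t` -/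
noncomputable def dev {E : Type} (α β : Equiv.Perm X) (τ : ℂ) (s0 : X) (f : X → ℝ × ℝ → E)
    (t : ℂ) : E :=
  if Int.fract (t.im / (2 * Real.pi)) < 1 / 2 then
    f ((zeta α β ^ ⌊t.im / (2 * Real.pi)⌋) s0) (zinv τ (Complex.exp t))
  else
    f (β⁻¹ (α⁻¹ ((zeta α β ^ ⌊t.im / (2 * Real.pi)⌋) s0))) (zinv τ (Complex.exp t) + (1, 1))

/-- the squares around the corner of `s0`, `ζ^k s0 = s0` -/
noncomputable def starE (α β : Equiv.Perm X) (s0 : X) (k : ℕ) (v : Sq X → ℂ) : ℝ :=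
  ∑ j ∈ Finset.range k,
    ((∫ p in unitSq, ‖v ((zeta α β ^ j) s0, p)‖ ^ 2) +
      (∫ p in unitSq, ‖v (α⁻¹ ((zeta α β ^ j) s0), p)‖ ^ 2) +
      (∫ p in unitSq, ‖v (β⁻¹ (α⁻¹ ((zeta α β ^ j) s0)), p)‖ ^ 2) +
      ∫ p in unitSq, ‖v (β⁻¹ ((zeta α β ^ j) s0), p)‖ ^ 2)

variable [MeasurableSpace X]

/-- essential limit at the lower left corner of `s0` from the square `s0` -/
def LimC (F : Sq X → ℂ) (s0 : X) (A : ℂ) : Prop :=
  ∀ ε : ℝ, 0 < ε → ∃ ρ : ℝ, 0 < ρ ∧ ∀ᵐ q ∂(mu X), q.1 = s0 → q.2.1 < ρ → q.2.2 < ρ →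
    ‖F q - A‖ ≤ ε

/-- value of the harmonic function at the lower left corner of `s0` -/
noncomputable def AA (α β : Equiv.Perm X) (w : X → ℝ) (s0 : X) (τ : ℂ) : ℝ :=
  open Classical in
  if h : ∃ A : ℝ, LimC (FF α β w τ) s0 (A : ℂ) then h.choose else 0

end Pool.Agent.Helper96.OF
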